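import Pool.Agent.H534R3.Dens

/-! # Biased blocks for real bases -/

set_option autoImplicit false

open MeasureTheory Filter Topology
open scoped Real

namespace Pool.Agent.H534R3.Rota

open Pool.Agent.H534R3.UDist

theorem comb_bias (f : ℕ → ℝ) (k R : ℕ) (hk : 1 ≤ k) (h0 : ∀ j, -2 ≤ f j)
    (h1 : ∀ r, r < R → 1 / 4 ≤ f (k * (r + 1)))
    (h2 : ∀ q i, q + 2 ≤ R → 1 ≤ i → i < k → -(6 * (1 / 4 : ℝ) ^ q) ≤ f (k * (q + 1) + i)) :
    (R : ℝ) / 4 - 12 * k ≤ ∑ j ∈ Finset.range (k * (R + 1)), f j := by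
  obtain ⟨k', rfl⟩ : ∃ k', k = k' + 1 := ⟨k - 1, by omega⟩
  have hk0 : (0 : ℝ) ≤ k' := Nat.cast_nonneg _
  have hsplit : ∀ t, ∑ j ∈ Finset.range ((k' + 1) * (t + 1)), f j =
      ∑ j ∈ Finset.range ((k' + 1) * t), f j +
        (f ((k' + 1) * t) + ∑ i ∈ Finset.range k', f ((k' + 1) * t + (i + 1))) := by
    intro t
    have e1 : (k' + 1) * (t + 1) = (k' + 1) * t + (k' + 1) := by ring
    rw [e1, Finset.sum_range_add, Finset.sum_range_succ', add_comm (f _)]
    rfl
  have hpos : ∀ t : ℕ, (0 : ℝ) < (1 / 4) ^ t := fun t => by positivity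
  have hP : ∀ t : ℕ, t + 1 ≤ R → (t : ℝ) / 4 - 2 * ((k' : ℝ) + 1) -
      8 * ((k' : ℝ) + 1) * (1 - (1 / 4) ^ t) ≤ ∑ j ∈ Finset.range ((k' + 1) * (t + 1)), f j := by
    intro t
    induction t with
    | zero =>
      intro _
      have h3 : ∑ j ∈ Finset.range ((k' + 1) * (0 + 1)), (-2 : ℝ) ≤
          ∑ j ∈ Finset.range ((k' + 1) * (0 + 1)), f j := Finset.sum_le_sum fun j _ => h0 j
      rw [Finset.sum_const, Finset.card_range, nsmul_eq_mul] at h3
      push_cast at h3
      simp only [Nat.cast_zero, pow_zero]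
      linarith
    | succ t ih =>
      intro ht
      have h3 := ih (by omega)
      rw [hsplit (t + 1)]
      have h4 := h1 t (by omega)
      have h5 : ∑ i ∈ Finset.range k', (-(6 * (1 / 4 : ℝ) ^ t)) ≤
          ∑ i ∈ Finset.range k', f ((k' + 1) * (t + 1) + (i + 1)) :=
        Finset.sum_le_sum fun i hi => h2 t (i + 1) (by omega) (by omega) (by
          have := Finset.mem_range.1 hi
          omega)
      rw [Finset.sum_const, Finset.card_range, nsmul_eq_mul] at h5
      have hq := hpos t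
      have e1 : (1 / 4 : ℝ) ^ (t + 1) = (1 / 4) ^ t * (1 / 4) := pow_succ _ _
      rw [e1]
      push_cast
      nlinarith
  rcases Nat.eq_zero_or_pos R with rfl | hR
  · have h3 : ∑ j ∈ Finset.range ((k' + 1) * (0 + 1)), (-2 : ℝ) ≤
        ∑ j ∈ Finset.range ((k' + 1) * (0 + 1)), f j := Finset.sum_le_sum fun j _ => h0 j
    rw [Finset.sum_const, Finset.card_range, nsmul_eq_mul] at h3
    push_cast at h3 ⊢
    linarith
  · obtain ⟨t, rfl⟩ : ∃ t, R = t + 1 := ⟨R - 1, by omega⟩
    have h3 := hP t le_rfl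
    rw [hsplit (t + 1)]
    have h4 := h1 t (by omega)
    have h5 : ∑ i ∈ Finset.range k', (-2 : ℝ) ≤
        ∑ i ∈ Finset.range k', f ((k' + 1) * (t + 1) + (i + 1)) :=
      Finset.sum_le_sum fun i _ => h0 _
    rw [Finset.sum_const, Finset.card_range, nsmul_eq_mul] at h5
    have hq := hpos t
    push_cast
    nlinarith

theorem bias_total {b : ℝ} (hb : 1 < b) (k : ℕ) (hk1 : 1 ≤ k) (hB : 16 ≤ b ^ k)
    (hBc : 2 ≤ b ^ k * (1 - 1 / b)) (R n : ℕ) (u : ℝ) :
    (R : ℝ) / 4 - 12 * k ≤ ∫ s in (0 : ℝ)..1,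
      (∑ j ∈ Finset.range (k * (R + 1)), Real.cos (2 * π * ((u + 1 / b ^ n * s) * b ^ (n + j)))) *
        rho (b ^ k) (fun r => u * b ^ (n + k * (r + 1))) R s := by
  have hb0 : 0 < b := by linarith
  set φ : ℕ → ℝ := fun r => u * b ^ (n + k * (r + 1)) with hφ
  have e1 : ∀ s : ℝ, (∑ j ∈ Finset.range (k * (R + 1)),
      Real.cos (2 * π * ((u + 1 / b ^ n * s) * b ^ (n + j)))) * rho (b ^ k) φ R s =
      ∑ j ∈ Finset.range (k * (R + 1)),
        Real.cos (2 * π * (u * b ^ (n + j) + b ^ j * s)) * rho (b ^ k) φ R s := by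
    intro s
    rw [Finset.sum_mul]
    refine Finset.sum_congr rfl fun j _ => ?_
    have : (u + 1 / b ^ n * s) * b ^ (n + j) = u * b ^ (n + j) + b ^ j * s := by
      rw [pow_add]
      field_simp
    rw [this]
  simp_rw [e1]
  rw [intervalIntegral.integral_finsetSum fun j _ =>
    (continuous_cosrho (b ^ k) φ R _ _).intervalIntegrable _ _]
  have hc0 : 0 < 1 - 1 / b := by
    have : 1 / b < 1 := by
      rw [div_lt_one hb0]
      exact hb
    linarith
  have hc1 : 1 - 1 / b ≤ 1 := by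
    have : 0 < 1 / b := by positivity
    linarith
  refine comb_bias _ k R hk1 ?_ ?_ ?_
  · intro j
    have h1 := abs_le.1 (int_cos_rho (B := b ^ k) φ R (u * b ^ (n + j)) (b ^ j))
    have h2 := WW_le_two hB R (b ^ j)
    have h3 := fac_pos hB R
    linarith [h1.1]
  · intro r hr
    obtain ⟨m, rfl⟩ : ∃ m, R = r + 1 + m := ⟨R - (r + 1), by omega⟩
    have h1 := bias_main hB φ r m
    have h3 := fac_pos hB (r + 1 + m)
    have e2 : b ^ (k * (r + 1)) = (b ^ k) ^ (r + 1) := pow_mul _ _ _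
    rw [e2]
    have e3 : φ r = u * b ^ (n + k * (r + 1)) := rfl
    rw [e3] at h1
    linarith
  · intro q i hq hi1 hik
    have h1 := abs_le.1 (int_cos_rho (B := b ^ k) φ R (u * b ^ (n + (k * (q + 1) + i)))
      (b ^ (k * (q + 1) + i)))
    have hp : 0 < (b ^ k) ^ (q + 1) := by positivity
    have h2 := WW_gap hB (1 - 1 / b) hc0 hc1 hBc q R hq (b ^ (k * (q + 1) + i)) (by
        have g1 : b ^ (k * (q + 1) + i) = (b ^ k) ^ (q + 1) * b ^ i := by
          rw [pow_add, pow_mul]
        rw [g1]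
        refine mul_le_mul_of_nonneg_left ?_ hp.le
        have g2 : b ^ 1 ≤ b ^ i := pow_le_pow_right₀ hb.le hi1
        rw [pow_one] at g2
        refine le_trans ?_ g2
        have g3 : 1 + (1 - 1 / b) = 2 - 1 / b := by ring
        rw [g3, sub_le_iff_le_add, ← sub_nonneg]
        have g4 : b + 1 / b - 2 = (b - 1) ^ 2 / b := by
          field_simp
          ring
        rw [g4]
        positivity) (by
        have g1 : (b ^ k) ^ (q + 2) * (1 - (1 - 1 / b)) = b ^ (k * (q + 2)) * (1 / b) := by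
          rw [pow_mul]
          ring
        rw [g1, mul_one_div, le_div_iff₀ hb0, ← pow_succ]
        refine pow_le_pow_right₀ hb.le ?_
        have : k * (q + 2) = k * (q + 1) + k := by ring
        omega)
    have h3 : (4 / b ^ k) ^ q ≤ (1 / 4 : ℝ) ^ q := by
      have hbk : 0 < b ^ k := by linarith
      refine pow_le_pow_left₀ (by positivity) ?_ q
      rw [div_le_div_iff₀ hbk (by norm_num)]
      linarith
    linarith [h1.1]

theorem biased_good {b : ℝ} (hb : 1 < b) (k : ℕ) (hk1 : 1 ≤ k) (hB : 16 ≤ b ^ k)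
    (hBc : 2 ≤ b ^ k * (1 - 1 / b)) (α : ℕ → ℝ) (hα : ∀ i, 1 < |α i|) (q : ℕ) (hq : 1 ≤ q) :
    ∃ R0 : ℕ, ∀ R, R0 ≤ R → ∀ (n : ℕ) (u : ℝ), ∃ ξ ∈ Set.Icc u (u + 1 / b ^ n),
      ((k * (R + 1) : ℕ) : ℝ) / (32 * k) ≤
        ∑ m ∈ Finset.Ico n (n + k * (R + 1)), Real.cos (2 * π * (ξ * b ^ m)) ∧
      ∀ i < q, Irrational (Real.logb (b ^ k) |α i|) → ∀ h : ℕ, 1 ≤ h → h ≤ q →
        ‖∑ m ∈ Finset.Ico (tau |α i| b n) (tau |α i| b (n + k * (R + 1))),
          ee (h * (ξ * α i ^ m))‖ ≤
          ((tau |α i| b (n + k * (R + 1)) - tau |α i| b n : ℕ) : ℝ) / (2 * q) := by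
  classical
  have hq0 : (0 : ℝ) < q := by exact_mod_cast hq
  have hk0 : (0 : ℝ) < k := by exact_mod_cast hk1
  have hb0 : 0 < b := by linarith
  set κ : ℝ := 1 / (64 * k * (q : ℝ) ^ 4) with hκ
  have hκ0 : 0 < κ := by positivity
  have hM0 : ∀ i, ∃ M0 : ℕ, Irrational (Real.logb (b ^ k) |α i|) →
      ∀ (A M R h : ℕ) (φ : ℕ → ℝ) (u w : ℝ), 1 ≤ h → h ≤ q → 0 < w → 1 ≤ |α i| ^ A * w →
      |α i| ^ (A + M) * w ≤ |α i| * (b ^ k) ^ (R + 1) → M0 ≤ M →
      ∫ s in (0 : ℝ)..1, ‖∑ m ∈ Finset.Ico A (A + M), ee (h * ((u + w * s) * α i ^ m))‖ ^ 2 *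
        rho (b ^ k) φ R s ≤ κ * (M : ℝ) ^ 2 := by
    intro i
    by_cases hi : Irrational (Real.logb (b ^ k) |α i|)
    · obtain ⟨M0, h⟩ := second_rho hB (α i) (hα i) hi q hq κ hκ0
      exact ⟨M0, fun _ => h⟩
    · exact ⟨0, fun h => absurd h hi⟩
  choose M0 hM0 using hM0
  have hR : ∀ i, ∃ R : ℕ, |α i| ^ (M0 i + 1 + 1) ≤ b ^ R := by
    intro i
    obtain ⟨R, hR⟩ := pow_unbounded_of_one_lt (|α i| ^ (M0 i + 1 + 1)) hb
    exact ⟨R, hR.le⟩
  choose R1 hR1 using hR
  refine ⟨(Finset.range q).sup R1 + (96 * k + 1), fun R hR n u => ?_⟩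
  have hbn : 0 < b ^ n := by positivity
  set M : ℕ := k * (R + 1) with hM
  have hRM : R ≤ M := by
    have : 1 * (R + 1) ≤ k * (R + 1) := Nat.mul_le_mul_right _ hk1
    omega
  have hMpos : (0 : ℝ) < M := by
    have : 1 * (R + 1) ≤ k * (R + 1) := Nat.mul_le_mul_right _ hk1
    exact_mod_cast (by omega : 0 < M)
  have hlen : ∀ i < q, M0 i + 1 ≤ tau |α i| b (n + M) - tau |α i| b n := by
    intro i hi
    have h1 := Finset.le_sup (f := R1) (Finset.mem_range.2 hi)
    have h2 := tau_diff (hα i) hb (M := M) ((hR1 i).trans (pow_le_pow_right₀ hb.le (by omega))) n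
    omega
  have hmono : ∀ i, tau |α i| b n ≤ tau |α i| b (n + M) := fun i =>
    tau_mono (hα i) hb (Nat.le_add_right _ _)
  by_contra hcon
  push Not at hcon
  set φ : ℕ → ℝ := fun r => u * b ^ (n + k * (r + 1)) with hφ
  set w : ℝ := 1 / b ^ n with hw
  have hw0 : 0 < w := by positivity
  set l : ℕ → ℝ := fun i => ((tau |α i| b (n + M) - tau |α i| b n : ℕ) : ℝ) with hl
  have hl0 : ∀ i < q, 0 < l i := by
    intro i hi
    have := hlen i hi
    simp only [hl]
    exact_mod_cast (by omega : 0 < tau |α i| b (n + M) - tau |α i| b n)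
  set S : ℕ → ℕ → ℝ → ℝ := fun i h s => if Irrational (Real.logb (b ^ k) |α i|) then
    ‖∑ m ∈ Finset.Ico (tau |α i| b n) (tau |α i| b (n + M)),
      ee (h * ((u + w * s) * α i ^ m))‖ ^ 2 / (l i) ^ 2 else 0 with hS
  have hScont : ∀ i h, Continuous (S i h) := by
    intro i h
    simp only [hS]
    split_ifs
    · refine Continuous.div_const ?_ _
      refine ((continuous_finsetSum _ fun m _ => ?_).norm).pow 2
      refine continuous_ee.comp ?_
      fun_prop
    · exact continuous_const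
  have hSnn : ∀ i h s, 0 ≤ S i h s := fun i h s => by
    simp only [hS]
    split_ifs <;> positivity
  set C : ℝ → ℝ := fun s => ∑ j ∈ Finset.range M, Real.cos (2 * π * ((u + w * s) * b ^ (n + j)))
    with hC
  have hCcont : Continuous C := continuous_finsetSum _ fun j _ => by fun_prop
  set G : ℝ → ℝ := fun s => ∑ i ∈ Finset.range q, ∑ h ∈ Finset.Icc 1 q, S i h s with hG
  have hGcont : Continuous G :=
    continuous_finsetSum _ fun i _ => continuous_finsetSum _ fun h _ => hScont i h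
  have hρcont := continuous_rho (b ^ k) φ R
  have hCM : ∀ s, C s ≤ M := by
    intro s
    have h1 : C s ≤ ∑ j ∈ Finset.range M, (1 : ℝ) := Finset.sum_le_sum fun j _ => Real.cos_le_one _
    simpa using h1
  have hGnn : ∀ s, 0 ≤ G s := fun s =>
    Finset.sum_nonneg fun i _ => Finset.sum_nonneg fun h _ => hSnn i h s
  -- the pointwise bound
  have hpt : ∀ s ∈ Set.Icc (0 : ℝ) 1,
      C s * rho (b ^ k) φ R s * (1 / M) - 4 * (q : ℝ) ^ 2 * (G s * rho (b ^ k) φ R s) ≤
        1 / (32 * k) * rho (b ^ k) φ R s := by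
    intro s hs
    have hρ0 := rho_nonneg (b ^ k) φ R s
    have key : C s * (1 / M) - 4 * (q : ℝ) ^ 2 * G s ≤ 1 / (32 * k) := by
      by_cases hCs : (M : ℝ) / (32 * k) ≤ C s
      · have hmem : u + w * s ∈ Set.Icc u (u + 1 / b ^ n) := by
          rw [← hw]
          constructor
          · have : 0 ≤ w * s := mul_nonneg hw0.le hs.1
            linarith
          · have : w * s ≤ w * 1 := mul_le_mul_of_nonneg_left hs.2 hw0.le
            linarith
        have hCe : C s = ∑ m ∈ Finset.Ico n (n + M), Real.cos (2 * π * ((u + w * s) * b ^ m)) := by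
          rw [Finset.sum_Ico_eq_sum_range, Nat.add_sub_cancel_left]
        obtain ⟨i, hi, hirr, h, hh1, hh2, hlt⟩ := hcon (u + w * s) hmem (by rw [← hCe]; exact hCs)
        have e1 : S i h s ≤ G s := by
          have f1 : S i h s ≤ ∑ h ∈ Finset.Icc 1 q, S i h s :=
            Finset.single_le_sum (f := fun h => S i h s) (fun h _ => hSnn i h s)
              (Finset.mem_Icc.2 ⟨hh1, hh2⟩)
          refine f1.trans ?_
          exact Finset.single_le_sum (f := fun i => ∑ h ∈ Finset.Icc 1 q, S i h s)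
            (fun i _ => Finset.sum_nonneg fun h _ => hSnn i h s) (Finset.mem_range.2 hi)
        have hli := hl0 i hi
        have e2 : 1 / (4 * (q : ℝ) ^ 2) ≤ S i h s := by
          simp only [hS]
          rw [if_pos hirr, div_le_div_iff₀ (by positivity) (by positivity)]
          have h4 : (l i / (2 * q)) ^ 2 ≤
              ‖∑ m ∈ Finset.Ico (tau |α i| b n) (tau |α i| b (n + M)),
                ee (h * ((u + w * s) * α i ^ m))‖ ^ 2 :=
            pow_le_pow_left₀ (by positivity) hlt.le 2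
          rw [div_pow, div_le_iff₀ (by positivity)] at h4
          linarith
        have e3 : 1 ≤ 4 * (q : ℝ) ^ 2 * G s := by
          have h5 : 4 * (q : ℝ) ^ 2 * (1 / (4 * (q : ℝ) ^ 2)) = 1 := by field_simp
          rw [← h5]
          exact mul_le_mul_of_nonneg_left (e2.trans e1) (by positivity)
        have e4 : C s * (1 / M) ≤ 1 := by
          rw [mul_one_div, div_le_one hMpos]
          exact hCM s
        have e5 : (0 : ℝ) ≤ 1 / (32 * k) := by positivity
        linarith
      · have e1 : C s * (1 / M) ≤ 1 / (32 * k) := by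
          rw [mul_one_div, div_le_div_iff₀ hMpos (by positivity)]
          have := (not_le.1 hCs).le
          rw [le_div_iff₀ (by positivity)] at this
          linarith
        have e2 : 0 ≤ 4 * (q : ℝ) ^ 2 * G s := mul_nonneg (by positivity) (hGnn s)
        linarith
    calc C s * rho (b ^ k) φ R s * (1 / M) - 4 * (q : ℝ) ^ 2 * (G s * rho (b ^ k) φ R s) =
          (C s * (1 / M) - 4 * (q : ℝ) ^ 2 * G s) * rho (b ^ k) φ R s := by ring
      _ ≤ _ := mul_le_mul_of_nonneg_right key hρ0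
  have hI1 : ∫ s in (0 : ℝ)..1, (C s * rho (b ^ k) φ R s * (1 / M) -
      4 * (q : ℝ) ^ 2 * (G s * rho (b ^ k) φ R s)) ≤
      ∫ s in (0 : ℝ)..1, 1 / (32 * k) * rho (b ^ k) φ R s := by
    refine intervalIntegral.integral_mono_on zero_le_one ?_ ?_ hpt
    · exact Continuous.intervalIntegrable (by fun_prop) _ _
    · exact Continuous.intervalIntegrable (by fun_prop) _ _
  rw [intervalIntegral.integral_const_mul, intervalIntegral.integral_sub
    (Continuous.intervalIntegrable (by fun_prop) _ _)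
    (Continuous.intervalIntegrable (by fun_prop) _ _), intervalIntegral.integral_mul_const,
    intervalIntegral.integral_const_mul] at hI1
  have hI2 := mass_le hB φ R
  have hI3 : (R : ℝ) / 4 - 12 * k ≤ ∫ s in (0 : ℝ)..1, C s * rho (b ^ k) φ R s :=
    bias_total hb k hk1 hB hBc R n u
  have hI4 : ∫ s in (0 : ℝ)..1, G s * rho (b ^ k) φ R s ≤ (q : ℝ) ^ 2 * κ := by
    have e1 : ∀ s, G s * rho (b ^ k) φ R s = ∑ i ∈ Finset.range q, ∑ h ∈ Finset.Icc 1 q,
        S i h s * rho (b ^ k) φ R s := by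
      intro s
      simp only [hG]
      rw [Finset.sum_mul]
      exact Finset.sum_congr rfl fun i _ => Finset.sum_mul _ _ _
    simp_rw [e1]
    have hc : ∀ i h, Continuous fun s => S i h s * rho (b ^ k) φ R s := fun i h =>
      (hScont i h).mul hρcont
    rw [intervalIntegral.integral_finsetSum fun i _ =>
      (continuous_finsetSum _ fun h _ => hc i h).intervalIntegrable _ _]
    have e2 : ∀ i ∈ Finset.range q, ∫ s in (0 : ℝ)..1, ∑ h ∈ Finset.Icc 1 q,
        S i h s * rho (b ^ k) φ R s ≤ q * κ := by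
      intro i hi
      rw [intervalIntegral.integral_finsetSum fun h _ => (hc i h).intervalIntegrable _ _]
      have e3 : ∀ h ∈ Finset.Icc 1 q, ∫ s in (0 : ℝ)..1, S i h s * rho (b ^ k) φ R s ≤ κ := by
        intro h hh
        have hi' := Finset.mem_range.1 hi
        have hh' := Finset.mem_Icc.1 hh
        by_cases hirr : Irrational (Real.logb (b ^ k) |α i|)
        · simp only [hS]
          simp only [if_pos hirr]
          have hli := hl0 i hi'
          have hAM : tau |α i| b n + (tau |α i| b (n + M) - tau |α i| b n) =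
              tau |α i| b (n + M) := by
            have := hmono i
            omega
          have e4 := hM0 i hirr (tau |α i| b n) (tau |α i| b (n + M) - tau |α i| b n) R h φ u w
            hh'.1 hh'.2 hw0 (by
              rw [hw, mul_one_div, le_div_iff₀ hbn, one_mul]
              exact tau_spec (hα i) b n)
            (by
              rw [hAM, ← pow_mul, hw, mul_one_div, div_le_iff₀ hbn]
              refine (tau_up (hα i) hb _).trans (le_of_eq ?_)
              rw [pow_add]
              ring)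
            (by
              have := hlen i hi'
              omega)
          rw [hAM] at e4
          have e5 : ∀ s, ‖∑ m ∈ Finset.Ico (tau |α i| b n) (tau |α i| b (n + M)),
              ee (h * ((u + w * s) * α i ^ m))‖ ^ 2 / (l i) ^ 2 * rho (b ^ k) φ R s =
              ‖∑ m ∈ Finset.Ico (tau |α i| b n) (tau |α i| b (n + M)),
              ee (h * ((u + w * s) * α i ^ m))‖ ^ 2 * rho (b ^ k) φ R s * (1 / (l i) ^ 2) := by
            intro s
            ring
          simp_rw [e5]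
          rw [intervalIntegral.integral_mul_const, mul_one_div, div_le_iff₀ (by positivity)]
          exact e4
        · simp only [hS]
          simp only [if_neg hirr, zero_mul]
          rw [intervalIntegral.integral_zero]
          exact hκ0.le
      refine (Finset.sum_le_sum e3).trans (le_of_eq ?_)
      rw [Finset.sum_const, Nat.card_Icc, nsmul_eq_mul, Nat.add_sub_cancel]
    refine (Finset.sum_le_sum e2).trans (le_of_eq ?_)
    rw [Finset.sum_const, Finset.card_range, nsmul_eq_mul]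
    ring
  -- conclusion
  have hRk : (96 * k + 1 : ℝ) ≤ R := by exact_mod_cast (by omega : 96 * k + 1 ≤ R)
  have hMr : (M : ℝ) = k * (R + 1) := by
    rw [hM]
    push_cast
    ring
  have f1 : 1 / (8 * k) ≤ (∫ s in (0 : ℝ)..1, C s * rho (b ^ k) φ R s) * (1 / M) := by
    have g1 : ((R : ℝ) + 1) / 8 ≤ ∫ s in (0 : ℝ)..1, C s * rho (b ^ k) φ R s := by linarith
    have g2 : ((R : ℝ) + 1) / 8 * (1 / M) = 1 / (8 * k) := by
      rw [hMr]
      have : (0 : ℝ) < R + 1 := by positivity
      field_simp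
    rw [← g2]
    exact mul_le_mul_of_nonneg_right g1 (by positivity)
  have f2 : 4 * (q : ℝ) ^ 2 * ∫ s in (0 : ℝ)..1, G s * rho (b ^ k) φ R s ≤ 1 / (16 * k) := by
    have g1 : 4 * (q : ℝ) ^ 2 * ((q : ℝ) ^ 2 * κ) = 1 / (16 * k) := by
      rw [hκ]
      field_simp
      norm_num
    rw [← g1]
    exact mul_le_mul_of_nonneg_left hI4 (by positivity)
  have f3 : 1 / (32 * k) * ∫ s in (0 : ℝ)..1, rho (b ^ k) φ R s ≤ 1 / (32 * k) * (9 / 8) :=
    mul_le_mul_of_nonneg_left hI2 (by positivity)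
  set z : ℝ := 1 / (k : ℝ) with hz
  have hz0 : 0 < z := by positivity
  have z1 : 1 / (8 * (k : ℝ)) = z / 8 := by rw [hz]; field_simp
  have z2 : 1 / (16 * (k : ℝ)) = z / 16 := by rw [hz]; field_simp
  have z3 : 1 / (32 * (k : ℝ)) = z / 32 := by rw [hz]; field_simp
  rw [z1] at f1
  rw [z2] at f2
  rw [z3] at f3 hI1
  linarith

end Pool.Agent.H534R3.Rota
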