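import Mathlib

/-! # Circle actions and Haar null sets in homeomorphism groups -/

set_option autoImplicit false

open MeasureTheory Filter Topology
open scoped ENNReal

namespace Pool.Agent.H534R3.CircNull

variable {X : Type} [MetricSpace X] [CompactSpace X]

/-- A continuous length function on the circle with a large value is small only on a set of small
measure. -/
theorem small_measure (F : UnitAddCircle → ℝ) (hF : Continuous F) (hF0 : F 0 = 0)
    (hsub : ∀ s t, |F s - F t| ≤ F (s - t)) (ρ : ℝ) (hρ : 0 < ρ) (hbig : ∃ s, ρ ≤ F s)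
    (m : ℕ) (hm : 0 < m) (T : Set UnitAddCircle) (hT : MeasurableSet T)
    (hTT : ∀ s ∈ T, ∀ t ∈ T, F (s - t) ≤ 2 * (ρ / (3 * m))) :
    (m : ℝ≥0∞) * volume T ≤ 1 := by
  obtain ⟨s₁, hs₁⟩ := hbig
  have hm0 : (0 : ℝ) < m := by exact_mod_cast hm
  have hex : ∀ j : ℕ, ∃ s, j < m → F s = j * (ρ / m) := by
    intro j
    by_cases hj : j < m
    · have h1 : (j : ℝ) * (ρ / m) ∈ Set.Icc (F 0) (F s₁) := by
        rw [hF0]
        have hj' : (j : ℝ) ≤ m := by exact_mod_cast hj.le
        refine ⟨by positivity, le_trans ?_ hs₁⟩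
        rw [← mul_div_assoc, div_le_iff₀ hm0, mul_comm ρ]
        exact mul_le_mul_of_nonneg_right hj' hρ.le
      obtain ⟨s, hs⟩ := mem_range_of_exists_le_of_exists_ge hF ⟨0, h1.1⟩ ⟨s₁, h1.2⟩
      exact ⟨s, fun _ => hs⟩
    · exact ⟨0, fun h => absurd h hj⟩
  choose σ hσ using hex
  have hdisj : Pairwise (Function.onFun Disjoint fun j : Fin m => (fun s => σ j + s) ⁻¹' T) := by
    intro i j hij
    rw [Function.onFun, Set.disjoint_left]
    intro s hs hs'
    have h1 := hTT _ hs _ hs'
    have h2 : (σ i + s) - (σ j + s) = σ i - σ j := by abel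
    rw [h2] at h1
    have h3 := hsub (σ i) (σ j)
    rw [hσ i i.2, hσ j j.2, ← sub_mul, abs_mul] at h3
    have h4 : (1 : ℝ) ≤ |((i : ℕ) : ℝ) - ((j : ℕ) : ℝ)| := by
      have hne : ((i : ℕ) : ℤ) - ((j : ℕ) : ℤ) ≠ 0 := by
        intro h
        apply hij
        ext
        omega
      have h5 : (1 : ℤ) ≤ |((i : ℕ) : ℤ) - ((j : ℕ) : ℤ)| := Int.one_le_abs hne
      have h6 : ((1 : ℤ) : ℝ) ≤ ((|((i : ℕ) : ℤ) - ((j : ℕ) : ℤ)| : ℤ) : ℝ) := by exact_mod_cast h5
      rw [Int.cast_abs] at h6
      push_cast at h6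
      exact h6
    have h5 : 0 < ρ / m := by positivity
    rw [abs_of_pos h5] at h3
    have h6 : ρ / m ≤ |((i : ℕ) : ℝ) - ((j : ℕ) : ℝ)| * (ρ / m) := by nlinarith
    have h7 : 2 * (ρ / (3 * m)) < ρ / m := by
      have : ρ / (3 * m) = (ρ / m) / 3 := by field_simp
      rw [this]
      linarith
    linarith
  have hmeas : ∀ j : Fin m, MeasurableSet ((fun s => σ j + s) ⁻¹' T) := fun j =>
    (measurable_const_add _) hT
  have hvol : ∀ j : Fin m, volume ((fun s => σ j + s) ⁻¹' T) = volume T := fun j =>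
    measure_preimage_add _ _ _
  calc (m : ℝ≥0∞) * volume T = ∑ j : Fin m, volume ((fun s => σ j + s) ⁻¹' T) := by
        simp [hvol]
    _ = volume (⋃ j : Fin m, (fun s => σ j + s) ⁻¹' T) := by
        rw [measure_iUnion hdisj hmeas, tsum_fintype]
    _ ≤ volume (Set.univ : Set UnitAddCircle) := measure_mono (Set.subset_univ _)
    _ = 1 := by rw [AddCircle.measure_univ, ENNReal.ofReal_one]

/-- The homeomorphism of a bijective continuous self-map. -/
noncomputable def homeo (f : C(X, X)) (hf : Function.Bijective f) : X ≃ₜ X :=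
  Continuous.homeoOfEquivCompactToT2 (f := Equiv.ofBijective f hf) f.continuous

theorem homeo_apply (f : C(X, X)) (hf : Function.Bijective f) (x : X) : homeo f hf x = f x := rfl

theorem decompose (G : Set C(X, X)) (hG : ∀ f ∈ G, Function.Bijective f)
    (R : UnitAddCircle → C(X, X)) (hRc : Continuous R) (hRG : ∀ s, R s ∈ G)
    (hR0 : R 0 = ContinuousMap.id X) (hRadd : ∀ s t, R (s + t) = (R s).comp (R t))
    (ρ : ℝ) (hρ : 0 < ρ)
    (hbig : ∀ g : X ≃ₜ X, ∃ s, ρ ≤ dist ((g : C(X, X)).comp (R s)) (g : C(X, X)))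
    (m : MeasurableSpace G) (hm : m = borel G) :
    ∃ M N : Set G, M ∪ N = Set.univ ∧ IsMeagre M ∧ ∃ B : Set G, N ⊆ B ∧ MeasurableSet B ∧
      ∃ μ : Measure G, IsProbabilityMeasure μ ∧ ∀ g h : G,
        μ {x : G | ∃ b ∈ B, (x : C(X, X)) = (g : C(X, X)).comp ((b : C(X, X)).comp (h : C(X, X)))}
          = 0 := by
  have hbs : BorelSpace G := ⟨hm⟩
  -- the measure
  set ι : UnitAddCircle → G := fun s => ⟨R s, hRG s⟩ with hι
  have hιc : Continuous ι := hRc.subtype_mk _
  set μ : Measure G := Measure.map ι volume with hμ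
  have hprob : IsProbabilityMeasure (volume : Measure UnitAddCircle) := ⟨by
    rw [AddCircle.measure_univ, ENNReal.ofReal_one]⟩
  have hμp : IsProbabilityMeasure μ := Measure.isProbabilityMeasure_map hιc.aemeasurable
  -- the key estimate
  have key : ∀ k : ℕ, 0 < k → ∀ (f₀ : C(X, X)) (g h : G),
      (k : ℝ≥0∞) * μ {x : G | ∃ b : G, dist (b : C(X, X)) f₀ < ρ / (3 * k) ∧
        (x : C(X, X)) = (g : C(X, X)).comp ((b : C(X, X)).comp (h : C(X, X)))} ≤ 1 := by
    intro k hk f₀ g h
    set g' := (homeo (g : C(X, X)) (hG _ g.2)).symm with hg'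
    set h' := (homeo (h : C(X, X)) (hG _ h.2)).symm with hh'
    have hgg : ∀ x, g' ((g : C(X, X)) x) = x := fun x => (homeo _ _).symm_apply_apply x
    have hhh : ∀ x, (h : C(X, X)) (h' x) = x := fun x => (homeo _ _).apply_symm_apply x
    have hhh' : ∀ x, h' ((h : C(X, X)) x) = x := fun x => (homeo _ _).symm_apply_apply x
    set A : Set G := {x : G | dist (((g' : C(X, X)).comp (x : C(X, X))).comp (h' : C(X, X))) f₀ ≤
      ρ / (3 * k)} with hA
    have hAc : IsClosed A := by
      refine isClosed_le ?_ continuous_const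
      refine Continuous.dist ?_ continuous_const
      exact (ContinuousMap.continuous_precomp _).comp
        ((ContinuousMap.continuous_postcomp _).comp continuous_subtype_val)
    have hsub : {x : G | ∃ b : G, dist (b : C(X, X)) f₀ < ρ / (3 * k) ∧
        (x : C(X, X)) = (g : C(X, X)).comp ((b : C(X, X)).comp (h : C(X, X)))} ⊆ A := by
      rintro x ⟨b, hb, hx⟩
      change dist (((g' : C(X, X)).comp (x : C(X, X))).comp (h' : C(X, X))) f₀ ≤ ρ / (3 * k)
      have : ((g' : C(X, X)).comp (x : C(X, X))).comp (h' : C(X, X)) = (b : C(X, X)) := by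
        ext q
        rw [hx]
        change g' ((g : C(X, X)) ((b : C(X, X)) ((h : C(X, X)) (h' q)))) = _
        rw [hgg, hhh]
      rw [this]
      exact hb.le
    have hμA : μ A = volume (ι ⁻¹' A) := Measure.map_apply hιc.measurable hAc.measurableSet
    refine (mul_le_mul_right (measure_mono hsub) _).trans ?_
    rw [hμA]
    set F : UnitAddCircle → ℝ := fun s => dist ((g' : C(X, X)).comp (R s)) (g' : C(X, X)) with hF
    have hFle : ∀ s t, dist ((g' : C(X, X)).comp (R s)) ((g' : C(X, X)).comp (R t)) ≤ F (s - t) := by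
      intro s t
      rw [ContinuousMap.dist_le dist_nonneg]
      intro q
      have h1 : R s = (R (s - t)).comp (R t) := by rw [← hRadd, sub_add_cancel]
      rw [h1]
      change dist (g' (R (s - t) (R t q))) (g' (R t q)) ≤ _
      exact ContinuousMap.dist_apply_le_dist (f := (g' : C(X, X)).comp (R (s - t)))
        (g := (g' : C(X, X))) (R t q)
    refine small_measure F ?_ ?_ ?_ ρ hρ (hbig g') k hk _ (hιc.measurable hAc.measurableSet) ?_
    · exact Continuous.dist ((ContinuousMap.continuous_postcomp _).comp hRc) continuous_const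
    · simp [hF, hR0]
    · intro s t
      refine le_trans ?_ (hFle s t)
      exact abs_dist_sub_le _ _ _
    · intro s hs t ht
      have hs' : dist (((g' : C(X, X)).comp (R s)).comp (h' : C(X, X))) f₀ ≤ ρ / (3 * k) := hs
      have ht' : dist (((g' : C(X, X)).comp (R t)).comp (h' : C(X, X))) f₀ ≤ ρ / (3 * k) := ht
      have h1 : dist (((g' : C(X, X)).comp (R s)).comp (h' : C(X, X)))
          (((g' : C(X, X)).comp (R t)).comp (h' : C(X, X))) ≤ 2 * (ρ / (3 * k)) := by
        refine (dist_triangle_right _ _ f₀).trans ?_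
        linarith
      have h0 : 0 ≤ 2 * (ρ / (3 * (k : ℝ))) := by positivity
      refine le_trans ?_ h1
      simp only [hF]
      rw [ContinuousMap.dist_le dist_nonneg]
      intro q
      set q' := R (-t) q with hq'
      have e1 : R (s - t) q = R s q' := by
        rw [hq', sub_eq_add_neg, hRadd]
        rfl
      have e2 : q = R t q' := by
        have : (R t).comp (R (-t)) = ContinuousMap.id X := by rw [← hRadd, add_neg_cancel, hR0]
        have := congrArg (fun f : C(X, X) => f q) this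
        exact this.symm
      have e3 := ContinuousMap.dist_apply_le_dist (f := ((g' : C(X, X)).comp (R s)).comp (h' : C(X, X)))
        (g := ((g' : C(X, X)).comp (R t)).comp (h' : C(X, X))) ((h : C(X, X)) q')
      change dist (g' (R s (h' ((h : C(X, X)) q')))) (g' (R t (h' ((h : C(X, X)) q')))) ≤ _ at e3
      rw [hhh'] at e3
      change dist (g' (R (s - t) q)) (g' q) ≤ _
      rw [e1]
      conv_lhs => rw [e2]
      exact e3
  -- the small open sets
  obtain ⟨b, hbc, hbne, hb⟩ := TopologicalSpace.exists_countable_basis G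
  obtain ⟨e, he⟩ : ∃ e : ℕ → Set G, b ⊆ Set.range e := by
    rcases b.eq_empty_or_nonempty with hbe | hbe
    · exact ⟨fun _ => ∅, by rw [hbe]; exact Set.empty_subset _⟩
    · obtain ⟨e, he⟩ := hbc.exists_eq_range hbe
      exact ⟨e, he.le⟩
  obtain ⟨ε, hε, hεs⟩ := ENNReal.exists_pos_sum_of_countable (ε := 1) one_ne_zero ℕ
  have hU : ∀ k n : ℕ, ∃ U : Set G, IsOpen U ∧ (IsOpen (e n) → (e n).Nonempty → (U ∩ e n).Nonempty) ∧
      ∀ g h : G, μ {x : G | ∃ b ∈ U,
        (x : C(X, X)) = (g : C(X, X)).comp ((b : C(X, X)).comp (h : C(X, X)))} ≤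
          (ε n : ℝ≥0∞) / (k + 1) := by
    intro k n
    by_cases hn : IsOpen (e n) ∧ (e n).Nonempty
    · obtain ⟨ho, f₀, hf₀⟩ := hn
      have hpos : (0 : ℝ≥0∞) < (ε n : ℝ≥0∞) / (k + 1) := by
        refine ENNReal.div_pos ?_ ?_
        · exact (ENNReal.coe_pos.2 (hε n)).ne'
        · exact ENNReal.add_ne_top.2 ⟨ENNReal.natCast_ne_top k, ENNReal.one_ne_top⟩
      obtain ⟨K, hK⟩ := ENNReal.exists_inv_nat_lt hpos.ne'
      have hK0 : 0 < K := by
        rcases Nat.eq_zero_or_pos K with h | h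
        · rw [h] at hK
          simp at hK
        · exact h
      refine ⟨{b : G | dist (b : C(X, X)) (f₀ : C(X, X)) < ρ / (3 * K)}, ?_, ?_, ?_⟩
      · exact isOpen_lt (continuous_subtype_val.dist continuous_const) continuous_const
      · intro _ _
        refine ⟨f₀, ?_, hf₀⟩
        change dist (f₀ : C(X, X)) (f₀ : C(X, X)) < ρ / (3 * K)
        rw [dist_self]
        positivity
      · intro g h
        have h1 := key K hK0 (f₀ : C(X, X)) g h
        have h2 : μ {x : G | ∃ b : G, dist (b : C(X, X)) (f₀ : C(X, X)) < ρ / (3 * K) ∧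
            (x : C(X, X)) = (g : C(X, X)).comp ((b : C(X, X)).comp (h : C(X, X)))} ≤ (K : ℝ≥0∞)⁻¹ := by
          rw [ENNReal.le_inv_iff_mul_le, mul_comm]
          exact h1
        exact h2.trans hK.le
    · refine ⟨∅, isOpen_empty, fun h1 h2 => absurd ⟨h1, h2⟩ hn, fun g h => ?_⟩
      have : {x : G | ∃ b ∈ (∅ : Set G),
        (x : C(X, X)) = (g : C(X, X)).comp ((b : C(X, X)).comp (h : C(X, X)))} = ∅ := by
        ext x
        simp
      rw [this]
      simp
  choose U hUo hUn hUμ using hU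
  set N : Set G := ⋂ k, ⋃ n, U k n with hN
  have hopen : ∀ k, IsOpen (⋃ n, U k n) := fun k => isOpen_iUnion fun n => hUo k n
  have hdense : ∀ k, Dense (⋃ n, U k n) := by
    intro k
    rw [hb.dense_iff]
    intro o ho hone
    obtain ⟨n, hn⟩ := he ho
    obtain ⟨x, hx1, hx2⟩ := hUn k n (by rw [hn]; exact hb.isOpen ho) (by rw [hn]; exact hone)
    rw [hn] at hx2
    exact ⟨x, hx2, Set.mem_iUnion.2 ⟨n, hx1⟩⟩
  refine ⟨Nᶜ, N, Set.compl_union_self N, ?_, N, le_refl _, ?_, μ, hμp, ?_⟩
  · rw [IsMeagre, compl_compl, hN]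
    rw [countable_iInter_mem]
    intro k
    exact residual_of_dense_open (hopen k) (hdense k)
  · exact MeasurableSet.iInter fun k => (hopen k).measurableSet
  · intro g h
    have hle : ∀ k : ℕ, μ {x : G | ∃ b ∈ N,
        (x : C(X, X)) = (g : C(X, X)).comp ((b : C(X, X)).comp (h : C(X, X)))} ≤ 1 / ((k : ℝ≥0∞) + 1) := by
      intro k
      have hsub : {x : G | ∃ b ∈ N,
          (x : C(X, X)) = (g : C(X, X)).comp ((b : C(X, X)).comp (h : C(X, X)))} ⊆
          ⋃ n, {x : G | ∃ b ∈ U k n,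
            (x : C(X, X)) = (g : C(X, X)).comp ((b : C(X, X)).comp (h : C(X, X)))} := by
        rintro x ⟨b, hb, hx⟩
        obtain ⟨n, hn⟩ := Set.mem_iUnion.1 (Set.mem_iInter.1 hb k)
        exact Set.mem_iUnion.2 ⟨n, b, hn, hx⟩
      refine (measure_mono hsub).trans ((measure_iUnion_le _).trans ?_)
      refine (ENNReal.tsum_le_tsum fun n => hUμ k n g h).trans ?_
      simp_rw [div_eq_mul_inv]
      rw [ENNReal.tsum_mul_right]
      exact mul_le_mul_left hεs.le _
    refine le_antisymm ?_ bot_le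
    refine ge_of_tendsto' (f := fun k : ℕ => 1 / ((k : ℝ≥0∞) + 1)) (x := atTop) ?_ hle
    have h1 : Tendsto (fun k : ℕ => ((k : ℝ≥0∞))⁻¹) atTop (𝓝 0) := ENNReal.tendsto_inv_nat_nhds_zero
    have h2 := h1.comp (tendsto_add_atTop_nat 1)
    refine h2.congr fun k => ?_
    simp

end Pool.Agent.H534R3.CircNull
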