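import Pool.Agent.H534R3.WW
import Pool.Agent.H534R3.Riesz

/-! # Riesz densities -/

set_option autoImplicit false

open MeasureTheory Filter Topology
open scoped Real

namespace Pool.Agent.H534R3.Rota

open Pool.Agent.H534R3.UDist

/-- The Riesz density. -/
noncomputable def rho (B : ℝ) (φ : ℕ → ℝ) (R : ℕ) (s : ℝ) : ℝ :=
  ∏ r ∈ Finset.range R, (1 + Real.cos (2 * π * (B ^ (r + 1) * s + φ r)))

theorem rho_zero (B : ℝ) (φ : ℕ → ℝ) (s : ℝ) : rho B φ 0 s = 1 := by simp [rho]

theorem rho_succ (B : ℝ) (φ : ℕ → ℝ) (R : ℕ) (s : ℝ) :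
    rho B φ (R + 1) s = rho B φ R s * (1 + Real.cos (2 * π * (B ^ (R + 1) * s + φ R))) := by
  rw [rho, Finset.prod_range_succ, ← rho]

theorem rho_nonneg (B : ℝ) (φ : ℕ → ℝ) (R : ℕ) (s : ℝ) : 0 ≤ rho B φ R s := by
  refine Finset.prod_nonneg fun r _ => ?_
  have := Real.neg_one_le_cos (2 * π * (B ^ (r + 1) * s + φ r))
  linarith

theorem continuous_rho (B : ℝ) (φ : ℕ → ℝ) (R : ℕ) : Continuous (rho B φ R) := by
  unfold rho
  exact continuous_finsetProd _ fun r _ => by fun_prop

theorem cos_ee (v : ℝ) : ((Real.cos (2 * π * v) : ℝ) : ℂ) = (1 / 2) * ee v + (1 / 2) * ee (-v) := by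
  have h1 : (ee v + ee (-v)).re = 2 * Real.cos (2 * π * v) := by
    rw [Complex.add_re, ee_re, ee_re]
    have : 2 * π * -v = -(2 * π * v) := by ring
    rw [this, Real.cos_neg]
    ring
  have h2 : (ee v + ee (-v)).im = 0 := by
    rw [ee_neg, Complex.add_im, Complex.conj_im]
    ring
  have h3 : ee v + ee (-v) = ((2 * Real.cos (2 * π * v) : ℝ) : ℂ) := by
    apply Complex.ext
    · rw [h1, Complex.ofReal_re]
    · rw [h2, Complex.ofReal_im]
  rw [← mul_add, h3]
  push_cast
  ring

theorem int_rho {B : ℝ} (φ : ℕ → ℝ) (R : ℕ) (x : ℝ) :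
    ‖∫ s in (0 : ℝ)..1, ee (x * s) * ((rho B φ R s : ℝ) : ℂ)‖ ≤ WW B R x := by
  have hcont : ∀ (y : ℝ) (R : ℕ), Continuous fun s : ℝ => ee (y * s) * ((rho B φ R s : ℝ) : ℂ) := by
    intro y R
    exact (continuous_ee.comp (continuous_const.mul continuous_id)).mul
      (Complex.continuous_ofReal.comp (continuous_rho B φ R))
  induction R generalizing x with
  | zero =>
    simp only [rho_zero, Complex.ofReal_one, mul_one]
    rw [WW_zero]
    have h1 : ‖∫ s in (0 : ℝ)..1, ee (x * s)‖ ≤ 1 := by
      have := intervalIntegral.norm_integral_le_of_norm_le_const (a := 0) (b := 1) (C := 1)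
        (f := fun s : ℝ => ee (x * s)) (fun s _ => (norm_ee _).le)
      simpa using this
    rcases le_total |x| 1 with h | h
    · rw [max_eq_left h, div_one]
      exact h1
    · rw [max_eq_right h]
      have hx : x ≠ 0 := by
        intro h0
        rw [h0, abs_zero] at h
        linarith
      exact int_ee hx 0 1
  | succ R ih =>
    have h1 : ∀ s : ℝ, ee (x * s) * ((rho B φ (R + 1) s : ℝ) : ℂ) =
        ee (x * s) * ((rho B φ R s : ℝ) : ℂ) +
        ((1 / 2) * ee (φ R)) * (ee ((x + B ^ (R + 1)) * s) * ((rho B φ R s : ℝ) : ℂ)) +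
        ((1 / 2) * ee (-φ R)) * (ee ((x - B ^ (R + 1)) * s) * ((rho B φ R s : ℝ) : ℂ)) := by
      intro s
      rw [rho_succ, Complex.ofReal_mul, Complex.ofReal_add, cos_ee, Complex.ofReal_one]
      have e1 : ee ((x + B ^ (R + 1)) * s) = ee (x * s) * ee (B ^ (R + 1) * s) := by
        rw [← ee_add]
        congr 1
        ring
      have e2 : ee ((x - B ^ (R + 1)) * s) = ee (x * s) * ee (-(B ^ (R + 1) * s)) := by
        rw [← ee_add]
        congr 1
        ring
      have e3 : ee (B ^ (R + 1) * s + φ R) = ee (B ^ (R + 1) * s) * ee (φ R) := ee_add _ _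
      have e4 : ee (-(B ^ (R + 1) * s + φ R)) = ee (-(B ^ (R + 1) * s)) * ee (-φ R) := by
        rw [← ee_add]
        congr 1
        ring
      rw [e1, e2, e3, e4]
      ring
    simp_rw [h1]
    rw [intervalIntegral.integral_add, intervalIntegral.integral_add,
      intervalIntegral.integral_const_mul, intervalIntegral.integral_const_mul]
    · refine (norm_add₃_le).trans ?_
      rw [norm_mul, norm_mul, norm_mul, norm_mul, norm_ee, norm_ee, mul_one, WW_succ]
      have e1 := ih x
      have e2 := ih (x + B ^ (R + 1))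
      have e3 := ih (x - B ^ (R + 1))
      have e4 : ‖(1 / 2 : ℂ)‖ = 1 / 2 := by norm_num
      rw [e4]
      linarith
    · exact (hcont _ _).intervalIntegrable _ _
    · exact ((hcont _ _).const_mul _).intervalIntegrable _ _
    · exact ((hcont _ _).add ((hcont _ _).const_mul _)).intervalIntegrable _ _
    · exact ((hcont _ _).const_mul _).intervalIntegrable _ _

theorem int_cos_rho {B : ℝ} (φ : ℕ → ℝ) (R : ℕ) (c x : ℝ) :
    |∫ s in (0 : ℝ)..1, Real.cos (2 * π * (c + x * s)) * rho B φ R s| ≤ WW B R x := by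
  have h1 : ∀ s : ℝ, Real.cos (2 * π * (c + x * s)) * rho B φ R s =
      (ee c * (ee (x * s) * ((rho B φ R s : ℝ) : ℂ))).re := by
    intro s
    rw [← mul_assoc, ← ee_add, Complex.re_mul_ofReal, ee_re]
  have hc : Continuous fun s : ℝ => ee c * (ee (x * s) * ((rho B φ R s : ℝ) : ℂ)) :=
    continuous_const.mul ((continuous_ee.comp (continuous_const.mul continuous_id)).mul
      (Complex.continuous_ofReal.comp (continuous_rho B φ R)))
  have h2 : ∫ s in (0 : ℝ)..1, Real.cos (2 * π * (c + x * s)) * rho B φ R s =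
      (∫ s in (0 : ℝ)..1, ee c * (ee (x * s) * ((rho B φ R s : ℝ) : ℂ))).re := by
    simp_rw [h1]
    exact Complex.reCLM.intervalIntegral_comp_comm (hc.intervalIntegrable _ _)
  rw [h2, intervalIntegral.integral_const_mul]
  refine (Complex.abs_re_le_norm _).trans ?_
  rw [norm_mul, norm_ee, one_mul]
  exact int_rho φ R x

theorem continuous_cosrho (B : ℝ) (φ : ℕ → ℝ) (R : ℕ) (c x : ℝ) :
    Continuous fun s : ℝ => Real.cos (2 * π * (c + x * s)) * rho B φ R s :=
  Continuous.mul (by fun_prop) (continuous_rho B φ R)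

theorem mass {B : ℝ} (hB : 16 ≤ B) (φ : ℕ → ℝ) (R : ℕ) :
    |(∫ s in (0 : ℝ)..1, rho B φ R s) - 1| ≤ (1 / 8) * (1 - (4 / B) ^ R) := by
  have hB0 : 0 < B := by linarith
  induction R with
  | zero => simp [rho_zero]
  | succ R ih =>
    have h1 : ∀ s : ℝ, rho B φ (R + 1) s = rho B φ R s +
        Real.cos (2 * π * (φ R + B ^ (R + 1) * s)) * rho B φ R s := by
      intro s
      rw [rho_succ, add_comm (φ R)]
      ring
    simp_rw [h1]
    rw [intervalIntegral.integral_add ((continuous_rho B φ R).intervalIntegrable _ _)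
      ((continuous_cosrho B φ R _ _).intervalIntegrable _ _)]
    have h2 := int_cos_rho (B := B) φ R (φ R) (B ^ (R + 1))
    have h3 := far_term hB R (B ^ (R + 1)) 1 one_pos (by linarith) (by
      rw [mul_one]
      exact le_abs_self _)
    rw [mul_one, div_eq_mul_one_div] at h3
    have hf := fac_pos hB R
    have hf2 : (4 / B) ^ (R + 1) = (4 / B) ^ R * (4 / B) := pow_succ _ _
    have h4 : 1 / B ≤ 1 / 16 := one_div_le_one_div_of_le (by norm_num) hB
    have h6 := abs_le.1 ih
    have h7 := abs_le.1 (h2.trans h3)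
    have h8 : (4 / B) ^ R * (4 / B) = (4 / B) ^ R * (4 * (1 / B)) := by
      congr 1
      ring
    rw [hf2, h8]
    generalize (4 / B) ^ R = f at *
    generalize 1 / B = g at *
    have h9 : f * g ≤ f * (1 / 16) := mul_le_mul_of_nonneg_left h4 hf.le
    rw [abs_le]
    constructor
    · linarith [h6.1, h7.1]
    · linarith [h6.2, h7.2]

theorem mass_le {B : ℝ} (hB : 16 ≤ B) (φ : ℕ → ℝ) (R : ℕ) :
    ∫ s in (0 : ℝ)..1, rho B φ R s ≤ 9 / 8 := by
  have h1 := abs_le.1 (mass hB φ R)
  have := fac_pos hB R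
  linarith [h1.2]

theorem mass_ge {B : ℝ} (hB : 16 ≤ B) (φ : ℕ → ℝ) (R : ℕ) :
    7 / 8 ≤ ∫ s in (0 : ℝ)..1, rho B φ R s := by
  have h1 := abs_le.1 (mass hB φ R)
  have := fac_pos hB R
  linarith [h1.1]

/-- The bias of the frequencies of the density. -/
theorem bias_main {B : ℝ} (hB : 16 ≤ B) (φ : ℕ → ℝ) (r m : ℕ) :
    1 / 4 + (1 / 4) * (4 / B) ^ (r + 1 + m) ≤
      ∫ s in (0 : ℝ)..1, Real.cos (2 * π * (φ r + B ^ (r + 1) * s)) * rho B φ (r + 1 + m) s := by
  have hB0 : 0 < B := by linarith
  have h4 : 1 / B ≤ 1 / 16 := one_div_le_one_div_of_le (by norm_num) hB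
  have h5 : 4 / B = 4 * (1 / B) := by ring
  have h40 : 0 < 1 / B := by positivity
  induction m with
  | zero =>
    rw [Nat.add_zero]
    have h1 : ∀ s : ℝ, Real.cos (2 * π * (φ r + B ^ (r + 1) * s)) * rho B φ (r + 1) s =
        Real.cos (2 * π * (φ r + B ^ (r + 1) * s)) * rho B φ r s + (1 / 2) * rho B φ r s +
        (1 / 2) * (Real.cos (2 * π * (2 * φ r + (2 * B ^ (r + 1)) * s)) * rho B φ r s) := by
      intro s
      have e1 : 2 * π * (2 * φ r + (2 * B ^ (r + 1)) * s) = 2 * (2 * π * (φ r + B ^ (r + 1) * s)) := by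
        ring
      rw [e1, Real.cos_two_mul, rho_succ, add_comm (B ^ (r + 1) * s)]
      ring
    simp_rw [h1]
    have hc1 := continuous_cosrho B φ r (φ r) (B ^ (r + 1))
    have hc2 := continuous_cosrho B φ r (2 * φ r) (2 * B ^ (r + 1))
    have hc3 := continuous_rho B φ r
    rw [intervalIntegral.integral_add, intervalIntegral.integral_add,
      intervalIntegral.integral_const_mul, intervalIntegral.integral_const_mul]
    · have g1 := abs_le.1 (int_cos_rho (B := B) φ r (φ r) (B ^ (r + 1)))
      have g2 := abs_le.1 (int_cos_rho (B := B) φ r (2 * φ r) (2 * B ^ (r + 1)))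
      have g3 := mass_ge hB φ r
      have hp : 0 < B ^ (r + 1) := by positivity
      have g4 := far_term hB r (B ^ (r + 1)) 1 one_pos (by linarith) (by
        rw [mul_one]
        exact le_abs_self _)
      have g5 := far_term hB r (2 * B ^ (r + 1)) 1 one_pos (by linarith) (by
        rw [mul_one, abs_of_pos (by positivity)]
        linarith)
      rw [mul_one, div_eq_mul_one_div] at g4 g5
      have hf := fac_pos hB r
      have hf1 := fac_le_one hB r
      have hf2 : (4 / B) ^ (r + 1) = (4 / B) ^ r * (4 / B) := pow_succ _ _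
      rw [hf2]
      nlinarith [g1.1, g2.1]
    · exact hc1.intervalIntegrable _ _
    · exact (hc3.const_mul _).intervalIntegrable _ _
    · exact (hc1.add (hc3.const_mul _)).intervalIntegrable _ _
    · exact (hc2.const_mul _).intervalIntegrable _ _
  | succ m ih =>
    set R := r + 1 + m with hR
    have hR' : r + 1 + (m + 1) = R + 1 := by omega
    rw [hR']
    have h1 : ∀ s : ℝ, Real.cos (2 * π * (φ r + B ^ (r + 1) * s)) * rho B φ (R + 1) s =
        Real.cos (2 * π * (φ r + B ^ (r + 1) * s)) * rho B φ R s +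
        ((1 / 2) * (Real.cos (2 * π * ((φ R + φ r) + (B ^ (R + 1) + B ^ (r + 1)) * s)) * rho B φ R s) +
        (1 / 2) * (Real.cos (2 * π * ((φ R - φ r) + (B ^ (R + 1) - B ^ (r + 1)) * s)) * rho B φ R s)) := by
      intro s
      have e1 : 2 * π * ((φ R + φ r) + (B ^ (R + 1) + B ^ (r + 1)) * s) =
          2 * π * (φ R + B ^ (R + 1) * s) + 2 * π * (φ r + B ^ (r + 1) * s) := by ring
      have e2 : 2 * π * ((φ R - φ r) + (B ^ (R + 1) - B ^ (r + 1)) * s) =
          2 * π * (φ R + B ^ (R + 1) * s) - 2 * π * (φ r + B ^ (r + 1) * s) := by ring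
      rw [e1, e2, Real.cos_add, Real.cos_sub, rho_succ, add_comm (B ^ (R + 1) * s)]
      ring
    simp_rw [h1]
    have hc1 := continuous_cosrho B φ R (φ r) (B ^ (r + 1))
    have hc2 := continuous_cosrho B φ R (φ R + φ r) (B ^ (R + 1) + B ^ (r + 1))
    have hc3 := continuous_cosrho B φ R (φ R - φ r) (B ^ (R + 1) - B ^ (r + 1))
    rw [intervalIntegral.integral_add, intervalIntegral.integral_add,
      intervalIntegral.integral_const_mul, intervalIntegral.integral_const_mul]
    · have g1 := abs_le.1 (int_cos_rho (B := B) φ R (φ R + φ r) (B ^ (R + 1) + B ^ (r + 1)))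
      have g2 := abs_le.1 (int_cos_rho (B := B) φ R (φ R - φ r) (B ^ (R + 1) - B ^ (r + 1)))
      have hp : 0 < B ^ (r + 1) := by positivity
      have hp2 : B ^ (r + 1) ≤ B ^ R := pow_le_pow_right₀ (by linarith) (by omega)
      have hp3 : B ^ (R + 1) = B ^ R * B := pow_succ _ _
      have g4 := far_term hB R (B ^ (R + 1) + B ^ (r + 1)) (1 / 2) (by norm_num) (by linarith) (by
        rw [abs_of_pos (by positivity)]
        have : 0 < B ^ (R + 1) := by positivity
        linarith)
      have g5 := far_term hB R (B ^ (R + 1) - B ^ (r + 1)) (1 / 2) (by norm_num) (by linarith) (by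
        have : 0 < B ^ R := by positivity
        rw [abs_of_nonneg (by nlinarith)]
        nlinarith)
      have g6 : (4 / B) ^ R / (B * (1 / 2)) = (4 / B) ^ R * (2 * (1 / B)) := by
        field_simp
      rw [g6] at g4 g5
      have hf := fac_pos hB R
      have hf2 : (4 / B) ^ (R + 1) = (4 / B) ^ R * (4 / B) := pow_succ _ _
      rw [hf2]
      nlinarith [g1.1, g2.1]
    · exact (hc2.const_mul _).intervalIntegrable _ _
    · exact (hc3.const_mul _).intervalIntegrable _ _
    · exact hc1.intervalIntegrable _ _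
    · exact ((hc2.const_mul _).add (hc3.const_mul _)).intervalIntegrable _ _

/-- The second moment with respect to the density. -/
theorem second_rho {B : ℝ} (hB : 16 ≤ B) (α : ℝ) (hα : 1 < |α|)
    (hθ : Irrational (Real.logb B |α|)) (q : ℕ) (hq : 1 ≤ q) (κ : ℝ) (hκ : 0 < κ) :
    ∃ M0 : ℕ, ∀ (A M R h : ℕ) (φ : ℕ → ℝ) (u w : ℝ), 1 ≤ h → h ≤ q → 0 < w → 1 ≤ |α| ^ A * w →
      |α| ^ (A + M) * w ≤ |α| * B ^ (R + 1) → M0 ≤ M →
      ∫ s in (0 : ℝ)..1, ‖∑ m ∈ Finset.Ico A (A + M), ee (h * ((u + w * s) * α ^ m))‖ ^ 2 *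
        rho B φ R s ≤ κ * (M : ℝ) ^ 2 := by
  have hq0 : (0 : ℝ) < q := by exact_mod_cast hq
  have hB0 : 0 < B := by linarith
  have hB1 : 1 < B := by linarith
  have hα0 : 0 < |α| := by linarith
  obtain ⟨F, C, X0, hC0, hX0, hF0, hF1, hF2⟩ := avg_WW hB (Real.logb B |α|) hθ (κ / 4) (by positivity)
  obtain ⟨i0, hi0⟩ := pow_unbounded_of_one_lt (X0 / (|α| - 1)) hα
  obtain ⟨c0, hc0⟩ := pow_unbounded_of_one_lt (2 * (q : ℝ) * |α| * B) hα
  set K : ℝ := 2 * i0 + 2 * c0 + C with hK
  have hK0 : 0 ≤ K := by positivity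
  obtain ⟨M0, hM0⟩ := exists_nat_gt ((8 + 2 * K) * (2 / κ))
  refine ⟨M0, fun A M R h φ u w hh1 hhq hw hA hAM hM => ?_⟩
  have hMr : (8 + 2 * K) * (2 / κ) < M := lt_of_lt_of_le hM0 (by exact_mod_cast hM)
  have hM00 : (0 : ℝ) < M := lt_of_le_of_lt (by positivity) hMr
  have hh1' : (1 : ℝ) ≤ h := by exact_mod_cast hh1
  have hhq' : (h : ℝ) ≤ q := by exact_mod_cast hhq
  -- expansion
  have e1 : ∀ s : ℝ, ‖∑ m ∈ Finset.Ico A (A + M), ee (h * ((u + w * s) * α ^ m))‖ ^ 2 *
        rho B φ R s = M * rho B φ R s + 2 * ∑ m ∈ Finset.range M, ∑ m' ∈ Finset.range m,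
          (Real.cos (2 * π * (h * (α ^ (A + m) - α ^ (A + m')) * u +
            h * (α ^ (A + m) - α ^ (A + m')) * w * s)) * rho B φ R s) := by
    intro s
    rw [Finset.sum_Ico_eq_sum_range, Nat.add_sub_cancel_left, sq_sum, add_mul, mul_assoc 2,
      Finset.sum_mul]
    congr 2
    refine Finset.sum_congr rfl fun m _ => ?_
    rw [Finset.sum_mul]
    refine Finset.sum_congr rfl fun m' _ => ?_
    rw [ee_re]
    congr 3
    ring
  simp_rw [e1]
  have hcos : ∀ m m' : ℕ, Continuous fun s : ℝ =>
      Real.cos (2 * π * (h * (α ^ (A + m) - α ^ (A + m')) * u +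
            h * (α ^ (A + m) - α ^ (A + m')) * w * s)) * rho B φ R s := fun m m' =>
    continuous_cosrho B φ R _ _
  have hsum : Continuous fun s : ℝ => ∑ m ∈ Finset.range M, ∑ m' ∈ Finset.range m,
          (Real.cos (2 * π * (h * (α ^ (A + m) - α ^ (A + m')) * u +
            h * (α ^ (A + m) - α ^ (A + m')) * w * s)) * rho B φ R s) :=
    continuous_finsetSum _ fun m _ => continuous_finsetSum _ fun m' _ => hcos m m'
  rw [intervalIntegral.integral_add (((continuous_rho B φ R).const_mul _).intervalIntegrable _ _)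
    ((hsum.const_mul _).intervalIntegrable _ _), intervalIntegral.integral_const_mul,
    intervalIntegral.integral_const_mul, intervalIntegral.integral_finsetSum fun m _ =>
      (continuous_finsetSum _ fun m' _ => hcos m m').intervalIntegrable _ _]
  have e2 : ∀ m ∈ Finset.range M, ∫ s in (0 : ℝ)..1, ∑ m' ∈ Finset.range m,
          (Real.cos (2 * π * (h * (α ^ (A + m) - α ^ (A + m')) * u +
            h * (α ^ (A + m) - α ^ (A + m')) * w * s)) * rho B φ R s) ≤
        ∑ m' ∈ Finset.range m, WW B R |h * (α ^ (A + m) - α ^ (A + m')) * w| := by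
    intro m _
    rw [intervalIntegral.integral_finsetSum fun m' _ => (hcos m m').intervalIntegrable _ _]
    refine Finset.sum_le_sum fun m' _ => ?_
    rw [WW_abs]
    exact (le_abs_self _).trans (int_cos_rho φ R _ _)
  -- the bound of the correlations
  set s₀ : ℕ → ℝ := fun d => Real.logb B (h * |α ^ d - 1| * (|α| ^ A * w)) with hs₀
  set G : ℕ → ℕ → ℝ := fun d i => if d = 0 then 2 else
    κ / 4 / 2 + F (s₀ d + i * Real.logb B |α|) +
      ((if i < i0 then 2 else 0) + (if M < i + d + c0 then 2 else 0)) with hG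
  have hG0 : ∀ d i, 0 ≤ G d i := by
    intro d i
    simp only [hG]
    have := hF0 (s₀ d + i * Real.logb B |α|)
    split_ifs <;> positivity
  have e3 : ∀ m ∈ Finset.range M,
      ∑ m' ∈ Finset.range m, WW B R |h * (α ^ (A + m) - α ^ (A + m')) * w| ≤
      ∑ k ∈ Finset.range (m + 1), G k (m - k) := by
    intro m _
    have f1 : ∀ m' ∈ Finset.range m, WW B R |h * (α ^ (A + m) - α ^ (A + m')) * w| ≤
        G (m - m') m' := by
      intro m' hm'
      have hm := Finset.mem_range.1 hm'
      obtain ⟨d, hd⟩ : ∃ d, m - m' = d + 1 := ⟨m - m' - 1, by omega⟩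
      have hmd : m = m' + (d + 1) := by omega
      set x : ℝ := |h * (α ^ (A + m) - α ^ (A + m')) * w| with hx
      have hxw : x = h * |α ^ (d + 1) - 1| * (|α| ^ A * w) * |α| ^ m' := by
        have h1 : (h : ℝ) * (α ^ (A + m) - α ^ (A + m')) * w =
            h * (α ^ (d + 1) - 1) * (α ^ A * w) * α ^ m' := by
          rw [hmd]
          ring
        rw [hx, h1, abs_mul, abs_mul, abs_mul, abs_mul, abs_pow, abs_pow, Nat.abs_cast,
          abs_of_pos hw]
      rw [hd]
      simp only [hG, Nat.succ_ne_zero, if_false]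
      have hFF := hF0 (s₀ (d + 1) + m' * Real.logb B |α|)
      have htriv : WW B R x ≤ 2 := by
        have := WW_le_two hB R x
        have := fac_pos hB R
        linarith
      have had : |α| - 1 ≤ |α ^ (d + 1) - 1| := by
        have h1 : |α| ^ 1 ≤ |α| ^ (d + 1) := pow_le_pow_right₀ hα.le (by omega)
        have h2 := abs_sub_abs_le_abs_sub (α ^ (d + 1)) 1
        rw [abs_pow, abs_one] at h2
        rw [pow_one] at h1
        linarith
      have had0 : 0 < |α ^ (d + 1) - 1| := by linarith
      have hx0pos : 0 < (h : ℝ) * |α ^ (d + 1) - 1| * (|α| ^ A * w) := by positivity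
      by_cases hi : m' < i0
      · rw [if_pos hi]
        have : (0 : ℝ) ≤ if M < m' + (d + 1) + c0 then 2 else 0 := by split_ifs <;> norm_num
        linarith
      · by_cases hc : M < m' + (d + 1) + c0
        · rw [if_pos hc]
          have : (0 : ℝ) ≤ if m' < i0 then 2 else 0 := by split_ifs <;> norm_num
          linarith
        · rw [if_neg hi, if_neg hc, add_zero, add_zero]
          have hlow : X0 ≤ x := by
            have g1 : |α| ^ i0 ≤ |α| ^ m' := pow_le_pow_right₀ hα.le (not_lt.1 hi)
            have g2 : |α| - 1 ≤ (h : ℝ) * |α ^ (d + 1) - 1| * (|α| ^ A * w) := by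
              have g3 : |α| - 1 ≤ (h : ℝ) * |α ^ (d + 1) - 1| := by nlinarith
              have g4 : 0 < (h : ℝ) * |α ^ (d + 1) - 1| := by positivity
              nlinarith
            rw [div_lt_iff₀ (by linarith)] at hi0
            rw [hxw]
            have g3 : 0 < |α| ^ m' := by positivity
            have g4 : 0 < |α| - 1 := by linarith
            calc X0 ≤ |α| ^ i0 * (|α| - 1) := hi0.le
              _ ≤ |α| ^ m' * (|α| - 1) := mul_le_mul_of_nonneg_right g1 g4.le
              _ ≤ |α| ^ m' * ((h : ℝ) * |α ^ (d + 1) - 1| * (|α| ^ A * w)) :=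
                  mul_le_mul_of_nonneg_left g2 g3.le
              _ = _ := by ring
          have hup : x < B ^ R := by
            have g1 : x ≤ 2 * (q : ℝ) * (|α| ^ (A + m) * w) := by
              have g2 : |α ^ (A + m) - α ^ (A + m')| ≤ 2 * |α| ^ (A + m) := by
                have g3 : |α ^ (A + m) - α ^ (A + m')| ≤ |α ^ (A + m)| + |α ^ (A + m')| := abs_sub _ _
                rw [abs_pow, abs_pow] at g3
                have g4 : |α| ^ (A + m') ≤ |α| ^ (A + m) := pow_le_pow_right₀ hα.le (by omega)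
                linarith
              rw [hx, abs_mul, abs_mul, Nat.abs_cast, abs_of_pos hw]
              have g5 : (h : ℝ) * |α ^ (A + m) - α ^ (A + m')| ≤ q * (2 * |α| ^ (A + m)) :=
                mul_le_mul hhq' g2 (abs_nonneg _) hq0.le
              calc (h : ℝ) * |α ^ (A + m) - α ^ (A + m')| * w ≤ q * (2 * |α| ^ (A + m)) * w :=
                    mul_le_mul_of_nonneg_right g5 hw.le
                _ = _ := by ring
            have g2 : 2 * (q : ℝ) * (|α| ^ (A + m) * w) * |α| ^ c0 ≤ B ^ R * (2 * q * |α| * B) := by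
              have g3 : |α| ^ (A + m) * |α| ^ c0 ≤ |α| ^ (A + M) := by
                rw [← pow_add]
                exact pow_le_pow_right₀ hα.le (by omega)
              calc 2 * (q : ℝ) * (|α| ^ (A + m) * w) * |α| ^ c0 =
                    (2 * q * w) * (|α| ^ (A + m) * |α| ^ c0) := by ring
                _ ≤ (2 * q * w) * |α| ^ (A + M) := mul_le_mul_of_nonneg_left g3 (by positivity)
                _ = 2 * q * (|α| ^ (A + M) * w) := by ring
                _ ≤ 2 * q * (|α| * B ^ (R + 1)) := mul_le_mul_of_nonneg_left hAM (by positivity)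
                _ = _ := by rw [pow_succ]; ring
            have g3 : 0 < |α| ^ c0 := by positivity
            have g4 : B ^ R * (2 * q * |α| * B) < B ^ R * |α| ^ c0 :=
              mul_lt_mul_of_pos_left hc0 (by positivity)
            have g5 := lt_of_le_of_lt g2 g4
            exact lt_of_le_of_lt g1 (lt_of_mul_lt_mul_right g5 g3.le)
          have g := hF1 x R hlow hup
          have hlog : Real.logb B x = s₀ (d + 1) + m' * Real.logb B |α| := by
            rw [hxw, Real.logb_mul hx0pos.ne' (by positivity), Real.logb_pow]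
          rw [hlog] at g
          exact g
    refine (Finset.sum_le_sum f1).trans ?_
    have f2 : ∑ k ∈ Finset.range (m + 1), G k (m - k) =
        ∑ m' ∈ Finset.range (m + 1), G (m - m') m' := by
      rw [← Finset.sum_range_reflect]
      refine Finset.sum_congr rfl fun j hj => ?_
      have := Finset.mem_range.1 hj
      have e1 : m + 1 - 1 - j = m - j := by omega
      have e2 : m - (m - j) = j := by omega
      rw [e1, e2]
    rw [f2]
    refine Finset.sum_le_sum_of_subset_of_nonneg ?_ fun m' _ _ => hG0 _ _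
    exact Finset.range_subset_range.2 (Nat.le_succ m)
  have e4 : ∑ m ∈ Finset.range M, ∑ k ∈ Finset.range (m + 1), G k (m - k) =
      ∑ d ∈ Finset.range M, ∑ i ∈ Finset.range (M - d), G d i :=
    Finset.sum_range_diag_flip M fun k i => G k i
  have hMn : (0 : ℝ) ≤ M := Nat.cast_nonneg _
  have e5 : ∀ d ∈ Finset.range M, ∑ i ∈ Finset.range (M - d), G d i ≤
      (if d = 0 then 2 * (M : ℝ) else 0) + (κ / 4 * M + K) := by
    intro d _
    by_cases hd : d = 0
    · simp only [hG, hd, if_true]
      rw [Finset.sum_const, Nat.sub_zero, Finset.card_range, nsmul_eq_mul]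
      have : 0 ≤ κ / 4 * M + K := by positivity
      linarith
    · simp only [hG, hd, if_false]
      rw [Finset.sum_add_distrib, Finset.sum_add_distrib, Finset.sum_add_distrib, zero_add,
        Finset.sum_const, Finset.card_range, nsmul_eq_mul]
      have g1 := hF2 (s₀ d) (M - d)
      have g2 : ((M - d : ℕ) : ℝ) ≤ M := by exact_mod_cast Nat.sub_le M d
      have g4 : ∑ i ∈ Finset.range (M - d), (if i < i0 then (2 : ℝ) else 0) ≤ 2 * i0 := by
        have h1 : ∑ i ∈ Finset.range (M - d), (if i < i0 then (2 : ℝ) else 0) =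
            2 * ∑ i ∈ Finset.range (M - d), (if i < i0 then (1 : ℝ) else 0) := by
          rw [Finset.mul_sum]
          exact Finset.sum_congr rfl fun i _ => by split_ifs <;> norm_num
        rw [h1, Finset.sum_boole]
        have : ((Finset.range (M - d)).filter (fun i => i < i0)).card ≤ i0 := by
          refine (Finset.card_le_card (t := Finset.range i0) fun i hi => ?_).trans
            (le_of_eq (Finset.card_range _))
          exact Finset.mem_range.2 (Finset.mem_filter.1 hi).2
        have : ((((Finset.range (M - d)).filter (fun i => i < i0)).card : ℕ) : ℝ) ≤ i0 := by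
          exact_mod_cast this
        linarith
      have g5 : ∑ i ∈ Finset.range (M - d), (if M < i + d + c0 then (2 : ℝ) else 0) ≤ 2 * c0 := by
        have h1 : ∑ i ∈ Finset.range (M - d), (if M < i + d + c0 then (2 : ℝ) else 0) =
            2 * ∑ i ∈ Finset.range (M - d), (if M < i + d + c0 then (1 : ℝ) else 0) := by
          rw [Finset.mul_sum]
          exact Finset.sum_congr rfl fun i _ => by split_ifs <;> norm_num
        rw [h1, Finset.sum_boole]
        have : ((Finset.range (M - d)).filter (fun i => M < i + d + c0)).card ≤ c0 := by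
          refine (Finset.card_le_card (t := Finset.Ico (M - d - c0) (M - d)) fun i hi => ?_).trans ?_
          · have h1 := Finset.mem_range.1 (Finset.mem_filter.1 hi).1
            have h2 := (Finset.mem_filter.1 hi).2
            rw [Finset.mem_Ico]
            omega
          · rw [Nat.card_Ico]
            omega
        have : ((((Finset.range (M - d)).filter (fun i => M < i + d + c0)).card : ℕ) : ℝ) ≤ c0 := by
          exact_mod_cast this
        linarith
      have g6 : ((M - d : ℕ) : ℝ) * (κ / 4 / 2) ≤ M * (κ / 4 / 2) :=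
        mul_le_mul_of_nonneg_right g2 (by positivity)
      have g7 : κ / 4 / 2 * ((M - d : ℕ) : ℝ) ≤ κ / 4 / 2 * M :=
        mul_le_mul_of_nonneg_left g2 (by positivity)
      rw [hK]
      linarith
  have e6 : ∑ d ∈ Finset.range M, ∑ i ∈ Finset.range (M - d), G d i ≤
      2 * M + M * (κ / 4 * M + K) := by
    refine (Finset.sum_le_sum e5).trans ?_
    rw [Finset.sum_add_distrib, Finset.sum_const, Finset.card_range, nsmul_eq_mul,
      Finset.sum_ite_eq']
    have : (if 0 ∈ Finset.range M then 2 * (M : ℝ) else 0) ≤ 2 * M := by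
      split_ifs
      · exact le_rfl
      · positivity
    linarith
  have e7 := (Finset.sum_le_sum e2).trans ((Finset.sum_le_sum e3).trans (le_of_eq e4))
  have e8 := mass_le hB φ R
  have e9 : (M : ℝ) * (∫ s in (0 : ℝ)..1, rho B φ R s) ≤ M * 2 :=
    mul_le_mul_of_nonneg_left (by linarith) hMn
  have e10 : (M : ℝ) * 2 + 2 * (2 * M + M * (κ / 4 * M + K)) ≤ κ * (M : ℝ) ^ 2 := by
    have f1 : 8 + 2 * K ≤ M * (κ / 2) := by
      have : (8 + 2 * K) * (2 / κ) * (κ / 2) < M * (κ / 2) :=
        mul_lt_mul_of_pos_right hMr (by positivity)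
      have h2 : (8 + 2 * K) * (2 / κ) * (κ / 2) = 8 + 2 * K := by field_simp
      linarith
    nlinarith
  linarith

end Pool.Agent.H534R3.Rota
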