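import Pool.Agent.H534R3.IM

/-! # The first moments of the imitation blocks -/

set_option autoImplicit false

open MeasureTheory Filter Topology
open scoped Real

namespace Pool.Agent.H534R3.Rota

open Pool.Agent.H534R3.UDist

theorem wi_pos {θ : ℝ} (hθ : 1 < θ) {h0 : ℕ} (hh0 : 1 ≤ h0) (n0 i : ℕ) : 0 < wi θ h0 n0 i := by
  have h1 : (1 : ℝ) ≤ h0 := by exact_mod_cast hh0
  have h2 : 0 < θ := by linarith
  rw [wi]
  positivity

theorem LF_ch {θ : ℝ} (hθ : 1 < θ) (M : ℕ) {h0 : ℕ} (hh0 : 1 ≤ h0) (n0 R : ℕ) (y0 u : ℝ) (i : ℕ)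
    (l : ℝ) :
    LF u (wi θ h0 n0 i) (ri θ M h0 n0 R y0 u i) (continuous_ri θ M h0 n0 R y0 u i) (ch l) =
      ee (l * y0) * GG (θ ^ M) ((y0 - u) / wi θ h0 n0 i) R (l * wi θ h0 n0 i) := by
  have hw := (wi_pos hθ hh0 n0 i).ne'
  rw [LF_apply, GG, ← intervalIntegral.integral_const_mul]
  congr 1
  funext s
  rw [ch_apply, ← mul_assoc, ← ee_add]
  congr 2
  field_simp
  ring

theorem conj_GG_zero (B y : ℝ) (R : ℕ) : (starRingEnd ℂ) (GG B y R 0) = GG B y R 0 := by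
  rw [GG_zero, Complex.conj_ofReal]

theorem coef_sign (B y : ℝ) (R : ℕ) (x z w ε : ℝ) (hz : |z| = x)
    (h : ‖GG B y R x - w * GG B y R 0‖ ≤ ε) : ‖GG B y R z - w * GG B y R 0‖ ≤ ε := by
  rcases abs_choice z with h1 | h1
  · rw [← hz, h1] at h
    exact h
  · have h2 : z = -x := by linarith
    rw [h2, GG_neg]
    have h3 : (starRingEnd ℂ) (GG B y R x) - w * GG B y R 0 =
        (starRingEnd ℂ) (GG B y R x - w * GG B y R 0) := by
      rw [map_sub, map_mul, Complex.conj_ofReal, conj_GG_zero]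
    rw [h3, RCLike.norm_conj]
    exact h

theorem abs_lw {θ : ℝ} (hθ : 1 < θ) (M : ℕ) {h0 : ℕ} (hh0 : 1 ≤ h0) (n0 d i k r h : ℕ)
    (hd : d = i + (M * k + r)) (l : ℝ) (hl : |l| = h * θ ^ (n0 + d)) :
    |l * wi θ h0 n0 i| = (h : ℝ) / h0 * θ ^ r * (θ ^ M) ^ k := by
  have h1 : (h0 : ℝ) ≠ 0 := by
    have : h0 ≠ 0 := by omega
    exact_mod_cast this
  have h2 : 0 < θ := by linarith
  rw [abs_mul, hl, abs_of_pos (wi_pos hθ hh0 n0 i), wi, hd, ← pow_mul]
  have h3 : θ ^ (n0 + (i + (M * k + r))) = θ ^ (n0 + i) * (θ ^ r * θ ^ (M * k)) := by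
    rw [← pow_add, ← pow_add]
    congr 1
    omega
  rw [h3]
  have h4 : θ ^ (n0 + i) ≠ 0 := by positivity
  field_simp

theorem first_moment {θ : ℝ} (hθ : 1 < θ) {M : ℕ} (hM : 1 ≤ M) (hB : 16 ≤ θ ^ M) {h0 : ℕ}
    (hh0 : 1 ≤ h0) (q : ℕ) (ε : ℝ) (hε : 0 < ε) :
    ∃ K0 k0 : ℕ, ∀ (p y0 u : ℝ), 0 ≤ p → p ≤ 1 → ∀ (n0 X h : ℕ), 1 ≤ h → h ≤ q →
      ∀ n, n0 + K0 ≤ n → n ≤ n0 + X → ∀ l : ℝ, |l| = h * θ ^ n →
      ‖EL θ M h0 n0 (X + k0) p y0 u (ch l) - ((p * WB θ M h0 h : ℝ) : ℂ) * ee (l * y0)‖ ≤ ε := by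
  have hθ0 : 0 < θ := by linarith
  have hM0 : (0 : ℝ) < M := by exact_mod_cast (by omega : 0 < M)
  have hsp := fun (h r : ℕ) => (wt_spec hB ((h : ℝ) / h0 * θ ^ r)).2.2 (ε / 4) (by positivity)
  choose kk hkk using hsp
  set k1 : ℕ := (Finset.range (q + 1)).sup fun h => (Finset.range M).sup fun r => kk h r with hk1
  have hkk1 : ∀ h ≤ q, ∀ r < M, kk h r ≤ k1 := by
    intro h hh r hr
    exact (Finset.le_sup (f := fun r => kk h r) (Finset.mem_range.2 hr)).trans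
      (Finset.le_sup (f := fun h => (Finset.range M).sup fun r => kk h r)
        (Finset.mem_range.2 (by omega)))
  obtain ⟨kg, hkg⟩ := pow_unbounded_of_one_lt (4 / ε) hθ
  refine ⟨M * (k1 + 1) + kg, k1, ?_⟩
  intro p y0 u hp0 hp1 n0 X h hh1 hhq n hn1 hn2 l hl
  obtain ⟨d, rfl⟩ : ∃ d, n = n0 + d := ⟨n - n0, by omega⟩
  have hhr : (1 : ℝ) ≤ h := by exact_mod_cast hh1
  have hMd : M ≤ d := by
    have : M * 1 ≤ M * (k1 + 1) := Nat.mul_le_mul_left _ (by omega)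
    omega
  set R := X + k1 with hR
  -- the generic part
  have g1 : ‖LF u (1 / θ ^ n0) (fun _ => 1) continuous_const (ch l)‖ ≤ ε / 4 := by
    have e1 : LF u (1 / θ ^ n0) (fun _ => 1) continuous_const (ch l) =
        ee (l * u) * ∫ s in (0 : ℝ)..1, ee ((l / θ ^ n0) * s) := by
      rw [LF_apply, ← intervalIntegral.integral_const_mul]
      congr 1
      funext s
      rw [ch_apply, Complex.ofReal_one, mul_one, ← ee_add]
      congr 1
      ring
    have hl0 : l ≠ 0 := by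
      intro h0'
      rw [h0', abs_zero] at hl
      have : 0 < (h : ℝ) * θ ^ (n0 + d) := by positivity
      linarith
    have e2 : l / θ ^ n0 ≠ 0 := div_ne_zero hl0 (by positivity)
    rw [e1, norm_mul, norm_ee, one_mul]
    refine (int_ee e2 0 1).trans ?_
    rw [abs_div, hl, abs_of_pos (show 0 < θ ^ n0 by positivity), pow_add]
    have e3 : (h : ℝ) * (θ ^ n0 * θ ^ d) / θ ^ n0 = h * θ ^ d := by
      field_simp
    rw [e3]
    have e4 : θ ^ kg ≤ θ ^ d := pow_le_pow_right₀ hθ.le (by omega)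
    have e5 : 4 / ε ≤ h * θ ^ d := by
      have : 0 < θ ^ d := by positivity
      nlinarith
    rw [div_le_iff₀ (by positivity)]
    rw [div_le_iff₀ hε] at e5
    linarith
  -- the biased parts
  have g2 : ∀ i ∈ Finset.range M,
      ‖((p / (M * mi θ M h0 n0 R y0 u i) : ℝ) : ℂ) *
        LF u (wi θ h0 n0 i) (ri θ M h0 n0 R y0 u i) (continuous_ri θ M h0 n0 R y0 u i) (ch l) -
        ((p / M * wt (θ ^ M) ((h : ℝ) / h0 * θ ^ ((d - i) % M)) : ℝ) : ℂ) * ee (l * y0)‖ ≤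
      2 / M * (ε / 4) := by
    intro i hi
    have hi' := Finset.mem_range.1 hi
    have hr := Nat.mod_lt (d - i) (show 0 < M by omega)
    have hdm := Nat.div_add_mod (d - i) M
    have hk : k1 ≤ (d - i) / M := by
      rw [Nat.le_div_iff_mul_le (by omega)]
      have : M * (k1 + 1) = k1 * M + M := by ring
      omega
    have hkX : (d - i) / M ≤ X := (Nat.div_le_self _ _).trans (by omega)
    have e1 := hkk h ((d - i) % M) ((d - i) / M) ((hkk1 h hhq _ hr).trans hk) R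
      (by
        have := hkk1 h hhq _ hr
        omega) ((y0 - u) / wi θ h0 n0 i)
    have e2 := coef_sign _ _ _ _ (l * wi θ h0 n0 i) _ _
      (abs_lw hθ M hh0 n0 d i ((d - i) / M) ((d - i) % M) h (by omega) l hl) e1
    have hmi := mi_ge hB h0 n0 R y0 u i
    have hmi0 : mi θ M h0 n0 R y0 u i ≠ 0 := by linarith
    have e3 : GG (θ ^ M) ((y0 - u) / wi θ h0 n0 i) R 0 = ((mi θ M h0 n0 R y0 u i : ℝ) : ℂ) := by
      rw [GG_zero]
      rfl
    rw [e3] at e2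
    rw [LF_ch hθ M hh0]
    have e4 : ((p / (M * mi θ M h0 n0 R y0 u i) : ℝ) : ℂ) *
        (ee (l * y0) * GG (θ ^ M) ((y0 - u) / wi θ h0 n0 i) R (l * wi θ h0 n0 i)) -
        ((p / M * wt (θ ^ M) ((h : ℝ) / h0 * θ ^ ((d - i) % M)) : ℝ) : ℂ) * ee (l * y0) =
        ((p / (M * mi θ M h0 n0 R y0 u i) : ℝ) : ℂ) * (ee (l * y0) *
        (GG (θ ^ M) ((y0 - u) / wi θ h0 n0 i) R (l * wi θ h0 n0 i) -
          wt (θ ^ M) ((h : ℝ) / h0 * θ ^ ((d - i) % M)) * ((mi θ M h0 n0 R y0 u i : ℝ) : ℂ))) := by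
      have hMc : (M : ℂ) ≠ 0 := by
        have : M ≠ 0 := by omega
        exact_mod_cast this
      have hmc : ((mi θ M h0 n0 R y0 u i : ℝ) : ℂ) ≠ 0 := by exact_mod_cast hmi0
      push_cast
      field_simp
    rw [e4, norm_mul, norm_mul, norm_ee, one_mul, Complex.norm_real, Real.norm_eq_abs,
      abs_of_nonneg (by positivity)]
    have e5 : p / (M * mi θ M h0 n0 R y0 u i) ≤ 2 / M := by
      rw [div_le_div_iff₀ (by positivity) hM0]
      nlinarith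
    exact mul_le_mul e5 e2 (norm_nonneg _) (by positivity)
  -- the sum of the limits
  have g3 : ∑ i ∈ Finset.range M,
      ((p / M * wt (θ ^ M) ((h : ℝ) / h0 * θ ^ ((d - i) % M)) : ℝ) : ℂ) * ee (l * y0) =
      ((p * WB θ M h0 h : ℝ) : ℂ) * ee (l * y0) := by
    rw [← Finset.sum_mul, ← Complex.ofReal_sum, ← Finset.mul_sum,
      sum_mod M d hM hMd (fun r => wt (θ ^ M) ((h : ℝ) / h0 * θ ^ r)), WB]
    congr 2
    ring
  rw [EL_apply, ← g3, add_sub_assoc, ← Finset.sum_sub_distrib]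
  refine (norm_add_le _ _).trans ?_
  have g4 := norm_sum_le_of_le _ g2
  rw [Finset.sum_const, Finset.card_range, nsmul_eq_mul] at g4
  have g5 : (M : ℝ) * (2 / M * (ε / 4)) = ε / 2 := by
    field_simp
    ring
  rw [g5] at g4
  have g6 : ‖((1 - p : ℝ) : ℂ) * LF u (1 / θ ^ n0) (fun _ => 1) continuous_const (ch l)‖ ≤
      1 * (ε / 4) := by
    rw [norm_mul, Complex.norm_real, Real.norm_eq_abs, abs_of_nonneg (by linarith)]
    exact mul_le_mul (by linarith) g1 (norm_nonneg _) zero_le_one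
  linarith

end Pool.Agent.H534R3.Rota
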