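import Mathlib

/-! # A `Π⁰₃` ideal which is not a Farah ideal

The ideal lives on the set of finite sequences of natural numbers (coded by natural numbers). It
consists of the sets `X` of nodes for which there is an `N` such that for every node `σ` outside the
finite tree `{σ | length σ < N, all entries < N}` only finitely many elements of `X` extend `σ` and at
most `N` of the immediate successors of `σ` are extended by elements of `X`. -/

set_option autoImplicit false
set_option linter.unusedSectionVars false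

open Filter Topology

namespace Pool.Agent.H534R3.Farah

/-- `σ` is outside the `N`-th finite tree. -/
def Out (N : ℕ) (σ : List ℕ) : Prop := ¬ (σ.length < N ∧ ∀ a ∈ σ, a < N)

/-- Branching at most `N` outside the `N`-th finite tree. -/
def Good (N : ℕ) (X : Set (List ℕ)) : Prop :=
  ∀ σ, Out N σ → ∀ F : Finset ℕ, (∀ n ∈ F, ∃ τ ∈ X, σ ++ [n] <+: τ) → F.card ≤ N

/-- The elements of `X` above `σ`. -/
def above (X : Set (List ℕ)) (σ : List ℕ) : Set (List ℕ) := {τ | τ ∈ X ∧ σ <+: τ}

/-- Finiteness above each node outside the `N`-th finite tree. -/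
def Fins (N : ℕ) (X : Set (List ℕ)) : Prop := ∀ σ, Out N σ → (above X σ).Finite

/-- The ideal, as a family of sets of nodes. -/
def Idl (X : Set (List ℕ)) : Prop := ∃ N, Good N X ∧ Fins N X

theorem Out.mono {N M : ℕ} (h : N ≤ M) {σ : List ℕ} (hσ : Out M σ) : Out N σ := fun h' =>
  hσ ⟨h'.1.trans_le h, fun a ha => (h'.2 a ha).trans_le h⟩

theorem Out.append {N : ℕ} {σ : List ℕ} (hσ : Out N σ) (l : List ℕ) : Out N (σ ++ l) := fun h =>
  hσ ⟨by have := h.1; rw [List.length_append] at this; omega,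
    fun a ha => h.2 a (List.mem_append_left _ ha)⟩

theorem Good.mono_set {N : ℕ} {X Y : Set (List ℕ)} (h : Good N X) (hY : Y ⊆ X) : Good N Y :=
  fun σ hσ F hF => h σ hσ F fun n hn => by
    obtain ⟨τ, hτ, h'⟩ := hF n hn
    exact ⟨τ, hY hτ, h'⟩

theorem above_mono {X Y : Set (List ℕ)} (h : Y ⊆ X) (σ : List ℕ) : above Y σ ⊆ above X σ :=
  fun _ hτ => ⟨h hτ.1, hτ.2⟩

theorem Idl.mono {X Y : Set (List ℕ)} (h : Idl X) (hY : Y ⊆ X) : Idl Y := by
  obtain ⟨N, h1, h2⟩ := h
  exact ⟨N, h1.mono_set hY, fun σ hσ => (h2 σ hσ).subset (above_mono hY σ)⟩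

theorem Idl.union {X Y : Set (List ℕ)} (hX : Idl X) (hY : Idl Y) : Idl (X ∪ Y) := by
  classical
  obtain ⟨N, h1, h2⟩ := hX
  obtain ⟨M, h3, h4⟩ := hY
  refine ⟨N + M, fun σ hσ F hF => ?_, fun σ hσ => ?_⟩
  · have hN : Out N σ := hσ.mono (by omega)
    have hM : Out M σ := hσ.mono (by omega)
    have hA := h1 σ hN (F.filter fun n => ∃ τ ∈ X, σ ++ [n] <+: τ) (by simp)
    have hB := h3 σ hM (F.filter fun n => ∃ τ ∈ Y, σ ++ [n] <+: τ) (by simp)
    have hU : F ⊆ (F.filter fun n => ∃ τ ∈ X, σ ++ [n] <+: τ) ∪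
        (F.filter fun n => ∃ τ ∈ Y, σ ++ [n] <+: τ) := by
      intro n hn
      obtain ⟨τ, hτ | hτ, h⟩ := hF n hn
      · exact Finset.mem_union_left _ (Finset.mem_filter.2 ⟨hn, τ, hτ, h⟩)
      · exact Finset.mem_union_right _ (Finset.mem_filter.2 ⟨hn, τ, hτ, h⟩)
    calc F.card ≤ _ := Finset.card_le_card hU
      _ ≤ _ := Finset.card_union_le _ _
      _ ≤ N + M := add_le_add hA hB
  · refine ((h2 σ (hσ.mono (by omega))).union (h4 σ (hσ.mono (by omega)))).subset ?_
    rintro τ ⟨hτ | hτ, h⟩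
    · exact Or.inl ⟨hτ, h⟩
    · exact Or.inr ⟨hτ, h⟩

theorem Idl.of_finite {X : Set (List ℕ)} (hX : X.Finite) : Idl X := by
  classical
  refine ⟨hX.toFinset.card, fun σ _ F hF => ?_, fun σ _ => hX.subset fun τ h => h.1⟩
  choose! g hg1 hg2 using hF
  refine Finset.card_le_card_of_injOn g (fun n hn => hX.mem_toFinset.2 (hg1 n hn)) ?_
  intro n hn m hm hnm
  have h1 := hg2 n hn
  have h2 := hg2 m hm
  rw [hnm] at h1
  have := List.prefix_of_prefix_length_le h1 h2 (by simp)
  have := this.eq_of_length (by simp)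
  simpa using this

/-- The finite/branching dichotomy that makes the ideal `Π⁰₃`. -/
theorem Idl.fins {X : Set (List ℕ)} (hX : Idl X) {N : ℕ} (hN : Good N X) : Fins N X := by
  classical
  obtain ⟨M, -, hM⟩ := hX
  have key : ∀ k, ∀ σ : List ℕ, M ≤ σ.length + k → Out N σ → (above X σ).Finite := by
    intro k
    induction k with
    | zero =>
      intro σ hσ _
      exact hM σ fun h => by omega
    | succ k ih =>
      intro σ hσ hO
      set A : Set ℕ := {n | ∃ τ ∈ X, σ ++ [n] <+: τ} with hA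
      have hAf : A.Finite := by
        by_contra hinf
        obtain ⟨F, hF, hc⟩ := Set.Infinite.exists_subset_card_eq hinf (N + 1)
        have := hN σ hO F fun n hn => hF hn
        omega
      have hsub : above X σ ⊆ {σ} ∪ ⋃ n ∈ A, above X (σ ++ [n]) := by
        rintro τ ⟨hτ, h⟩
        obtain ⟨l, rfl⟩ := h
        rcases l with - | ⟨n, l⟩
        · left; simp
        · right
          have h1 : σ ++ [n] <+: σ ++ n :: l := ⟨l, by simp⟩
          exact Set.mem_biUnion (show n ∈ A from ⟨_, hτ, h1⟩) ⟨hτ, h1⟩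
      refine Set.Finite.subset ((Set.finite_singleton σ).union (hAf.biUnion fun n _ => ?_)) hsub
      exact ih (σ ++ [n]) (by simp; omega) (hO.append _)
  exact fun σ hσ => key M σ (by omega) hσ

/-! ### Topology -/

/-- The coding of nodes. -/
noncomputable def e : List ℕ ≃ ℕ := Denumerable.eqv (List ℕ)

/-- The set of nodes coded by `x`. -/
def S (x : ℕ → Bool) : Set (List ℕ) := {τ | x (e τ) = true}

/-- `Fσ` sets. -/
def IsFs {T : Type} [TopologicalSpace T] (s : Set T) : Prop :=
  ∃ D : ℕ → Set T, (∀ j, IsClosed (D j)) ∧ s = ⋃ j, D j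

theorem IsFs.union {T : Type} [TopologicalSpace T] {s t : Set T} (hs : IsFs s) (ht : IsFs t) :
    IsFs (s ∪ t) := by
  obtain ⟨D, hD, rfl⟩ := hs
  obtain ⟨E, hE, rfl⟩ := ht
  exact ⟨fun j => D j ∪ E j, fun j => (hD j).union (hE j), (Set.iUnion_union_distrib D E).symm⟩

theorem isFs_of_isOpen {T : Type} [TopologicalSpace T] [TopologicalSpace.MetrizableSpace T]
    {s : Set T} (hs : IsOpen s) : IsFs s := by
  letI := TopologicalSpace.metrizableSpaceMetric T
  have h := hs.isClosed_compl.isGδ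
  rw [isGδ_iff_eq_iInter_nat] at h
  obtain ⟨f, hf, h⟩ := h
  refine ⟨fun j => (f j)ᶜ, fun j => (hf j).isClosed_compl, ?_⟩
  rw [← compl_compl s, h, Set.compl_iInter]

theorem isOpen_mem (τ : List ℕ) : IsOpen {x : ℕ → Bool | τ ∈ S x} := by
  have : {x : ℕ → Bool | τ ∈ S x} = (fun x : ℕ → Bool => x (e τ)) ⁻¹' {true} := rfl
  rw [this]
  exact (isOpen_discrete _).preimage (continuous_apply _)

theorem isClosed_mem (τ : List ℕ) : IsClosed {x : ℕ → Bool | τ ∈ S x} := by
  have : {x : ℕ → Bool | τ ∈ S x} = (fun x : ℕ → Bool => x (e τ)) ⁻¹' {true} := rfl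
  rw [this]
  exact (isClosed_discrete _).preimage (continuous_apply _)

theorem isClosed_good (N : ℕ) : IsClosed {x : ℕ → Bool | Good N (S x)} := by
  have : {x : ℕ → Bool | Good N (S x)} = ⋂ σ : List ℕ, ⋂ _ : Out N σ, ⋂ F : Finset ℕ,
      ⋂ _ : N < F.card, {x | ∀ n ∈ F, ∃ τ ∈ S x, σ ++ [n] <+: τ}ᶜ := by
    ext x
    simp only [Good, Set.mem_iInter, Set.mem_compl_iff, Set.mem_ofPred_eq]
    constructor
    · intro h σ hσ F hF h'
      have := h σ hσ F h'
      omega
    · intro h σ hσ F hF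
      by_contra hc
      exact h σ hσ F (by omega) hF
  rw [this]
  refine isClosed_iInter fun σ => isClosed_iInter fun _ => isClosed_iInter fun F =>
    isClosed_iInter fun _ => IsOpen.isClosed_compl ?_
  have : {x : ℕ → Bool | ∀ n ∈ F, ∃ τ ∈ S x, σ ++ [n] <+: τ} =
      ⋂ n ∈ F, ⋃ τ : List ℕ, ⋃ _ : σ ++ [n] <+: τ, {x | τ ∈ S x} := by
    ext x
    simp only [Set.mem_iInter, Set.mem_iUnion, Set.mem_ofPred_eq, exists_prop]
    constructor
    · intro h n hn
      obtain ⟨τ, h1, h2⟩ := h n hn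
      exact ⟨τ, h2, h1⟩
    · intro h n hn
      obtain ⟨τ, h1, h2⟩ := h n hn
      exact ⟨τ, h2, h1⟩
  rw [this]
  exact isOpen_biInter_finset fun n _ => isOpen_iUnion fun τ => isOpen_iUnion fun _ => isOpen_mem τ

theorem isFs_above (σ : List ℕ) : IsFs {x : ℕ → Bool | (above (S x) σ).Finite} := by
  refine ⟨fun m => {x | ∀ τ, σ <+: τ → m ≤ e τ → τ ∉ S x}, fun m => ?_, ?_⟩
  · have : {x : ℕ → Bool | ∀ τ, σ <+: τ → m ≤ e τ → τ ∉ S x} =
        ⋂ τ : List ℕ, ⋂ _ : σ <+: τ, ⋂ _ : m ≤ e τ, {x | τ ∈ S x}ᶜ := by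
      ext x; simp
    change IsClosed {x : ℕ → Bool | ∀ τ, σ <+: τ → m ≤ e τ → τ ∉ S x}
    rw [this]
    exact isClosed_iInter fun τ => isClosed_iInter fun _ => isClosed_iInter fun _ =>
      (isOpen_mem τ).isClosed_compl
  · ext x
    simp only [Set.mem_iUnion, Set.mem_ofPred_eq]
    constructor
    · intro h
      obtain ⟨b, hb⟩ := (h.image e).bddAbove
      refine ⟨b + 1, fun τ h1 h2 h3 => ?_⟩
      have := hb (Set.mem_image_of_mem e (show τ ∈ above (S x) σ from ⟨h3, h1⟩))
      omega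
    · rintro ⟨m, h⟩
      refine Set.Finite.of_finite_image (f := e) ((Set.finite_Iio m).subset ?_)
        e.injective.injOn
      rintro _ ⟨τ, ⟨h1, h2⟩, rfl⟩
      by_contra h3
      exact h τ h2 (not_lt.1 h3) h1

theorem exists_pi3 : ∃ C : ℕ → ℕ → Set (ℕ → Bool), (∀ i j, IsClosed (C i j)) ∧
    {x : ℕ → Bool | Idl (S x)} = ⋂ i, ⋃ j, C i j := by
  classical
  -- the sets to be intersected
  let P : Option (ℕ × List ℕ) → Set (ℕ → Bool) := fun o => match o with
    | none => ⋃ N, {x | Good N (S x)}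
    | some (N, σ) => {x | Good N (S x)}ᶜ ∪ ({x | (above (S x) σ).Finite} ∪ {_x | ¬ Out N σ})
  have hP : ∀ o, IsFs (P o) := by
    rintro (- | ⟨N, σ⟩)
    · exact ⟨_, isClosed_good, rfl⟩
    · refine (isFs_of_isOpen (isClosed_good N).isOpen_compl).union ((isFs_above σ).union ?_)
      refine ⟨fun _ => {_x | ¬ Out N σ}, fun _ => ?_, (Set.iUnion_const _).symm⟩
      by_cases h : Out N σ
      · simp [h]
      · simp [h]
  have hI : {x : ℕ → Bool | Idl (S x)} = ⋂ o, P o := by
    ext x
    simp only [Set.mem_ofPred_eq, Set.mem_iInter]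
    constructor
    · rintro hx (- | ⟨N, σ⟩)
      · obtain ⟨N, hN, -⟩ := hx
        exact Set.mem_iUnion.2 ⟨N, hN⟩
      · by_cases h1 : Good N (S x)
        · by_cases h2 : Out N σ
          · exact Or.inr (Or.inl (hx.fins h1 σ h2))
          · exact Or.inr (Or.inr h2)
        · exact Or.inl h1
    · intro h
      obtain ⟨N, hN⟩ := Set.mem_iUnion.1 (h none)
      refine ⟨N, hN, fun σ hσ => ?_⟩
      rcases h (some (N, σ)) with h | h | h
      · exact absurd hN h
      · exact h
      · exact absurd hσ h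
  obtain ⟨g, hg⟩ := exists_surjective_nat (Option (ℕ × List ℕ))
  choose D hD hD' using hP
  refine ⟨fun i j => D (g i) j, fun i j => hD _ _, ?_⟩
  rw [hI]
  simp_rw [← hD']
  exact (hg.iInter_comp P).symm

/-! ### The Baire category argument -/

/-- The nodes `s ++ n :: u` with `u` an initial segment of the list coded by `y n`. -/
def XX (s : List ℕ) (y : ℕ → ℕ) : Set (List ℕ) :=
  {τ | ∃ n u, τ = s ++ n :: u ∧ u <+: e.symm (y n)}

open Classical in
/-- The code of a set of nodes. -/
noncomputable def code (X : Set (List ℕ)) : ℕ → Bool := fun m => decide (e.symm m ∈ X)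

theorem S_code (X : Set (List ℕ)) : S (code X) = X := by
  ext τ; simp [S, code]

/-- Tails. -/
def tl (k : ℕ) (x : ℕ → Bool) : ℕ → Bool := fun m => x m && decide (k ≤ m)

theorem continuous_tl (k : ℕ) : Continuous (tl k) :=
  continuous_pi fun m => (continuous_of_discreteTopology (f := fun b : Bool =>
    b && decide (k ≤ m))).comp (continuous_apply m)

theorem code_mono {X Y : Set (List ℕ)} (h : X ⊆ Y) {k l : ℕ} (hkl : l ≤ k) :
    tl k (code X) ≤ tl l (code Y) := by
  classical
  intro m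
  simp only [tl, code]
  rw [Bool.le_iff_imp]
  simp only [Bool.and_eq_true, decide_eq_true_eq]
  exact fun h' => ⟨h h'.1, hkl.trans h'.2⟩

theorem exists_bound (s : List ℕ) : ∃ M, ∀ a ∈ s, a < M := by
  induction s with
  | nil => exact ⟨0, by simp⟩
  | cons b s ih =>
    obtain ⟨M, hM⟩ := ih
    refine ⟨max M (b + 1), fun a ha => ?_⟩
    rcases List.mem_cons.1 ha with rfl | ha
    · exact lt_max_of_lt_right (Nat.lt_succ_self _)
    · exact lt_max_of_lt_left (hM a ha)

theorem key_out {s σ u : List ℕ} {n N : ℕ} (hN : s.length < N) (hN' : ∀ a ∈ s, a < N)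
    (h : σ <+: s ++ n :: u) (hO : Out N σ) : s ++ [n] <+: σ := by
  have h1 : s ++ [n] <+: s ++ n :: u := ⟨u, by simp⟩
  rcases List.prefix_or_prefix_of_prefix h h1 with h2 | h2
  · rcases Nat.lt_or_ge s.length σ.length with h3 | h3
    · have h4 : σ = s ++ [n] := h2.eq_of_length (le_antisymm h2.length_le (by simp; omega))
      rw [h4]
    · have h4 : σ <+: s := List.prefix_of_prefix_length_le h2 (List.prefix_append _ _) h3
      exact absurd ⟨h3.trans_lt hN, fun a ha => hN' a (h4.subset ha)⟩ hO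
  · exact h2

theorem idl_XX (s : List ℕ) (y : ℕ → ℕ) : Idl (XX s y) := by
  classical
  obtain ⟨M, hM⟩ := exists_bound s
  set N := max (s.length + 1) M with hN
  have h1 : s.length < N := lt_max_of_lt_left (Nat.lt_succ_self _)
  have h2 : ∀ a ∈ s, a < N := fun a ha => (hM a ha).trans_le (le_max_right _ _)
  -- all the elements above `σ` are initial segments of one node
  have h3 : ∀ σ, Out N σ → ∃ v, ∀ τ ∈ XX s y, σ <+: τ → τ <+: v := by
    intro σ hσ
    by_cases h : ∃ τ ∈ XX s y, σ <+: τ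
    · obtain ⟨_, ⟨n, u, rfl, hu⟩, h⟩ := h
      refine ⟨s ++ n :: e.symm (y n), ?_⟩
      rintro _ ⟨n', u', rfl, hu'⟩ h'
      have h4 := key_out h1 h2 h hσ
      have h5 := key_out h1 h2 h' hσ
      have h6 := (List.prefix_of_prefix_length_le h4 h5 (by simp)).eq_of_length (by simp)
      have h7 : n = n' := by simpa using h6
      subst h7
      obtain ⟨w, hw⟩ := hu'
      exact ⟨w, by simp [← hw]⟩
    · push Not at h
      exact ⟨[], fun τ hτ h' => absurd h' (h τ hτ)⟩
  refine ⟨N, fun σ hσ F hF => ?_, fun σ hσ => ?_⟩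
  · obtain ⟨v, hv⟩ := h3 σ hσ
    refine le_trans (Finset.card_le_one.2 fun a ha b hb => ?_) (by omega : 1 ≤ N)
    obtain ⟨τ, hτ, h4⟩ := hF a ha
    obtain ⟨τ', hτ', h5⟩ := hF b hb
    have h6 := h4.trans (hv τ hτ ((List.prefix_append _ _).trans h4))
    have h7 := h5.trans (hv τ' hτ' ((List.prefix_append _ _).trans h5))
    have h8 := (List.prefix_of_prefix_length_le h6 h7 (by simp)).eq_of_length (by simp)
    simpa using h8
  · obtain ⟨v, hv⟩ := h3 σ hσ
    refine (List.finite_toSet v.inits).subset ?_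
    rintro τ ⟨hτ, h⟩
    exact (List.mem_inits _ _).2 (hv τ hτ h)

theorem continuous_XX (s : List ℕ) : Continuous fun y : ℕ → ℕ => code (XX s y) := by
  classical
  refine continuous_pi fun m => ?_
  by_cases h : ∃ n u, e.symm m = s ++ n :: u
  · obtain ⟨n, u, h⟩ := h
    have : (fun y : ℕ → ℕ => code (XX s y) m) =
        (fun a : ℕ => decide (u <+: e.symm a)) ∘ fun y : ℕ → ℕ => y n := by
      funext y
      simp only [code, Function.comp]
      congr 1
      rw [h, eq_iff_iff]
      constructor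
      · rintro ⟨n', u', h1, h2⟩
        simp only [List.append_cancel_left_eq, List.cons.injEq] at h1
        obtain ⟨rfl, rfl⟩ := h1
        exact h2
      · intro h'
        exact ⟨n, u, rfl, h'⟩
    rw [this]
    exact continuous_of_discreteTopology.comp (continuous_apply n)
  · have : (fun y : ℕ → ℕ => code (XX s y) m) = fun _ => false := by
      funext y
      simp only [code, decide_eq_false_iff_not]
      rintro ⟨n, u, h1, -⟩
      exact h ⟨n, u, h1⟩
    rw [this]
    exact continuous_const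

/-- Initial segments of a branch. -/
def br (f : ℕ → ℕ) (j : ℕ) : List ℕ := (List.range j).map f

theorem length_br (f : ℕ → ℕ) (j : ℕ) : (br f j).length = j := by simp [br]

theorem br_add (f : ℕ → ℕ) (j i : ℕ) : br f (j + i) = br f j ++ (List.range i).map
    (fun l => f (j + l)) := by
  rw [br, br, List.range_add, List.map_append, List.map_map]
  rfl

/-- The branch as a set of nodes. -/
def ZZ (f : ℕ → ℕ) : Set (List ℕ) := {τ | ∃ j, τ = br f j}

theorem update_mem (O : Set (ℕ → ℕ)) (hO : IsOpen O) (y : ℕ → ℕ) (hy : y ∈ O) :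
    ∃ n, ∀ v, Function.update y n v ∈ O := by
  by_contra hcon
  push Not at hcon
  choose v hv using hcon
  have h1 : Tendsto (fun n => Function.update y n (v n)) atTop (𝓝 y) := by
    rw [tendsto_pi_nhds]
    intro j
    refine tendsto_const_nhds.congr' ?_
    filter_upwards [eventually_gt_atTop j] with n hn
    rw [Function.update_of_ne (by omega)]
  obtain ⟨n, hn⟩ := (h1.eventually (hO.mem_nhds hy)).exists
  exact hv n hn

theorem step (K : Set (ℕ → Bool)) (hK : IsClosed K)
    (hher : ∀ x ∈ K, ∀ y : ℕ → Bool, y ≤ x → y ∈ K)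
    (hI : ∀ X, Idl X → ∃ k, tl k (code X) ∈ K) (s : List ℕ) :
    ∃ n, ∀ f : ℕ → ℕ, br f (s.length + 1) = s ++ [n] → ∃ k, tl k (code (ZZ f)) ∈ K := by
  classical
  have hcl : ∀ k, IsClosed {y : ℕ → ℕ | tl k (code (XX s y)) ∈ K} := fun k =>
    hK.preimage ((continuous_tl k).comp (continuous_XX s))
  have hun : ⋃ k, {y : ℕ → ℕ | tl k (code (XX s y)) ∈ K} = Set.univ := by
    refine Set.eq_univ_of_forall fun y => ?_
    exact Set.mem_iUnion.2 (hI _ (idl_XX s y))
  obtain ⟨k, y, hy⟩ := nonempty_interior_of_iUnion_of_closed hcl hun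
  obtain ⟨n, hn⟩ := update_mem _ isOpen_interior y hy
  refine ⟨n, fun f hf => ?_⟩
  have hmem : ∀ v, tl k (code (XX s (Function.update y n v))) ∈ K := fun v =>
    interior_subset (s := {y : ℕ → ℕ | tl k (code (XX s y)) ∈ K}) (hn v)
  -- finite parts of the branch
  have h1 : ∀ l, tl k (code {τ | ∃ j ≤ l, τ = br f (s.length + 1 + j)}) ∈ K := by
    intro l
    refine hher _ (hmem (e ((List.range l).map fun i => f (s.length + 1 + i)))) _
      (code_mono ?_ le_rfl)
    rintro _ ⟨j, hj, rfl⟩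
    refine ⟨n, (List.range j).map fun i => f (s.length + 1 + i), ?_, ?_⟩
    · rw [br_add, hf]
      simp
    · rw [Function.update_self, Equiv.symm_apply_apply]
      obtain ⟨i, rfl⟩ := Nat.exists_eq_add_of_le hj
      rw [List.range_add, List.map_append]
      exact List.prefix_append _ _
  have h2 : Tendsto (fun l => tl k (code {τ | ∃ j ≤ l, τ = br f (s.length + 1 + j)})) atTop
      (𝓝 (tl k (code {τ | ∃ j, τ = br f (s.length + 1 + j)}))) := by
    refine ((continuous_tl k).tendsto _).comp ?_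
    rw [tendsto_pi_nhds]
    intro m
    refine tendsto_const_nhds.congr' ?_
    by_cases h : ∃ j, e.symm m = br f (s.length + 1 + j)
    · obtain ⟨j, hj⟩ := h
      filter_upwards [eventually_ge_atTop j] with l hl
      have ha : e.symm m ∈ {τ | ∃ j ≤ l, τ = br f (s.length + 1 + j)} := ⟨j, hl, hj⟩
      have hb : e.symm m ∈ {τ | ∃ j, τ = br f (s.length + 1 + j)} := ⟨j, hj⟩
      simp only [code, ha, hb]
    · filter_upwards with l
      have ha : e.symm m ∉ {τ | ∃ j ≤ l, τ = br f (s.length + 1 + j)} :=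
        fun ⟨j, _, hj⟩ => h ⟨j, hj⟩
      have hb : e.symm m ∉ {τ | ∃ j, τ = br f (s.length + 1 + j)} := h
      simp only [code, ha, hb]
  have h3 : tl k (code {τ | ∃ j, τ = br f (s.length + 1 + j)}) ∈ K :=
    hK.mem_of_tendsto h2 (Eventually.of_forall h1)
  obtain ⟨b, hb⟩ := ((Set.finite_Iic s.length).image fun j => e (br f j)).bddAbove
  refine ⟨max k (b + 1), hher _ h3 _ ?_⟩
  intro m
  simp only [tl, code]
  rw [Bool.le_iff_imp]
  simp only [Bool.and_eq_true, decide_eq_true_eq]
  rintro ⟨⟨j, hj⟩, hm⟩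
  refine ⟨?_, (le_max_left _ _).trans hm⟩
  have hlt : s.length < j := by
    by_contra hc
    have := hb (Set.mem_image_of_mem _ (Set.mem_Iic.2 (not_lt.1 hc)))
    simp only [← hj, Equiv.apply_symm_apply] at this
    have := (le_max_right k (b + 1)).trans hm
    omega
  exact ⟨j - (s.length + 1), by rw [hj]; congr 1; omega⟩

theorem not_idl_ZZ (f : ℕ → ℕ) : ¬ Idl (ZZ f) := by
  rintro ⟨N, -, h⟩
  refine Set.infinite_of_injective_forall_mem (f := fun j => br f (N + j)) ?_ ?_
    (h (br f N) (fun h' => by rw [length_br] at h'; omega))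
  · intro i j hij
    have := congrArg List.length hij
    simpa [length_br] using this
  · intro j
    refine ⟨⟨_, rfl⟩, ?_⟩
    rw [br_add]
    exact List.prefix_append _ _

theorem main (K : ℕ → Set (ℕ → Bool)) (hK : ∀ n, IsClosed (K n))
    (hher : ∀ n, ∀ x ∈ K n, ∀ y : ℕ → Bool, y ≤ x → y ∈ K n)
    (hI : ∀ X, Idl X ↔ ∀ n, ∃ k, tl k (code X) ∈ K n) : False := by
  choose m hm using fun (n : ℕ) (s : List ℕ) =>
    step (K n) (hK n) (hher n) (fun X hX => (hI X).1 hX n) s
  let ss : ℕ → List ℕ := fun n => Nat.rec [] (fun n s => s ++ [m n s]) n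
  let f : ℕ → ℕ := fun n => m n (ss n)
  have hbr : ∀ n, br f n = ss n := by
    intro n
    induction n with
    | zero => rfl
    | succ n ih =>
      rw [br, List.range_succ, List.map_append]
      change br f n ++ [f n] = ss n ++ [m n (ss n)]
      rw [ih]
  refine not_idl_ZZ f ((hI _).2 fun n => hm n (ss n) f ?_)
  have hl : (ss n).length = n := by rw [← hbr, length_br]
  rw [hl]
  exact hbr (n + 1)

end Pool.Agent.H534R3.Farah
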