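import Pool.Agent.H534R3.Dens

/-! # The spectrum of a Riesz density centred at a point -/

set_option autoImplicit false

open MeasureTheory Filter Topology
open scoped Real

namespace Pool.Agent.H534R3.Rota

open Pool.Agent.H534R3.UDist

/-- The phases of the density centred at `y`. -/
noncomputable def ph (B y : ℝ) (r : ℕ) : ℝ := -(B ^ (r + 1) * y)

/-- The Fourier coefficients of the density centred at `y`. -/
noncomputable def GG (B y : ℝ) (R : ℕ) (x : ℝ) : ℂ :=
  ∫ s in (0 : ℝ)..1, ee (x * (s - y)) * ((rho B (ph B y) R s : ℝ) : ℂ)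

theorem continuous_ggi (B y : ℝ) (R : ℕ) (x : ℝ) :
    Continuous fun s : ℝ => ee (x * (s - y)) * ((rho B (ph B y) R s : ℝ) : ℂ) :=
  (continuous_ee.comp (by fun_prop)).mul (Complex.continuous_ofReal.comp (continuous_rho B _ R))

theorem GG_le (B y : ℝ) (R : ℕ) (x : ℝ) : ‖GG B y R x‖ ≤ WW B R x := by
  have h1 : GG B y R x =
      ee (-(x * y)) * ∫ s in (0 : ℝ)..1, ee (x * s) * ((rho B (ph B y) R s : ℝ) : ℂ) := by
    rw [GG, ← intervalIntegral.integral_const_mul]
    congr 1
    funext s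
    rw [← mul_assoc, ← ee_add]
    congr 2
    ring
  rw [h1, norm_mul, norm_ee, one_mul]
  exact int_rho _ R x

theorem GG_succ (B y : ℝ) (R : ℕ) (x : ℝ) : GG B y (R + 1) x = GG B y R x +
    (1 / 2) * GG B y R (x + B ^ (R + 1)) + (1 / 2) * GG B y R (x - B ^ (R + 1)) := by
  have hc := continuous_ggi B y R
  rw [GG, GG, GG, GG, ← intervalIntegral.integral_const_mul, ← intervalIntegral.integral_const_mul,
    ← intervalIntegral.integral_add, ← intervalIntegral.integral_add]
  · congr 1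
    funext s
    rw [rho_succ, Complex.ofReal_mul, Complex.ofReal_add, cos_ee, Complex.ofReal_one]
    have e1 : ee ((x + B ^ (R + 1)) * (s - y)) =
        ee (x * (s - y)) * ee (B ^ (R + 1) * s + ph B y R) := by
      rw [← ee_add]
      congr 1
      rw [ph]
      ring
    have e2 : ee ((x - B ^ (R + 1)) * (s - y)) =
        ee (x * (s - y)) * ee (-(B ^ (R + 1) * s + ph B y R)) := by
      rw [← ee_add]
      congr 1
      rw [ph]
      ring
    rw [e1, e2]
    ring
  · exact ((hc _).add ((hc _).const_mul _)).intervalIntegrable _ _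
  · exact ((hc _).const_mul _).intervalIntegrable _ _
  · exact (hc _).intervalIntegrable _ _
  · exact ((hc _).const_mul _).intervalIntegrable _ _

theorem GG_zero (B y : ℝ) (R : ℕ) :
    GG B y R 0 = ((∫ s in (0 : ℝ)..1, rho B (ph B y) R s : ℝ) : ℂ) := by
  rw [GG, ← intervalIntegral.integral_ofReal]
  congr 1
  funext s
  rw [zero_mul, ee_zero, one_mul]

theorem GG_far {B : ℝ} (hB : 16 ≤ B) (y : ℝ) (r : ℕ) (z : ℝ) (hz : B ^ (r + 1) * (1 / 2) ≤ |z|) :
    ‖GG B y r z‖ ≤ (1 / 8) * (4 / B) ^ r := by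
  have hf := fac_pos hB r
  refine (GG_le B y r z).trans ((far_term hB r z (1 / 2) (by norm_num) (by linarith) hz).trans ?_)
  rw [div_eq_mul_one_div, mul_comm]
  refine mul_le_mul_of_nonneg_right ?_ hf.le
  exact one_div_le_one_div_of_le (by norm_num) (by linarith)

/-- The digit. -/
noncomputable def dig (v : ℝ) : ℝ := if 1 / 2 ≤ v then 1 else if v ≤ -(1 / 2) then -1 else 0

/-- The factor of the digit. -/
noncomputable def dfac (v : ℝ) : ℝ := if 1 / 2 ≤ v then 1 / 2 else if v ≤ -(1 / 2) then 1 / 2 else 1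

/-- The orbit of the expansion. -/
noncomputable def orb (B v : ℝ) : ℕ → ℝ
  | 0 => v
  | t + 1 => B * (orb B v t - dig (orb B v t))

/-- The coefficient of the expansion. -/
noncomputable def cf (B v : ℝ) : ℕ → ℝ
  | 0 => 1
  | t + 1 => cf B v t * dfac (orb B v t)

theorem dfac_pos (v : ℝ) : 0 < dfac v := by
  rw [dfac]
  split_ifs <;> norm_num

theorem dfac_le (v : ℝ) : dfac v ≤ 1 := by
  rw [dfac]
  split_ifs <;> norm_num

theorem cf_pos (B v : ℝ) (t : ℕ) : 0 < cf B v t := by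
  induction t with
  | zero => exact one_pos
  | succ t ih => exact mul_pos ih (dfac_pos _)

theorem cf_succ_le (B v : ℝ) (t : ℕ) : cf B v (t + 1) ≤ cf B v t := by
  have h1 : cf B v (t + 1) = cf B v t * dfac (orb B v t) := rfl
  rw [h1]
  exact mul_le_of_le_one_right (cf_pos B v t).le (dfac_le _)

theorem cf_anti (B v : ℝ) : Antitone (cf B v) := antitone_nat_of_succ_le (cf_succ_le B v)

theorem cf_le_one (B v : ℝ) (t : ℕ) : cf B v t ≤ 1 := cf_anti B v (Nat.zero_le t)

theorem GG_step {B : ℝ} (hB : 16 ≤ B) (y : ℝ) (r : ℕ) (v : ℝ) :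
    ‖GG B y (r + 1) (v * B ^ (r + 1)) - dfac v * GG B y r (B * (v - dig v) * B ^ r)‖ ≤
      (1 / 4) * (4 / B) ^ r := by
  have hB0 : 0 < B := by linarith
  have hf := fac_pos hB r
  have hBp : 0 < B ^ (r + 1) := by positivity
  have hpw : B ^ (r + 1) = B ^ r * B := pow_succ _ _
  have hn : ‖(1 / 2 : ℂ)‖ = 1 / 2 := by norm_num
  rw [GG_succ]
  rcases le_or_gt (1 / 2) v with h1 | h1
  · have e1 : dfac v = 1 / 2 := by rw [dfac, if_pos h1]
    have e2 : dig v = 1 := by rw [dig, if_pos h1]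
    rw [e1, e2]
    have e3 : B * (v - 1) * B ^ r = v * B ^ (r + 1) - B ^ (r + 1) := by rw [hpw]; ring
    rw [e3]
    have e4 : GG B y r (v * B ^ (r + 1)) + 1 / 2 * GG B y r (v * B ^ (r + 1) + B ^ (r + 1)) +
        1 / 2 * GG B y r (v * B ^ (r + 1) - B ^ (r + 1)) -
        ((1 / 2 : ℝ) : ℂ) * GG B y r (v * B ^ (r + 1) - B ^ (r + 1)) =
        GG B y r (v * B ^ (r + 1)) + 1 / 2 * GG B y r (v * B ^ (r + 1) + B ^ (r + 1)) := by
      push_cast
      ring
    rw [e4]
    refine (norm_add_le _ _).trans ?_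
    rw [norm_mul, hn]
    have g1 := GG_far hB y r (v * B ^ (r + 1)) (by
      rw [abs_of_nonneg (by positivity)]
      nlinarith)
    have g2 := GG_far hB y r (v * B ^ (r + 1) + B ^ (r + 1)) (by
      rw [abs_of_nonneg (by positivity)]
      nlinarith)
    linarith
  · rcases le_or_gt v (-(1 / 2)) with h2 | h2
    · have e1 : dfac v = 1 / 2 := by rw [dfac, if_neg (not_le.2 h1), if_pos h2]
      have e2 : dig v = -1 := by rw [dig, if_neg (not_le.2 h1), if_pos h2]
      rw [e1, e2]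
      have e3 : B * (v - -1) * B ^ r = v * B ^ (r + 1) + B ^ (r + 1) := by rw [hpw]; ring
      rw [e3]
      have e4 : GG B y r (v * B ^ (r + 1)) + 1 / 2 * GG B y r (v * B ^ (r + 1) + B ^ (r + 1)) +
          1 / 2 * GG B y r (v * B ^ (r + 1) - B ^ (r + 1)) -
          ((1 / 2 : ℝ) : ℂ) * GG B y r (v * B ^ (r + 1) + B ^ (r + 1)) =
          GG B y r (v * B ^ (r + 1)) + 1 / 2 * GG B y r (v * B ^ (r + 1) - B ^ (r + 1)) := by
        push_cast
        ring
      rw [e4]
      refine (norm_add_le _ _).trans ?_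
      rw [norm_mul, hn]
      have g1 := GG_far hB y r (v * B ^ (r + 1)) (by
        rw [abs_of_nonpos (by nlinarith)]
        nlinarith)
      have g2 := GG_far hB y r (v * B ^ (r + 1) - B ^ (r + 1)) (by
        rw [abs_of_nonpos (by nlinarith)]
        nlinarith)
      linarith
    · have e1 : dfac v = 1 := by rw [dfac, if_neg (not_le.2 h1), if_neg (not_le.2 h2)]
      have e2 : dig v = 0 := by rw [dig, if_neg (not_le.2 h1), if_neg (not_le.2 h2)]
      rw [e1, e2]
      have e3 : B * (v - 0) * B ^ r = v * B ^ (r + 1) := by rw [hpw]; ring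
      rw [e3]
      have e4 : GG B y r (v * B ^ (r + 1)) + 1 / 2 * GG B y r (v * B ^ (r + 1) + B ^ (r + 1)) +
          1 / 2 * GG B y r (v * B ^ (r + 1) - B ^ (r + 1)) -
          ((1 : ℝ) : ℂ) * GG B y r (v * B ^ (r + 1)) =
          1 / 2 * GG B y r (v * B ^ (r + 1) + B ^ (r + 1)) +
          1 / 2 * GG B y r (v * B ^ (r + 1) - B ^ (r + 1)) := by
        push_cast
        ring
      rw [e4]
      refine (norm_add_le _ _).trans ?_
      rw [norm_mul, norm_mul, hn]
      have g1 := GG_far hB y r (v * B ^ (r + 1) + B ^ (r + 1)) (by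
        rw [abs_of_nonneg (by nlinarith)]
        nlinarith)
      have g2 := GG_far hB y r (v * B ^ (r + 1) - B ^ (r + 1)) (by
        rw [abs_of_nonpos (by nlinarith)]
        nlinarith)
      linarith

theorem GG_chain {B : ℝ} (hB : 16 ≤ B) (y v : ℝ) (t r : ℕ) :
    ‖GG B y (r + t) (v * B ^ (r + t)) - cf B v t * GG B y r (orb B v t * B ^ r)‖ ≤ (4 / B) ^ r := by
  have hB0 : 0 < B := by linarith
  have h4B : 4 / B ≤ 1 / 4 := by
    rw [div_le_div_iff₀ hB0 (by norm_num)]
    linarith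
  induction t generalizing r with
  | zero =>
    have h1 : cf B v 0 = 1 := rfl
    have h2 : orb B v 0 = v := rfl
    rw [h1, h2, Nat.add_zero, Complex.ofReal_one, one_mul, sub_self, norm_zero]
    exact (fac_pos hB r).le
  | succ t ih =>
    have h1 := ih (r + 1)
    have h2 := GG_step hB y r (orb B v t)
    have h3 : r + (t + 1) = r + 1 + t := by omega
    have h4 : cf B v (t + 1) = cf B v t * dfac (orb B v t) := rfl
    have h5 : orb B v (t + 1) = B * (orb B v t - dig (orb B v t)) := rfl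
    rw [h3, h4, h5]
    have h6 : GG B y (r + 1 + t) (v * B ^ (r + 1 + t)) -
        ((cf B v t * dfac (orb B v t) : ℝ) : ℂ) *
          GG B y r (B * (orb B v t - dig (orb B v t)) * B ^ r) =
        (GG B y (r + 1 + t) (v * B ^ (r + 1 + t)) -
          cf B v t * GG B y (r + 1) (orb B v t * B ^ (r + 1))) +
        cf B v t * (GG B y (r + 1) (orb B v t * B ^ (r + 1)) - dfac (orb B v t) *
          GG B y r (B * (orb B v t - dig (orb B v t)) * B ^ r)) := by
      push_cast
      ring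
    rw [h6]
    refine (norm_add_le _ _).trans ?_
    rw [norm_mul, Complex.norm_real, Real.norm_eq_abs, abs_of_pos (cf_pos B v t)]
    have h7 : cf B v t * ‖GG B y (r + 1) (orb B v t * B ^ (r + 1)) - dfac (orb B v t) *
          GG B y r (B * (orb B v t - dig (orb B v t)) * B ^ r)‖ ≤ 1 * ((1 / 4) * (4 / B) ^ r) :=
      mul_le_mul (cf_le_one B v t) h2 (norm_nonneg _) zero_le_one
    have hf := fac_pos hB r
    have hf2 : (4 / B) ^ (r + 1) = (4 / B) ^ r * (4 / B) := pow_succ _ _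
    rw [hf2] at h1
    nlinarith

theorem GG_fail {B : ℝ} (hB : 16 ≤ B) (y : ℝ) (r : ℕ) (v : ℝ) (hv : 3 / 2 < |v|) :
    ‖GG B y (r + 1) (v * B ^ (r + 1))‖ ≤ (1 / 4) * (4 / B) ^ r := by
  have hB0 : 0 < B := by linarith
  have hf := fac_pos hB r
  have hBp : 0 < B ^ (r + 1) := by positivity
  have hn : ‖(1 / 2 : ℂ)‖ = 1 / 2 := by norm_num
  have hab : |v * B ^ (r + 1)| = |v| * B ^ (r + 1) := by rw [abs_mul, abs_of_pos hBp]
  have hx : 3 / 2 * B ^ (r + 1) ≤ |v * B ^ (r + 1)| := by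
    rw [hab]
    exact mul_le_mul_of_nonneg_right hv.le hBp.le
  rw [GG_succ]
  refine (norm_add₃_le).trans ?_
  rw [norm_mul, norm_mul, hn]
  have g1 := GG_far hB y r (v * B ^ (r + 1)) (by linarith)
  have g2 := GG_far hB y r (v * B ^ (r + 1) + B ^ (r + 1)) (by
    have := abs_sub_abs_le_abs_sub (v * B ^ (r + 1)) (-B ^ (r + 1))
    rw [abs_neg, abs_of_pos hBp, sub_neg_eq_add] at this
    linarith)
  have g3 := GG_far hB y r (v * B ^ (r + 1) - B ^ (r + 1)) (by
    have := abs_sub_abs_le_abs_sub (v * B ^ (r + 1)) (B ^ (r + 1))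
    rw [abs_of_pos hBp] at this
    linarith)
  linarith

theorem GG_peel {B : ℝ} (hB : 16 ≤ B) (y : ℝ) (R m : ℕ) (x : ℝ) (hx : |x| ≤ B ^ (R + 1) / 2) :
    ‖GG B y (R + m) x - GG B y R x‖ ≤ (1 / 4) * ((4 / B) ^ R - (4 / B) ^ (R + m)) := by
  have hB0 : 0 < B := by linarith
  have h4B : 4 / B ≤ 1 / 4 := by
    rw [div_le_div_iff₀ hB0 (by norm_num)]
    linarith
  induction m with
  | zero => simp
  | succ m ih =>
    have hf := fac_pos hB (R + m)
    have hf2 : (4 / B) ^ (R + m + 1) = (4 / B) ^ (R + m) * (4 / B) := pow_succ _ _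
    have hBp : 0 < B ^ (R + m + 1) := by positivity
    have hle : B ^ (R + 1) ≤ B ^ (R + m + 1) := pow_le_pow_right₀ (by linarith) (by omega)
    have hn : ‖(1 / 2 : ℂ)‖ = 1 / 2 := by norm_num
    have hx' := abs_le.1 hx
    have g2 := GG_far hB y (R + m) (x + B ^ (R + m + 1)) (by
      rw [abs_of_nonneg (by linarith [hx'.1])]
      linarith [hx'.1])
    have g3 := GG_far hB y (R + m) (x - B ^ (R + m + 1)) (by
      rw [abs_of_nonpos (by linarith [hx'.2])]
      linarith [hx'.2])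
    have h1 : GG B y (R + (m + 1)) x - GG B y R x = (GG B y (R + m) x - GG B y R x) +
        (1 / 2) * GG B y (R + m) (x + B ^ (R + m + 1)) +
        (1 / 2) * GG B y (R + m) (x - B ^ (R + m + 1)) := by
      rw [← Nat.add_assoc, GG_succ]
      ring
    rw [h1]
    refine (norm_add₃_le).trans ?_
    rw [norm_mul, norm_mul, hn, ← Nat.add_assoc, hf2]
    nlinarith

theorem pow_small {B : ℝ} (hB : 16 ≤ B) (ε : ℝ) (hε : 0 < ε) :
    ∃ r0 : ℕ, ∀ r, r0 ≤ r → (4 / B) ^ r ≤ ε := by
  have hB0 : 0 < B := by linarith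
  have h4B : 4 / B ≤ 1 / 4 := by
    rw [div_le_div_iff₀ hB0 (by norm_num)]
    linarith
  obtain ⟨r0, hr0⟩ := exists_pow_lt_of_lt_one hε (show (1 / 4 : ℝ) < 1 by norm_num)
  refine ⟨r0, fun r hr => ?_⟩
  calc (4 / B) ^ r ≤ (1 / 4 : ℝ) ^ r := pow_le_pow_left₀ (by positivity) h4B r
    _ ≤ (1 / 4 : ℝ) ^ r0 := pow_le_pow_of_le_one (by norm_num) (by norm_num) hr
    _ ≤ ε := hr0.le

theorem limit_small {B : ℝ} (hB : 16 ≤ B) (v : ℝ) :
    ∃ w : ℝ, 0 ≤ w ∧ w ≤ 1 ∧ ∀ ε : ℝ, 0 < ε → ∃ k0 : ℕ, ∀ k, k0 ≤ k → ∀ y,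
      ‖GG B y k (v * B ^ k) - w * GG B y k 0‖ ≤ ε := by
  have hB0 : 0 < B := by linarith
  have h4B : 4 / B ≤ 1 / 4 := by
    rw [div_le_div_iff₀ hB0 (by norm_num)]
    linarith
  by_cases hA : ∃ t, 3 / 2 < |orb B v t|
  · obtain ⟨t, ht⟩ := hA
    refine ⟨0, le_rfl, zero_le_one, fun ε hε => ?_⟩
    obtain ⟨r0, hr0⟩ := pow_small hB ε hε
    refine ⟨r0 + 1 + t, fun k hk y => ?_⟩
    obtain ⟨r, rfl⟩ : ∃ r, k = r + 1 + t := ⟨k - 1 - t, by omega⟩
    have h1 := GG_chain hB y v t (r + 1)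
    have h2 := GG_fail hB y r (orb B v t) ht
    have h3 := hr0 r (by omega)
    have hf := fac_pos hB r
    have hf2 : (4 / B) ^ (r + 1) = (4 / B) ^ r * (4 / B) := pow_succ _ _
    rw [Complex.ofReal_zero, zero_mul, sub_zero]
    have h4 : GG B y (r + 1 + t) (v * B ^ (r + 1 + t)) =
        (GG B y (r + 1 + t) (v * B ^ (r + 1 + t)) -
          cf B v t * GG B y (r + 1) (orb B v t * B ^ (r + 1))) +
        cf B v t * GG B y (r + 1) (orb B v t * B ^ (r + 1)) := by ring
    rw [h4]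
    refine (norm_add_le _ _).trans ?_
    rw [norm_mul, Complex.norm_real, Real.norm_eq_abs, abs_of_pos (cf_pos B v t)]
    have h7 : cf B v t * ‖GG B y (r + 1) (orb B v t * B ^ (r + 1))‖ ≤
        1 * ((1 / 4) * (4 / B) ^ r) :=
      mul_le_mul (cf_le_one B v t) h2 (norm_nonneg _) zero_le_one
    rw [hf2] at h1
    nlinarith
  · push Not at hA
    by_cases hZ : ∃ t, orb B v t = 0
    · obtain ⟨t, ht⟩ := hZ
      refine ⟨cf B v t, (cf_pos B v t).le, cf_le_one B v t, fun ε hε => ?_⟩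
      obtain ⟨r0, hr0⟩ := pow_small hB (ε / 2) (by positivity)
      refine ⟨r0 + t, fun k hk y => ?_⟩
      obtain ⟨r, rfl⟩ : ∃ r, k = r + t := ⟨k - t, by omega⟩
      have h1 := GG_chain hB y v t r
      rw [ht, zero_mul] at h1
      have h2 := GG_peel hB y r t 0 (by rw [abs_zero]; positivity)
      have h3 := hr0 r (by omega)
      have hf := fac_pos hB (r + t)
      have h4 : GG B y (r + t) (v * B ^ (r + t)) - cf B v t * GG B y (r + t) 0 =
          (GG B y (r + t) (v * B ^ (r + t)) - cf B v t * GG B y r 0) -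
          cf B v t * (GG B y (r + t) 0 - GG B y r 0) := by ring
      rw [h4]
      refine (norm_sub_le _ _).trans ?_
      rw [norm_mul, Complex.norm_real, Real.norm_eq_abs, abs_of_pos (cf_pos B v t)]
      have h7 : cf B v t * ‖GG B y (r + t) 0 - GG B y r 0‖ ≤
          1 * ((1 / 4) * ((4 / B) ^ r - (4 / B) ^ (r + t))) :=
        mul_le_mul (cf_le_one B v t) h2 (norm_nonneg _) zero_le_one
      linarith
    · push Not at hZ
      have hK : ∀ K : ℕ, ∃ t, cf B v t ≤ (1 / 2) ^ K := by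
        intro K
        induction K with
        | zero => exact ⟨0, by rw [pow_zero]; exact cf_le_one B v 0⟩
        | succ K ih =>
          obtain ⟨t, ht⟩ := ih
          obtain ⟨t', ht', hd⟩ : ∃ t', t ≤ t' ∧ dfac (orb B v t') = 1 / 2 := by
            by_contra hcon
            push Not at hcon
            have hgr : ∀ m, |orb B v (t + m)| = B ^ m * |orb B v t| := by
              intro m
              induction m with
              | zero => simp
              | succ m ihm =>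
                have g1 := hcon (t + m) (by omega)
                have g2 : dig (orb B v (t + m)) = 0 := by
                  rw [dfac] at g1
                  rw [dig]
                  split_ifs at g1 ⊢
                  · exact absurd rfl g1
                  · exact absurd rfl g1
                  · rfl
                have g3 : orb B v (t + (m + 1)) =
                    B * (orb B v (t + m) - dig (orb B v (t + m))) := rfl
                rw [g3, g2, sub_zero, abs_mul, abs_of_pos hB0, ihm, pow_succ]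
                ring
            have hpos : 0 < |orb B v t| := abs_pos.2 (hZ t)
            obtain ⟨m, hm⟩ := pow_unbounded_of_one_lt (2 / |orb B v t|)
              (show (1 : ℝ) < B by linarith)
            rw [div_lt_iff₀ hpos, ← hgr m] at hm
            have := hA (t + m)
            linarith
          refine ⟨t' + 1, ?_⟩
          have g1 : cf B v (t' + 1) = cf B v t' * dfac (orb B v t') := rfl
          rw [g1, hd, pow_succ]
          exact mul_le_mul_of_nonneg_right ((cf_anti B v ht').trans ht) (by norm_num)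
      refine ⟨0, le_rfl, zero_le_one, fun ε hε => ?_⟩
      obtain ⟨K, hKe⟩ := exists_pow_lt_of_lt_one (show 0 < ε / 4 by positivity)
        (show (1 / 2 : ℝ) < 1 by norm_num)
      obtain ⟨t, ht⟩ := hK K
      obtain ⟨r0, hr0⟩ := pow_small hB (ε / 2) (by positivity)
      refine ⟨r0 + t, fun k hk y => ?_⟩
      obtain ⟨r, rfl⟩ : ∃ r, k = r + t := ⟨k - t, by omega⟩
      have h1 := GG_chain hB y v t r
      have h2 : ‖GG B y r (orb B v t * B ^ r)‖ ≤ 2 := by
        have := WW_le_two hB r (orb B v t * B ^ r)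
        have hf := fac_pos hB r
        exact (GG_le _ _ _ _).trans (by linarith)
      have h3 := hr0 r (by omega)
      rw [Complex.ofReal_zero, zero_mul, sub_zero]
      have h4 : GG B y (r + t) (v * B ^ (r + t)) =
          (GG B y (r + t) (v * B ^ (r + t)) - cf B v t * GG B y r (orb B v t * B ^ r)) +
          cf B v t * GG B y r (orb B v t * B ^ r) := by ring
      rw [h4]
      refine (norm_add_le _ _).trans ?_
      rw [norm_mul, Complex.norm_real, Real.norm_eq_abs, abs_of_pos (cf_pos B v t)]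
      have h7 : cf B v t * ‖GG B y r (orb B v t * B ^ r)‖ ≤ (1 / 2) ^ K * 2 :=
        mul_le_mul ht h2 (norm_nonneg _) (by positivity)
      linarith

theorem limit_w {B : ℝ} (hB : 16 ≤ B) (v : ℝ) :
    ∃ w : ℝ, 0 ≤ w ∧ w ≤ 1 ∧ ∀ ε : ℝ, 0 < ε → ∃ k0 : ℕ, ∀ k, k0 ≤ k → ∀ R, k + k0 ≤ R → ∀ y,
      ‖GG B y R (v * B ^ k) - w * GG B y R 0‖ ≤ ε := by
  have hB0 : 0 < B := by linarith
  obtain ⟨C, hC⟩ := pow_unbounded_of_one_lt |v| (show (1 : ℝ) < B by linarith)
  have hBC : 0 < B ^ C := by positivity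
  obtain ⟨w, hw0, hw1, hw⟩ := limit_small hB (v / B ^ C)
  refine ⟨w, hw0, hw1, fun ε hε => ?_⟩
  obtain ⟨k1, hk1⟩ := hw (ε / 2) (by positivity)
  obtain ⟨r0, hr0⟩ := pow_small hB (ε / 2) (by positivity)
  refine ⟨k1 + r0 + C, fun k hk R hR y => ?_⟩
  have h1 := hk1 (k + C) (by omega) y
  have h2 : v / B ^ C * B ^ (k + C) = v * B ^ k := by
    rw [pow_add]
    field_simp
  rw [h2] at h1
  obtain ⟨m, rfl⟩ : ∃ m, R = k + C + m := ⟨R - (k + C), by omega⟩
  have hx : |v * B ^ k| ≤ B ^ (k + C + 1) / 2 := by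
    have e1 : B ^ (k + C + 1) = B ^ k * B ^ C * B := by rw [pow_succ, pow_add]
    rw [abs_mul, abs_of_pos (show 0 < B ^ k by positivity), e1]
    have e2 : |v| * B ^ k ≤ B ^ C * B ^ k := mul_le_mul_of_nonneg_right hC.le (by positivity)
    have e3 : 0 < B ^ k * B ^ C := by positivity
    nlinarith
  have h3 := GG_peel hB y (k + C) m (v * B ^ k) hx
  have h4 := GG_peel hB y (k + C) m 0 (by rw [abs_zero]; positivity)
  have h5 := hr0 (k + C) (by omega)
  have hf := fac_pos hB (k + C + m)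
  have h6 : GG B y (k + C + m) (v * B ^ k) - w * GG B y (k + C + m) 0 =
      (GG B y (k + C) (v * B ^ k) - w * GG B y (k + C) 0) +
      (GG B y (k + C + m) (v * B ^ k) - GG B y (k + C) (v * B ^ k)) -
      w * (GG B y (k + C + m) 0 - GG B y (k + C) 0) := by ring
  rw [h6]
  refine (norm_sub_le _ _).trans ?_
  rw [norm_mul, Complex.norm_real, Real.norm_eq_abs, abs_of_nonneg hw0]
  have h7 : w * ‖GG B y (k + C + m) 0 - GG B y (k + C) 0‖ ≤
      1 * ((1 / 4) * ((4 / B) ^ (k + C) - (4 / B) ^ (k + C + m))) :=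
    mul_le_mul hw1 h4 (norm_nonneg _) zero_le_one
  have h8 := norm_add_le (GG B y (k + C) (v * B ^ k) - w * GG B y (k + C) 0)
    (GG B y (k + C + m) (v * B ^ k) - GG B y (k + C) (v * B ^ k))
  linarith

/-- The limit of the normalised coefficients. -/
noncomputable def wt (B v : ℝ) : ℝ := if hB : 16 ≤ B then (limit_w hB v).choose else 0

theorem wt_spec {B : ℝ} (hB : 16 ≤ B) (v : ℝ) : 0 ≤ wt B v ∧ wt B v ≤ 1 ∧
    ∀ ε : ℝ, 0 < ε → ∃ k0 : ℕ, ∀ k, k0 ≤ k → ∀ R, k + k0 ≤ R → ∀ y,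
      ‖GG B y R (v * B ^ k) - wt B v * GG B y R 0‖ ≤ ε := by
  rw [wt, dif_pos hB]
  exact (limit_w hB v).choose_spec

theorem wt_one {B : ℝ} (hB : 16 ≤ B) : 0 < wt B 1 := by
  obtain ⟨h0, h1, h2⟩ := wt_spec hB 1
  obtain ⟨k0, hk0⟩ := h2 (1 / 8) (by norm_num)
  have h3 := hk0 (k0 + 1) (by omega) (k0 + 1 + k0) le_rfl 0
  have h4 := bias_main hB (ph B 0) k0 k0
  have hf := fac_pos hB (k0 + 1 + k0)
  have hm := mass_le hB (ph B 0) (k0 + 1 + k0)
  have h5 : (GG B 0 (k0 + 1 + k0) (1 * B ^ (k0 + 1))).re =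
      ∫ s in (0 : ℝ)..1, Real.cos (2 * π * (ph B 0 k0 + B ^ (k0 + 1) * s)) *
        rho B (ph B 0) (k0 + 1 + k0) s := by
    rw [GG]
    have hre := (continuous_ggi B 0 (k0 + 1 + k0) (1 * B ^ (k0 + 1))).intervalIntegrable 0 1
      (μ := volume)
    have e1 := (Complex.reCLM).intervalIntegral_comp_comm hre
    rw [Complex.reCLM_apply] at e1
    rw [← e1]
    congr 1
    funext s
    rw [Complex.reCLM_apply, Complex.re_mul_ofReal, ee_re, ph]
    congr 3
    ring
  have h6 := (Complex.abs_re_le_norm _).trans h3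
  rw [Complex.sub_re, h5, GG_zero, Complex.re_ofReal_mul, Complex.ofReal_re] at h6
  have h7 := (abs_le.1 h6).2
  by_contra hcon
  have h8 : wt B 1 = 0 := le_antisymm (not_lt.1 hcon) h0
  rw [h8, zero_mul] at h7
  have h9 : 0 ≤ (1 / 4 : ℝ) * (4 / B) ^ (k0 + 1 + k0) := by positivity
  linarith

end Pool.Agent.H534R3.Rota
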