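import Mathlib

/-! # The group `H₃(ℤ[x, x⁻¹]) ⋊ ℤ` and its central quotients -/

set_option autoImplicit false
set_option linter.unusedSectionVars false

open LaurentPolynomial
open scoped commutatorElement

namespace Pool.Agent.H534R3.GamGrp

/-- Laurent polynomials over the integers. -/
abbrev R : Type := LaurentPolynomial ℤ

/-- The group `H₃(R) ⋊ ℤ`. -/
@[ext] structure Gam : Type where
  /-- entry (1,2) -/
  f : R
  /-- entry (2,3) -/
  g : R
  /-- entry (1,3) -/
  h : R
  /-- the power of `t` -/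
  n : ℤ

namespace Gam

noncomputable instance : Mul Gam :=
  ⟨fun a b => ⟨a.f + T (-a.n) * b.f, a.g + T a.n * b.g, a.h + b.h + a.f * T a.n * b.g, a.n + b.n⟩⟩
noncomputable instance : One Gam := ⟨⟨0, 0, 0, 0⟩⟩
noncomputable instance : Inv Gam :=
  ⟨fun a => ⟨-(T a.n * a.f), -(T (-a.n) * a.g), -a.h + a.f * a.g, -a.n⟩⟩

@[simp] theorem mul_f (a b : Gam) : (a * b).f = a.f + T (-a.n) * b.f := rfl
@[simp] theorem mul_g (a b : Gam) : (a * b).g = a.g + T a.n * b.g := rfl
@[simp] theorem mul_h (a b : Gam) : (a * b).h = a.h + b.h + a.f * T a.n * b.g := rfl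
@[simp] theorem mul_n (a b : Gam) : (a * b).n = a.n + b.n := rfl
@[simp] theorem one_f : (1 : Gam).f = 0 := rfl
@[simp] theorem one_g : (1 : Gam).g = 0 := rfl
@[simp] theorem one_h : (1 : Gam).h = 0 := rfl
@[simp] theorem one_n : (1 : Gam).n = 0 := rfl
@[simp] theorem inv_f (a : Gam) : (a⁻¹).f = -(T a.n * a.f) := rfl
@[simp] theorem inv_g (a : Gam) : (a⁻¹).g = -(T (-a.n) * a.g) := rfl
@[simp] theorem inv_h (a : Gam) : (a⁻¹).h = -a.h + a.f * a.g := rfl
@[simp] theorem inv_n (a : Gam) : (a⁻¹).n = -a.n := rfl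

theorem TT (n : ℤ) : (T n : R) * T (-n) = 1 := by
  rw [← T_add, add_neg_cancel, T_zero]

noncomputable instance : Group Gam :=
  Group.ofLeftAxioms
    (fun a b c => by
      ext1
      · simp only [mul_f, mul_n, neg_add, T_add]; ring
      · simp only [mul_g, mul_n, T_add]; ring
      · simp only [mul_h, mul_f, mul_g, mul_n, T_add]
        linear_combination (b.f * T b.n * c.g) * (TT a.n)
      · simp only [mul_n]; ring)
    (fun a => by
      ext1 <;> simp)
    (fun a => by
      ext1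
      · simp
      · simp
      · simp only [mul_h, inv_h, inv_f, inv_n, one_h]
        linear_combination (-(a.f * a.g)) * (TT a.n)
      · simp)

/-- The central elements. -/
noncomputable def E (h : R) : Gam := ⟨0, 0, h, 0⟩

@[simp] theorem E_f (h : R) : (E h).f = 0 := rfl
@[simp] theorem E_g (h : R) : (E h).g = 0 := rfl
@[simp] theorem E_h (h : R) : (E h).h = h := rfl
@[simp] theorem E_n (h : R) : (E h).n = 0 := rfl

theorem E_mul (a b : R) : E a * E b = E (a + b) := by ext1 <;> simp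
theorem E_zero : E 0 = 1 := rfl
theorem E_inv (a : R) : (E a)⁻¹ = E (-a) := by ext1 <;> simp
theorem E_inj {a b : R} (h : E a = E b) : a = b := congrArg Gam.h h
theorem E_pow (a : R) (k : ℕ) : E a ^ k = E (k * a) := by
  induction k with
  | zero => simp [E_zero]
  | succ k ih => rw [pow_succ, ih, E_mul]; congr 1; push_cast; ring
theorem E_comm (a : R) (x : Gam) : E a * x = x * E a := by
  ext1 <;> simp [add_comm]
theorem E_conj (a : R) (x : Gam) : x * E a * x⁻¹ = E a := by
  rw [← E_comm, mul_assoc, mul_inv_cancel, mul_one]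

/-! ### The second derived subgroup -/

/-- The subgroup `n = 0`. -/
def V : Subgroup Gam where
  carrier := {a | a.n = 0}
  mul_mem' := by
    intro a b ha hb
    have ha' : a.n = 0 := ha
    have hb' : b.n = 0 := hb
    change (a * b).n = 0
    simp [ha', hb']
  one_mem' := rfl
  inv_mem' := by
    intro a ha
    have ha' : a.n = 0 := ha
    change (a⁻¹).n = 0
    simp [ha']

theorem mem_V {a : Gam} : a ∈ V ↔ a.n = 0 := Iff.rfl

/-- The subgroup of the central elements `E h`. -/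
def Z : Subgroup Gam where
  carrier := {a | ∃ h, a = E h}
  mul_mem' := by
    rintro _ _ ⟨h, rfl⟩ ⟨k, rfl⟩
    exact ⟨h + k, E_mul h k⟩
  one_mem' := ⟨0, rfl⟩
  inv_mem' := by
    rintro _ ⟨h, rfl⟩
    exact ⟨-h, E_inv h⟩

theorem mem_Z {a : Gam} : a ∈ Z ↔ ∃ h, a = E h := Iff.rfl

theorem derived_one : derivedSeries Gam 1 ≤ V := by
  rw [derivedSeries_succ, Subgroup.commutator_le]
  intro a _ b _
  rw [mem_V, commutatorElement_def]
  simp

theorem derived_two : derivedSeries Gam 2 ≤ Z := by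
  rw [derivedSeries_succ, Subgroup.commutator_le]
  intro a ha b hb
  have ha' := mem_V.1 (derived_one ha)
  have hb' := mem_V.1 (derived_one hb)
  refine mem_Z.2 ⟨a.f * b.g - b.f * a.g, ?_⟩
  rw [commutatorElement_def]
  ext1
  · simp [ha', hb']
  · simp [ha', hb']
  · simp only [mul_h, mul_f, mul_g, mul_n, inv_h, inv_f, inv_g, inv_n, ha', hb', E_h, neg_zero,
      T_zero, add_zero]
    ring
  · simp [ha', hb']

end Gam

open Gam

/-- The free group. -/
abbrev F : Type := FreeGroup (Fin 3)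

/-- The images of the generators. -/
noncomputable def gens : Fin 3 → Gam := ![⟨1, 0, 0, 0⟩, ⟨0, 1, 0, 0⟩, ⟨0, 0, 0, 1⟩]

/-- The homomorphism. -/
noncomputable def π : F →* Gam := FreeGroup.lift gens

/-- The generators. -/
noncomputable def wa : F := FreeGroup.of 0
/-- The generators. -/
noncomputable def wb : F := FreeGroup.of 1
/-- The generators. -/
noncomputable def wt : F := FreeGroup.of 2

@[simp] theorem π_wa : π wa = ⟨1, 0, 0, 0⟩ := by simp [π, wa, gens]
@[simp] theorem π_wb : π wb = ⟨0, 1, 0, 0⟩ := by simp [π, wb, gens]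
@[simp] theorem π_wt : π wt = ⟨0, 0, 0, 1⟩ := by simp [π, wt, gens]

theorem π_wt_zpow (j : ℤ) : π (wt ^ j) = ⟨0, 0, 0, j⟩ := by
  rw [map_zpow, π_wt]
  have h1 : ∀ k : ℕ, (⟨0, 0, 0, 1⟩ : Gam) ^ k = ⟨0, 0, 0, k⟩ := by
    intro k
    induction k with
    | zero => rfl
    | succ k ih => rw [pow_succ, ih]; ext1 <;> simp
  rcases Int.eq_nat_or_neg j with ⟨k, rfl | rfl⟩
  · rw [zpow_natCast, h1]
  · rw [zpow_neg, zpow_natCast, h1]; ext1 <;> simp

/-- A word mapped to `E (T k)`. -/
noncomputable def wc (k : ℤ) : F := ⁅wa, wt ^ k * wb * (wt ^ k)⁻¹⁆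

theorem π_wc (k : ℤ) : π (wc k) = E (T k) := by
  have h : π (wt ^ k * wb * (wt ^ k)⁻¹) = ⟨0, T k, 0, 0⟩ := by
    rw [map_mul, map_mul, map_inv, π_wt_zpow, π_wb]
    ext1 <;> simp
  rw [wc, map_commutatorElement, h, π_wa, commutatorElement_def]
  ext1 <;> simp

/-- A word in the second derived subgroup. -/
noncomputable def wu (k : ℤ) : F :=
  ⁅⁅wa, wt⁆, wt ^ (k + 1) * ⁅wb, wt⁆ * (wt ^ (k + 1))⁻¹⁆

theorem wu_mem (k : ℤ) : wu k ∈ derivedSeries F 2 := by
  have h1 : ∀ x y : F, ⁅x, y⁆ ∈ derivedSeries F 1 := fun x y =>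
    Subgroup.commutator_mem_commutator (Subgroup.mem_top _) (Subgroup.mem_top _)
  refine Subgroup.commutator_mem_commutator (h1 _ _) ?_
  exact (derivedSeries_normal F 1).conj_mem _ (h1 _ _) _

theorem π_wu (k : ℤ) : π (wu k) = E (2 * T (k + 1) - T k - T (k + 2)) := by
  have h1 : π ⁅wa, wt⁆ = ⟨1 - T (-1), 0, 0, 0⟩ := by
    rw [map_commutatorElement, π_wa, π_wt, commutatorElement_def]
    ext1 <;> simp [sub_eq_add_neg]
  have h2 : π ⁅wb, wt⁆ = ⟨0, 1 - T 1, 0, 0⟩ := by
    rw [map_commutatorElement, π_wb, π_wt, commutatorElement_def]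
    ext1 <;> simp [sub_eq_add_neg]
  have h3 : π (wt ^ (k + 1) * ⁅wb, wt⁆ * (wt ^ (k + 1))⁻¹) = ⟨0, T (k + 1) * (1 - T 1), 0, 0⟩ := by
    rw [map_mul, map_mul, map_inv, π_wt_zpow, h2]
    ext1 <;> simp
  rw [wu, map_commutatorElement, h1, h3, commutatorElement_def]
  ext1
  · simp
  · simp
  · simp only [mul_h, mul_f, mul_g, mul_n, inv_h, inv_f, inv_g, inv_n, E_h, neg_zero,
      T_zero, add_zero, zero_mul, mul_zero, zero_add, one_mul, mul_one]
    have e1 : (T (k + 2) : R) = T (k + 1) * T 1 := by rw [← T_add]; congr 1; ring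
    have e2 : (T k : R) = T (k + 1) * T (-1) := by rw [← T_add]; congr 1; ring
    rw [e1, e2]
    linear_combination (T (k + 1)) * (TT 1)
  · simp

/-! ### The additive subgroup attached to a normal subgroup -/

/-- The primes. -/
noncomputable def p (k : ℕ) : ℕ := Nat.nth Nat.Prime k

theorem p_prime (k : ℕ) : (p k).Prime := Nat.prime_nth_prime k

theorem p_inj {j k : ℕ} (h : p j = p k) : j = k :=
  Nat.nth_injective Nat.infinite_setOfPred_prime h

theorem coeff_T (n j : ℤ) : (T n : R).coeff j = if n = j then 1 else 0 := by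
  classical
  rw [T]
  exact Finsupp.single_apply

/-- The elements whose coefficients are divisible by the primes indexed by `D`. -/
def Div (D : Set ℕ) (h : R) : Prop := ∀ k ∈ D, ((p k : ℕ) : ℤ) ∣ h.coeff (k : ℤ)

theorem Div.add {D : Set ℕ} {a b : R} (ha : Div D a) (hb : Div D b) : Div D (a + b) :=
  fun k hk => by
    have : (a + b).coeff (k : ℤ) = a.coeff (k : ℤ) + b.coeff (k : ℤ) := rfl
    rw [this]
    exact dvd_add (ha k hk) (hb k hk)

theorem Div.neg {D : Set ℕ} {a : R} (ha : Div D a) : Div D (-a) :=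
  fun k hk => by
    have : (-a).coeff (k : ℤ) = -(a.coeff (k : ℤ)) := rfl
    rw [this]
    exact (ha k hk).neg_right

theorem Div.zero {D : Set ℕ} : Div D 0 := fun k _ => dvd_zero _

/-- The normal subgroup attached to a set `D` of primes. -/
def NN (D : Set ℕ) : Subgroup F where
  carrier := {w | ∃ h, π w = E h ∧ Div D h}
  mul_mem' := by
    rintro a b ⟨h, h1, h2⟩ ⟨k, k1, k2⟩
    exact ⟨h + k, by rw [map_mul, h1, k1, E_mul], h2.add k2⟩
  one_mem' := ⟨0, by rw [map_one]; rfl, Div.zero⟩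
  inv_mem' := by
    rintro a ⟨h, h1, h2⟩
    exact ⟨-h, by rw [map_inv, h1, E_inv], h2.neg⟩

theorem mem_NN {D : Set ℕ} {w : F} : w ∈ NN D ↔ ∃ h, π w = E h ∧ Div D h := Iff.rfl

instance (D : Set ℕ) : (NN D).Normal where
  conj_mem := by
    rintro n ⟨h, h1, h2⟩ g
    exact ⟨h, by rw [map_mul, map_mul, map_inv, h1, E_conj], h2⟩

theorem NN_mono {D D' : Set ℕ} (h : D' ⊆ D) : NN D ≤ NN D' := by
  rintro w ⟨a, h1, h2⟩
  exact ⟨a, h1, fun k hk => h2 k (h hk)⟩

/-- The set of the torsion primes of the second derived subgroup of the quotient. -/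
def DD (N : Subgroup F) : Set ℕ := {k | ∃ w ∈ derivedSeries F 2, w ∉ N ∧ w ^ p k ∈ N}

/-- The central part of a subgroup. -/
def WW (N : Subgroup F) : AddSubgroup R where
  carrier := {h | ∃ w ∈ N, π w = E h}
  add_mem' := by
    rintro a b ⟨w, hw, h1⟩ ⟨v, hv, h2⟩
    exact ⟨w * v, mul_mem hw hv, by rw [map_mul, h1, h2, E_mul]⟩
  zero_mem' := ⟨1, one_mem _, by rw [map_one]; rfl⟩
  neg_mem' := by
    rintro a ⟨w, hw, h1⟩
    exact ⟨w⁻¹, inv_mem hw, by rw [map_inv, h1, E_inv]⟩

theorem mem_WW {N : Subgroup F} {h : R} : h ∈ WW N ↔ ∃ w ∈ N, π w = E h := Iff.rfl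

theorem mem_iff_WW {N : Subgroup F} {D : Set ℕ} (hN : NN D ≤ N) {w : F} {h : R}
    (hw : π w = E h) : w ∈ N ↔ h ∈ WW N := by
  constructor
  · intro h'
    exact ⟨w, h', hw⟩
  · rintro ⟨v, hv, hv'⟩
    have : w * v⁻¹ ∈ N := hN ⟨0, by rw [map_mul, map_inv, hw, hv', mul_inv_cancel]; rfl, Div.zero⟩
    have h2 := mul_mem this hv
    rwa [inv_mul_cancel_right] at h2

theorem Div_univ_mem {N : Subgroup F} {D : Set ℕ} (hN : NN D ≤ N) {h : R} (hh : Div D h)
    (hex : ∃ w, π w = E h) : h ∈ WW N := by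
  obtain ⟨w, hw⟩ := hex
  exact ⟨w, hN ⟨h, hw, hh⟩, hw⟩

/-- The words that map to central elements. -/
theorem exists_word (h : R) : ∃ w : F, π w = E h := by
  induction h using LaurentPolynomial.induction_on' with
  | add p q hp hq =>
    obtain ⟨w, hw⟩ := hp
    obtain ⟨v, hv⟩ := hq
    exact ⟨w * v, by rw [map_mul, hw, hv, E_mul]⟩
  | C_mul_T n a =>
    have h1 : ∀ m : ℕ, π (wc n ^ m) = E (C (m : ℤ) * T n) := by
      intro m
      rw [map_pow, π_wc, E_pow]
      congr 2
    rcases Int.eq_nat_or_neg a with ⟨m, rfl | rfl⟩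
    · exact ⟨_, h1 m⟩
    · refine ⟨(wc n ^ m)⁻¹, ?_⟩
      rw [map_inv, h1, E_inv]
      congr 1
      rw [map_neg, neg_mul]

theorem mul_T_mem {N : Subgroup F} {h : ℤ} {x : R} (hx : x ∈ WW N) : C h * x ∈ WW N := by
  have h1 : C h * x = h • x := by
    rw [zsmul_eq_mul]
    congr 1
  rw [h1]
  exact zsmul_mem hx h

theorem coeff_C_mul_T (a n j : ℤ) : (C a * T n : R).coeff j = if n = j then a else 0 := by
  classical
  rw [← single_eq_C_mul_T]
  exact Finsupp.single_apply

theorem Div_C_mul_T {D : Set ℕ} {a n : ℤ} (h : ∀ k ∈ D, (k : ℤ) = n → ((p k : ℕ) : ℤ) ∣ a) :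
    Div D (C a * T n) := by
  intro k hk
  rw [coeff_C_mul_T]
  split_ifs with h1
  · exact h k hk h1.symm
  · exact dvd_zero _

theorem eq_sum (h : R) : h = ∑ j ∈ h.coeff.support, C (h.coeff j) * T j := by
  have h1 := AddMonoidAlgebra.sum_coeff_single h
  rw [Finsupp.sum] at h1
  conv_lhs => rw [← h1]
  exact Finset.sum_congr rfl fun j _ => single_eq_C_mul_T _ _

theorem coeff_C_mul (a : ℤ) (x : R) (j : ℤ) : (C a * x : R).coeff j = a * x.coeff j := by
  have h1 : C a * x = a • x := by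
    rw [zsmul_eq_mul]
    congr 1
  rw [h1]
  have h2 : (a • x : R).coeff j = a • (x.coeff j) := rfl
  rw [h2, smul_eq_mul]

theorem W_eq {N : Subgroup F} {D : Set ℕ} (hN : NN D ≤ N) (h : R) :
    h ∈ WW N ↔ ∀ k : ℕ, T (k : ℤ) ∈ WW N ∨ ((p k : ℕ) : ℤ) ∣ h.coeff (k : ℤ) := by
  have hD : ∀ x : R, Div D x → x ∈ WW N := fun x hx => Div_univ_mem hN hx (exists_word x)
  constructor
  · intro hh k
    by_contra hcon
    push Not at hcon
    obtain ⟨h1, h2⟩ := hcon
    apply h1
    classical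
    set S : Finset ℤ := h.coeff.support.erase k with hS
    set m : ℤ := ∏ j ∈ S, ((p j.toNat : ℕ) : ℤ) ^ (if 0 ≤ j then 1 else 0) with hm
    have hcop : IsCoprime ((p k : ℕ) : ℤ) m := by
      rw [hm]
      refine IsCoprime.prod_right fun j hj => ?_
      split_ifs with h0
      · rw [pow_one, Nat.isCoprime_iff_coprime, Nat.coprime_primes (p_prime _) (p_prime _)]
        intro hpp
        have := p_inj hpp
        rw [hS, Finset.mem_erase] at hj
        exact hj.1 (by rw [this, Int.toNat_of_nonneg h0])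
      · rw [pow_zero]
        exact isCoprime_one_right
    have hcop2 : IsCoprime ((p k : ℕ) : ℤ) (m * h.coeff (k : ℤ)) :=
      hcop.mul_right (((Nat.prime_iff_prime_int.1 (p_prime k)).coprime_iff_not_dvd).2 h2)
    have h3 : C (m * h.coeff (k : ℤ)) * T (k : ℤ) ∈ WW N := by
      have h4 : C m * h ∈ WW N := mul_T_mem hh
      have h5 : C m * h - C (m * h.coeff (k : ℤ)) * T (k : ℤ) ∈ WW N := by
        refine hD _ fun i _ => ?_
        have h6 : (C m * h - C (m * h.coeff (k : ℤ)) * T (k : ℤ) : R).coeff (i : ℤ) =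
            (C m * h : R).coeff (i : ℤ) - (C (m * h.coeff (k : ℤ)) * T (k : ℤ) : R).coeff (i : ℤ) :=
          rfl
        rw [h6, coeff_C_mul, coeff_C_mul_T]
        by_cases hik : (k : ℤ) = i
        · rw [if_pos hik, hik, sub_self]
          exact dvd_zero _
        · rw [if_neg hik, sub_zero]
          by_cases h0 : h.coeff (i : ℤ) = 0
          · rw [h0, mul_zero]
            exact dvd_zero _
          · refine Dvd.dvd.mul_right ?_ _
            have hi : (i : ℤ) ∈ S := by
              rw [hS, Finset.mem_erase, Finsupp.mem_support_iff]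
              exact ⟨fun hc => hik hc.symm, h0⟩
            have := Finset.dvd_prod_of_mem
              (fun j : ℤ => ((p j.toNat : ℕ) : ℤ) ^ (if 0 ≤ j then 1 else 0)) hi
            rw [← hm] at this
            simpa using this
      have h7 := sub_mem h4 h5
      rwa [sub_sub_cancel] at h7
    have h4 : C ((p k : ℕ) : ℤ) * T (k : ℤ) ∈ WW N := by
      refine hD _ (Div_C_mul_T fun i _ hi => ?_)
      have : i = k := by exact_mod_cast hi
      rw [this]
    obtain ⟨u, v, huv⟩ := hcop2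
    have h5 : (T (k : ℤ) : R) = C u * (C ((p k : ℕ) : ℤ) * T (k : ℤ)) +
        C v * (C (m * h.coeff (k : ℤ)) * T (k : ℤ)) := by
      rw [← mul_assoc, ← mul_assoc, ← map_mul, ← map_mul, ← add_mul, ← map_add, huv, map_one,
        one_mul]
    rw [h5]
    exact add_mem (mul_T_mem h4) (mul_T_mem h3)
  · intro hh
    rw [eq_sum h]
    refine sum_mem fun j _ => ?_
    by_cases hj : ∃ k : ℕ, (k : ℤ) = j
    · obtain ⟨k, rfl⟩ := hj
      rcases hh k with h1 | h1
      · exact mul_T_mem h1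
      · refine hD _ (Div_C_mul_T fun i _ hi => ?_)
        have : i = k := by exact_mod_cast hi
        rw [this]
        exact h1
    · exact hD _ (Div_C_mul_T fun k _ hk => absurd ⟨k, hk⟩ hj)

theorem π_derived {w : F} (hw : w ∈ derivedSeries F 2) : ∃ h, π w = E h := by
  have h1 : π w ∈ derivedSeries Gam 2 :=
    map_derivedSeries_le_derivedSeries π 2 (Subgroup.mem_map_of_mem π hw)
  exact mem_Z.1 (derived_two h1)

theorem mem_DD {N : Subgroup F} {D : Set ℕ} (hN : NN D ≤ N) (k : ℕ) :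
    k ∈ DD N ↔ T (k : ℤ) ∉ WW N := by
  have hD : ∀ x : R, Div D x → x ∈ WW N := fun x hx => Div_univ_mem hN hx (exists_word x)
  constructor
  · rintro ⟨w, hw, h1, h2⟩ hk
    obtain ⟨h, hh⟩ := π_derived hw
    have h3 : h ∉ WW N := fun h' => h1 ((mem_iff_WW hN hh).2 h')
    have h4 : π (w ^ p k) = E (C ((p k : ℕ) : ℤ) * h) := by
      rw [map_pow, hh, E_pow]
      congr 1
    have h5 := (mem_iff_WW hN h4).1 h2
    rw [W_eq hN] at h3 h5
    push Not at h3
    obtain ⟨j, hj1, hj2⟩ := h3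
    rcases h5 j with h6 | h6
    · exact hj1 h6
    · rw [coeff_C_mul] at h6
      rcases (Nat.prime_iff_prime_int.1 (p_prime j)).dvd_or_dvd h6 with h7 | h7
      · have h8 : p j ∣ p k := by exact_mod_cast h7
        have h9 := p_inj ((Nat.prime_dvd_prime_iff_eq (p_prime j) (p_prime k)).1 h8)
        rw [h9] at hj1
        exact hj1 hk
      · exact hj2 h7
  · intro hk
    set q : ℕ := p (k + 1) * p (k + 2) with hq
    have hcoef : ∀ (a : ℤ) (i : ℕ), (C a * (2 * T ((k : ℤ) + 1) - T (k : ℤ) - T ((k : ℤ) + 2)) : R).coeff (i : ℤ)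
        = a * (2 * (if (k : ℤ) + 1 = i then 1 else 0) - (if (k : ℤ) = i then 1 else 0) -
          (if (k : ℤ) + 2 = i then 1 else 0)) := by
      intro a i
      have e0 : (C a * (2 * T ((k : ℤ) + 1) - T (k : ℤ) - T ((k : ℤ) + 2)) : R) =
          C a * (C 2 * T ((k : ℤ) + 1) - T (k : ℤ) - T ((k : ℤ) + 2)) := by
        congr 1
      rw [e0, coeff_C_mul]
      congr 1
      have e1 : (C 2 * T ((k : ℤ) + 1) - T (k : ℤ) - T ((k : ℤ) + 2) : R).coeff (i : ℤ) =
          (C 2 * T ((k : ℤ) + 1) : R).coeff (i : ℤ) - (T (k : ℤ) : R).coeff (i : ℤ) -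
            (T ((k : ℤ) + 2) : R).coeff (i : ℤ) := rfl
      rw [e1, coeff_C_mul, coeff_T, coeff_T, coeff_T]
    have hπ : ∀ m : ℕ, π (wu k ^ m) =
        E (C (m : ℤ) * (2 * T ((k : ℤ) + 1) - T (k : ℤ) - T ((k : ℤ) + 2))) := by
      intro m
      rw [map_pow, π_wu, E_pow]
      congr 1
    refine ⟨wu k ^ q, pow_mem (wu_mem k) _, fun hmem => ?_, ?_⟩
    · have h1 := (mem_iff_WW hN (hπ q)).1 hmem
      rw [W_eq hN] at h1
      rcases h1 k with h2 | h2
      · exact hk h2
      · rw [hcoef] at h2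
        have e1 : ¬ ((k : ℤ) + 1 = k) := by omega
        have e2 : ¬ ((k : ℤ) + 2 = k) := by omega
        rw [if_neg e1, if_neg e2, if_pos rfl] at h2
        have h3 : ((p k : ℕ) : ℤ) ∣ (q : ℤ) := by
          have := (dvd_neg (α := ℤ)).2 h2
          simpa using this
        have h4 : p k ∣ q := by exact_mod_cast h3
        rw [hq] at h4
        rcases (p_prime k).dvd_mul.1 h4 with h5 | h5
        · have := p_inj ((Nat.prime_dvd_prime_iff_eq (p_prime _) (p_prime _)).1 h5)
          omega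
        · have := p_inj ((Nat.prime_dvd_prime_iff_eq (p_prime _) (p_prime _)).1 h5)
          omega
    · rw [← pow_mul]
      refine (mem_iff_WW hN (hπ (q * p k))).2 (hD _ fun i _ => ?_)
      rw [hcoef]
      by_cases hi : i = k ∨ i = k + 1 ∨ i = k + 2
      · refine Dvd.dvd.mul_right ?_ _
        have : p i ∣ q * p k := by
          rcases hi with rfl | rfl | rfl
          · exact dvd_mul_left _ _
          · rw [hq, mul_assoc]
            exact dvd_mul_right _ _
          · rw [hq, mul_assoc]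
            exact Dvd.dvd.mul_left (dvd_mul_right _ _) _
        exact_mod_cast this
      · push Not at hi
        have e1 : ¬ ((k : ℤ) + 1 = i) := by omega
        have e2 : ¬ ((k : ℤ) + 2 = i) := by omega
        have e3 : ¬ ((k : ℤ) = i) := by omega
        rw [if_neg e1, if_neg e2, if_neg e3]
        simp

theorem DD_NN (D : Set ℕ) : DD (NN D) = D := by
  ext k
  rw [mem_DD (le_refl _)]
  constructor
  · intro h
    by_contra hk
    apply h
    refine Div_univ_mem (le_refl _) (fun i hi => ?_) (exists_word _)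
    rw [coeff_T, if_neg]
    · exact dvd_zero _
    · intro he
      have : k = i := by exact_mod_cast he
      rw [this] at hk
      exact hk hi
  · rintro hk ⟨w, ⟨h, h1, h2⟩, h3⟩
    have h4 : h = T (k : ℤ) := E_inj (h1.symm.trans h3)
    have h5 := h2 k hk
    rw [h4, coeff_T, if_pos rfl] at h5
    have h6 : p k ∣ 1 := by exact_mod_cast h5
    exact (p_prime k).one_lt.ne' (Nat.dvd_one.1 h6)

theorem DD_anti {N : Subgroup F} {D : Set ℕ} (hN : NN D ≤ N) : DD N ⊆ D := by
  intro k hk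
  rw [← DD_NN D, mem_DD (le_refl _)]
  intro h
  obtain ⟨w, hw, h1⟩ := h
  exact (mem_DD hN k).1 hk ⟨w, hN hw, h1⟩

theorem DD_iso {N M : Subgroup F} [N.Normal] [M.Normal] (e : (F ⧸ N) ≃* (F ⧸ M)) :
    DD N = DD M := by
  have key : ∀ (N : Subgroup F) [N.Normal] (k : ℕ), k ∈ DD N ↔
      ∃ z ∈ derivedSeries (F ⧸ N) 2, z ≠ 1 ∧ z ^ p k = 1 := by
    intro N _ k
    have hs := map_derivedSeries_eq (QuotientGroup.mk'_surjective N) 2
    constructor
    · rintro ⟨w, hw, h1, h2⟩
      refine ⟨QuotientGroup.mk' N w, ?_, ?_, ?_⟩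
      · rw [← hs]
        exact Subgroup.mem_map_of_mem _ hw
      · intro h
        exact h1 ((QuotientGroup.eq_one_iff w).1 h)
      · rw [← map_pow]
        exact (QuotientGroup.eq_one_iff _).2 h2
    · rintro ⟨z, hz, h1, h2⟩
      rw [← hs] at hz
      obtain ⟨w, hw, rfl⟩ := Subgroup.mem_map.1 hz
      refine ⟨w, hw, fun h => h1 ((QuotientGroup.eq_one_iff w).2 h), ?_⟩
      rw [← map_pow] at h2
      exact (QuotientGroup.eq_one_iff _).1 h2
  have key2 : ∀ (N M : Subgroup F) [N.Normal] [M.Normal] (_ : (F ⧸ N) ≃* (F ⧸ M)) (k : ℕ),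
      k ∈ DD N → k ∈ DD M := by
    intro N M _ _ e k hk
    rw [key] at hk ⊢
    obtain ⟨z, hz, h1, h2⟩ := hk
    refine ⟨e z, ?_, ?_, ?_⟩
    · exact map_derivedSeries_le_derivedSeries e.toMonoidHom 2 (Subgroup.mem_map_of_mem _ hz)
    · intro h
      exact h1 (by simpa using h)
    · rw [← map_pow, h2, map_one]
  ext k
  exact ⟨key2 N M e k, key2 M N e.symm k⟩

end Pool.Agent.H534R3.GamGrp
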