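import Mathlib

/-! # Haar meager plus Haar null decomposition of abelian Polish groups

Choose injections `φ i : ZMod (2 ^ (i + 1)) → G` with values so close to `0` that
`F t = ∑ i, φ i (t i)` converges. Let `U i` be a Borel maximal set among those which contain no two
points differing by a difference of two values of `φ i`. Then the set of the points that lie in
infinitely many `U i` is Haar null with witness the law of `F`, and its complement is Haar meager
with witness `(s, t) ↦ F s - F t`. -/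

set_option autoImplicit false
set_option linter.unusedSectionVars false

open Filter Topology MeasureTheory

namespace Pool.Agent.H534R3.HM

/-- The index group of the witnesses. -/
abbrev KK : Type := (i : ℕ) → ZMod (2 ^ (i + 1))

section marker

variable {G : Type} [TopologicalSpace G] [AddCommGroup G] [IsTopologicalAddGroup G]
  [SecondCountableTopology G] [T1Space G] [MeasurableSpace G] [BorelSpace G]

theorem exists_small_nhd (Δ : Finset G) (h0 : (0 : G) ∉ Δ) :
    ∃ W : Set G, IsOpen W ∧ (0 : G) ∈ W ∧ ∀ u ∈ W, ∀ v ∈ W, u - v ∉ Δ := by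
  have h1 : ((Δ : Set G)ᶜ) ∈ 𝓝 ((0 : G) - 0) := by
    rw [sub_zero]
    exact Δ.finite_toSet.isClosed.isOpen_compl.mem_nhds (by simpa using h0)
  have h2 := (continuous_sub (G := G)).tendsto ((0 : G), (0 : G)) h1
  rw [nhds_prod_eq, mem_map, mem_prod_same_iff] at h2
  obtain ⟨V, hV, hVs⟩ := h2
  obtain ⟨W, hWV, hWo, hW0⟩ := mem_nhds_iff.1 hV
  refine ⟨W, hWo, hW0, fun u hu v hv => ?_⟩
  have := hVs (Set.mk_mem_prod (hWV hu) (hWV hv))
  simpa using this

theorem exists_cover (W : Set G) (hWo : IsOpen W) (hW0 : (0 : G) ∈ W) :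
    ∃ x : ℕ → G, ∀ y : G, ∃ n, y - x n ∈ W := by
  refine ⟨TopologicalSpace.denseSeq G, fun y => ?_⟩
  have ho : IsOpen {z : G | y - z ∈ W} := hWo.preimage (by fun_prop)
  have hne : ({z : G | y - z ∈ W}).Nonempty := ⟨y, by simpa using hW0⟩
  obtain ⟨n, hn⟩ := (TopologicalSpace.denseRange_denseSeq G).exists_mem_open ho hne
  exact ⟨n, hn⟩

/-- The greedy sequence of sets. -/
def greedy (Δ : Finset G) (V : ℕ → Set G) : ℕ → Set G
  | 0 => ∅
  | n + 1 => greedy Δ V n ∪ {x | x ∈ V n ∧ ∀ δ ∈ Δ, x + δ ∉ greedy Δ V n}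

theorem measurable_greedy (Δ : Finset G) (V : ℕ → Set G) (hV : ∀ n, MeasurableSet (V n)) (n : ℕ) :
    MeasurableSet (greedy Δ V n) := by
  induction n with
  | zero => exact MeasurableSet.empty
  | succ n ih =>
    refine ih.union ((hV n).inter ?_)
    have : {x : G | ∀ δ ∈ Δ, x + δ ∉ greedy Δ V n} =
        ⋂ δ ∈ Δ, (fun x => x + δ) ⁻¹' (greedy Δ V n)ᶜ := by
      ext x; simp
    change MeasurableSet {x : G | ∀ δ ∈ Δ, x + δ ∉ greedy Δ V n}
    rw [this]
    refine Finset.measurableSet_biInter _ fun δ _ => ?_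
    exact (measurable_add_const δ) ih.compl

theorem greedy_mono (Δ : Finset G) (V : ℕ → Set G) : Monotone (greedy Δ V) :=
  monotone_nat_of_le_succ fun _ => Set.subset_union_left

theorem greedy_indep (Δ : Finset G) (hs : ∀ δ ∈ Δ, -δ ∈ Δ) (V : ℕ → Set G)
    (hV : ∀ n, ∀ x ∈ V n, ∀ y ∈ V n, x - y ∉ Δ) (n : ℕ) :
    ∀ x ∈ greedy Δ V n, ∀ δ ∈ Δ, x + δ ∉ greedy Δ V n := by
  induction n with
  | zero => intro x hx; exact hx.elim
  | succ n ih =>
    rintro x (hx | ⟨hx, hx'⟩) δ hδ (hy | ⟨hy, hy'⟩)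
    · exact ih x hx δ hδ hy
    · refine hy' (-δ) (hs δ hδ) ?_
      rwa [add_neg_cancel_right]
    · exact hx' δ hδ hy
    · refine hV n _ hy _ hx ?_
      rwa [add_sub_cancel_left]

/-- Borel maximal independent sets for the graph of a finite symmetric set of differences. -/
theorem exists_marker (Δ : Finset G) (hs : ∀ δ ∈ Δ, -δ ∈ Δ) (h0 : (0 : G) ∉ Δ) :
    ∃ U : Set G, MeasurableSet U ∧ (∀ x ∈ U, ∀ δ ∈ Δ, x + δ ∉ U) ∧
      ∀ x : G, x ∈ U ∨ ∃ δ ∈ Δ, x + δ ∈ U := by
  obtain ⟨W, hWo, hW0, hW⟩ := exists_small_nhd Δ h0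
  obtain ⟨z, hz⟩ := exists_cover W hWo hW0
  set V : ℕ → Set G := fun n => {y | y - z n ∈ W} with hVdef
  have hVo : ∀ n, MeasurableSet (V n) := fun n =>
    (hWo.preimage (by fun_prop : Continuous fun y : G => y - z n)).measurableSet
  have hVi : ∀ n, ∀ x ∈ V n, ∀ y ∈ V n, x - y ∉ Δ := by
    intro n x hx y hy
    have := hW _ hx _ hy
    simpa using this
  refine ⟨⋃ n, greedy Δ V n, MeasurableSet.iUnion (measurable_greedy Δ V hVo), ?_, ?_⟩
  · intro x hx δ hδ hy
    obtain ⟨n, hn⟩ := Set.mem_iUnion.1 hx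
    obtain ⟨m, hm⟩ := Set.mem_iUnion.1 hy
    exact greedy_indep Δ hs V hVi (max n m) x (greedy_mono Δ V (le_max_left _ _) hn) δ hδ
      (greedy_mono Δ V (le_max_right _ _) hm)
  · intro x
    obtain ⟨n, hn⟩ := hz x
    by_cases h : ∃ δ ∈ Δ, x + δ ∈ greedy Δ V n
    · obtain ⟨δ, hδ, h⟩ := h
      exact Or.inr ⟨δ, hδ, Set.mem_iUnion.2 ⟨n, h⟩⟩
    · push Not at h
      exact Or.inl (Set.mem_iUnion.2 ⟨n + 1, Or.inr ⟨hn, h⟩⟩)

/-- The marker sets for an injective map `φ` from a finite type. -/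
theorem exists_marker' {ι : Type} [Finite ι] [Nonempty ι] (φ : ι → G) (hφ : Function.Injective φ) :
    ∃ U : Set G, MeasurableSet U ∧ (∀ x : G, ∀ a b, x + φ a ∈ U → x + φ b ∈ U → a = b) ∧
      ∀ x : G, ∃ a b, x + (φ a - φ b) ∈ U := by
  classical
  have := Fintype.ofFinite ι
  set Δ : Finset G := ((Finset.univ : Finset (ι × ι)).filter (fun p => p.1 ≠ p.2)).image
    (fun p => φ p.1 - φ p.2) with hΔ
  have hmem : ∀ a b, a ≠ b → φ a - φ b ∈ Δ := fun a b hab =>
    Finset.mem_image.2 ⟨(a, b), by simpa using hab, rfl⟩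
  obtain ⟨U, hU, h1, h2⟩ := exists_marker Δ (by
    intro δ hδ
    obtain ⟨⟨a, b⟩, hp, rfl⟩ := Finset.mem_image.1 hδ
    have hab : a ≠ b := by simpa using hp
    rw [neg_sub]
    exact hmem b a hab.symm) (by
    intro h
    obtain ⟨⟨a, b⟩, hp, h⟩ := Finset.mem_image.1 h
    have hab : a ≠ b := by simpa using hp
    exact hab (hφ (sub_eq_zero.1 h)))
  refine ⟨U, hU, fun x a b ha hb => ?_, fun x => ?_⟩
  · by_contra hab
    refine h1 _ ha _ (hmem b a (Ne.symm hab)) ?_
    convert hb using 1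
    abel
  · rcases h2 x with h | ⟨δ, hδ, h⟩
    · obtain ⟨a⟩ := ‹Nonempty ι›
      exact ⟨a, a, by simpa using h⟩
    · obtain ⟨⟨a, b⟩, -, rfl⟩ := Finset.mem_image.1 hδ
      exact ⟨a, b, h⟩

end marker

section series

variable {G : Type} [MetricSpace G] [CompleteSpace G] [AddCommGroup G]
  [IsTopologicalAddGroup G]

theorem nhds_infinite [SecondCountableTopology G] [Uncountable G] (U : Set G) (hU : U ∈ 𝓝 (0 : G)) :
    U.Infinite := by
  intro hfin
  have h1 : {(0 : G)} ∈ 𝓝 (0 : G) := by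
    have h2 : (U \ {0})ᶜ ∈ 𝓝 (0 : G) := (hfin.sdiff.isClosed).isOpen_compl.mem_nhds (by simp)
    filter_upwards [hU, h2] with x hx hx'
    by_contra h
    exact hx' ⟨hx, h⟩
  have h3 : IsOpen ({0} : Set G) := isOpen_singleton_iff_nhds_eq_pure (0 : G) |>.2
    (le_antisymm (le_pure_iff.2 h1) (pure_le_nhds _))
  have h4 : DiscreteTopology G := by
    rw [discreteTopology_iff_isOpen_singleton_zero]
    exact h3
  have h5 : Countable G := by
    have := TopologicalSpace.separableSpace_iff_countable (α := G)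
    exact this.1 inferInstance
  exact not_countable h5

theorem exists_step [SecondCountableTopology G] [Uncountable G] (S : Finset G) (n : ℕ) :
    ∃ φ : ZMod (2 ^ (n + 1)) → G, Function.Injective φ ∧
      ∀ s ∈ S, ∀ a, dist s (s + φ a) ≤ 1 / 2 / 2 ^ n := by
  have hU : {u : G | ∀ s ∈ S, dist s (s + u) ≤ 1 / 2 / 2 ^ n} ∈ 𝓝 (0 : G) := by
    have : {u : G | ∀ s ∈ S, dist s (s + u) ≤ 1 / 2 / 2 ^ n} =
        ⋂ s ∈ S, {u : G | dist s (s + u) ≤ 1 / 2 / 2 ^ n} := by
      ext u; simp
    rw [this, Finset.iInter_mem_sets]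
    intro s _
    have hc : Continuous fun u : G => dist s (s + u) := by fun_prop
    have := hc.tendsto 0
    simp only [add_zero, dist_self] at this
    have h2 : (0 : ℝ) < 1 / 2 / 2 ^ n := by positivity
    filter_upwards [this.eventually_lt_const h2] with u hu using hu.le
  have hinf := nhds_infinite _ hU
  have : Infinite {u : G | ∀ s ∈ S, dist s (s + u) ≤ 1 / 2 / 2 ^ n} := hinf.to_subtype
  obtain ⟨e⟩ : Nonempty (ZMod (2 ^ (n + 1)) ↪ {u : G | ∀ s ∈ S, dist s (s + u) ≤ 1 / 2 / 2 ^ n}) :=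
    ⟨Function.Embedding.trans (Fintype.equivFin _).toEmbedding
      (Function.Embedding.trans Fin.valEmbedding (Infinite.natEmbedding _))⟩
  exact ⟨fun a => (e a : G), fun a b h => e.injective (Subtype.ext h),
    fun s hs a => (e a).2 s hs⟩

/-- Partial sums. -/
noncomputable def psum (φ : (i : ℕ) → ZMod (2 ^ (i + 1)) → G) (n : ℕ) (t : KK) : G :=
  ∑ i ∈ Finset.range n, φ i (t i)

/-- The sequence of maps. -/
theorem exists_seq [SecondCountableTopology G] [Uncountable G] :
    ∃ φ : (i : ℕ) → ZMod (2 ^ (i + 1)) → G, (∀ i, Function.Injective (φ i)) ∧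
      ∀ n (t : KK), dist (psum φ n t) (psum φ (n + 1) t) ≤ 1 / 2 / 2 ^ n := by
  classical
  choose st h1 h2 using fun (S : Finset G) (n : ℕ) => exists_step S n
  let SS : ℕ → Finset G := fun n => Nat.rec {0} (fun n S => Finset.image₂ (· + ·) S
    (Finset.univ.image (st S n))) n
  have hSS : ∀ n, SS (n + 1) = Finset.image₂ (· + ·) (SS n) (Finset.univ.image (st (SS n) n)) :=
    fun n => rfl
  refine ⟨fun n => st (SS n) n, fun i => h1 _ _, ?_⟩
  have hp : ∀ n (t : KK), psum (fun n => st (SS n) n) n t ∈ SS n := by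
    intro n t
    induction n with
    | zero => simp [psum, SS]
    | succ n ih =>
      rw [hSS, psum, Finset.sum_range_succ]
      exact Finset.mem_image₂_of_mem ih (Finset.mem_image_of_mem _ (Finset.mem_univ _))
  intro n t
  have := h2 (SS n) n _ (hp n t) (t n)
  rw [psum, psum, Finset.sum_range_succ]
  exact this

/-- The limit of the partial sums. -/
theorem exists_limit (φ : (i : ℕ) → ZMod (2 ^ (i + 1)) → G)
    (h : ∀ n (t : KK), dist (psum φ n t) (psum φ (n + 1) t) ≤ 1 / 2 / 2 ^ n) :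
    ∃ F : KK → G, Continuous F ∧ ∀ t, Tendsto (fun n => psum φ n t) atTop (𝓝 (F t)) := by
  have hc : ∀ t : KK, CauchySeq (fun n => psum φ n t) := fun t =>
    cauchySeq_of_le_geometric_two (C := 1) (fun n => h n t)
  choose F hF using fun t => cauchySeq_tendsto_of_complete (hc t)
  refine ⟨F, ?_, hF⟩
  have hd : ∀ n t, dist (psum φ n t) (F t) ≤ 1 / 2 ^ n := fun n t =>
    dist_le_of_le_geometric_two_of_tendsto (C := 1) (fun n => h n t) (hF t) n
  have hu : TendstoUniformly (fun n t => psum φ n t) F atTop := by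
    rw [Metric.tendstoUniformly_iff]
    intro ε hε
    obtain ⟨N, hN⟩ := exists_pow_lt_of_lt_one hε (by norm_num : (1 / 2 : ℝ) < 1)
    filter_upwards [eventually_ge_atTop N] with n hn t
    rw [dist_comm]
    refine (hd n t).trans_lt (lt_of_le_of_lt ?_ hN)
    rw [one_div_pow]
    exact one_div_le_one_div_of_le (by positivity) (pow_le_pow_right₀ (by norm_num) hn)
  refine hu.continuous (Frequently.of_forall fun n => ?_)
  unfold psum
  refine continuous_finset_sum _ fun i _ => ?_
  exact (continuous_of_discreteTopology (f := φ i)).comp (continuous_apply i)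

theorem psum_add_single (φ : (i : ℕ) → ZMod (2 ^ (i + 1)) → G) (t : KK) (i n : ℕ) (hn : i < n)
    (c : ZMod (2 ^ (i + 1))) :
    psum φ n (t + Pi.single i c) = psum φ n t + (φ i (t i + c) - φ i (t i)) := by
  classical
  rw [← sub_eq_iff_eq_add', psum, psum, ← Finset.sum_sub_distrib,
    Finset.sum_eq_single_of_mem i (Finset.mem_range.2 hn)]
  · simp
  · intro j _ hj
    simp [Pi.single_eq_of_ne hj]

theorem limit_add_single (φ : (i : ℕ) → ZMod (2 ^ (i + 1)) → G) (F : KK → G)
    (hF : ∀ t, Tendsto (fun n => psum φ n t) atTop (𝓝 (F t))) (t : KK) (i : ℕ)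
    (c : ZMod (2 ^ (i + 1))) :
    F (t + Pi.single i c) = F t + (φ i (t i + c) - φ i (t i)) := by
  have h1 := (hF t).add_const (φ i (t i + c) - φ i (t i))
  refine tendsto_nhds_unique (hF _) (h1.congr' ?_)
  filter_upwards [eventually_gt_atTop i] with n hn
  rw [psum_add_single φ t i n hn c]

end series

section measure

variable {G : Type} [TopologicalSpace G] [AddCommGroup G] [IsTopologicalAddGroup G]
  [MeasurableSpace G] [BorelSpace G]

/-- The Haar probability measure on `KK`. -/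
theorem exists_haar : ∃ (m : MeasurableSpace KK) (_ : @BorelSpace KK _ m)
    (ν : @Measure KK m), IsProbabilityMeasure ν ∧
      ∀ (s : Set KK), MeasurableSet s → ∀ g : KK, ν ((fun t => t + g) ⁻¹' s) = ν s := by
  letI m : MeasurableSpace KK := borel KK
  haveI : BorelSpace KK := ⟨rfl⟩
  refine ⟨m, inferInstance, Measure.addHaarMeasure ⊤, ⟨?_⟩, fun s hs g => ?_⟩
  · exact Measure.addHaarMeasure_self (K₀ := (⊤ : TopologicalSpace.PositiveCompacts KK))
  · exact measure_preimage_add_right _ g s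

theorem measure_bound {m : MeasurableSpace KK} [BorelSpace KK] (ν : Measure KK)
    [IsProbabilityMeasure ν]
    (hν : ∀ (s : Set KK), MeasurableSet s → ∀ g : KK, ν ((fun t => t + g) ⁻¹' s) = ν s)
    (φ : (i : ℕ) → ZMod (2 ^ (i + 1)) → G) (F : KK → G) (hFc : Continuous F)
    (hF : ∀ (t : KK) (i : ℕ) (c : ZMod (2 ^ (i + 1))),
      F (t + Pi.single i c) = F t + (φ i (t i + c) - φ i (t i)))
    (i : ℕ) (U : Set G) (hU : MeasurableSet U)
    (hi : ∀ x : G, ∀ a b, x + φ i a ∈ U → x + φ i b ∈ U → a = b) (g : G) :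
    ν {t | F t + g ∈ U} ≤ (2 ^ (i + 1))⁻¹ := by
  classical
  have hS : MeasurableSet {t | F t + g ∈ U} :=
    (hFc.measurable.add_const g) hU
  have hdis : Pairwise (Function.onFun Disjoint
      (fun c : ZMod (2 ^ (i + 1)) => (fun t : KK => t + Pi.single i c) ⁻¹' {t | F t + g ∈ U})) := by
    intro c d hcd
    rw [Function.onFun, Set.disjoint_left]
    intro t h1 h2
    simp only [Set.mem_preimage, Set.mem_setOf_eq, hF] at h1 h2
    apply hcd
    have := hi (F t - φ i (t i) + g) (t i + c) (t i + d) (by convert h1 using 1; abel)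
      (by convert h2 using 1; abel)
    exact add_left_cancel this
  have hmeas : ∀ c : ZMod (2 ^ (i + 1)), MeasurableSet
      ((fun t : KK => t + Pi.single i c) ⁻¹' {t | F t + g ∈ U}) := fun c =>
    (continuous_add_right (Pi.single i c : KK)).measurable hS
  have h1 := measure_iUnion (μ := ν) hdis hmeas
  have h2 : ν (⋃ c : ZMod (2 ^ (i + 1)), (fun t : KK => t + Pi.single i c) ⁻¹'
    {t | F t + g ∈ U}) ≤ 1 := prob_le_one
  rw [h1] at h2
  simp only [hν _ hS, tsum_fintype, Finset.sum_const, Finset.card_univ, ZMod.card,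
    nsmul_eq_mul] at h2
  rw [ENNReal.le_inv_iff_mul_le, mul_comm]
  exact_mod_cast h2

end measure

section category

variable {G : Type} [TopologicalSpace G] [AddCommGroup G] [IsTopologicalAddGroup G]
  [MeasurableSpace G] [BorelSpace G]

theorem tendsto_single (c : (i : ℕ) → ZMod (2 ^ (i + 1))) :
    Tendsto (fun i => (Pi.single i (c i) : KK)) atTop (𝓝 0) := by
  rw [tendsto_pi_nhds]
  intro j
  refine tendsto_const_nhds.congr' ?_
  filter_upwards [eventually_gt_atTop j] with i hi
  rw [Pi.single_eq_of_ne (by omega)]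
  rfl

/-- An open set contains all small shifts of one of its points. -/
theorem exists_shift (O : Set (KK × KK)) (hO : IsOpen O) (p : KK × KK) (hp : p ∈ O) (k : ℕ) :
    ∃ i, k ≤ i ∧ ∀ c d : ZMod (2 ^ (i + 1)), p + (Pi.single i c, Pi.single i d) ∈ O := by
  by_contra hcon
  push Not at hcon
  choose! c d hcd using hcon
  have h1 : Tendsto (fun i => p + ((Pi.single i (c i) : KK), (Pi.single i (d i) : KK))) atTop
      (𝓝 (p + (0, 0))) :=
    tendsto_const_nhds.add ((tendsto_single c).prodMk_nhds (tendsto_single d))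
  have h2 : O ∈ 𝓝 (p + ((0 : KK), (0 : KK))) := hO.mem_nhds (by
    have : ((0 : KK), (0 : KK)) = 0 := rfl
    rwa [this, add_zero])
  obtain ⟨i, hi, hi'⟩ := ((h1.eventually h2).and (eventually_ge_atTop k)).exists
  exact hcd i hi' hi

theorem meagre_bad
    (φ : (i : ℕ) → ZMod (2 ^ (i + 1)) → G) (F : KK → G) (hFc : Continuous F)
    (hF : ∀ (t : KK) (i : ℕ) (c : ZMod (2 ^ (i + 1))),
      F (t + Pi.single i c) = F t + (φ i (t i + c) - φ i (t i)))
    (U : ℕ → Set G) (hU : ∀ i, MeasurableSet (U i))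
    (hi : ∀ i, ∀ x : G, ∃ a b, x + (φ i a - φ i b) ∈ U i) (g : G) (k : ℕ) :
    IsMeagre {p : KK × KK | ∀ i ≥ k, F p.1 - F p.2 + g ∉ U i} := by
  classical
  letI : MeasurableSpace (KK × KK) := borel _
  haveI : BorelSpace (KK × KK) := ⟨rfl⟩
  set S : Set (KK × KK) := {p : KK × KK | ∀ i ≥ k, F p.1 - F p.2 + g ∉ U i} with hSdef
  have hcont : Continuous fun p : KK × KK => F p.1 - F p.2 + g :=
    ((hFc.comp continuous_fst).sub (hFc.comp continuous_snd)).add continuous_const
  have hS : MeasurableSet S := by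
    have : S = ⋂ i, ⋂ (_ : k ≤ i), (fun p : KK × KK => F p.1 - F p.2 + g) ⁻¹' (U i)ᶜ := by
      ext p; simp [hSdef]
    rw [this]
    exact MeasurableSet.iInter fun i => MeasurableSet.iInter fun _ =>
      hcont.measurable (hU i).compl
  obtain ⟨O, hO, hSO⟩ := hS.residualEq_isOpen
  -- it is enough to see that `O` is empty
  have hOe : O = ∅ := by
    by_contra hne
    obtain ⟨p, hp⟩ := Set.nonempty_iff_ne_empty.2 hne
    obtain ⟨i, hik, hi1⟩ := exists_shift O hO p hp k
    set O' : Set (KK × KK) := ⋂ c : ZMod (2 ^ (i + 1)), ⋂ d : ZMod (2 ^ (i + 1)),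
      (fun q : KK × KK => q + (Pi.single i c, Pi.single i d)) ⁻¹' O with hO'
    have hO'o : IsOpen O' := isOpen_iInter_of_finite fun c => isOpen_iInter_of_finite fun d =>
      hO.preimage (continuous_add_right _)
    have hpO' : p ∈ O' := Set.mem_iInter.2 fun c => Set.mem_iInter.2 fun d => hi1 c d
    -- generic points of `O'` have all their shifts in `S`
    have hgen : ∀ c d : ZMod (2 ^ (i + 1)), ∀ᶠ q in residual (KK × KK),
        ((q + ((Pi.single i c : KK), (Pi.single i d : KK))) ∈ S ↔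
          (q + ((Pi.single i c : KK), (Pi.single i d : KK))) ∈ O) := by
      intro c d
      have h1 : Tendsto (fun q : KK × KK => q + ((Pi.single i c : KK), (Pi.single i d : KK)))
          (residual _) (residual _) :=
        tendsto_residual_of_isOpenMap (continuous_add_right _) (isOpenMap_add_right _)
      have h2 : ∀ᶠ q in residual (KK × KK), (q ∈ S ↔ q ∈ O) := by
        filter_upwards [hSO] with q hq
        exact iff_of_eq hq
      exact h1.eventually h2
    have hall : ∀ᶠ q in residual (KK × KK), ∀ c d : ZMod (2 ^ (i + 1)),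
        ((q + ((Pi.single i c : KK), (Pi.single i d : KK))) ∈ S ↔
          (q + ((Pi.single i c : KK), (Pi.single i d : KK))) ∈ O) := by
      rw [eventually_all]
      intro c
      rw [eventually_all]
      exact hgen c
    have hd := dense_of_mem_residual hall
    obtain ⟨q, hq1, hq2⟩ := hd.inter_open_nonempty O' hO'o ⟨p, hpO'⟩
    obtain ⟨a, b, hab⟩ := hi i (F q.1 - φ i (q.1 i) - (F q.2 - φ i (q.2 i)) + g)
    have h3 := (hq2 (a - q.1 i) (b - q.2 i)).2
      (Set.mem_iInter.1 (Set.mem_iInter.1 hq1 (a - q.1 i)) (b - q.2 i))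
    refine h3 i hik ?_
    simp only [Prod.fst_add, Prod.snd_add, hF, add_sub_cancel]
    convert hab using 1
    abel
  subst hOe
  rw [IsMeagre]
  filter_upwards [hSO] with q hq
  intro hqS
  have : q ∈ (∅ : Set (KK × KK)) := (iff_of_eq hq).1 hqS
  exact this

end category

end Pool.Agent.H534R3.HM
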