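import Mathlib

/-! # A countable locally finite group with an infinite conjugacy class

The generalised dihedral group of the additive group of `(ZMod 3)[X]`. -/

set_option autoImplicit false
set_option linter.unusedSectionVars false

open Polynomial

namespace Pool.Agent.H534R3.HNDih

/-- The additive group of polynomials over the field with three elements. -/
abbrev V : Type := (ZMod 3)[X]

/-- The generalised dihedral group of `V`. -/
@[ext] structure Dih : Type where
  /-- translation part -/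
  v : V
  /-- sign -/
  s : ℤˣ

noncomputable instance : Mul Dih := ⟨fun a b => ⟨a.v + (a.s : ℤ) • b.v, a.s * b.s⟩⟩
noncomputable instance : One Dih := ⟨⟨0, 1⟩⟩
noncomputable instance : Inv Dih := ⟨fun a => ⟨-((a.s⁻¹ : ℤˣ) : ℤ) • a.v, a.s⁻¹⟩⟩

@[simp] theorem mul_v (a b : Dih) : (a * b).v = a.v + (a.s : ℤ) • b.v := rfl
@[simp] theorem mul_s (a b : Dih) : (a * b).s = a.s * b.s := rfl
@[simp] theorem one_v : (1 : Dih).v = 0 := rfl
@[simp] theorem one_s : (1 : Dih).s = 1 := rfl
@[simp] theorem inv_v (a : Dih) : (a⁻¹).v = -((a.s⁻¹ : ℤˣ) : ℤ) • a.v := rfl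
@[simp] theorem inv_s (a : Dih) : (a⁻¹).s = a.s⁻¹ := rfl

noncomputable instance : Group Dih :=
  Group.ofLeftAxioms
    (fun a b c => by
      ext1
      · simp only [mul_v, mul_s, smul_add, Units.val_mul, mul_smul, add_assoc]
      · simp only [mul_s, mul_assoc])
    (fun a => by
      ext1
      · simp
      · simp)
    (fun a => by
      ext1
      · simp
      · simp)

/-- The equivalence with the product. -/
def eqv : Dih ≃ V × ℤˣ where
  toFun a := (a.v, a.s)
  invFun p := ⟨p.1, p.2⟩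
  left_inv _ := rfl
  right_inv _ := rfl

instance : Countable V := by
  rw [← Cardinal.mk_le_aleph0_iff]
  refine (Polynomial.cardinalMk_le_max (R := ZMod 3)).trans ?_
  exact max_le (Cardinal.mk_le_aleph0) le_rfl

instance : Countable Dih := eqv.injective.countable

instance : TopologicalSpace Dih := ⊥
instance : DiscreteTopology Dih := ⟨rfl⟩
instance : MeasurableSpace Dih := ⊤
instance : BorelSpace Dih := ⟨borel_eq_top_of_discrete.symm⟩

/-- The finite subgroups exhausting `Dih`. -/
def sub (d : ℕ) : Subgroup Dih where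
  carrier := {a | a.v ∈ degreeLT (ZMod 3) d}
  mul_mem' := by
    intro a b ha hb
    have ha' : a.v ∈ degreeLT (ZMod 3) d := ha
    have hb' : b.v ∈ degreeLT (ZMod 3) d := hb
    exact add_mem ha' (zsmul_mem hb' _)
  one_mem' := (degreeLT (ZMod 3) d).zero_mem
  inv_mem' := by
    intro a ha
    have ha' : a.v ∈ degreeLT (ZMod 3) d := ha
    exact zsmul_mem ha' _

theorem mem_sub {d : ℕ} {a : Dih} : a ∈ sub d ↔ a.v ∈ degreeLT (ZMod 3) d := Iff.rfl

instance (d : ℕ) : Finite (sub d) := by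
  have h : Finite (degreeLT (ZMod 3) d) := Finite.of_equiv _ (degreeLTEquiv (ZMod 3) d).symm.toEquiv
  refine Finite.of_injective (β := degreeLT (ZMod 3) d × ℤˣ)
    (fun a => (⟨a.1.v, mem_sub.1 a.2⟩, a.1.s)) ?_
  rintro ⟨a, ha⟩ ⟨b, hb⟩ hab
  simp only [Prod.mk.injEq, Subtype.mk.injEq] at hab
  exact Subtype.ext (Dih.ext hab.1 hab.2)

theorem sub_mono {d e : ℕ} (h : d ≤ e) : sub d ≤ sub e := fun _ ha =>
  mem_sub.2 (degreeLT_mono h (mem_sub.1 ha))

theorem exists_sub (F : Set Dih) (hF : F.Finite) : ∃ d, ∀ a ∈ F, a ∈ sub d := by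
  induction F, hF using Set.Finite.induction_on with
  | empty => exact ⟨0, by simp⟩
  | @insert a s _ _ ih =>
    obtain ⟨d, hd⟩ := ih
    refine ⟨max d (a.v.natDegree + 1), ?_⟩
    rintro b (rfl | hb)
    · refine sub_mono (le_max_right _ _) ?_
      rw [mem_sub, mem_degreeLT]
      exact lt_of_le_of_lt degree_le_natDegree (by exact_mod_cast Nat.lt_succ_self _)
    · exact sub_mono (le_max_left _ _) (hd b hb)

/-- The reflection. -/
noncomputable def τ : Dih := ⟨0, -1⟩

/-- The set of the elements whose sign is `1`, resp. `-1`, if the leading coefficient is `1`,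
resp. `-1`. -/
def A₀ : Set Dih := {a | (a.s = 1 ∧ a.v.leadingCoeff = 1) ∨ (a.s = -1 ∧ a.v.leadingCoeff = -1)}

theorem A₀_mul_τ (a : Dih) (ha : a ∈ A₀) : a * τ ∉ A₀ := by
  have h3 : (1 : ZMod 3) ≠ -1 := by decide
  have h4 : (1 : ℤˣ) ≠ -1 := by decide
  have h5 : (a * τ).v = a.v := by simp [τ]
  have h6 : (a * τ).s = -a.s := by simp [τ]
  rintro (⟨h1, h2⟩ | ⟨h1, h2⟩) <;> rcases ha with ⟨h7, h8⟩ | ⟨h7, h8⟩ <;>
    rw [h6, h7] at h1 <;> rw [h5, h8] at h2
  · exact h4 h1.symm
  · exact h3 h2.symm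
  · exact h3 h2
  · rw [neg_neg] at h1
    exact h4 h1

theorem translate (F : Set Dih) (hF : F.Finite) : ∃ h : Dih, ∀ f ∈ F, f * h ∈ A₀ := by
  obtain ⟨d, hd⟩ := exists_sub F hF
  refine ⟨⟨X ^ d, 1⟩, fun f hf => ?_⟩
  have h1 : degree f.v < d := mem_degreeLT.1 (mem_sub.1 (hd f hf))
  rcases Int.units_eq_one_or f.s with h | h
  · left
    refine ⟨by simp [h], ?_⟩
    simp only [mul_v, h, Units.val_one, one_smul]
    rw [leadingCoeff_add_of_degree_lt (by rwa [degree_X_pow]), leadingCoeff_X_pow]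
  · right
    refine ⟨by simp [h], ?_⟩
    simp only [mul_v, h, Units.val_neg, Units.val_one, neg_smul, one_smul]
    rw [leadingCoeff_add_of_degree_lt (by rwa [degree_neg, degree_X_pow]), leadingCoeff_neg,
      leadingCoeff_X_pow]

end Pool.Agent.H534R3.HNDih
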