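import Pool.Agent.H534R3.GG

/-! # The averaging functional of the imitation blocks -/

set_option autoImplicit false

open MeasureTheory Filter Topology
open scoped Real

namespace Pool.Agent.H534R3.Rota

open Pool.Agent.H534R3.UDist

theorem GG_neg (B y : ℝ) (R : ℕ) (x : ℝ) : GG B y R (-x) = (starRingEnd ℂ) (GG B y R x) := by
  rw [GG, GG, intervalIntegral.integral_of_le zero_le_one,
    intervalIntegral.integral_of_le zero_le_one, ← integral_conj]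
  congr 1
  funext s
  rw [map_mul, Complex.conj_ofReal, ← ee_neg]
  congr 2
  ring

/-- The functional given by an affine map and a density. -/
noncomputable def LF (a b : ℝ) (ρ : ℝ → ℝ) (hρ : Continuous ρ) : C(ℝ, ℂ) →ₗ[ℂ] ℂ where
  toFun f := ∫ s in (0 : ℝ)..1, f (a + b * s) * ((ρ s : ℝ) : ℂ)
  map_add' f g := by
    simp only [ContinuousMap.add_apply, add_mul]
    refine intervalIntegral.integral_add ?_ ?_
    · exact Continuous.intervalIntegrable (by fun_prop) _ _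
    · exact Continuous.intervalIntegrable (by fun_prop) _ _
  map_smul' c f := by
    simp only [ContinuousMap.smul_apply, smul_eq_mul, mul_assoc, RingHom.id_apply]
    exact intervalIntegral.integral_const_mul _ _

theorem LF_apply (a b : ℝ) (ρ : ℝ → ℝ) (hρ : Continuous ρ) (f : C(ℝ, ℂ)) :
    LF a b ρ hρ f = ∫ s in (0 : ℝ)..1, f (a + b * s) * ((ρ s : ℝ) : ℂ) := rfl

theorem LF_re (a b : ℝ) (ρ : ℝ → ℝ) (hρ : Continuous ρ) (hρ0 : ∀ s, 0 ≤ ρ s) (f : C(ℝ, ℂ)) (K : ℝ)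
    (hf : ∀ s ∈ Set.Icc (0 : ℝ) 1, K ≤ (f (a + b * s)).re) :
    K * ∫ s in (0 : ℝ)..1, ρ s ≤ (LF a b ρ hρ f).re := by
  have hc : Continuous fun s : ℝ => f (a + b * s) * ((ρ s : ℝ) : ℂ) := by fun_prop
  have e1 := (Complex.reCLM).intervalIntegral_comp_comm (hc.intervalIntegrable (μ := volume) 0 1)
  rw [Complex.reCLM_apply] at e1
  rw [LF_apply, ← e1, ← intervalIntegral.integral_const_mul]
  refine intervalIntegral.integral_mono_on zero_le_one ?_ ?_ fun s hs => ?_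
  · exact Continuous.intervalIntegrable (by fun_prop) _ _
  · exact Continuous.intervalIntegrable (Complex.reCLM.continuous.comp hc) _ _
  · rw [Complex.reCLM_apply, Complex.re_mul_ofReal]
    exact mul_le_mul_of_nonneg_right (hf s hs) (hρ0 s)

theorem LF_norm (a b : ℝ) (ρ : ℝ → ℝ) (hρ : Continuous ρ) (hρ0 : ∀ s, 0 ≤ ρ s) (f : C(ℝ, ℂ)) (K : ℝ)
    (hf : ∀ x, ‖f x‖ ≤ K) :
    ‖LF a b ρ hρ f‖ ≤ K * ∫ s in (0 : ℝ)..1, ρ s := by
  rw [LF_apply, ← intervalIntegral.integral_const_mul]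
  refine (intervalIntegral.norm_integral_le_integral_norm zero_le_one).trans ?_
  refine intervalIntegral.integral_mono_on zero_le_one ?_ ?_ fun s hs => ?_
  · exact Continuous.intervalIntegrable (by fun_prop) _ _
  · exact Continuous.intervalIntegrable (by fun_prop) _ _
  · rw [norm_mul, Complex.norm_real, Real.norm_eq_abs, abs_of_nonneg (hρ0 s)]
    exact mul_le_mul_of_nonneg_right (hf _) (hρ0 s)

/-- The scale of the `i`-th density. -/
noncomputable def wi (θ : ℝ) (h0 n0 i : ℕ) : ℝ := 1 / ((h0 : ℝ) * θ ^ (n0 + i))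

/-- The `i`-th density. -/
noncomputable def ri (θ : ℝ) (M h0 n0 R : ℕ) (y0 u : ℝ) (i : ℕ) : ℝ → ℝ :=
  rho (θ ^ M) (ph (θ ^ M) ((y0 - u) / wi θ h0 n0 i)) R

theorem continuous_ri (θ : ℝ) (M h0 n0 R : ℕ) (y0 u : ℝ) (i : ℕ) :
    Continuous (ri θ M h0 n0 R y0 u i) := continuous_rho _ _ _

/-- The mass of the `i`-th density. -/
noncomputable def mi (θ : ℝ) (M h0 n0 R : ℕ) (y0 u : ℝ) (i : ℕ) : ℝ :=
  ∫ s in (0 : ℝ)..1, ri θ M h0 n0 R y0 u i s

theorem mi_ge {θ : ℝ} {M : ℕ} (hB : 16 ≤ θ ^ M) (h0 n0 R : ℕ) (y0 u : ℝ) (i : ℕ) :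
    7 / 8 ≤ mi θ M h0 n0 R y0 u i := mass_ge hB _ _

/-- The functional. -/
noncomputable def EL (θ : ℝ) (M h0 n0 R : ℕ) (p y0 u : ℝ) : C(ℝ, ℂ) →ₗ[ℂ] ℂ :=
  ((1 - p : ℝ) : ℂ) • LF u (1 / θ ^ n0) (fun _ => 1) continuous_const +
  ∑ i ∈ Finset.range M, ((p / (M * mi θ M h0 n0 R y0 u i) : ℝ) : ℂ) •
    LF u (wi θ h0 n0 i) (ri θ M h0 n0 R y0 u i) (continuous_ri θ M h0 n0 R y0 u i)

theorem EL_apply (θ : ℝ) (M h0 n0 R : ℕ) (p y0 u : ℝ) (f : C(ℝ, ℂ)) :
    EL θ M h0 n0 R p y0 u f = ((1 - p : ℝ) : ℂ) * LF u (1 / θ ^ n0) (fun _ => 1) continuous_const f +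
    ∑ i ∈ Finset.range M, ((p / (M * mi θ M h0 n0 R y0 u i) : ℝ) : ℂ) *
      LF u (wi θ h0 n0 i) (ri θ M h0 n0 R y0 u i) (continuous_ri θ M h0 n0 R y0 u i) f := by
  simp [EL, LinearMap.add_apply, LinearMap.smul_apply, LinearMap.sum_apply]

theorem mass_sum {θ : ℝ} {M : ℕ} (hM : 1 ≤ M) (hB : 16 ≤ θ ^ M) (h0 n0 R : ℕ) (p y0 u K : ℝ) :
    (1 - p) * (K * ∫ _s in (0 : ℝ)..1, (1 : ℝ)) +
    ∑ i ∈ Finset.range M, p / (M * mi θ M h0 n0 R y0 u i) *
      (K * ∫ s in (0 : ℝ)..1, ri θ M h0 n0 R y0 u i s) = K := by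
  have hM0 : (M : ℝ) ≠ 0 := by
    have : M ≠ 0 := by omega
    exact_mod_cast this
  have h1 : ∀ i ∈ Finset.range M, p / (M * mi θ M h0 n0 R y0 u i) *
      (K * ∫ s in (0 : ℝ)..1, ri θ M h0 n0 R y0 u i s) = p * K / M := by
    intro i _
    have h2 := mi_ge hB h0 n0 R y0 u i
    have h3 : mi θ M h0 n0 R y0 u i ≠ 0 := by linarith
    have h4 : (∫ s in (0 : ℝ)..1, ri θ M h0 n0 R y0 u i s) = mi θ M h0 n0 R y0 u i := rfl
    rw [h4]
    field_simp
  rw [Finset.sum_congr rfl h1, Finset.sum_const, Finset.card_range, nsmul_eq_mul]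
  simp only [intervalIntegral.integral_const, sub_zero, smul_eq_mul, mul_one]
  field_simp
  ring

theorem EL_exists {θ : ℝ} (hθ : 1 < θ) {M : ℕ} (hM : 1 ≤ M) (hB : 16 ≤ θ ^ M) {h0 : ℕ} (hh0 : 1 ≤ h0)
    (n0 R : ℕ) (p y0 u : ℝ) (hp0 : 0 ≤ p) (hp1 : p ≤ 1) (f : C(ℝ, ℂ)) (η : ℝ) (hη : 0 < η) :
    ∃ ξ ∈ Set.Icc u (u + 1 / θ ^ n0), (f ξ).re ≤ ‖EL θ M h0 n0 R p y0 u f‖ + η := by
  by_contra hcon
  push Not at hcon
  set K := ‖EL θ M h0 n0 R p y0 u f‖ + η with hK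
  have hθ0 : 0 < θ := by linarith
  have hh : (1 : ℝ) ≤ h0 := by exact_mod_cast hh0
  have hn : 0 < θ ^ n0 := by positivity
  have h1 : K * ∫ _s in (0 : ℝ)..1, (1 : ℝ) ≤
      (LF u (1 / θ ^ n0) (fun _ => 1) continuous_const f).re := by
    refine LF_re u (1 / θ ^ n0) (fun _ => 1) continuous_const (fun _ => zero_le_one) f K ?_
    intro s hs
    refine (hcon _ ?_).le
    have e1 : 0 ≤ 1 / θ ^ n0 := by positivity
    exact ⟨by nlinarith [hs.1], by nlinarith [hs.2]⟩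
  have h2 : ∀ i ∈ Finset.range M, p / (M * mi θ M h0 n0 R y0 u i) *
      (K * ∫ s in (0 : ℝ)..1, ri θ M h0 n0 R y0 u i s) ≤
      p / (M * mi θ M h0 n0 R y0 u i) *
      (LF u (wi θ h0 n0 i) (ri θ M h0 n0 R y0 u i) (continuous_ri θ M h0 n0 R y0 u i) f).re := by
    intro i _
    refine mul_le_mul_of_nonneg_left ?_ ?_
    · refine LF_re _ _ _ _ (fun s => rho_nonneg _ _ _ s) f K ?_
      intro s hs
      refine (hcon _ ?_).le
      have e1 : 0 ≤ wi θ h0 n0 i := by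
        rw [wi]
        positivity
      have e2 : wi θ h0 n0 i ≤ 1 / θ ^ n0 := by
        rw [wi]
        refine one_div_le_one_div_of_le hn ?_
        have e3 : θ ^ n0 ≤ θ ^ (n0 + i) := pow_le_pow_right₀ hθ.le (by omega)
        nlinarith
      exact ⟨by nlinarith [hs.1], by nlinarith [hs.2, hs.1]⟩
    · have := mi_ge hB h0 n0 R y0 u i
      positivity
  have h3 : K ≤ (EL θ M h0 n0 R p y0 u f).re := by
    rw [EL_apply, Complex.add_re, Complex.re_ofReal_mul, Complex.re_sum]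
    have h4 := mass_sum hM hB h0 n0 R p y0 u K
    have h5 := Finset.sum_le_sum h2
    have h6 : (1 - p) * (K * ∫ _s in (0 : ℝ)..1, (1 : ℝ)) ≤
        (1 - p) * (LF u (1 / θ ^ n0) (fun _ => 1) continuous_const f).re :=
      mul_le_mul_of_nonneg_left h1 (by linarith)
    simp only [Complex.re_ofReal_mul]
    linarith
  have h4 := (Complex.re_le_norm (EL θ M h0 n0 R p y0 u f))
  linarith

theorem EL_norm {θ : ℝ} {M : ℕ} (hM : 1 ≤ M) (hB : 16 ≤ θ ^ M) (h0 n0 R : ℕ)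
    (p y0 u : ℝ) (hp0 : 0 ≤ p) (hp1 : p ≤ 1) (f : C(ℝ, ℂ)) (K : ℝ) (hf : ∀ x, ‖f x‖ ≤ K) :
    ‖EL θ M h0 n0 R p y0 u f‖ ≤ K := by
  rw [EL_apply]
  refine (norm_add_le _ _).trans ?_
  have h4 := mass_sum hM hB h0 n0 R p y0 u K
  have h1 : ‖((1 - p : ℝ) : ℂ) * LF u (1 / θ ^ n0) (fun _ => 1) continuous_const f‖ ≤
      (1 - p) * (K * ∫ _s in (0 : ℝ)..1, (1 : ℝ)) := by
    rw [norm_mul, Complex.norm_real, Real.norm_eq_abs, abs_of_nonneg (by linarith)]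
    exact mul_le_mul_of_nonneg_left (LF_norm _ _ _ _ (fun _ => zero_le_one) f K hf) (by linarith)
  have h2 : ‖∑ i ∈ Finset.range M, ((p / (M * mi θ M h0 n0 R y0 u i) : ℝ) : ℂ) *
      LF u (wi θ h0 n0 i) (ri θ M h0 n0 R y0 u i) (continuous_ri θ M h0 n0 R y0 u i) f‖ ≤
      ∑ i ∈ Finset.range M, p / (M * mi θ M h0 n0 R y0 u i) *
      (K * ∫ s in (0 : ℝ)..1, ri θ M h0 n0 R y0 u i s) := by
    refine norm_sum_le_of_le _ fun i _ => ?_
    have h3 := mi_ge hB h0 n0 R y0 u i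
    rw [norm_mul, Complex.norm_real, Real.norm_eq_abs, abs_of_nonneg (by positivity)]
    exact mul_le_mul_of_nonneg_left (LF_norm _ _ _ _ (fun s => rho_nonneg _ _ _ s) f K hf)
      (by positivity)
  linarith

theorem EL_one {θ : ℝ} {M : ℕ} (hM : 1 ≤ M) (hB : 16 ≤ θ ^ M) (h0 n0 R : ℕ)
    (p y0 u : ℝ) : EL θ M h0 n0 R p y0 u 1 = 1 := by
  rw [EL_apply]
  have h4 := mass_sum hM hB h0 n0 R p y0 u 1
  have h1 : ∀ (a b : ℝ) (ρ : ℝ → ℝ) (hρ : Continuous ρ), LF a b ρ hρ 1 =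
      ((1 * ∫ s in (0 : ℝ)..1, ρ s : ℝ) : ℂ) := by
    intro a b ρ hρ
    rw [LF_apply, one_mul, ← intervalIntegral.integral_ofReal]
    simp
  simp only [h1]
  have h5 := congrArg (fun x : ℝ => (x : ℂ)) h4
  push_cast at h5 ⊢
  exact h5

/-- The character as a continuous function. -/
noncomputable def ch (l : ℝ) : C(ℝ, ℂ) := ⟨fun ξ => ee (l * ξ), continuous_ee.comp (by fun_prop)⟩

theorem ch_apply (l ξ : ℝ) : ch l ξ = ee (l * ξ) := rfl

/-- The average of the limits of the coefficients. -/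
noncomputable def WB (θ : ℝ) (M h0 h : ℕ) : ℝ :=
  (1 / M) * ∑ r ∈ Finset.range M, wt (θ ^ M) ((h : ℝ) / h0 * θ ^ r)

theorem sum_mod (M N : ℕ) (hM : 1 ≤ M) (hN : M ≤ N) (F : ℕ → ℝ) :
    ∑ i ∈ Finset.range M, F ((N - i) % M) = ∑ r ∈ Finset.range M, F r := by
  have hinj : Set.InjOn (fun i => (N - i) % M) (Finset.range M : Set ℕ) := by
    intro i hi i' hi' h
    have hi1 : i < M := by simpa using hi
    have hi2 : i' < M := by simpa using hi'
    simp only at h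
    have h1 := Nat.div_add_mod (N - i) M
    have h2 := Nat.div_add_mod (N - i') M
    have key : ∀ a b : ℕ, a < M → b < M → (N - a) % M = (N - b) % M → a < b → False := by
      intro a b ha hb hab hlt
      have h3 : (N - b) ≡ (N - a) [MOD M] := hab.symm
      have h4 := (Nat.modEq_iff_dvd' (by omega : N - b ≤ N - a)).1 h3
      have h5 := Nat.le_of_dvd (by omega) h4
      omega
    rcases lt_trichotomy i i' with hlt | heq | hgt
    · exact absurd (key i i' hi1 hi2 h hlt) id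
    · exact heq
    · exact absurd (key i' i hi2 hi1 h.symm hgt) id
  have hmap : Finset.image (fun i => (N - i) % M) (Finset.range M) = Finset.range M := by
    apply Finset.eq_of_subset_of_card_le
    · intro x hx
      obtain ⟨i, _, rfl⟩ := Finset.mem_image.1 hx
      exact Finset.mem_range.2 (Nat.mod_lt _ (by omega))
    · rw [Finset.card_image_of_injOn hinj]
  conv_rhs => rw [← hmap]
  rw [Finset.sum_image hinj]

theorem WB_bounds {θ : ℝ} {M : ℕ} (hM : 1 ≤ M) (hB : 16 ≤ θ ^ M) (h0 h : ℕ) :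
    0 ≤ WB θ M h0 h ∧ WB θ M h0 h ≤ 1 := by
  have hM0 : (0 : ℝ) < M := by exact_mod_cast (by omega : 0 < M)
  constructor
  · refine mul_nonneg (by positivity) (Finset.sum_nonneg fun r _ => (wt_spec hB _).1)
  · rw [WB, one_div_mul_eq_div, div_le_one hM0]
    refine (Finset.sum_le_sum fun r _ => (wt_spec hB _).2.1).trans (le_of_eq ?_)
    simp

theorem WB_pos {θ : ℝ} {M : ℕ} (hM : 1 ≤ M) (hB : 16 ≤ θ ^ M) (h0 : ℕ) (hh0 : 1 ≤ h0) :
    0 < WB θ M h0 h0 := by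
  have hM0 : (0 : ℝ) < M := by exact_mod_cast (by omega : 0 < M)
  have hh : (h0 : ℝ) ≠ 0 := by
    have : h0 ≠ 0 := by omega
    exact_mod_cast this
  rw [WB]
  refine mul_pos (by positivity) ?_
  refine Finset.sum_pos' (fun r _ => (wt_spec hB _).1) ⟨0, Finset.mem_range.2 (by omega), ?_⟩
  rw [pow_zero, mul_one, div_self hh]
  exact wt_one hB

end Pool.Agent.H534R3.Rota
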