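import Pool.Agent.H534R3.UD

/-! # Countable intersections of countable unions of closed sets -/

set_option autoImplicit false

open Filter Topology

namespace Pool.Agent.H534R3.UDist

section Reduction

variable {Y : Type} [TopologicalSpace Y]

/-- Eventual behaviour of monotone sequences. -/
theorem unbounded_of_changes (c : ℕ → ℕ) (hc : ∀ n, c n ≤ c (n + 1))
    (h : ∀ N, ∃ n, N ≤ n ∧ c n ≠ c (n + 1)) (K : ℕ) : ∃ n, K ≤ c n := by
  have hmono : Monotone c := monotone_nat_of_le_succ hc
  induction K with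
  | zero => exact ⟨0, Nat.zero_le _⟩
  | succ K ih =>
    obtain ⟨n, hn⟩ := ih
    obtain ⟨m, hm, hm'⟩ := h n
    refine ⟨m + 1, ?_⟩
    have h1 := hmono hm
    have h2 := hc m
    omega

theorem changes_of_unbounded (c : ℕ → ℕ)
    (h : ∀ K, ∃ n, K ≤ c n) (hc : ∀ n, c n ≤ c (n + 1)) (N : ℕ) : ∃ n, N ≤ n ∧ c n ≠ c (n + 1) := by
  by_contra hcon
  push Not at hcon
  have hmono : Monotone c := monotone_nat_of_le_succ hc
  have h1 : ∀ m, c (N + m) = c N := by
    intro m
    induction m with
    | zero => rfl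
    | succ m ih => rw [← Nat.add_assoc, ← hcon (N + m) (Nat.le_add_right _ _), ih]
  obtain ⟨n, hn⟩ := h (c N + 1)
  have h2 : c n ≤ c (N + n) := hmono (Nat.le_add_left _ _)
  rw [h1] at h2
  omega

/-- The reduction to the sequences tending to infinity. -/
theorem reduce_closed (e : Y → ℕ → ℕ) (he : IsInducing e) (G : ℕ → ℕ → Set Y)
    (hG : ∀ i j, IsClosed (G i j)) :
    ∃ h : Y → ℕ → ℕ, Continuous h ∧ ∀ x, x ∈ ⋂ i, ⋃ j, G i j ↔ Tendsto (h x) atTop atTop := by
  classical
  set cyl : Y → ℕ → Set Y := fun x n => {x' | ∀ i < n, e x' i = e x i} with hcyl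
  have hcyl_nhds : ∀ x n, cyl x n ∈ 𝓝 x := by
    intro x n
    have h1 : ∀ᶠ x' in 𝓝 x, ∀ i ∈ Finset.range n, e x' i = e x i := by
      rw [Filter.eventually_all_finset]
      intro i _
      have h2 : ContinuousAt (fun x' => e x' i) x :=
        ((continuous_apply i).comp he.continuous).continuousAt
      exact h2.eventually (eventually_of_mem ((isOpen_discrete {e x i}).mem_nhds rfl)
        (fun z hz => hz))
    filter_upwards [h1] with x' hx' i hi
    exact hx' i (Finset.mem_range.2 hi)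
  have hcyl_basis : ∀ x, ∀ s ∈ 𝓝 x, ∃ n, cyl x n ⊆ s := by
    intro x s hs
    rw [he.nhds_eq_comap, mem_comap] at hs
    obtain ⟨t, ht, hts⟩ := hs
    rw [nhds_pi, Filter.mem_pi] at ht
    obtain ⟨I, hI, u, hu, hut⟩ := ht
    obtain ⟨n, hn⟩ := hI.bddAbove
    refine ⟨n + 1, fun x' hx' => hts (hut ?_)⟩
    intro i hi
    have : i < n + 1 := Nat.lt_succ_of_le (hn hi)
    rw [hx' i this]
    exact mem_of_mem_nhds (hu i)
  set Gf : ℕ → ℕ → Set Y := fun i j => ⋃ j' ∈ Finset.range (j + 1), G i j' with hGf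
  have hGfc : ∀ i j, IsClosed (Gf i j) := by
    intro i j
    exact isClosed_biUnion_finset fun j' _ => hG i j'
  have hGfm : ∀ i j j', j ≤ j' → Gf i j ⊆ Gf i j' := by
    intro i j j' hjj x hx
    simp only [hGf, Set.mem_iUnion, Finset.mem_range, exists_prop] at hx ⊢
    obtain ⟨l, hl, hl'⟩ := hx
    exact ⟨l, by omega, hl'⟩
  set c : ℕ → Y → ℕ → ℕ := fun i x n => sInf {j | (cyl x n ∩ Gf i j).Nonempty ∨ n ≤ j} with hc
  have hcne : ∀ i x n, {j | (cyl x n ∩ Gf i j).Nonempty ∨ n ≤ j}.Nonempty := fun i x n =>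
    ⟨n, Or.inr le_rfl⟩
  have hcmono : ∀ i x n, c i x n ≤ c i x (n + 1) := by
    intro i x n
    refine Nat.sInf_le ?_
    have h1 := Nat.sInf_mem (hcne i x (n + 1))
    rcases h1 with ⟨z, hz1, hz2⟩ | h1
    · exact Or.inl ⟨z, fun l hl => hz1 l (by omega), hz2⟩
    · exact Or.inr (by
        change n ≤ sInf {j | (cyl x (n + 1) ∩ Gf i j).Nonempty ∨ n + 1 ≤ j}
        omega)
  have hcle : ∀ i x j, x ∈ Gf i j → ∀ n, c i x n ≤ j := by
    intro i x j hx n
    exact Nat.sInf_le (Or.inl ⟨x, fun _ _ => rfl, hx⟩)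
  have hcb : ∀ i x j, (∀ n, c i x n ≤ j) → x ∈ Gf i j := by
    intro i x j hb
    rw [← (hGfc i j).closure_eq, mem_closure_iff_nhds]
    intro s hs
    obtain ⟨n, hn⟩ := hcyl_basis x s hs
    have h1 := Nat.sInf_mem (hcne i x (max n (j + 1)))
    have h2 := hb (max n (j + 1))
    rcases h1 with ⟨z, hz1, hz2⟩ | h1
    · exact ⟨z, hn fun l hl => hz1 l (lt_of_lt_of_le hl (le_max_left _ _)), hGfm _ _ _ h2 hz2⟩
    · have h3 : max n (j + 1) ≤ c i x (max n (j + 1)) := h1
      have := le_max_right n (j + 1)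
      omega
  have hcloc : ∀ i x x' n, x' ∈ cyl x n → c i x' n = c i x n := by
    intro i x x' n hx'
    have : cyl x' n = cyl x n := by
      ext z
      constructor
      · intro hz l hl
        rw [hz l hl, hx' l hl]
      · intro hz l hl
        rw [hz l hl, hx' l hl]
    simp only [hc, this]
  set h : Y → ℕ → ℕ := fun x m =>
    if c (Nat.unpair m).1 x (Nat.unpair m).2 ≠ c (Nat.unpair m).1 x ((Nat.unpair m).2 + 1)
    then (Nat.unpair m).1 else (Nat.unpair m).1 + (Nat.unpair m).2 with hh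
  refine ⟨h, ?_, ?_⟩
  · refine continuous_pi fun m => ?_
    rw [continuous_iff_continuousAt]
    intro x
    refine tendsto_const_nhds.congr' ?_
    filter_upwards [hcyl_nhds x ((Nat.unpair m).2 + 1)] with x' hx'
    simp only [hh]
    rw [hcloc _ x x' _ hx', hcloc _ x x' (Nat.unpair m).2 fun l hl => hx' l (by omega)]
  · intro x
    constructor
    · intro hx
      rw [Set.mem_iInter] at hx
      have hb : ∀ i, ∃ N, ∀ n, N ≤ n → c i x n = c i x (n + 1) := by
        intro i
        by_contra hcon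
        push Not at hcon
        obtain ⟨j, hj⟩ := Set.mem_iUnion.1 (hx i)
        have h1 : x ∈ Gf i j := by
          simp only [hGf, Set.mem_iUnion, Finset.mem_range, exists_prop]
          exact ⟨j, by omega, hj⟩
        obtain ⟨n, hn⟩ := unbounded_of_changes (c i x) (hcmono i x) hcon (j + 1)
        have := hcle i x j h1 n
        omega
      choose N hN using hb
      rw [tendsto_atTop_atTop]
      intro K
      set L := max K ((Finset.range K).sup N) with hL
      refine ⟨Nat.pair K L + (Finset.range K).sup (fun i => Nat.pair i L) + 1, fun m hm => ?_⟩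
      simp only [hh]
      obtain ⟨i, n, rfl⟩ : ∃ i n, m = Nat.pair i n := ⟨_, _, (Nat.pair_unpair m).symm⟩
      rw [Nat.unpair_pair]
      simp only
      by_cases hi : K ≤ i
      · split_ifs <;> omega
      · have hn : L ≤ n := by
          by_contra hn
          have h1 : Nat.pair i n < Nat.pair i L := Nat.pair_lt_pair_right i (by omega)
          have h2 : Nat.pair i L ≤ (Finset.range K).sup (fun i => Nat.pair i L) :=
            Finset.le_sup (f := fun i => Nat.pair i L) (Finset.mem_range.2 (not_le.1 hi))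
          omega
        have h3 : N i ≤ n := by
          have := Finset.le_sup (f := N) (Finset.mem_range.2 (not_le.1 hi))
          omega
        rw [if_neg (not_not.2 (hN i n h3))]
        omega
    · intro hx
      rw [Set.mem_iInter]
      intro i
      by_contra hcon
      rw [Set.mem_iUnion] at hcon
      push Not at hcon
      have hunb : ∀ K, ∃ n, K ≤ c i x n := by
        intro K
        by_contra hK
        push Not at hK
        have h1 := hcb i x K fun n => (hK n).le
        simp only [hGf, Set.mem_iUnion, Finset.mem_range, exists_prop] at h1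
        obtain ⟨l, _, hl⟩ := h1
        exact hcon l hl
      have hch := changes_of_unbounded (c i x) hunb (hcmono i x)
      obtain ⟨M, hM⟩ := (tendsto_atTop_atTop.1 hx) (i + 1)
      obtain ⟨n, hn, hn'⟩ := hch M
      have h1 := hM (Nat.pair i n) (hn.trans (Nat.right_le_pair i n))
      simp only [hh, Nat.unpair_pair] at h1
      rw [if_pos hn'] at h1
      omega

end Reduction

/-! ### The upper bound -/

open Classical in
/-- The number of the indices with the value in an open arc. -/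
noncomputable def oc (x : ℕ → ℝ) (u v : ℝ) (N : ℕ) : ℕ :=
  ((Finset.range N).filter (fun n => ∃ m : ℤ, u < x n - m ∧ x n - m < v)).card

theorem cnt_le_oc (x : ℕ → ℝ) {u v s t : ℝ} (hu : u < s) (hv : t ≤ v) (N : ℕ) :
    cnt x s t N ≤ oc x u v N := by
  classical
  refine Finset.card_le_card fun n hn => ?_
  rw [Finset.mem_filter] at hn ⊢
  refine ⟨hn.1, ⌊x n⌋, ?_⟩
  have : x n - ⌊x n⌋ = Int.fract (x n) := rfl
  rw [this]
  exact ⟨lt_of_lt_of_le hu hn.2.1, lt_of_lt_of_le hn.2.2 hv⟩

theorem oc_le_cnt (x : ℕ → ℝ) {u v : ℝ} (huv : v - u < 1) (N : ℕ) :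
    oc x u v N ≤ cnt x (Int.fract u) (min 1 (Int.fract u + (v - u))) N +
      cnt x 0 (max 0 (Int.fract u + (v - u) - 1)) N := by
  classical
  rw [oc, cnt, cnt, Finset.card_filter, Finset.card_filter, Finset.card_filter,
    ← Finset.sum_add_distrib]
  refine Finset.sum_le_sum fun n _ => ?_
  by_cases h : ∃ m : ℤ, u < x n - m ∧ x n - m < v
  · rw [if_pos h]
    obtain ⟨m, h1, h2⟩ := h
    have hf0 := Int.fract_nonneg u
    have hf1 := Int.fract_lt_one u
    have hx : Int.fract (x n) = Int.fract (x n - m - ⌊u⌋) := by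
      rw [Int.fract_sub_intCast, Int.fract_sub_intCast]
    set z := x n - m - ⌊u⌋ with hz
    have hu : Int.fract u = u - ⌊u⌋ := rfl
    have hz1 : Int.fract u < z := by rw [hu, hz]; linarith
    have hz2 : z < Int.fract u + (v - u) := by rw [hu, hz]; linarith
    by_cases hz3 : z < 1
    · have hfz : Int.fract z = z := by
        rw [Int.fract_eq_self]
        exact ⟨by linarith, hz3⟩
      have h3 : Int.fract u ≤ Int.fract (x n) ∧
          Int.fract (x n) < min 1 (Int.fract u + (v - u)) := by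
        rw [hx, hfz]
        exact ⟨hz1.le, lt_min hz3 hz2⟩
      rw [if_pos h3]
      omega
    · have hfz : Int.fract z = z - 1 := by
        rw [Int.fract_eq_iff]
        refine ⟨by linarith, by linarith, 1, ?_⟩
        push_cast
        ring
      have h3 : 0 ≤ Int.fract (x n) ∧
          Int.fract (x n) < max 0 (Int.fract u + (v - u) - 1) := by
        rw [hx, hfz]
        exact ⟨by linarith, lt_max_of_lt_right (by linarith)⟩
      rw [if_pos h3]
      omega
  · rw [if_neg h]
    omega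

theorem ud_iff (x : ℕ → ℝ) : UD x ↔ ∀ (u v : ℚ) (k : ℕ), u < v →
    ∃ j : ℕ, ∀ N, j ≤ N → (oc x u v N : ℝ) ≤ ((v : ℝ) - u + 1 / ((k : ℝ) + 1)) * N := by
  constructor
  · intro hx u v k huv
    have huv' : (u : ℝ) < v := by exact_mod_cast huv
    have hk : (0 : ℝ) < 1 / ((k : ℝ) + 1) := by positivity
    by_cases h1 : (v : ℝ) - u < 1
    · have hf0 := Int.fract_nonneg (u : ℝ)
      have hf1 := Int.fract_lt_one (u : ℝ)
      set s := Int.fract (u : ℝ) with hs
      have key : ∀ s t : ℝ, 0 ≤ s → s ≤ t → t ≤ 1 → ∀ η : ℝ, 0 < η →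
          ∃ j : ℕ, ∀ N, j ≤ N → (cnt x s t N : ℝ) ≤ (t - s + η) * N := by
        intro s t h1 h2 h3 η hη
        have h4 := (hx s t h1 h2 h3).eventually (gt_mem_nhds (show t - s < t - s + η by linarith))
        obtain ⟨j, hj⟩ := eventually_atTop.1 (h4.and (eventually_gt_atTop 0))
        refine ⟨j, fun N hN => ?_⟩
        obtain ⟨h5, h6⟩ := hj N hN
        have h7 : (0 : ℝ) < N := by exact_mod_cast h6
        rw [div_lt_iff₀ h7] at h5
        exact h5.le
      obtain ⟨j₁, hj₁⟩ := key s (min 1 (s + (v - u))) hf0 (le_min hf1.le (by linarith))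
        (min_le_left _ _) (1 / ((k : ℝ) + 1) / 2) (by positivity)
      obtain ⟨j₂, hj₂⟩ := key 0 (max 0 (s + (v - u) - 1)) le_rfl (le_max_left _ _)
        (max_le zero_le_one (by linarith)) (1 / ((k : ℝ) + 1) / 2) (by positivity)
      refine ⟨max j₁ j₂, fun N hN => ?_⟩
      have e1 := hj₁ N ((le_max_left _ _).trans hN)
      have e2 := hj₂ N ((le_max_right _ _).trans hN)
      have e3 : (oc x u v N : ℝ) ≤ cnt x s (min 1 (s + (v - u))) N +
          cnt x 0 (max 0 (s + (v - u) - 1)) N := by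
        rw [← Nat.cast_add]
        exact Nat.cast_le.2 (oc_le_cnt x h1 N)
      have e4 : min 1 (s + ((v : ℝ) - u)) - s + (max 0 (s + ((v : ℝ) - u) - 1) - 0) = v - u := by
        rcases le_total (s + ((v : ℝ) - u)) 1 with h | h
        · rw [min_eq_right h, max_eq_left (by linarith)]
          ring
        · rw [min_eq_left h, max_eq_right (by linarith)]
          ring
      have hN0 : (0 : ℝ) ≤ N := Nat.cast_nonneg N
      calc (oc x u v N : ℝ) ≤ _ := e3
        _ ≤ (min 1 (s + ((v : ℝ) - u)) - s + 1 / ((k : ℝ) + 1) / 2) * N +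
            (max 0 (s + ((v : ℝ) - u) - 1) - 0 + 1 / ((k : ℝ) + 1) / 2) * N := add_le_add e1 e2
        _ = ((min 1 (s + ((v : ℝ) - u)) - s + (max 0 (s + ((v : ℝ) - u) - 1) - 0)) +
            1 / ((k : ℝ) + 1)) * N := by ring
        _ = _ := by rw [e4]
    · refine ⟨0, fun N _ => ?_⟩
      have e1 : (oc x u v N : ℝ) ≤ N := by
        have : oc x u v N ≤ N := by
          classical
          rw [oc]
          exact (Finset.card_filter_le _ _).trans (le_of_eq (Finset.card_range N))
        exact_mod_cast this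
      have hN0 : (0 : ℝ) ≤ N := Nat.cast_nonneg N
      nlinarith
  · intro hx
    refine ud_of_upper x fun s t η hs hst ht hη => ?_
    obtain ⟨u, hu1, hu2⟩ := exists_rat_btwn (show s - η / 4 < s by linarith)
    obtain ⟨v, hv1, hv2⟩ := exists_rat_btwn (show t < t + η / 4 by linarith)
    obtain ⟨k, hk⟩ := exists_nat_one_div_lt (show (0 : ℝ) < η / 2 by positivity)
    have huv : u < v := by exact_mod_cast (by linarith : (u : ℝ) < v)
    obtain ⟨j, hj⟩ := hx u v k huv
    filter_upwards [eventually_ge_atTop j] with N hN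
    have h1 : (cnt x s t N : ℝ) ≤ oc x u v N := by exact_mod_cast cnt_le_oc x hu2 hv1.le N
    refine h1.trans ((hj N hN).trans ?_)
    refine mul_le_mul_of_nonneg_right ?_ (Nat.cast_nonneg N)
    linarith

/-- The set of the parameters with a uniformly distributed sequence. -/
theorem ud_piThree {X : Type} [TopologicalSpace X] (x : X → ℕ → ℝ)
    (hx : ∀ n, Continuous fun ξ => x ξ n) :
    ∃ F : ℕ → ℕ → Set X, (∀ i j, IsClosed (F i j)) ∧ {ξ | UD (x ξ)} = ⋂ i, ⋃ j, F i j := by
  classical
  obtain ⟨e, he⟩ := exists_surjective_nat (ℚ × ℚ × ℕ)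
  set F : ℕ → ℕ → Set X := fun i j => {ξ | (e i).1 < (e i).2.1 → ∀ N, j ≤ N →
    (oc (x ξ) (e i).1 (e i).2.1 N : ℝ) ≤
      (((e i).2.1 : ℝ) - (e i).1 + 1 / (((e i).2.2 : ℝ) + 1)) * N} with hF
  have hclosed : ∀ (u v C : ℝ) (N : ℕ), IsClosed {ξ | (oc (x ξ) u v N : ℝ) ≤ C} := by
    intro u v C N
    rw [← isOpen_compl_iff, isOpen_iff_mem_nhds]
    intro ξ₀ hξ₀
    have h0 : C < oc (x ξ₀) u v N := by
      by_contra hcon
      exact hξ₀ (not_lt.1 hcon)
    set A : Finset ℕ := (Finset.range N).filter (fun n => ∃ m : ℤ, u < x ξ₀ n - m ∧ x ξ₀ n - m < v)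
      with hA
    have h1 : ∀ᶠ ξ in 𝓝 ξ₀, ∀ n ∈ A, ∃ m : ℤ, u < x ξ n - m ∧ x ξ n - m < v := by
      rw [Filter.eventually_all_finset]
      intro n hn
      obtain ⟨m, hm1, hm2⟩ := (Finset.mem_filter.1 hn).2
      have h2 : ContinuousAt (fun ξ => x ξ n - m) ξ₀ := ((hx n).sub continuous_const).continuousAt
      filter_upwards [h2.eventually (lt_mem_nhds hm1), h2.eventually (gt_mem_nhds hm2)] with ξ e1 e2
      exact ⟨m, e1, e2⟩
    filter_upwards [h1] with ξ hξ
    have h2 : oc (x ξ₀) u v N ≤ oc (x ξ) u v N := by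
      refine Finset.card_le_card fun n hn => ?_
      have hn' : n ∈ A := hn
      exact Finset.mem_filter.2 ⟨(Finset.mem_filter.1 hn').1, hξ n hn'⟩
    have h3 : (oc (x ξ₀) u v N : ℝ) ≤ oc (x ξ) u v N := by exact_mod_cast h2
    intro hcon
    have h4 : (oc (x ξ) u v N : ℝ) ≤ C := hcon
    linarith
  refine ⟨F, fun i j => ?_, ?_⟩
  · by_cases h : (e i).1 < (e i).2.1
    · have h1 : F i j = ⋂ N, ⋂ (_ : j ≤ N), {ξ | (oc (x ξ) (e i).1 (e i).2.1 N : ℝ) ≤
          (((e i).2.1 : ℝ) - (e i).1 + 1 / (((e i).2.2 : ℝ) + 1)) * N} := by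
        ext ξ
        simp only [hF, h, true_imp_iff, Set.mem_iInter]
        rfl
      rw [h1]
      exact isClosed_iInter fun N => isClosed_iInter fun _ => hclosed _ _ _ _
    · have h1 : F i j = Set.univ := by
        ext ξ
        simp only [hF, h, false_imp_iff]
        rfl
      rw [h1]
      exact isClosed_univ
  · ext ξ
    rw [Set.mem_iInter]
    change UD (x ξ) ↔ _
    rw [ud_iff]
    constructor
    · intro h i
      rw [Set.mem_iUnion]
      by_cases hi : (e i).1 < (e i).2.1
      · obtain ⟨j, hj⟩ := h _ _ (e i).2.2 hi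
        exact ⟨j, fun _ => hj⟩
      · exact ⟨0, fun h' => absurd h' hi⟩
    · intro h u v k huv
      obtain ⟨i, hi⟩ := he (u, v, k)
      obtain ⟨j, hj⟩ := Set.mem_iUnion.1 (h i)
      have hj' : (e i).1 < (e i).2.1 → ∀ N, j ≤ N →
        (oc (x ξ) (e i).1 (e i).2.1 N : ℝ) ≤
          (((e i).2.1 : ℝ) - (e i).1 + 1 / (((e i).2.2 : ℝ) + 1)) * N := hj
      rw [hi] at hj'
      exact ⟨j, hj' huv⟩

end Pool.Agent.H534R3.UDist
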