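import Pool.Agent.H534R3.TwoRed
import Pool.Agent.H534R3.PiThree

/-! # Hardness for differences -/

set_option autoImplicit false

open Filter Topology

namespace Pool.Agent.H534R3.Rota

open Pool.Agent.H534R3.UDist

/-- A local form of the reduction. -/
theorem reduce_local (G : ℕ → ℕ → Set (ℕ → ℕ)) (hG : ∀ i j, IsClosed (G i j)) :
    ∃ h : (ℕ → ℕ) → ℕ → ℕ, (∀ x x' m, (∀ i < m, x i = x' i) → h x m = h x' m) ∧
      ∀ x, x ∈ ⋂ i, ⋃ j, G i j ↔ ∀ e, ∃ J, ∀ m, J ≤ m → e ≤ h x m := by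
  classical
  set cyl : (ℕ → ℕ) → ℕ → Set (ℕ → ℕ) := fun x n => {x' | ∀ i < n, x' i = x i} with hcyl
  have hcyl_basis : ∀ x, ∀ s ∈ 𝓝 x, ∃ n, cyl x n ⊆ s := by
    intro x s hs
    rw [nhds_pi, Filter.mem_pi] at hs
    obtain ⟨I, hI, u, hu, hut⟩ := hs
    obtain ⟨n, hn⟩ := hI.bddAbove
    refine ⟨n + 1, fun x' hx' => hut ?_⟩
    intro i hi
    have : i < n + 1 := Nat.lt_succ_of_le (hn hi)
    rw [hx' i this]
    exact mem_of_mem_nhds (hu i)
  set Gf : ℕ → ℕ → Set (ℕ → ℕ) := fun i j => ⋃ j' ∈ Finset.range (j + 1), G i j' with hGf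
  have hGfc : ∀ i j, IsClosed (Gf i j) := by
    intro i j
    exact isClosed_biUnion_finset fun j' _ => hG i j'
  have hGfm : ∀ i j j', j ≤ j' → Gf i j ⊆ Gf i j' := by
    intro i j j' hjj x hx
    simp only [hGf, Set.mem_iUnion, Finset.mem_range, exists_prop] at hx ⊢
    obtain ⟨l, hl, hl'⟩ := hx
    exact ⟨l, by omega, hl'⟩
  set c : ℕ → (ℕ → ℕ) → ℕ → ℕ := fun i x n => sInf {j | (cyl x n ∩ Gf i j).Nonempty ∨ n ≤ j} with hc
  have hcne : ∀ i x n, {j | (cyl x n ∩ Gf i j).Nonempty ∨ n ≤ j}.Nonempty := fun i x n =>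
    ⟨n, Or.inr le_rfl⟩
  have hcmono : ∀ i x n, c i x n ≤ c i x (n + 1) := by
    intro i x n
    refine Nat.sInf_le ?_
    have h1 := Nat.sInf_mem (hcne i x (n + 1))
    rcases h1 with ⟨z, hz1, hz2⟩ | h1
    · exact Or.inl ⟨z, fun l hl => hz1 l (by omega), hz2⟩
    · exact Or.inr (by
        change n ≤ sInf {j | (cyl x (n + 1) ∩ Gf i j).Nonempty ∨ n + 1 ≤ j}
        omega)
  have hcle : ∀ i x j, x ∈ Gf i j → ∀ n, c i x n ≤ j := by
    intro i x j hx n
    exact Nat.sInf_le (Or.inl ⟨x, fun _ _ => rfl, hx⟩)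
  have hcb : ∀ i x j, (∀ n, c i x n ≤ j) → x ∈ Gf i j := by
    intro i x j hb
    rw [← (hGfc i j).closure_eq, mem_closure_iff_nhds]
    intro s hs
    obtain ⟨n, hn⟩ := hcyl_basis x s hs
    have h1 := Nat.sInf_mem (hcne i x (max n (j + 1)))
    have h2 := hb (max n (j + 1))
    rcases h1 with ⟨z, hz1, hz2⟩ | h1
    · exact ⟨z, hn fun l hl => hz1 l (lt_of_lt_of_le hl (le_max_left _ _)), hGfm _ _ _ h2 hz2⟩
    · have h3 : max n (j + 1) ≤ c i x (max n (j + 1)) := h1
      have := le_max_right n (j + 1)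
      omega
  have hcloc : ∀ i x x' n, x' ∈ cyl x n → c i x' n = c i x n := by
    intro i x x' n hx'
    have : cyl x' n = cyl x n := by
      ext z
      constructor
      · intro hz l hl
        rw [hz l hl, hx' l hl]
      · intro hz l hl
        rw [hz l hl, hx' l hl]
    simp only [hc, this]
  set h : (ℕ → ℕ) → ℕ → ℕ := fun x m =>
    if c (Nat.unpair m).1 x (Nat.unpair m).2 ≠ c (Nat.unpair m).1 x ((Nat.unpair m).2 + 1)
    then (Nat.unpair m).1 else (Nat.unpair m).1 + (Nat.unpair m).2 with hh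
  have hloc : ∀ x x' m, (∀ i < m + 1, x i = x' i) → h x m = h x' m := by
    intro x x' m hx
    have h1 : (Nat.unpair m).2 ≤ m := Nat.unpair_right_le m
    have e1 : c (Nat.unpair m).1 x (Nat.unpair m).2 = c (Nat.unpair m).1 x' (Nat.unpair m).2 :=
      hcloc _ x' x _ fun l hl => hx l (by omega)
    have e2 : c (Nat.unpair m).1 x ((Nat.unpair m).2 + 1) =
        c (Nat.unpair m).1 x' ((Nat.unpair m).2 + 1) :=
      hcloc _ x' x _ fun l hl => hx l (by omega)
    simp only [hh]
    rw [e1, e2]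
  have hmain : ∀ x, x ∈ ⋂ i, ⋃ j, G i j ↔ ∀ e, ∃ J, ∀ m, J ≤ m → e ≤ h x m := by
    intro x
    constructor
    · intro hx
      rw [Set.mem_iInter] at hx
      have hb : ∀ i, ∃ N, ∀ n, N ≤ n → c i x n = c i x (n + 1) := by
        intro i
        by_contra hcon
        push Not at hcon
        obtain ⟨j, hj⟩ := Set.mem_iUnion.1 (hx i)
        have h1 : x ∈ Gf i j := by
          simp only [hGf, Set.mem_iUnion, Finset.mem_range, exists_prop]
          exact ⟨j, by omega, hj⟩
        obtain ⟨n, hn⟩ := unbounded_of_changes (c i x) (hcmono i x) hcon (j + 1)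
        have := hcle i x j h1 n
        omega
      choose N hN using hb
      intro K
      set L := max K ((Finset.range K).sup N) with hL
      refine ⟨Nat.pair K L + (Finset.range K).sup (fun i => Nat.pair i L) + 1, fun m hm => ?_⟩
      simp only [hh]
      obtain ⟨i, n, rfl⟩ : ∃ i n, m = Nat.pair i n := ⟨_, _, (Nat.pair_unpair m).symm⟩
      rw [Nat.unpair_pair]
      simp only
      by_cases hi : K ≤ i
      · split_ifs <;> omega
      · have hn : L ≤ n := by
          by_contra hn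
          have h1 : Nat.pair i n < Nat.pair i L := Nat.pair_lt_pair_right i (by omega)
          have h2 : Nat.pair i L ≤ (Finset.range K).sup (fun i => Nat.pair i L) :=
            Finset.le_sup (f := fun i => Nat.pair i L) (Finset.mem_range.2 (not_le.1 hi))
          omega
        have h3 : N i ≤ n := by
          have := Finset.le_sup (f := N) (Finset.mem_range.2 (not_le.1 hi))
          omega
        rw [if_neg (not_not.2 (hN i n h3))]
        omega
    · intro hx
      rw [Set.mem_iInter]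
      intro i
      by_contra hcon
      rw [Set.mem_iUnion] at hcon
      push Not at hcon
      have hunb : ∀ K, ∃ n, K ≤ c i x n := by
        intro K
        by_contra hK
        push Not at hK
        have h1 := hcb i x K fun n => (hK n).le
        simp only [hGf, Set.mem_iUnion, Finset.mem_range, exists_prop] at h1
        obtain ⟨l, _, hl⟩ := h1
        exact hcon l hl
      have hch := changes_of_unbounded (c i x) hunb (hcmono i x)
      obtain ⟨M, hM⟩ := hx (i + 1)
      obtain ⟨n, hn, hn'⟩ := hch M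
      have h1 := hM (Nat.pair i n) (hn.trans (Nat.right_le_pair i n))
      simp only [hh, Nat.unpair_pair] at h1
      rw [if_pos hn'] at h1
      omega
  refine ⟨fun x m => if m = 0 then 0 else h x (m - 1), ?_, ?_⟩
  · intro x x' m hx
    by_cases hm : m = 0
    · simp only [hm, if_true]
    · simp only [hm, if_false]
      exact hloc x x' (m - 1) fun i hi => hx i (by omega)
  · intro x
    rw [hmain x]
    constructor
    · intro h1 e
      obtain ⟨J, hJ⟩ := h1 e
      refine ⟨J + 1, fun m hm => ?_⟩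
      have hm0 : m ≠ 0 := by omega
      simp only [hm0, if_false]
      exact hJ (m - 1) (by omega)
    · intro h1 e
      obtain ⟨J, hJ⟩ := h1 e
      refine ⟨J, fun m hm => ?_⟩
      have := hJ (m + 1) (by omega)
      simp only [Nat.succ_ne_zero, if_false, Nat.add_sub_cancel] at this
      exact this

/-- A contracting map of the Baire space has a fixed point. -/
theorem exists_fixed (H : (ℕ → ℕ) → ℕ → ℕ)
    (hH : ∀ x x' j, (∀ i < j, x i = x' i) → H x j = H x' j) : ∃ x, H x = x := by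
  set A : ℕ → ℕ → ℕ := fun n => Nat.rec (fun _ => 0) (fun _ s => H s) n with hA
  have hA1 : ∀ n, A (n + 1) = H (A n) := fun n => rfl
  have h1 : ∀ n, ∀ i < n, A n i = A (n + 1) i := by
    intro n
    induction n with
    | zero => intro i hi; omega
    | succ n ih =>
      intro i hi
      rw [hA1 n, hA1 (n + 1)]
      exact hH _ _ _ fun l hl => ih l (by omega)
  have h2 : ∀ m n, ∀ i < n, A n i = A (n + m) i := by
    intro m
    induction m with
    | zero => intro n i _; rfl
    | succ m ih =>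
      intro n i hi
      rw [ih n i hi, ← Nat.add_assoc]
      exact h1 _ i (by omega)
  refine ⟨fun i => A (i + 1) i, ?_⟩
  funext i
  have h3 : H (fun i => A (i + 1) i) i = H (A i) i := by
    refine hH _ _ _ fun l hl => ?_
    have h4 := h2 (i - (l + 1)) (l + 1) l (by omega)
    rw [h4]
    congr 1
    omega
  rw [h3, ← hA1]

/-- The diagonal argument. -/
theorem no_dual (g : (ℕ → ℕ) → Bool → Prop)
    (hg : ∀ w t, g w t ↔ ∀ e, ∃ J, ∀ j, J ≤ j → ty j = t → e ≤ w j)
    (A B : ℕ → ℕ → Set (ℕ → ℕ)) (hA : ∀ i j, IsClosed (A i j)) (hB : ∀ i j, IsClosed (B i j))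
    (h : {w | g w true ∧ ¬ g w false}ᶜ = (⋂ i, ⋃ j, A i j) \ (⋂ i, ⋃ j, B i j)) : False := by
  obtain ⟨h₁, hl₁, hm₁⟩ := reduce_local A hA
  obtain ⟨h₂, hl₂, hm₂⟩ := reduce_local B hB
  set H : (ℕ → ℕ) → ℕ → ℕ := fun x j => if ty j = true then h₁ x (j / 2) else h₂ x (j / 2) with hH
  obtain ⟨x, hx⟩ := exists_fixed H (by
    intro x x' j hj
    simp only [hH]
    rw [hl₁ x x' (j / 2) fun i hi => hj i (by omega), hl₂ x x' (j / 2) fun i hi => hj i (by omega)])
  have h1 : g x true ↔ x ∈ ⋂ i, ⋃ j, A i j := by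
    rw [hg, hm₁]
    constructor
    · intro h e
      obtain ⟨J, hJ⟩ := h e
      refine ⟨J, fun m hm => ?_⟩
      have h3 : ty (2 * m + 1) = true := by
        simp only [ty, decide_eq_true_eq]
        omega
      have h4 := hJ (2 * m + 1) (by omega) h3
      rw [← hx] at h4
      simp only [hH] at h4
      rw [if_pos h3] at h4
      have h5 : (2 * m + 1) / 2 = m := by omega
      rw [h5] at h4
      exact h4
    · intro h e
      obtain ⟨J, hJ⟩ := h e
      refine ⟨2 * J, fun j hj hjt => ?_⟩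
      have h4 := hJ (j / 2) (by omega)
      rw [← hx]
      simp only [hH]
      rw [if_pos hjt]
      exact h4
  have h2 : g x false ↔ x ∈ ⋂ i, ⋃ j, B i j := by
    rw [hg, hm₂]
    constructor
    · intro h e
      obtain ⟨J, hJ⟩ := h e
      refine ⟨J, fun m hm => ?_⟩
      have h3 : ty (2 * m) = false := by
        simp only [ty, decide_eq_false_iff_not]
        omega
      have h4 := hJ (2 * m) (by omega) h3
      rw [← hx] at h4
      simp only [hH] at h4
      rw [if_neg (by rw [h3]; simp)] at h4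
      have h5 : (2 * m) / 2 = m := by omega
      rw [h5] at h4
      exact h4
    · intro h e
      obtain ⟨J, hJ⟩ := h e
      refine ⟨2 * J, fun j hj hjt => ?_⟩
      have h4 := hJ (j / 2) (by omega)
      rw [← hx]
      simp only [hH]
      rw [if_neg (by rw [hjt]; simp)]
      exact h4
  have h3 : x ∈ {w | g w true ∧ ¬ g w false}ᶜ ↔ x ∈ {w | g w true ∧ ¬ g w false} := by
    rw [h]
    change (x ∈ ⋂ i, ⋃ j, A i j) ∧ ¬ (x ∈ ⋂ i, ⋃ j, B i j) ↔ g x true ∧ ¬ g x false
    rw [h1, h2]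
  by_cases h4 : x ∈ {w | g w true ∧ ¬ g w false}
  · exact (h3.2 h4) h4
  · exact h4 (h3.1 h4)

/-- The irrationality of the ratio of the logarithms. -/
theorem irr_logb {a b : ℕ} (ha : 1 < a) (hb : 1 < b)
    (hab : ∀ m n : ℕ, 0 < m → 0 < n → a ^ m ≠ b ^ n) (k : ℕ) (hk : 1 ≤ k) :
    Irrational (Real.logb ((b ^ k : ℕ) : ℝ) a) := by
  rintro ⟨q, hq⟩
  have ha1 : (1 : ℝ) < a := by exact_mod_cast ha
  have hb1 : (1 : ℝ) < b := by exact_mod_cast hb
  have hB1 : 1 < b ^ k := Nat.one_lt_pow (by omega) hb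
  have hB1' : (1 : ℝ) < ((b ^ k : ℕ) : ℝ) := by exact_mod_cast hB1
  have hpos : 0 < Real.logb ((b ^ k : ℕ) : ℝ) a := Real.logb_pos hB1' ha1
  rw [← hq] at hpos
  have hq0 : 0 < q := by exact_mod_cast hpos
  have hnum : 0 < q.num := Rat.num_pos.2 hq0
  obtain ⟨p, hp⟩ : ∃ p : ℕ, q.num = p := ⟨q.num.toNat, by omega⟩
  have hp0 : 0 < p := by omega
  have hden : (0 : ℝ) < q.den := by exact_mod_cast q.den_pos
  have h1 : (q : ℝ) * q.den = p := by
    have h2 : (q : ℚ) * q.den = q.num := Rat.mul_den_eq_num q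
    rw [hp] at h2
    exact_mod_cast h2
  have h2 : (a : ℝ) ^ q.den = ((b ^ k : ℕ) : ℝ) ^ p := by
    have h3 : ((b ^ k : ℕ) : ℝ) ^ (q : ℝ) = a := by
      rw [hq]
      exact Real.rpow_logb (by linarith) hB1'.ne' (by linarith)
    rw [← h3, ← Real.rpow_natCast, ← Real.rpow_mul (by linarith), h1, Real.rpow_natCast]
  have h3 : a ^ q.den = b ^ (k * p) := by
    rw [pow_mul]
    exact_mod_cast h2
  exact hab q.den (k * p) q.den_pos (Nat.mul_pos (by omega) hp0) h3

theorem exists_k8 {b : ℕ} (hb : 1 < b) : ∃ k : ℕ, 1 ≤ k ∧ 8 * ((k : ℝ) + 1) ≤ (b : ℝ) ^ k := by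
  have hb1 : (1 : ℝ) < b := by exact_mod_cast hb
  have h1 := tendsto_pow_const_div_const_pow_of_one_lt 1 hb1
  have h2 := (h1.eventually (gt_mem_nhds (show (0 : ℝ) < 1 / 16 by norm_num))).and
    (eventually_ge_atTop 1)
  obtain ⟨k, hk, hk1⟩ := h2.exists
  refine ⟨k, hk1, ?_⟩
  have hbk : 0 < (b : ℝ) ^ k := by positivity
  rw [pow_one, div_lt_iff₀ hbk] at hk
  have : (1 : ℝ) ≤ k := by exact_mod_cast hk1
  linarith

/-- The reduction for two multiplicatively independent integers. -/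
theorem reduce_pair (a b : ℕ) (ha : 1 < a) (hb : 1 < b)
    (hab : ∀ m n : ℕ, 0 < m → 0 < n → a ^ m ≠ b ^ n) :
    ∃ g : (ℕ → ℕ) → ℝ, Continuous g ∧
      (∀ w, UD (fun n => g w * (a : ℝ) ^ n) ↔ ∀ e, ∃ J, ∀ j, J ≤ j → ty j = true → e ≤ w j) ∧
      (∀ w, UD (fun n => g w * (b : ℝ) ^ n) ↔ ∀ e, ∃ J, ∀ j, J ≤ j → ty j = false → e ≤ w j) := by
  set bs : Bool → ℕ := fun t => if t = true then a else b with hbs
  have hbs1 : ∀ t, 1 < bs t := fun t => by cases t <;> simp [hbs, ha, hb]
  choose k hk1 hk using fun t => exists_k8 (hbs1 t)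
  obtain ⟨g, hg, hgw⟩ := reduce_two bs k (fun t => hbs1 t) hk1 hk (fun t => by
    cases t
    · exact irr_logb ha hb hab _ (hk1 _)
    · exact irr_logb hb ha (fun m n hm hn h => hab n m hn hm h.symm) _ (hk1 _))
  exact ⟨g, hg, fun w => hgw w true, fun w => hgw w false⟩

end Pool.Agent.H534R3.Rota
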