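import Mathlib

/-! # Ill-founded trees and graphs with infinite cliques form non-Borel sets -/

set_option autoImplicit false
set_option linter.unusedSectionVars false

open Filter Topology MeasureTheory

namespace Pool.Agent.H534R3.NonBorel

theorem mset {ι α : Type} [MeasurableSpace α] [MeasurableSingletonClass α] (i : ι) (a : α) :
    MeasurableSet {z : ι → α | z i = a} := by
  have h : Measurable (fun z : ι → α => z i) := measurable_pi_apply i
  exact h (measurableSet_singleton a)

/-- Initial segments of a branch. -/
def br (f : ℕ → ℕ) (j : ℕ) : List ℕ := (List.range j).map f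

@[simp] theorem length_br (f : ℕ → ℕ) (j : ℕ) : (br f j).length = j := by simp [br]

theorem br_eq_iff (f g : ℕ → ℕ) (j : ℕ) : br f j = br g j ↔ ∀ i < j, f i = g i := by
  constructor
  · intro h i hi
    have h1 := congrArg (fun l => l[i]?) h
    simpa [br, hi] using h1
  · intro h
    exact List.map_congr_left fun i hi => h i (List.mem_range.1 hi)

theorem br_add (f : ℕ → ℕ) (j i : ℕ) : br f (j + i) = br f j ++ (List.range i).map
    (fun l => f (j + l)) := by
  rw [br, br, List.range_add, List.map_append, List.map_map]
  rfl

theorem br_prefix (f : ℕ → ℕ) {j i : ℕ} (h : j ≤ i) : br f j <+: br f i := by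
  obtain ⟨k, rfl⟩ := Nat.exists_eq_add_of_le h
  rw [br_add]
  exact List.prefix_append _ _

/-- The projection of the closed set coded by `c`. -/
def proj (c : List ℕ → List ℕ → Prop) : Set (ℕ → ℕ) := {y | ∃ f : ℕ → ℕ, ∀ n, c (br y n) (br f n)}

theorem exists_code (A : Set (ℕ → ℕ)) (hA : AnalyticSet A) : ∃ c, A = proj c := by
  rw [AnalyticSet] at hA
  rcases hA with rfl | ⟨φ, hφ, rfl⟩
  · refine ⟨fun _ _ => False, ?_⟩
    ext y
    simp [proj]
  · refine ⟨fun s u => ∃ x : ℕ → ℕ, br (φ x) s.length = s ∧ br x u.length = u, ?_⟩
    ext y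
    constructor
    · rintro ⟨f, rfl⟩
      exact ⟨f, fun n => ⟨f, by simp, by simp⟩⟩
    · rintro ⟨f, hf⟩
      choose x hx1 hx2 using hf
      simp only [length_br] at hx1 hx2
      have h1 : Tendsto x atTop (𝓝 f) := by
        rw [tendsto_pi_nhds]
        intro i
        refine tendsto_const_nhds.congr' ?_
        filter_upwards [eventually_gt_atTop i] with n hn
        exact ((br_eq_iff _ _ _).1 (hx2 n) i hn).symm
      have h2 : Tendsto (fun n => φ (x n)) atTop (𝓝 y) := by
        rw [tendsto_pi_nhds]
        intro i
        refine tendsto_const_nhds.congr' ?_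
        filter_upwards [eventually_gt_atTop i] with n hn
        exact ((br_eq_iff _ _ _).1 (hx1 n) i hn).symm
      exact ⟨f, tendsto_nhds_unique ((hφ.tendsto f).comp h1) h2⟩

/-- The set of ill-founded trees is not Borel. -/
theorem illFounded_not_measurable :
    ¬ MeasurableSet {t : List ℕ → Bool | ∃ f : ℕ → ℕ, ∀ n, t (br f n) = true} := by
  classical
  intro hM
  let enc : List ℕ × List ℕ → ℕ := Encodable.encode
  -- the tree attached to `z`
  let t : (ℕ → ℕ) → List ℕ → Bool := fun z u =>
    decide (∀ s : List ℕ, br z u.length = s → z (enc (s, u)) = 0)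
  have hbr : ∀ (k : ℕ) (s : List ℕ), MeasurableSet {z : ℕ → ℕ | br z k = s} := by
    intro k
    induction k with
    | zero =>
      intro s
      by_cases h : s = []
      · subst h; simp [br]
      · have : {z : ℕ → ℕ | br z 0 = s} = ∅ := by
          ext z; simp [br, Ne.symm h]
        rw [this]; exact MeasurableSet.empty
    | succ k ih =>
      intro s
      have : {z : ℕ → ℕ | br z (k + 1) = s} =
          ⋃ s' : List ℕ, ⋃ a : ℕ, ⋃ _ : s' ++ [a] = s, {z | br z k = s'} ∩ {z | z k = a} := by
        ext z
        have hz : br z (k + 1) = br z k ++ [z k] := by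
          rw [br, List.range_succ, List.map_append]; rfl
        simp only [Set.mem_ofPred_eq, hz, Set.mem_iUnion, Set.mem_inter_iff, exists_prop]
        constructor
        · intro h
          exact ⟨_, _, h, rfl, rfl⟩
        · rintro ⟨s', a, h, rfl, rfl⟩
          exact h
      rw [this]
      refine MeasurableSet.iUnion fun s' => MeasurableSet.iUnion fun a =>
        MeasurableSet.iUnion fun _ => (ih s').inter ?_
      exact mset k a
  have ht : Measurable t := by
    refine measurable_pi_lambda _ fun u => ?_
    refine measurable_to_bool ?_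
    have : (fun z => t z u) ⁻¹' {true} =
        ⋂ s : List ℕ, ({z : ℕ → ℕ | br z u.length = s}ᶜ ∪ {z | z (enc (s, u)) = 0}) := by
      ext z
      simp only [t, Set.mem_preimage, Set.mem_singleton_iff, decide_eq_true_eq, Set.mem_iInter,
        Set.mem_union, Set.mem_compl_iff, Set.mem_ofPred_eq]
      exact forall_congr' fun s => ⟨fun h => or_iff_not_imp_left.2 fun h' => h (not_not.1 h'),
        fun h h' => h.resolve_left (not_not.2 h')⟩
    rw [this]
    refine MeasurableSet.iInter fun s => (hbr _ s).compl.union ?_
    exact mset (enc (s, u)) 0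
  have hΔ : MeasurableSet {z : ℕ → ℕ | ¬ ∃ f : ℕ → ℕ, ∀ n, t z (br f n) = true} :=
    (ht hM).compl
  obtain ⟨c, hc⟩ := exists_code _ hΔ.analyticSet
  let z₀ : ℕ → ℕ := fun n => match (Encodable.decode n : Option (List ℕ × List ℕ)) with
    | some (s, u) => if c s u then 0 else 1
    | none => 0
  have hz₀ : ∀ s u, z₀ (enc (s, u)) = 0 ↔ c s u := by
    intro s u
    simp only [z₀, enc, Encodable.encodek]
    split_ifs with h <;> simp [h]
  have h1 : ∀ f : ℕ → ℕ, (∀ n, t z₀ (br f n) = true) ↔ ∀ n, c (br z₀ n) (br f n) := by
    intro f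
    refine forall_congr' fun n => ?_
    simp only [t, decide_eq_true_eq, length_br]
    constructor
    · intro h
      exact (hz₀ _ _).1 (h _ rfl)
    · rintro h s rfl
      exact (hz₀ _ _).2 h
  have h2 : z₀ ∈ proj c ↔ ∃ f : ℕ → ℕ, ∀ n, t z₀ (br f n) = true :=
    ⟨fun ⟨f, hf⟩ => ⟨f, (h1 f).2 hf⟩, fun ⟨f, hf⟩ => ⟨f, (h1 f).1 hf⟩⟩
  have h3 : z₀ ∈ proj c ↔ ¬ ∃ f : ℕ → ℕ, ∀ n, t z₀ (br f n) = true := by
    rw [← hc]; rfl
  tauto

/-- The graph with edge set coded by `E` has an infinite clique. -/
def Clique (E : ℕ → Bool) : Prop :=
  ∃ A : Set ℕ, A.Infinite ∧ ∀ i ∈ A, ∀ j ∈ A, i < j → E (Nat.pair i j) = true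

/-- The set of graphs with an infinite clique is not Borel. -/
theorem clique_not_measurable : ¬ MeasurableSet {E : ℕ → Bool | Clique E} := by
  classical
  intro hM
  apply illFounded_not_measurable
  let e : List ℕ ≃ ℕ := Denumerable.eqv (List ℕ)
  -- the graph attached to a tree
  let g : (List ℕ → Bool) → ℕ → Bool := fun t m =>
    decide ((e.symm (Nat.unpair m).1 <+: e.symm (Nat.unpair m).2 ∨
        e.symm (Nat.unpair m).2 <+: e.symm (Nat.unpair m).1) ∧
      ∀ u : List ℕ, (u <+: e.symm (Nat.unpair m).1 ∨ u <+: e.symm (Nat.unpair m).2) →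
        t u = true)
  have hg : Measurable g := by
    refine measurable_pi_lambda _ fun m => measurable_to_bool ?_
    have : (fun t => g t m) ⁻¹' {true} =
        {_t : List ℕ → Bool | (e.symm (Nat.unpair m).1 <+: e.symm (Nat.unpair m).2 ∨
        e.symm (Nat.unpair m).2 <+: e.symm (Nat.unpair m).1)} ∩
        ⋂ u : List ℕ, ⋂ _ : (u <+: e.symm (Nat.unpair m).1 ∨ u <+: e.symm (Nat.unpair m).2),
          {t | t u = true} := by
      ext t
      simp [g]
    rw [this]
    refine (MeasurableSet.const _).inter (MeasurableSet.iInter fun u => MeasurableSet.iInter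
      fun _ => ?_)
    exact mset u true
  have hpre : {t : List ℕ → Bool | ∃ f : ℕ → ℕ, ∀ n, t (br f n) = true} =
      g ⁻¹' {E : ℕ → Bool | Clique E} := by
    ext t
    simp only [Set.mem_ofPred_eq, Set.mem_preimage]
    constructor
    · rintro ⟨f, hf⟩
      refine ⟨Set.range fun n => e (br f n), Set.infinite_range_of_injective ?_, ?_⟩
      · intro n m hnm
        have := congrArg List.length (e.injective hnm)
        simpa using this
      · rintro _ ⟨n, rfl⟩ _ ⟨m, rfl⟩ -
        simp only [g, Nat.unpair_pair, Equiv.symm_apply_apply, decide_eq_true_eq]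
        refine ⟨?_, ?_⟩
        · rcases le_total n m with h | h
          · exact Or.inl (br_prefix f h)
          · exact Or.inr (br_prefix f h)
        · have key : ∀ n u, u <+: br f n → t u = true := by
            intro n u hu
            have : u = br f u.length := by
              refine (List.prefix_of_prefix_length_le hu (br_prefix f ?_) (by simp)).eq_of_length
                (by simp)
              simpa using hu.length_le
            rw [this]
            exact hf _
          rintro u (hu | hu)
          · exact key n u hu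
          · exact key m u hu
    · rintro ⟨A, hA, hcl⟩
      -- the nodes of the clique
      have hcl' : ∀ i ∈ A, ∀ j ∈ A, i < j → (e.symm i <+: e.symm j ∨ e.symm j <+: e.symm i) ∧
          ∀ u : List ℕ, (u <+: e.symm i ∨ u <+: e.symm j) → t u = true := by
        intro i hi j hj hij
        have := hcl i hi j hj hij
        simpa [g, Nat.unpair_pair] using this
      have hcomp : ∀ i ∈ A, ∀ j ∈ A, e.symm i <+: e.symm j ∨ e.symm j <+: e.symm i := by
        intro i hi j hj
        rcases lt_trichotomy i j with h | h | h
        · exact (hcl' i hi j hj h).1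
        · subst h; exact Or.inl (List.prefix_refl _)
        · exact (hcl' j hj i hi h).1.symm
      have htree : ∀ i ∈ A, ∀ u, u <+: e.symm i → t u = true := by
        intro i hi u hu
        obtain ⟨j, hj, hij⟩ := hA.exists_gt i
        exact (hcl' i hi j hj hij).2 u (Or.inl hu)
      -- the lengths are unbounded
      have hlen : ∀ n, ∃ i ∈ A, n < (e.symm i).length := by
        intro n
        by_contra hcon
        push Not at hcon
        refine hA (Set.Finite.of_finite_image (f := fun i => (e.symm i).length)
          ((Set.finite_Iic n).subset ?_) ?_)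
        · rintro _ ⟨i, hi, rfl⟩
          exact hcon i hi
        · intro i hi j hj hij
          rcases hcomp i hi j hj with h | h
          · exact e.symm.injective (h.eq_of_length hij)
          · exact (e.symm.injective (h.eq_of_length hij.symm)).symm
      choose a ha hna using hlen
      let f : ℕ → ℕ := fun n => (e.symm (a n))[n]'(hna n)
      have hcoh : ∀ n, ∀ i ∈ A, ∀ (h : n < (e.symm i).length), (e.symm i)[n] = f n := by
        intro n i hi h
        rcases hcomp i hi (a n) (ha n) with h' | h'
        · exact h'.getElem h
        · exact (h'.getElem (hna n)).symm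
      refine ⟨f, fun n => htree (a n) (ha n) _ ?_⟩
      have : br f n = (e.symm (a n)).take n := by
        refine List.ext_getElem ?_ ?_
        · simp [br, (hna n).le]
        · intro i h1 h2
          have hi : i < n := by simpa using h1
          simp only [br, List.getElem_map, List.getElem_range, List.getElem_take]
          exact (hcoh i (a n) (ha n) (hi.trans (hna n))).symm
      rw [this]
      exact List.take_prefix _ _
  rw [hpre]
  exact hg hM

end Pool.Agent.H534R3.NonBorel
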