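import Mathlib

/-! # Enumeration of the positions -/

set_option autoImplicit false

namespace Pool.Agent.H534R3.Pos

theorem exists_pos (a s : ℕ → ℕ) (ha0 : a 0 = 1)
    (h : ∀ i, a i ≤ s i ∧ s i < a (i + 1) ∧ a i + 2 ≤ a (i + 1)) :
    ∃ (pos : ℕ × ℤ → ℕ) (P M : ℕ × ℕ → Finset (ℕ × ℕ)), Function.Bijective pos ∧
      (∀ j n : ℕ, pos (j, (n : ℤ) + 1) = s (2 * Nat.pair j n)) ∧
      (∀ j n : ℕ, pos (j, -(n : ℤ) - 1) = s (2 * Nat.pair j n + 1)) ∧
      (∀ k k', k ≠ k' → Disjoint (P k) (P k')) ∧ (∀ k k', k ≠ k' → Disjoint (M k) (M k')) ∧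
      (∀ k, ∀ k' ∈ P k, k.1 + k.2 < k'.1 + k'.2) ∧ (∀ k, ∀ k' ∈ M k, k.1 + k.2 < k'.1 + k'.2) ∧
      (∃ A : Set ℕ, A.Infinite ∧ ∀ j ∈ A, ∀ k, (j, 0) ∉ P k) ∧
      (∀ k : ℕ × ℕ, ∀ m ∈ Finset.Ico (a (2 * Nat.pair k.1 k.2)) (a (2 * Nat.pair k.1 k.2 + 1)),
        ∃ k' ∈ P k, pos (k'.1, (k'.2 : ℤ)) = m) ∧
      (∀ k : ℕ × ℕ, ∀ m ∈ Finset.Ico (a (2 * Nat.pair k.1 k.2 + 1)) (a (2 * Nat.pair k.1 k.2 + 1 + 1)),
        ∃ k' ∈ M k, pos (k'.1, -(k'.2 : ℤ)) = m) := by
  classical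
  have hmono : StrictMono a := strictMono_nat_of_lt_succ fun i => by have := (h i).2.2; omega
  have hblock : ∀ {i i' m : ℕ}, a i ≤ m → m < a (i + 1) → a i' ≤ m → m < a (i' + 1) → i = i' := by
    intro i i' m h1 h2 h3 h4
    have h5 : i < i' + 1 := hmono.lt_iff_lt.1 (lt_of_le_of_lt h1 h4)
    have h6 : i' < i + 1 := hmono.lt_iff_lt.1 (lt_of_le_of_lt h3 h2)
    omega
  have hsinj : Function.Injective s := by
    intro i i' hi
    exact hblock (h i).1 (h i).2.1 (by rw [hi]; exact (h i').1) (by rw [hi]; exact (h i').2.1)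
  set p : ℕ → Prop := fun m => m ∉ Set.range s with hp
  -- every block contains an element outside the range
  have hex : ∀ i, ∃ m, a i ≤ m ∧ m < a (i + 1) ∧ p m := by
    intro i
    have h3 := (h i).2.2
    by_cases hs : s i = a i
    · refine ⟨a i + 1, by omega, by omega, ?_⟩
      rintro ⟨i', hi'⟩
      have : i' = i := hblock (h i').1 (h i').2.1 (by rw [hi']; omega) (by rw [hi']; omega)
      rw [this] at hi'
      omega
    · refine ⟨a i, le_rfl, by omega, ?_⟩
      rintro ⟨i', hi'⟩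
      have : i' = i := hblock (h i').1 (h i').2.1 (by rw [hi']) (by rw [hi']; omega)
      rw [this] at hi'
      exact hs hi'
  have hinfp : (Set.ofPred p).Infinite := by
    rw [Set.infinite_iff_exists_gt]
    intro b
    obtain ⟨m, hm1, hm2, hm3⟩ := hex (b + 1)
    refine ⟨m, hm3, ?_⟩
    have := hmono.le_apply (x := b + 1)
    omega
  set t : ℕ → ℕ := Nat.nth p with ht
  have htmono : StrictMono t := Nat.nth_strictMono hinfp
  have htp : ∀ j, p (t j) := fun j => Nat.nth_mem_of_infinite hinfp j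
  have htr : ∀ m, p m → ∃ j, t j = m := by
    intro m hm
    have := Nat.range_nth_of_infinite hinfp
    have h2 : m ∈ Set.range (Nat.nth p) := by rw [this]; exact hm
    exact h2
  have hcount : ∀ j, j < Nat.count p (a j) := by
    intro j
    induction j with
    | zero =>
      rw [ha0]
      have h0 : p 0 := by
        rintro ⟨i, hi⟩
        have := (h i).1
        have h2 := hmono.monotone (Nat.zero_le i)
        omega
      rw [Nat.count_succ, if_pos h0]
      omega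
    | succ j ih =>
      obtain ⟨m, hm1, hm2, hm3⟩ := hex j
      have e1 : Nat.count p (a j) ≤ Nat.count p m := Nat.count_monotone p hm1
      have e2 : Nat.count p (m + 1) ≤ Nat.count p (a (j + 1)) := Nat.count_monotone p hm2
      rw [Nat.count_succ, if_pos hm3] at e2
      omega
  have hta : ∀ j, t j < a j := fun j => Nat.nth_lt_of_lt_count (hcount j)
  -- the positions
  set pos : ℕ × ℤ → ℕ := fun k => if k.2 = 0 then t k.1 else
    if 0 < k.2 then s (2 * Nat.pair k.1 (k.2 - 1).toNat)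
    else s (2 * Nat.pair k.1 (-k.2 - 1).toNat + 1) with hpos
  have hpos0 : ∀ j, pos (j, 0) = t j := fun j => by simp [hpos]
  have hposp : ∀ j n : ℕ, pos (j, (n : ℤ) + 1) = s (2 * Nat.pair j n) := by
    intro j n
    have e1 : ¬ ((n : ℤ) + 1 = 0) := by omega
    have e2 : (0 : ℤ) < (n : ℤ) + 1 := by omega
    simp only [hpos]
    rw [if_neg e1, if_pos e2, add_sub_cancel_right, Int.toNat_natCast]
  have hposm : ∀ j n : ℕ, pos (j, -(n : ℤ) - 1) = s (2 * Nat.pair j n + 1) := by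
    intro j n
    have e1 : ¬ (-(n : ℤ) - 1 = 0) := by omega
    have e2 : ¬ ((0 : ℤ) < -(n : ℤ) - 1) := by omega
    simp only [hpos]
    rw [if_neg e1, if_neg e2]
    congr 4
    omega
  have hcase : ∀ n : ℤ, n = 0 ∨ (∃ m : ℕ, n = (m : ℤ) + 1) ∨ ∃ m : ℕ, n = -(m : ℤ) - 1 := by
    intro n
    rcases lt_trichotomy n 0 with hn | hn | hn
    · exact Or.inr (Or.inr ⟨(-n - 1).toNat, by omega⟩)
    · exact Or.inl hn
    · exact Or.inr (Or.inl ⟨(n - 1).toNat, by omega⟩)
  have hpair : ∀ {i j i' j' : ℕ}, Nat.pair i j = Nat.pair i' j' → i = i' ∧ j = j' := by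
    intro i j i' j' hij
    exact Nat.pair_eq_pair.1 hij
  have hbij : Function.Bijective pos := by
    constructor
    · rintro ⟨j, n⟩ ⟨j', n'⟩ hjj
      rcases hcase n with rfl | ⟨m, rfl⟩ | ⟨m, rfl⟩ <;>
        rcases hcase n' with rfl | ⟨m', rfl⟩ | ⟨m', rfl⟩
      · rw [hpos0, hpos0] at hjj
        rw [htmono.injective hjj]
      · rw [hpos0, hposp] at hjj
        exact absurd ⟨_, hjj.symm⟩ (htp j)
      · rw [hpos0, hposm] at hjj
        exact absurd ⟨_, hjj.symm⟩ (htp j)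
      · rw [hpos0, hposp] at hjj
        exact absurd ⟨_, hjj⟩ (htp j')
      · rw [hposp, hposp] at hjj
        obtain ⟨e1, e2⟩ := hpair (by have := hsinj hjj; omega : Nat.pair j m = Nat.pair j' m')
        rw [e1, e2]
      · rw [hposp, hposm] at hjj
        have := hsinj hjj
        omega
      · rw [hpos0, hposm] at hjj
        exact absurd ⟨_, hjj⟩ (htp j')
      · rw [hposp, hposm] at hjj
        have := hsinj hjj
        omega
      · rw [hposm, hposm] at hjj
        obtain ⟨e1, e2⟩ := hpair (by have := hsinj hjj; omega : Nat.pair j m = Nat.pair j' m')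
        rw [e1, e2]
    · intro m
      by_cases hm : p m
      · obtain ⟨j, hj⟩ := htr m hm
        exact ⟨(j, 0), by rw [hpos0, hj]⟩
      · simp only [hp, not_not] at hm
        obtain ⟨i, rfl⟩ := hm
        obtain ⟨q, hq | hq⟩ : ∃ q, i = 2 * q ∨ i = 2 * q + 1 := ⟨i / 2, by omega⟩
        · refine ⟨((Nat.unpair q).1, ((Nat.unpair q).2 : ℤ) + 1), ?_⟩
          rw [hposp, Nat.pair_unpair, hq]
        · refine ⟨((Nat.unpair q).1, -((Nat.unpair q).2 : ℤ) - 1), ?_⟩
          rw [hposm, Nat.pair_unpair, hq]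
  -- the blocks
  set N : ℕ → Finset ℕ := fun i => (Finset.range (a (i + 1))).filter
    (fun j => a i ≤ t j ∧ t j < a (i + 1)) with hN
  have hNmem : ∀ i j, j ∈ N i ↔ a i ≤ t j ∧ t j < a (i + 1) := by
    intro i j
    simp only [hN, Finset.mem_filter, Finset.mem_range]
    constructor
    · exact fun h => h.2
    · intro h
      have := htmono.le_apply (x := j)
      exact ⟨by omega, h⟩
  have hNgt : ∀ i j, j ∈ N i → i < j := by
    intro i j hj
    rw [hNmem] at hj
    by_contra hcon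
    have h1 := hmono.monotone (not_lt.1 hcon)
    have h2 := hta j
    omega
  have hNdisj : ∀ i i' j, j ∈ N i → j ∈ N i' → i = i' := by
    intro i i' j hj hj'
    rw [hNmem] at hj hj'
    exact hblock hj.1 hj.2 hj'.1 hj'.2
  set Q : (ℕ → ℕ) → ℕ × ℕ → Finset (ℕ × ℕ) := fun c k =>
    insert (k.1, k.2 + 1) ((N (c (Nat.pair k.1 k.2))).image (fun j => (j, 0))) with hQ
  have hQmem : ∀ c k k', k' ∈ Q c k ↔ k' = (k.1, k.2 + 1) ∨
      ∃ j ∈ N (c (Nat.pair k.1 k.2)), (j, 0) = k' := by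
    intro c k k'
    simp only [hQ, Finset.mem_insert, Finset.mem_image]
  have hQdisj : ∀ c : ℕ → ℕ, Function.Injective c → ∀ k k', k ≠ k' → Disjoint (Q c k) (Q c k') := by
    intro c hc k k' hkk
    rw [Finset.disjoint_left]
    intro x hx hx'
    rw [hQmem] at hx hx'
    rcases hx with rfl | ⟨j, hj, rfl⟩
    · rcases hx' with hx' | ⟨j', hj', hx'⟩
      · rw [Prod.mk.injEq] at hx'
        exact hkk (Prod.ext hx'.1 (by omega))
      · rw [Prod.mk.injEq] at hx'
        omega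
    · rcases hx' with hx' | ⟨j', hj', hx'⟩
      · rw [Prod.mk.injEq] at hx'
        omega
      · rw [Prod.mk.injEq] at hx'
        rw [hx'.1] at hj'
        obtain ⟨e1, e2⟩ := hpair (hc (hNdisj _ _ _ hj hj'))
        exact hkk (Prod.ext e1 e2)
  have hQr : ∀ c : ℕ → ℕ, (∀ q, 2 * q ≤ c q) → ∀ k, ∀ k' ∈ Q c k, k.1 + k.2 < k'.1 + k'.2 := by
    intro c hc k k' hk'
    rw [hQmem] at hk'
    rcases hk' with rfl | ⟨j, hj, rfl⟩
    · simp only
      omega
    · have h1 := hNgt _ _ hj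
      have h2 := hc (Nat.pair k.1 k.2)
      have h3 := Nat.left_le_pair k.1 k.2
      have h4 := Nat.right_le_pair k.1 k.2
      simp only
      omega
  have d1 := hQdisj (fun q => 2 * q) fun x y hxy => by simpa using hxy
  have d2 := hQdisj (fun q => 2 * q + 1) fun x y hxy => by simpa using hxy
  have r1 := hQr (fun q => 2 * q) fun q => le_refl (2 * q)
  have r2 := hQr (fun q => 2 * q + 1) fun q => Nat.le_succ (2 * q)
  clear_value t pos N Q
  refine ⟨pos, Q (fun q => 2 * q), Q (fun q => 2 * q + 1), hbij, hposp, hposm, d1, d2, r1, r2,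
    ?_, ?_, ?_⟩
  · have hne : ∀ q : ℕ, ∃ j, j ∈ N (2 * q + 1) := by
      intro q
      obtain ⟨m, hm1, hm2, hm3⟩ := hex (2 * q + 1)
      obtain ⟨j, rfl⟩ := htr m hm3
      exact ⟨j, (hNmem _ _).2 ⟨hm1, hm2⟩⟩
    choose J hJ using hne
    refine ⟨Set.range J, Set.infinite_range_of_injective ?_, ?_⟩
    · intro q q' hqq
      have h1 := hJ q'
      rw [← hqq] at h1
      have := hNdisj _ _ _ (hJ q) h1
      omega
    · rintro _ ⟨q, rfl⟩ k hk
      rw [hQmem] at hk
      rcases hk with hk | ⟨j, hj, hk⟩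
      · rw [Prod.mk.injEq] at hk
        omega
      · rw [Prod.mk.injEq] at hk
        rw [hk.1] at hj
        have := hNdisj _ _ _ (hJ q) hj
        omega
  · intro k m hm
    rw [Finset.mem_Ico] at hm
    by_cases hpm : p m
    · obtain ⟨j, rfl⟩ := htr m hpm
      refine ⟨(j, 0), (hQmem _ _ _).2 (Or.inr ⟨j, (hNmem _ _).2 hm, rfl⟩), ?_⟩
      exact hpos0 j
    · simp only [hp, not_not] at hpm
      obtain ⟨i, rfl⟩ := hpm
      have hi : i = 2 * Nat.pair k.1 k.2 := hblock (h i).1 (h i).2.1 hm.1 hm.2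
      refine ⟨(k.1, k.2 + 1), (hQmem _ _ _).2 (Or.inl rfl), ?_⟩
      have := hposp k.1 k.2
      push_cast
      rw [this, hi]
  · intro k m hm
    rw [Finset.mem_Ico] at hm
    by_cases hpm : p m
    · obtain ⟨j, rfl⟩ := htr m hpm
      refine ⟨(j, 0), (hQmem _ _ _).2 (Or.inr ⟨j, (hNmem _ _).2 hm, rfl⟩), ?_⟩
      exact hpos0 j
    · simp only [hp, not_not] at hpm
      obtain ⟨i, rfl⟩ := hpm
      have hi : i = 2 * Nat.pair k.1 k.2 + 1 := hblock (h i).1 (h i).2.1 hm.1 hm.2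
      refine ⟨(k.1, k.2 + 1), (hQmem _ _ _).2 (Or.inl rfl), ?_⟩
      have := hposm k.1 k.2
      have e : (-(((k.2 + 1 : ℕ)) : ℤ)) = -(k.2 : ℤ) - 1 := by push_cast; ring
      simp only
      rw [e, this, hi]

end Pool.Agent.H534R3.Pos
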