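import Pool.Agent.H534R3.Riesz

/-! # Biased blocks that are generic for another base -/

set_option autoImplicit false

open MeasureTheory Filter Topology
open scoped Real

namespace Pool.Agent.H534R3.Rota

open Pool.Agent.H534R3.UDist

theorem tail_le (B : ℝ) (hB : 2 ≤ B) (R r' : ℕ) (S : Finset ℕ) (hS : S ⊆ Finset.range R) :
    0 ≤ ∑ r ∈ S.filter (fun r => r' ≤ r), B ^ r' / B ^ (r + 1) ∧
      ∑ r ∈ S.filter (fun r => r' ≤ r), B ^ r' / B ^ (r + 1) ≤ 2 / B := by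
  have hB0 : 0 < B := by linarith
  refine ⟨Finset.sum_nonneg fun r _ => by positivity, ?_⟩
  have h1 : ∑ r ∈ S.filter (fun r => r' ≤ r), B ^ r' / B ^ (r + 1) ≤
      ∑ r ∈ Finset.Ico r' R, B ^ r' / B ^ (r + 1) := by
    refine Finset.sum_le_sum_of_subset_of_nonneg (fun r hr => ?_) fun r _ _ => by positivity
    rw [Finset.mem_filter] at hr
    exact Finset.mem_Ico.2 ⟨hr.2, Finset.mem_range.1 (hS hr.1)⟩
  refine h1.trans ?_
  rw [Finset.sum_Ico_eq_sum_range]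
  have h2 : ∀ i ∈ Finset.range (R - r'), B ^ r' / B ^ (r' + i + 1) = (1 / B) * (1 / B) ^ i := by
    intro i _
    rw [one_div, inv_pow]
    field_simp
    ring
  rw [Finset.sum_congr rfl h2, ← Finset.mul_sum]
  have hx : 1 / B ≤ 1 / 2 := one_div_le_one_div_of_le (by norm_num) hB
  have hx0 : 0 ≤ 1 / B := by positivity
  have h3 : ∑ i ∈ Finset.range (R - r'), (1 / B) ^ i ≤ 2 := by
    have h4 : ∑ i ∈ Finset.range (R - r'), (1 / B) ^ i ≤ ∑ i ∈ Finset.range (R - r'), (1 / 2 : ℝ) ^ i :=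
      Finset.sum_le_sum fun i _ => pow_le_pow_left₀ hx0 hx i
    refine h4.trans ?_
    rw [geom_sum_eq (by norm_num)]
    have : (0 : ℝ) < (1 / 2) ^ (R - r') := by positivity
    rw [div_le_iff_of_neg (by norm_num)]
    linarith
  calc 1 / B * ∑ i ∈ Finset.range (R - r'), (1 / B) ^ i ≤ 1 / B * 2 :=
        mul_le_mul_of_nonneg_left h3 hx0
    _ = 2 / B := by ring

theorem head_int (B : ℕ) (hB : 2 ≤ B) (r' : ℕ) (S : Finset ℕ) :
    ∃ z : ℤ, ∑ r ∈ S.filter (fun r => ¬ r' ≤ r), (B : ℝ) ^ r' / (B : ℝ) ^ (r + 1) = z := by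
  have hB0 : (B : ℝ) ≠ 0 := by
    have : B ≠ 0 := by omega
    exact_mod_cast this
  refine ⟨((∑ r ∈ S.filter (fun r => ¬ r' ≤ r), B ^ (r' - r - 1) : ℕ) : ℤ), ?_⟩
  push_cast
  refine Finset.sum_congr rfl fun r hr => ?_
  have h1 : r < r' := not_le.1 (Finset.mem_filter.1 hr).2
  rw [div_eq_iff (pow_ne_zero _ hB0), ← pow_add]
  congr 1
  omega

/-- A biased block for the base `b` with small exponential sums for the base `a`. -/
theorem RBlock (a b k q : ℕ) (ha : 2 ≤ a) (hb : 2 ≤ b) (hk1 : 1 ≤ k)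
    (hk : 8 * ((k : ℝ) + 1) ≤ (b : ℝ) ^ k) (hq : 1 ≤ q)
    (hθ : Irrational (Real.logb ((b ^ k : ℕ) : ℝ) a)) :
    ∃ R D : ℕ, 1 ≤ R ∧ (∀ n, tau (a : ℝ) b (n + k * R) ≤ tau (a : ℝ) b n + D) ∧
      ∀ (n : ℕ) (u : ℝ), ∃ u' : ℝ,
        Set.Icc u' (u' + 2 / (b : ℝ) ^ (n + k * R)) ⊆ Set.Icc u (u + 2 / (b : ℝ) ^ n) ∧
        ∀ ξ ∈ Set.Icc u' (u' + 2 / (b : ℝ) ^ (n + k * R)),
          (∀ r < R, Int.fract (ξ * (b : ℝ) ^ (n + k * r)) ≤ 1 / (2 * ((k : ℝ) + 1))) ∧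
          ∀ h : ℕ, 1 ≤ h → h ≤ q →
            ‖∑ m ∈ Finset.Ico (tau (a : ℝ) b n) (tau (a : ℝ) b (n + k * R)),
              ee (h * (ξ * (a : ℝ) ^ m))‖ ≤
              ((tau (a : ℝ) b (n + k * R) - tau (a : ℝ) b n : ℕ) : ℝ) / q := by
  have hq0 : (0 : ℝ) < q := by exact_mod_cast hq
  have ha1 : (1 : ℝ) < a := by exact_mod_cast (by omega : 1 < a)
  have ha0 : (0 : ℝ) < a := by linarith
  have hb1 : (1 : ℝ) < b := by exact_mod_cast (by omega : 1 < b)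
  have hb0 : (0 : ℝ) < b := by linarith
  have hk0 : (0 : ℝ) ≤ k := Nat.cast_nonneg k
  have hB8 : (8 : ℝ) ≤ (b : ℝ) ^ k := by nlinarith
  have hBnat : 8 ≤ b ^ k := by exact_mod_cast hB8
  have hBk0 : (0 : ℝ) < (b : ℝ) ^ k := by positivity
  have hcast : ((b ^ k : ℕ) : ℝ) = (b : ℝ) ^ k := by push_cast; rfl
  obtain ⟨M0, hM0⟩ := riesz_good a (b ^ k) q ha (by omega) hq hθ
  obtain ⟨D0, hD0⟩ := exists_nat_ge (max (M0 : ℝ) (2 * q * EE q (a : ℝ)))
  have hD01 : (M0 : ℝ) ≤ D0 := (le_max_left _ _).trans hD0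
  have hD02 : 2 * q * EE q (a : ℝ) ≤ D0 := (le_max_right _ _).trans hD0
  obtain ⟨R0, hR0⟩ := pow_unbounded_of_one_lt ((a : ℝ) ^ (D0 + 1)) (show 1 < (b : ℝ) ^ k by linarith)
  set R : ℕ := R0 + 1 with hR
  have hR1 : (a : ℝ) ^ (D0 + 1) ≤ (b : ℝ) ^ (k * R) := by
    rw [pow_mul]
    refine hR0.le.trans (pow_le_pow_right₀ (by linarith) (by omega))
  obtain ⟨D, hD⟩ := pow_unbounded_of_one_lt ((a : ℝ) * (b : ℝ) ^ (k * R)) ha1
  refine ⟨R, D, by omega, fun n => tau_diff' ha1 hb1 hD.le n, fun n u => ?_⟩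
  have hbn : (0 : ℝ) < (b : ℝ) ^ n := by positivity
  have hmono := tau_mono (a := a) (b := b) ha1 hb1 (Nat.le_add_right n (k * R))
  have hdiff : tau (a : ℝ) b n + D0 ≤ tau (a : ℝ) b (n + k * R) := tau_diff ha1 hb1 hR1 n
  set A := tau (a : ℝ) b n with hA
  set M := tau (a : ℝ) b (n + k * R) - A with hM
  have hAM : A + M = tau (a : ℝ) b (n + k * R) := by omega
  have hMD : (D0 : ℝ) ≤ M := by exact_mod_cast (by omega : D0 ≤ M)
  set m0 : ℤ := ⌈u * (b : ℝ) ^ n⌉ with hm0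
  have hm1 : u * (b : ℝ) ^ n ≤ m0 := Int.le_ceil _
  have hm2 : (m0 : ℝ) < u * (b : ℝ) ^ n + 1 := Int.ceil_lt_add_one _
  obtain ⟨S, hS, hgood⟩ := hM0 A M R (m0 / (b : ℝ) ^ n) (1 / (b : ℝ) ^ n) (by positivity)
    (by
      rw [mul_one_div, le_div_iff₀ hbn, one_mul]
      exact tau_spec ha1 b n)
    (by
      rw [hAM, hcast, ← pow_mul, mul_one_div, div_le_iff₀ hbn]
      refine (tau_up ha1 hb1 _).trans (le_of_eq ?_)
      rw [pow_add]
      ring)
    (by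
      have : (M0 : ℝ) ≤ M := hD01.trans hMD
      exact_mod_cast this)
  rw [hcast] at hgood
  set ξ₀ : ℝ := m0 / (b : ℝ) ^ n + ∑ r ∈ S, 1 / (b : ℝ) ^ n / ((b : ℝ) ^ k) ^ (r + 1) with hξ₀
  -- the decomposition
  have hdec : ∀ r' : ℕ, ξ₀ * (b : ℝ) ^ (n + k * r') = m0 * (b : ℝ) ^ (k * r') +
      (∑ r ∈ S.filter (fun r => ¬ r' ≤ r), ((b : ℝ) ^ k) ^ r' / ((b : ℝ) ^ k) ^ (r + 1) +
       ∑ r ∈ S.filter (fun r => r' ≤ r), ((b : ℝ) ^ k) ^ r' / ((b : ℝ) ^ k) ^ (r + 1)) := by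
    intro r'
    rw [add_comm (∑ r ∈ S.filter (fun r => ¬ r' ≤ r), _), Finset.sum_filter_add_sum_filter_not, hξ₀,
      add_mul, Finset.sum_mul, pow_add]
    congr 1
    · field_simp
    · refine Finset.sum_congr rfl fun r _ => ?_
      rw [pow_mul]
      field_simp
  have h4B : 4 / (b : ℝ) ^ k ≤ 1 / (2 * ((k : ℝ) + 1)) := by
    rw [div_le_div_iff₀ hBk0 (by positivity)]
    linarith
  have hhalf : 1 / (2 * ((k : ℝ) + 1)) ≤ 1 / 2 := by
    refine one_div_le_one_div_of_le (by norm_num) ?_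
    linarith
  have htail := fun r' => tail_le ((b : ℝ) ^ k) (by linarith) R r' S hS
  refine ⟨ξ₀, ?_, ?_⟩
  · have h1 := hdec 0
    have h2 := htail 0
    have h3 : ∑ r ∈ S.filter (fun r => ¬ 0 ≤ r), ((b : ℝ) ^ k) ^ 0 / ((b : ℝ) ^ k) ^ (r + 1) = 0 := by
      rw [Finset.filter_false_of_mem (fun r _ => by omega), Finset.sum_empty]
    rw [h3, Nat.mul_zero, Nat.add_zero, pow_zero, mul_one, zero_add] at h1
    have h5 : 2 / (b : ℝ) ^ (n + k * R) ≤ (2 / (b : ℝ) ^ k) / (b : ℝ) ^ n := by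
      rw [pow_add, div_div, mul_comm ((b : ℝ) ^ k)]
      refine div_le_div_of_nonneg_left (by norm_num) (by positivity) ?_
      refine mul_le_mul_of_nonneg_left ?_ hbn.le
      exact pow_le_pow_right₀ hb1.le (by nlinarith)
    have h6 : u ≤ ξ₀ := by
      rw [← mul_le_mul_iff_of_pos_right hbn, h1]
      linarith [h2.1]
    have h7 : ξ₀ * (b : ℝ) ^ n ≤ u * (b : ℝ) ^ n + 1 + 2 / (b : ℝ) ^ k := by
      rw [h1]
      linarith [h2.2]
    have h8 : ξ₀ + 2 / (b : ℝ) ^ (n + k * R) ≤ u + 2 / (b : ℝ) ^ n := by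
      refine (add_le_add le_rfl h5).trans ?_
      have hg : ∀ x y : ℝ, (x + y / (b : ℝ) ^ n) * (b : ℝ) ^ n = x * (b : ℝ) ^ n + y := by
        intro x y
        rw [add_mul, div_mul_cancel₀ _ hbn.ne']
      rw [← mul_le_mul_iff_of_pos_right hbn, hg, hg]
      have : 4 / (b : ℝ) ^ k = 2 / (b : ℝ) ^ k + 2 / (b : ℝ) ^ k := by ring
      linarith
    intro ξ hξ
    exact ⟨h6.trans hξ.1, hξ.2.trans h8⟩
  · intro ξ hξ
    constructor
    · intro r' hr'
      obtain ⟨z, hz⟩ := head_int (b ^ k) (by omega) r' S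
      rw [hcast] at hz
      have h1 := hdec r'
      rw [hz] at h1
      have h2 := htail r'
      have h3 : ξ * (b : ℝ) ^ (n + k * r') = ξ₀ * (b : ℝ) ^ (n + k * r') +
          (ξ - ξ₀) * (b : ℝ) ^ (n + k * r') := by ring
      have h4 : 0 ≤ (ξ - ξ₀) * (b : ℝ) ^ (n + k * r') :=
        mul_nonneg (by linarith [hξ.1]) (by positivity)
      have h5 : (ξ - ξ₀) * (b : ℝ) ^ (n + k * r') ≤ 2 / (b : ℝ) ^ k := by
        have e1 : ξ - ξ₀ ≤ 2 / (b : ℝ) ^ (n + k * R) := by linarith [hξ.2]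
        refine (mul_le_mul_of_nonneg_right e1 (by positivity)).trans ?_
        rw [div_mul_eq_mul_div, div_le_div_iff₀ (by positivity) hBk0, mul_assoc, ← pow_add]
        refine mul_le_mul_of_nonneg_left ?_ (by norm_num)
        refine pow_le_pow_right₀ hb1.le ?_
        have : k * (r' + 1) ≤ k * R := Nat.mul_le_mul_left k (by omega)
        rw [Nat.mul_add, Nat.mul_one] at this
        omega
      set T := ∑ r ∈ S.filter (fun r => r' ≤ r), ((b : ℝ) ^ k) ^ r' / ((b : ℝ) ^ k) ^ (r + 1) with hT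
      set Z := (ξ - ξ₀) * (b : ℝ) ^ (n + k * r') with hZ
      have h6 : T + Z ≤ 4 / (b : ℝ) ^ k := by
        have : 4 / (b : ℝ) ^ k = 2 / (b : ℝ) ^ k + 2 / (b : ℝ) ^ k := by ring
        linarith [h2.2]
      have h7 : Int.fract (ξ * (b : ℝ) ^ (n + k * r')) = T + Z := by
        rw [Int.fract_eq_iff]
        refine ⟨by linarith [h2.1], by linarith, m0 * (b : ℤ) ^ (k * r') + z, ?_⟩
        rw [h3, h1]
        push_cast
        ring
      rw [h7]
      linarith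
    · intro h h1 h2
      have h3 : |ξ - ξ₀| ≤ 2 / (b : ℝ) ^ (n + k * R) := by
        rw [abs_le]
        have : 0 ≤ 2 / (b : ℝ) ^ (n + k * R) := by positivity
        constructor <;> linarith [hξ.1, hξ.2]
      have hαa : |(a : ℝ)| = a := abs_of_pos ha0
      have h4 := pert (α := (a : ℝ)) (by rw [hαa]; exact ha1) hb1 q h (n + k * R) A h2 ξ₀ ξ h3
      rw [hαa] at h4
      have h5 := hgood h h1 h2
      rw [hAM] at h5
      refine h4.trans ?_
      have h7 : EE q (a : ℝ) ≤ M / (2 * q) := by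
        rw [le_div_iff₀ (by positivity)]
        linarith
      have h8 : (M : ℝ) / q = M / (2 * q) + M / (2 * q) := by
        field_simp
        ring
      rw [h8]
      exact add_le_add h5 h7

/-- Repeated biased blocks. -/
theorem RRep (a b k q : ℕ) (ha : 2 ≤ a) (hb : 2 ≤ b) (hk1 : 1 ≤ k)
    (hk : 8 * ((k : ℝ) + 1) ≤ (b : ℝ) ^ k) (hq : 1 ≤ q)
    (hθ : Irrational (Real.logb ((b ^ k : ℕ) : ℝ) a)) :
    ∃ R D : ℕ, 1 ≤ R ∧
      ∀ (T n : ℕ) (u : ℝ), ∃ u' : ℝ,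
        Set.Icc u' (u' + 2 / (b : ℝ) ^ (n + k * (R * T))) ⊆ Set.Icc u (u + 2 / (b : ℝ) ^ n) ∧
        ∀ ξ ∈ Set.Icc u' (u' + 2 / (b : ℝ) ^ (n + k * (R * T))),
          (∀ r < R * T, Int.fract (ξ * (b : ℝ) ^ (n + k * r)) ≤ 1 / (2 * ((k : ℝ) + 1))) ∧
          ∀ h : ℕ, 1 ≤ h → h ≤ q → ∀ N, tau (a : ℝ) b n ≤ N → N ≤ tau (a : ℝ) b (n + k * (R * T)) →
            ‖∑ m ∈ Finset.Ico (tau (a : ℝ) b n) N, ee (h * (ξ * (a : ℝ) ^ m))‖ ≤
              ((N - tau (a : ℝ) b n : ℕ) : ℝ) / q + D := by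
  obtain ⟨R, D, hR, hD, hG⟩ := RBlock a b k q ha hb hk1 hk hq hθ
  have hq0 : (0 : ℝ) < q := by exact_mod_cast hq
  have ha1 : (1 : ℝ) < a := by exact_mod_cast (by omega : 1 < a)
  have hb1 : (1 : ℝ) < b := by exact_mod_cast (by omega : 1 < b)
  refine ⟨R, D, hR, fun T n u => ?_⟩
  have key : ∀ T : ℕ, ∃ u' : ℝ,
      Set.Icc u' (u' + 2 / (b : ℝ) ^ (n + k * (R * T))) ⊆ Set.Icc u (u + 2 / (b : ℝ) ^ n) ∧
      ∀ ξ ∈ Set.Icc u' (u' + 2 / (b : ℝ) ^ (n + k * (R * T))),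
        (∀ r < R * T, Int.fract (ξ * (b : ℝ) ^ (n + k * r)) ≤ 1 / (2 * ((k : ℝ) + 1))) ∧
        ∀ h : ℕ, 1 ≤ h → h ≤ q →
        (‖∑ m ∈ Finset.Ico (tau (a : ℝ) b n) (tau (a : ℝ) b (n + k * (R * T))),
          ee (h * (ξ * (a : ℝ) ^ m))‖ ≤
          ((tau (a : ℝ) b (n + k * (R * T)) - tau (a : ℝ) b n : ℕ) : ℝ) / q) ∧
        ∀ N, tau (a : ℝ) b n ≤ N → N ≤ tau (a : ℝ) b (n + k * (R * T)) →
        ‖∑ m ∈ Finset.Ico (tau (a : ℝ) b n) N, ee (h * (ξ * (a : ℝ) ^ m))‖ ≤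
          ((N - tau (a : ℝ) b n : ℕ) : ℝ) / q + D := by
    intro T
    induction T with
    | zero =>
      refine ⟨u, by simp, fun ξ _ => ⟨fun r hr => by simp at hr, fun h _ _ =>
        ⟨by simp, fun N h1 h2 => ?_⟩⟩⟩
      have : N = tau (a : ℝ) b n := le_antisymm (by simpa using h2) h1
      rw [this]
      simp
    | succ T ih =>
      obtain ⟨u₁, hu₁, hξ₁⟩ := ih
      obtain ⟨u₂, hu₂, hξ₂⟩ := hG (n + k * (R * T)) u₁
      have e1 : n + k * (R * (T + 1)) = n + k * (R * T) + k * R := by ring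
      rw [e1]
      refine ⟨u₂, hu₂.trans hu₁, fun ξ hξ => ⟨fun r hr => ?_, fun h h1 h2 => ?_⟩⟩
      · rcases Nat.lt_or_ge r (R * T) with hr' | hr'
        · exact (hξ₁ ξ (hu₂ hξ)).1 r hr'
        · obtain ⟨r₁, rfl⟩ := Nat.exists_eq_add_of_le hr'
          have hr₁ : r₁ < R := by
            have : R * (T + 1) = R * T + R := by ring
            omega
          have := (hξ₂ ξ hξ).1 r₁ hr₁
          have e2 : n + k * (R * T + r₁) = n + k * (R * T) + k * r₁ := by ring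
          rw [e2]
          exact this
      · obtain ⟨g1, g2⟩ := (hξ₁ ξ (hu₂ hξ)).2 h h1 h2
        have g3 := (hξ₂ ξ hξ).2 h h1 h2
        have m1 := tau_mono (a := a) (b := b) ha1 hb1 (Nat.le_add_right n (k * (R * T)))
        have m2 := tau_mono (a := a) (b := b) ha1 hb1 (Nat.le_add_right (n + k * (R * T)) (k * R))
        constructor
        · rw [← Finset.sum_Ico_consecutive _ m1 m2]
          refine (norm_add_le _ _).trans ?_
          refine (add_le_add g1 g3).trans (le_of_eq ?_)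
          rw [← add_div, ← Nat.cast_add]
          congr 2
          omega
        · intro N hN1 hN2
          rcases le_total N (tau (a : ℝ) b (n + k * (R * T))) with hN | hN
          · exact g2 N hN1 hN
          · rw [← Finset.sum_Ico_consecutive _ m1 hN]
            refine (norm_add_le _ _).trans ?_
            have g4 : ‖∑ m ∈ Finset.Ico (tau (a : ℝ) b (n + k * (R * T))) N,
                ee (h * (ξ * (a : ℝ) ^ m))‖ ≤ D := by
              refine (norm_sum_le _ _).trans ?_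
              simp_rw [norm_ee]
              rw [Finset.sum_const, Nat.card_Ico, nsmul_eq_mul, mul_one]
              have := hD (n + k * (R * T))
              exact_mod_cast (by omega : N - tau (a : ℝ) b (n + k * (R * T)) ≤ D)
            refine add_le_add (g1.trans ?_) g4
            refine div_le_div_of_nonneg_right ?_ hq0.le
            exact_mod_cast (by omega : tau (a : ℝ) b (n + k * (R * T)) - tau (a : ℝ) b n ≤
              N - tau (a : ℝ) b n)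
  obtain ⟨u', h1, h2⟩ := key T
  exact ⟨u', h1, fun ξ hξ => ⟨(h2 ξ hξ).1, fun h h3 h4 => ((h2 ξ hξ).2 h h3 h4).2⟩⟩

end Pool.Agent.H534R3.Rota
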