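import Pool.Agent.H534R3.Stage

/-! # The reduction -/

set_option autoImplicit false

open MeasureTheory Filter Topology
open scoped Real

namespace Pool.Agent.H534R3.UDist

theorem small_o (S : ℕ → ℝ) (N : ℕ → ℕ) (η : ℕ → ℝ) (hη : Tendsto η atTop (𝓝 0)) (J : ℕ)
    (hN2 : ∀ j, J ≤ j → 2 * N j ≤ N (j + 1)) (hNpos : ∀ j, J ≤ j → 1 ≤ N j)
    (hS : ∀ j, J ≤ j → ∀ n, N j ≤ n → n ≤ N (j + 1) → S n ≤ S (N j) + η j * n)
    (hS0 : ∀ n, 0 ≤ S n) : Tendsto (fun n : ℕ => S n / n) atTop (𝓝 0) := by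
  rw [Metric.tendsto_atTop']
  intro ε hε
  obtain ⟨J₁, hJ₁⟩ := eventually_atTop.1 (hη.eventually (gt_mem_nhds (show (0 : ℝ) < ε / 4 by positivity)))
  set J' := max J J₁ with hJ'
  have hle : ∀ j, J' ≤ j → η j ≤ ε / 4 := fun j hj => (hJ₁ j ((le_max_right _ _).trans hj)).le
  have claim : ∀ m, S (N (J' + m)) ≤ S (N J') + 2 * (ε / 4) * N (J' + m) := by
    intro m
    induction m with
    | zero =>
      rw [Nat.add_zero]
      have : (0 : ℝ) ≤ 2 * (ε / 4) * N J' := by positivity
      linarith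
    | succ m ih =>
      have hj : J ≤ J' + m := (le_max_left _ _).trans (Nat.le_add_right _ _)
      have h1 := hN2 (J' + m) hj
      have h2 := hS (J' + m) hj (N (J' + m + 1)) (by omega) le_rfl
      have h3 := hle (J' + m) (Nat.le_add_right _ _)
      have h4 : (2 : ℝ) * N (J' + m) ≤ N (J' + m + 1) := by exact_mod_cast h1
      have h5 : (0 : ℝ) ≤ N (J' + m + 1) := Nat.cast_nonneg _
      have h6 : η (J' + m) * N (J' + m + 1) ≤ ε / 4 * N (J' + m + 1) :=
        mul_le_mul_of_nonneg_right h3 h5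
      rw [← Nat.add_assoc]
      nlinarith
  have hunb : ∀ m, m ≤ N (J' + m) := by
    intro m
    induction m with
    | zero => exact Nat.zero_le _
    | succ m ih =>
      have hj : J ≤ J' + m := (le_max_left _ _).trans (Nat.le_add_right _ _)
      have h1 := hN2 (J' + m) hj
      have h2 := hNpos (J' + m) hj
      rw [← Nat.add_assoc]
      omega
  obtain ⟨L, hL⟩ := exists_nat_ge (4 * S (N J') / ε)
  refine ⟨max (N J') L + 1, fun n hn => ?_⟩
  have hn1 : N J' ≤ n := by omega
  have hn2 : L < n := by omega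
  have hn0 : (0 : ℝ) < n := by exact_mod_cast (by omega : 0 < n)
  -- find the stage
  have hex : ∃ m, n < N (J' + m) := ⟨n + 1, by have := hunb (n + 1); omega⟩
  classical
  set m := Nat.find hex with hm
  have hm1 : n < N (J' + m) := Nat.find_spec hex
  have hm0 : m ≠ 0 := by
    intro h
    rw [h, Nat.add_zero] at hm1
    omega
  obtain ⟨m', hm'⟩ := Nat.exists_eq_succ_of_ne_zero hm0
  have hm2 : N (J' + m') ≤ n := by
    have := Nat.find_min hex (m := m') (by omega)
    omega
  rw [hm', Nat.succ_eq_add_one, ← Nat.add_assoc] at hm1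
  have hj : J ≤ J' + m' := (le_max_left _ _).trans (Nat.le_add_right _ _)
  have h1 := hS (J' + m') hj n hm2 hm1.le
  have h2 := claim m'
  have h3 := hle (J' + m') (Nat.le_add_right _ _)
  have h4 : η (J' + m') * n ≤ ε / 4 * n := mul_le_mul_of_nonneg_right h3 hn0.le
  have h5 : (N (J' + m') : ℝ) ≤ n := by exact_mod_cast hm2
  have h6 : S n ≤ S (N J') + 3 * (ε / 4) * n := by nlinarith
  have h7 : S (N J') < ε / 4 * n := by
    have : (L : ℝ) < n := by exact_mod_cast hn2
    have h8 := lt_of_le_of_lt hL this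
    rw [div_lt_iff₀ hε] at h8
    linarith
  rw [Real.dist_eq, sub_zero, abs_of_nonneg (div_nonneg (hS0 n) hn0.le), div_lt_iff₀ hn0]
  linarith

theorem cnt_add (x : ℕ → ℝ) (t : ℝ) (n k R : ℕ) (hk : 1 ≤ k)
    (h : ∀ r < R, Int.fract (x (n + k * r)) < t) :
    cnt x 0 t n + R ≤ cnt x 0 t (n + k * R) := by
  classical
  have h1 : ((Finset.range n).filter (fun m => 0 ≤ Int.fract (x m) ∧ Int.fract (x m) < t)) ∪
      (Finset.range R).image (fun r => n + k * r) ⊆
      (Finset.range (n + k * R)).filter (fun m => 0 ≤ Int.fract (x m) ∧ Int.fract (x m) < t) := by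
    intro m hm
    rw [Finset.mem_union] at hm
    rw [Finset.mem_filter, Finset.mem_range]
    rcases hm with hm | hm
    · rw [Finset.mem_filter, Finset.mem_range] at hm
      exact ⟨by omega, hm.2⟩
    · obtain ⟨r, hr, rfl⟩ := Finset.mem_image.1 hm
      rw [Finset.mem_range] at hr
      refine ⟨?_, Int.fract_nonneg _, h r hr⟩
      have : k * r < k * R := Nat.mul_lt_mul_of_pos_left hr (by omega)
      omega
  have h2 : Disjoint ((Finset.range n).filter
      (fun m => 0 ≤ Int.fract (x m) ∧ Int.fract (x m) < t))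
      ((Finset.range R).image (fun r => n + k * r)) := by
    rw [Finset.disjoint_left]
    intro m hm hm'
    rw [Finset.mem_filter, Finset.mem_range] at hm
    obtain ⟨r, hr, rfl⟩ := Finset.mem_image.1 hm'
    omega
  have h3 : ((Finset.range R).image (fun r => n + k * r)).card = R := by
    rw [Finset.card_image_of_injective, Finset.card_range]
    intro r r' hrr
    have : k * r = k * r' := by simpa using hrr
    exact Nat.eq_of_mul_eq_mul_left (by omega) this
  have h4 := Finset.card_le_card h1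
  rw [Finset.card_union_of_disjoint h2, h3] at h4
  exact h4

/-- The reduction of the sequences tending to infinity. -/
theorem reduce_family (α : ℕ → ℝ) (hα : ∀ i, 1 < |α i|) :
    ∃ g : (ℕ → ℕ) → ℝ, Continuous g ∧
      (∀ y, Tendsto y atTop atTop → ∀ i, UD (fun n => g y * α i ^ n)) ∧
      (∀ y, ¬ Tendsto y atTop atTop → ¬ UD (fun n => g y * α 0 ^ n)) := by
  obtain ⟨k, hk1, hk⟩ := exists_k (hα 0)
  obtain ⟨D, st, hst0, hloc, hgrow, hth, hnest, hprop⟩ := exists_stages α hα hk
  have hb := hα 0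
  set b := |α 0| with hbdef
  have hb0 : 0 < b := by linarith
  -- nested endpoints
  have hends : ∀ y j, (st y j).2 ≤ (st y (j + 1)).2 ∧
      (st y (j + 1)).2 + 2 / b ^ (st y (j + 1)).1 ≤ (st y j).2 + 2 / b ^ (st y j).1 := by
    intro y j
    have h1 := hnest y j
    have h2 : (st y (j + 1)).2 ≤ (st y (j + 1)).2 + 2 / b ^ (st y (j + 1)).1 := by
      have : 0 < 2 / b ^ (st y (j + 1)).1 := by positivity
      linarith
    exact (Set.Icc_subset_Icc_iff h2).1 h1
  have hmono : ∀ y, Monotone fun j => (st y j).2 := fun y =>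
    monotone_nat_of_le_succ fun j => (hends y j).1
  have hanti : ∀ y, Antitone fun j => (st y j).2 + 2 / b ^ (st y j).1 := fun y =>
    antitone_nat_of_succ_le fun j => (hends y j).2
  have hcross : ∀ y i j, (st y i).2 ≤ (st y j).2 + 2 / b ^ (st y j).1 := by
    intro y i j
    have h1 : (st y i).2 ≤ (st y (max i j)).2 := hmono y (le_max_left i j)
    have h2 : (st y (max i j)).2 + 2 / b ^ (st y (max i j)).1 ≤ (st y j).2 + 2 / b ^ (st y j).1 :=
      hanti y (le_max_right i j)
    have : 0 < 2 / b ^ (st y (max i j)).1 := by positivity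
    linarith
  set g : (ℕ → ℕ) → ℝ := fun y => ⨆ j, (st y j).2 with hg
  have hbdd : ∀ y, BddAbove (Set.range fun j => (st y j).2) := by
    intro y
    refine ⟨(st y 0).2 + 2 / b ^ (st y 0).1, ?_⟩
    rintro _ ⟨j, rfl⟩
    exact hcross y j 0
  have hmem : ∀ y j, g y ∈ Set.Icc (st y j).2 ((st y j).2 + 2 / b ^ (st y j).1) := by
    intro y j
    exact ⟨le_ciSup (hbdd y) j, ciSup_le fun i => hcross y i j⟩
  have hlen : ∀ y j, j ≤ (st y j).1 := by
    intro y j
    induction j with
    | zero => exact Nat.zero_le _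
    | succ j ih =>
      have := (hgrow y j).1
      omega
  refine ⟨g, ?_, ?_, ?_⟩
  · -- continuity
    rw [continuous_iff_continuousAt]
    intro y
    rw [Metric.continuousAt_iff']
    intro ε hε
    obtain ⟨j, hj⟩ : ∃ j : ℕ, 2 / b ^ j < ε := by
      obtain ⟨j, hj⟩ := pow_unbounded_of_one_lt (2 / ε) hb
      refine ⟨j, ?_⟩
      rw [div_lt_iff₀ (by positivity)]
      rw [div_lt_iff₀ hε] at hj
      linarith
    have hev : ∀ᶠ y' in 𝓝 y, ∀ i ∈ Finset.range j, y' i = y i := by
      rw [Filter.eventually_all_finset]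
      intro i _
      have h1 : ContinuousAt (fun y' : ℕ → ℕ => y' i) y := (continuous_apply i).continuousAt
      exact h1.eventually (eventually_of_mem ((isOpen_discrete {y i}).mem_nhds rfl)
        (fun z hz => hz))
    filter_upwards [hev] with y' hy'
    have h1 : st y' j = st y j := hloc y' y j fun i hi => hy' i (Finset.mem_range.2 hi)
    have h2 := hmem y j
    have h3 := hmem y' j
    rw [h1] at h3
    have h4 : 2 / b ^ (st y j).1 ≤ 2 / b ^ j := by
      refine div_le_div_of_nonneg_left (by norm_num) (by positivity) ?_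
      exact pow_le_pow_right₀ hb.le (hlen y j)
    rw [Real.dist_eq, abs_lt]
    constructor <;> linarith [h2.1, h2.2, h3.1, h3.2]
  · -- uniform distribution
    intro y hy i
    refine ud_of_weyl _ fun h hh => ?_
    have hbi : 1 < |α i| := hα i
    refine small_o (fun n => ‖∑ m ∈ Finset.range n, ee (h * (g y * α i ^ m))‖)
      (fun j => tau |α i| b (st y j).1)
      (fun j => (k : ℝ) / ((y j : ℝ) + 1) + 1 / ((j : ℝ) + 1) + 1 / (j : ℝ)) ?_
      (max i h + 1) ?_ ?_ ?_ (fun n => norm_nonneg _)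
    · have h1 : Tendsto (fun j => (k : ℝ) / ((y j : ℝ) + 1)) atTop (𝓝 0) := by
        refine Tendsto.div_atTop tendsto_const_nhds ?_
        exact tendsto_atTop_add_const_right _ _ (tendsto_natCast_atTop_atTop.comp hy)
      have h2 : Tendsto (fun j : ℕ => 1 / ((j : ℝ) + 1)) atTop (𝓝 0) :=
        tendsto_one_div_add_atTop_nhds_zero_nat
      have h3 : Tendsto (fun j : ℕ => 1 / (j : ℝ)) atTop (𝓝 0) := tendsto_one_div_atTop_nhds_zero_nat
      simpa using (h1.add h2).add h3
    · intro j hj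
      obtain ⟨j', rfl⟩ : ∃ j', j = j' + 1 := ⟨j - 1, by omega⟩
      refine tau_four hbi hb (hgrow y (j' + 1)).2.1 ?_
      have := hth y j' i (by omega)
      omega
    · intro j hj
      obtain ⟨j', rfl⟩ : ∃ j', j = j' + 1 := ⟨j - 1, by omega⟩
      have := hth y j' i (by omega)
      omega
    · intro j hj n hn1 hn2
      obtain ⟨j', rfl⟩ : ∃ j', j = j' + 1 := ⟨j - 1, by omega⟩
      have hth' := hth y j' i (by omega)
      have hpr := (hprop y (j' + 1) (g y) (hmem y _)).2 i (by omega) h hh (by omega)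
      set a0 := tau |α i| b (st y (j' + 1)).1 with ha0
      set R := (st y (j' + 1)).1 / (y (j' + 1) + 1) with hR
      set a1 := tau |α i| b ((st y (j' + 1)).1 + k * R) with ha1
      have ha01 : a0 ≤ a1 := tau_mono hbi hb (Nat.le_add_right _ _)
      have hbias : (a1 - a0) * (y (j' + 1) + 1) ≤ (y (j' + 1) + 1) + k * a0 := by
        refine tau_bias hbi hb ?_
        rw [hR]
        exact Nat.mul_div_le _ _
      have hy0 : (0 : ℝ) < (y (j' + 1) : ℝ) + 1 := by positivity
      have hbias' : ((a1 - a0 : ℕ) : ℝ) ≤ 1 + k * a0 / ((y (j' + 1) : ℝ) + 1) := by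
        have h1 : ((a1 - a0 : ℕ) : ℝ) * ((y (j' + 1) : ℝ) + 1) ≤
            ((y (j' + 1) : ℝ) + 1) + k * a0 := by exact_mod_cast hbias
        rw [← sub_le_iff_le_add', le_div_iff₀ hy0]
        linarith
      have hj0 : (0 : ℝ) < ((j' + 1 : ℕ) : ℝ) := by positivity
      have hD : (D (j' + 2) : ℝ) + 1 ≤ (a0 : ℝ) / ((j' + 1 : ℕ) : ℝ) := by
        rw [le_div_iff₀ hj0]
        have h1 : (j' + 1) * (D (j' + 2) + 1) ≤ a0 := by omega
        have h2 : ((j' + 1 : ℕ) : ℝ) * ((D (j' + 2) : ℝ) + 1) ≤ a0 := by exact_mod_cast h1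
        linarith
      have hna : (a0 : ℝ) ≤ n := by exact_mod_cast hn1
      have hk0 : (0 : ℝ) ≤ k := Nat.cast_nonneg k
      have hD0 : (0 : ℝ) ≤ D (j' + 2) := Nat.cast_nonneg _
      have hkn : (k : ℝ) * a0 / ((y (j' + 1) : ℝ) + 1) ≤ k / ((y (j' + 1) : ℝ) + 1) * n := by
        rw [div_mul_eq_mul_div]
        refine div_le_div_of_nonneg_right ?_ hy0.le
        exact mul_le_mul_of_nonneg_left hna hk0
      have hjn : (a0 : ℝ) / ((j' + 1 : ℕ) : ℝ) ≤ 1 / ((j' + 1 : ℕ) : ℝ) * n := by
        rw [one_div_mul_eq_div]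
        exact div_le_div_of_nonneg_right hna hj0.le
      have hsplit : ∀ c, a0 ≤ c → ‖∑ m ∈ Finset.range c, ee (h * (g y * α i ^ m))‖ ≤
          ‖∑ m ∈ Finset.range a0, ee (h * (g y * α i ^ m))‖ +
          ‖∑ m ∈ Finset.Ico a0 c, ee (h * (g y * α i ^ m))‖ := by
        intro c hc
        rw [← Finset.sum_range_add_sum_Ico _ hc]
        exact norm_add_le _ _
      have htriv : ∀ c d : ℕ, ‖∑ m ∈ Finset.Ico c d, ee (h * (g y * α i ^ m))‖ ≤ ((d - c : ℕ) : ℝ) := by
        intro c d
        refine (norm_sum_le _ _).trans ?_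
        simp_rw [norm_ee]
        rw [Finset.sum_const, Nat.card_Ico, nsmul_eq_mul, mul_one]
      have hn0 : (0 : ℝ) ≤ n := Nat.cast_nonneg n
      refine (hsplit n hn1).trans ?_
      refine (add_le_add le_rfl (?_ : _ ≤ ((k : ℝ) / ((y (j' + 1) : ℝ) + 1) +
        1 / (((j' + 1 : ℕ) : ℝ) + 1) + 1 / ((j' + 1 : ℕ) : ℝ)) * n))
      rcases le_total n a1 with hna1 | hna1
      · have h1 : ((n - a0 : ℕ) : ℝ) ≤ ((a1 - a0 : ℕ) : ℝ) := by
          exact_mod_cast (by omega : n - a0 ≤ a1 - a0)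
        have h2 := htriv a0 n
        have h3 : (0 : ℝ) ≤ 1 / (((j' + 1 : ℕ) : ℝ) + 1) * n := by positivity
        rw [add_mul, add_mul]
        linarith
      · have h1 : ‖∑ m ∈ Finset.Ico a0 n, ee (h * (g y * α i ^ m))‖ ≤
            ‖∑ m ∈ Finset.Ico a0 a1, ee (h * (g y * α i ^ m))‖ +
            ‖∑ m ∈ Finset.Ico a1 n, ee (h * (g y * α i ^ m))‖ := by
          rw [← Finset.sum_Ico_consecutive _ ha01 hna1]
          exact norm_add_le _ _
        have h2 := htriv a0 a1
        have h3 := hpr n hna1 hn2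
        have h4 : ((n - a1 : ℕ) : ℝ) / ((j' + 1 + 1 : ℕ) : ℝ) ≤
            1 / (((j' + 1 : ℕ) : ℝ) + 1) * n := by
          rw [one_div_mul_eq_div]
          push_cast
          refine div_le_div_of_nonneg_right ?_ (by positivity)
          exact_mod_cast (Nat.sub_le n a1)
        rw [add_mul, add_mul]
        linarith
  · -- failure of uniform distribution
    intro y hy hud
    have h1 : ∃ e : ℕ, ∀ J, ∃ j, J ≤ j ∧ y j ≤ e := by
      rw [tendsto_atTop_atTop] at hy
      push Not at hy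
      obtain ⟨e, he⟩ := hy
      exact ⟨e, fun J => by
        obtain ⟨j, hj, hj'⟩ := he J
        exact ⟨j, hj, hj'.le⟩⟩
    obtain ⟨e, he⟩ := h1
    have hk0 : (0 : ℝ) ≤ k := Nat.cast_nonneg k
    have he0 : (0 : ℝ) ≤ e := Nat.cast_nonneg e
    set δ' : ℝ := 1 / ((k : ℝ) + 1) with hδ'
    have hδ'0 : 0 < δ' := by positivity
    have hδ'1 : δ' ≤ 1 := by
      rw [hδ', div_le_one (by positivity)]
      linarith
    set ε : ℝ := 1 / (16 * ((k : ℝ) + 1) ^ 2 * ((e : ℝ) + 1)) with hε
    have hε0 : 0 < ε := by positivity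
    have h2 := hud 0 δ' le_rfl hδ'0.le hδ'1
    rw [Metric.tendsto_atTop] at h2
    obtain ⟨N₀, hN₀⟩ := h2 ε hε0
    obtain ⟨j, hj, hje⟩ := he (max N₀ (2 * (e + 1)) + 1)
    set n := (st y j).1 with hn
    have hnj := hlen y j
    have hnN : N₀ ≤ n := by omega
    have hne : 2 * (e + 1) ≤ n := by omega
    set R := n / (y j + 1) with hR
    have hc := cnt_add (fun n => g y * α 0 ^ n) δ' n k R hk1 (by
      intro r hr
      have h3 := (hprop y j (g y) (hmem y _)).1 r hr
      refine lt_of_le_of_lt h3 ?_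
      rw [hδ', div_lt_div_iff₀ (by positivity) (by positivity)]
      linarith)
    have hA : ∀ N, N₀ ≤ N → 0 < N → |(cnt (fun n => g y * α 0 ^ n) 0 δ' N : ℝ) - δ' * N| ≤ ε * N := by
      intro N hN hN0
      have h3 := hN₀ N hN
      have hN0' : (0 : ℝ) < N := by exact_mod_cast hN0
      rw [Real.dist_eq, sub_zero] at h3
      have h4 : |(cnt (fun n => g y * α 0 ^ n) 0 δ' N : ℝ) / N - δ'| < ε := h3
      have h5 : (cnt (fun n => g y * α 0 ^ n) 0 δ' N : ℝ) - δ' * N =
          ((cnt (fun n => g y * α 0 ^ n) 0 δ' N : ℝ) / N - δ') * N := by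
        field_simp
      rw [h5, abs_mul, abs_of_pos hN0']
      exact mul_le_mul_of_nonneg_right h4.le hN0'.le
    have hA1 := abs_le.1 (hA n hnN (by omega))
    have hA2 := abs_le.1 (hA (n + k * R) (by omega) (by omega))
    have hc' : (cnt (fun n => g y * α 0 ^ n) 0 δ' n : ℝ) + R ≤
        cnt (fun n => g y * α 0 ^ n) 0 δ' (n + k * R) := by exact_mod_cast hc
    push_cast at hA2
    have hkey : (R : ℝ) ≤ δ' * (k * R) + ε * (2 * n + k * R) := by
      linarith [hA1.1, hA1.2, hA2.1, hA2.2]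
    have hRlow : (n : ℝ) ≤ 2 * ((e : ℝ) + 1) * R := by
      have e1 : n < (y j + 1) * (R + 1) := by
        rw [hR]
        have := Nat.lt_mul_div_succ n (show 0 < y j + 1 by omega)
        exact this
      have e2 : n < (e + 1) * (R + 1) := lt_of_lt_of_le e1 (Nat.mul_le_mul_right _ (by omega))
      have e3 : n ≤ 2 * (e + 1) * R := by nlinarith
      exact_mod_cast e3
    have hRpos : (0 : ℝ) < R := by
      have : 0 < R := by
        rw [hR]
        exact Nat.div_pos (by omega) (by omega)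
      exact_mod_cast this
    -- contradiction
    have e1 : δ' * (k * R) = R - R / ((k : ℝ) + 1) := by
      rw [hδ']
      field_simp
      ring
    have e2 : ε * (2 * n + k * R) ≤ R / (2 * ((k : ℝ) + 1)) := by
      have f1 : 2 * (n : ℝ) + k * R ≤ (4 * ((e : ℝ) + 1) + k) * R := by linarith
      have f2 : ε * (2 * n + k * R) ≤ ε * ((4 * ((e : ℝ) + 1) + k) * R) :=
        mul_le_mul_of_nonneg_left f1 hε0.le
      refine f2.trans ?_
      rw [hε, le_div_iff₀ (by positivity)]
      have f3 : 1 / (16 * ((k : ℝ) + 1) ^ 2 * ((e : ℝ) + 1)) * ((4 * ((e : ℝ) + 1) + k) * R) *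
          (2 * ((k : ℝ) + 1)) = R * ((4 * ((e : ℝ) + 1) + k) / (8 * ((k : ℝ) + 1) * ((e : ℝ) + 1))) := by
        field_simp
        ring
      rw [f3]
      have f4 : (4 * ((e : ℝ) + 1) + k) / (8 * ((k : ℝ) + 1) * ((e : ℝ) + 1)) ≤ 1 := by
        rw [div_le_one (by positivity)]
        nlinarith
      nlinarith
    rw [e1] at hkey
    have e3 : R / (2 * ((k : ℝ) + 1)) < R / ((k : ℝ) + 1) := by
      refine div_lt_div_of_pos_left hRpos (by positivity) ?_
      linarith
    linarith

end Pool.Agent.H534R3.UDist
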