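import Mathlib
import Pool.Agent.Helper31.GZ.Brouwer

/-! # Rotations of spheres and balls -/

set_option autoImplicit false

open Set Metric Topology

namespace Pool.Agent.H534R3.Rot

/-- Euclidean space. -/
abbrev E (d : ℕ) : Type := EuclideanSpace ℝ (Fin (d + 2))

variable {d : ℕ}

/-- The rotation in the first two coordinates. -/
noncomputable def rot (c s : ℝ) (q : E d) : E d :=
  WithLp.toLp 2 (Fin.cons (c * q 0 - s * q 1) (Fin.cons (s * q 0 + c * q 1)
    (fun i : Fin d => q i.succ.succ)))

theorem rot_zero (c s : ℝ) (q : E d) : rot c s q 0 = c * q 0 - s * q 1 := rfl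
theorem rot_one (c s : ℝ) (q : E d) : rot c s q 1 = s * q 0 + c * q 1 := rfl
theorem rot_succ (c s : ℝ) (q : E d) (i : Fin d) : rot c s q i.succ.succ = q i.succ.succ := rfl

theorem ext_coords {p q : E d} (h0 : p 0 = q 0) (h1 : p 1 = q 1)
    (h : ∀ i : Fin d, p i.succ.succ = q i.succ.succ) : p = q := by
  ext i
  refine Fin.cases h0 (fun i => ?_) i
  refine Fin.cases h1 (fun i => ?_) i
  exact h i

theorem norm_sq_eq (q : E d) : ‖q‖ ^ 2 = q 0 ^ 2 + (q 1 ^ 2 + ∑ i : Fin d, q i.succ.succ ^ 2) := by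
  rw [EuclideanSpace.norm_sq_eq, Fin.sum_univ_succ, Fin.sum_univ_succ]
  simp only [Real.norm_eq_abs, sq_abs]
  rfl

theorem norm_rot {c s : ℝ} (h : c ^ 2 + s ^ 2 = 1) (q : E d) : ‖rot c s q‖ = ‖q‖ := by
  have h1 : ‖rot c s q‖ ^ 2 = ‖q‖ ^ 2 := by
    rw [norm_sq_eq, norm_sq_eq, rot_zero, rot_one]
    simp only [rot_succ]
    linear_combination (q 0 ^ 2 + q 1 ^ 2) * h
  exact (pow_left_inj₀ (norm_nonneg _) (norm_nonneg _) two_ne_zero).1 h1

theorem rot_rot (c s c' s' : ℝ) (q : E d) :
    rot c s (rot c' s' q) = rot (c * c' - s * s') (s * c' + c * s') q := by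
  refine ext_coords ?_ ?_ fun i => ?_
  · rw [rot_zero, rot_zero, rot_one, rot_zero]; ring
  · rw [rot_one, rot_zero, rot_one, rot_one]; ring
  · rw [rot_succ, rot_succ, rot_succ]

theorem rot_id (q : E d) : rot 1 0 q = q := by
  refine ext_coords ?_ ?_ fun i => ?_
  · rw [rot_zero]; ring
  · rw [rot_one]; ring
  · rw [rot_succ]

theorem continuous_coord (i : Fin (d + 2)) : Continuous fun q : E d => q i := by
  fun_prop

theorem continuous_mk {Y : Type} [TopologicalSpace Y] {a b : Y → ℝ} {f : Y → Fin d → ℝ}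
    (ha : Continuous a) (hb : Continuous b) (hf : Continuous f) :
    Continuous fun y => (WithLp.toLp 2 (Fin.cons (a y) (Fin.cons (b y) (f y))) : E d) := by
  refine (PiLp.continuous_toLp 2 _).comp ?_
  refine continuous_pi fun i => ?_
  refine Fin.cases ha (fun i => ?_) i
  refine Fin.cases hb (fun i => ?_) i
  exact (continuous_apply i).comp hf

theorem continuous_rot {Y : Type} [TopologicalSpace Y] {c s : Y → ℝ} {q : Y → E d}
    (hc : Continuous c) (hs : Continuous s) (hq : Continuous q) :
    Continuous fun y => rot (c y) (s y) (q y) := by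
  have h : ∀ i, Continuous fun y => q y i := fun i => (continuous_coord i).comp hq
  exact continuous_mk ((hc.mul (h 0)).sub (hs.mul (h 1))) ((hs.mul (h 0)).add (hc.mul (h 1)))
    (continuous_pi fun i => h i.succ.succ)

/-- The retraction to the page. -/
noncomputable def page (q : E d) : E d :=
  WithLp.toLp 2 (Fin.cons (Real.sqrt (q 0 ^ 2 + q 1 ^ 2)) (Fin.cons 0
    (fun i : Fin d => q i.succ.succ)))

theorem page_zero (q : E d) : page q 0 = Real.sqrt (q 0 ^ 2 + q 1 ^ 2) := rfl
theorem page_one (q : E d) : page q 1 = 0 := rfl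
theorem page_succ (q : E d) (i : Fin d) : page q i.succ.succ = q i.succ.succ := rfl

theorem continuous_page : Continuous (page : E d → E d) := by
  refine continuous_mk ?_ continuous_const (continuous_pi fun i => continuous_coord _)
  exact Real.continuous_sqrt.comp
    (((continuous_coord 0).pow 2).add ((continuous_coord 1).pow 2))

theorem page_eq_rot (q : E d) : ∃ c s : ℝ, c ^ 2 + s ^ 2 = 1 ∧ rot c s q = page q := by
  set ρ := Real.sqrt (q 0 ^ 2 + q 1 ^ 2) with hρ
  have hρ2 : ρ ^ 2 = q 0 ^ 2 + q 1 ^ 2 := Real.sq_sqrt (by positivity)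
  rcases eq_or_ne ρ 0 with h | h
  · refine ⟨1, 0, by norm_num, ?_⟩
    rw [h] at hρ2
    have h0 : q 0 = 0 := by nlinarith [sq_nonneg (q 0), sq_nonneg (q 1)]
    have h1 : q 1 = 0 := by nlinarith [sq_nonneg (q 0), sq_nonneg (q 1)]
    refine ext_coords ?_ ?_ fun i => ?_
    · rw [rot_zero, page_zero, ← hρ, h, h0, h1]; ring
    · rw [rot_one, page_one, h0, h1]; ring
    · rw [rot_succ, page_succ]
  · refine ⟨q 0 / ρ, -q 1 / ρ, ?_, ?_⟩
    · field_simp
      linarith
    · refine ext_coords ?_ ?_ fun i => ?_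
      · rw [rot_zero, page_zero, ← hρ]
        field_simp
        linarith
      · rw [rot_one, page_one]
        field_simp
        ring
      · rw [rot_succ, page_succ]

theorem norm_page (q : E d) : ‖page q‖ = ‖q‖ := by
  obtain ⟨c, s, h, hq⟩ := page_eq_rot q
  rw [← hq, norm_rot h]

/-! ### The circle action -/

/-- The real part of the character. -/
noncomputable def cc (t : UnitAddCircle) : ℝ := ((AddCircle.toCircle t : Circle) : ℂ).re
/-- The imaginary part of the character. -/
noncomputable def ss (t : UnitAddCircle) : ℝ := ((AddCircle.toCircle t : Circle) : ℂ).im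

theorem continuous_cc : Continuous cc :=
  Complex.continuous_re.comp (continuous_subtype_val.comp AddCircle.continuous_toCircle)
theorem continuous_ss : Continuous ss :=
  Complex.continuous_im.comp (continuous_subtype_val.comp AddCircle.continuous_toCircle)

theorem cc_sq (t : UnitAddCircle) : cc t ^ 2 + ss t ^ 2 = 1 := by
  have h := Circle.normSq_coe (AddCircle.toCircle t)
  rw [Complex.normSq_apply] at h
  rw [cc, ss]
  linarith

theorem cc_add (s t : UnitAddCircle) : cc (s + t) = cc s * cc t - ss s * ss t := by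
  rw [cc, AddCircle.toCircle_add, Circle.coe_mul, Complex.mul_re]
  rfl

theorem ss_add (s t : UnitAddCircle) : ss (s + t) = ss s * cc t + cc s * ss t := by
  rw [ss, AddCircle.toCircle_add, Circle.coe_mul, Complex.mul_im]
  rw [cc, cc, ss, ss]
  ring

theorem cc_zero : cc 0 = 1 := by rw [cc, AddCircle.toCircle_zero]; simp
theorem ss_zero : ss 0 = 0 := by rw [ss, AddCircle.toCircle_zero]; simp

theorem exists_cc_ss {c s : ℝ} (h : c ^ 2 + s ^ 2 = 1) : ∃ t : UnitAddCircle, cc t = c ∧ ss t = s := by
  have h1 : ‖(⟨c, s⟩ : ℂ)‖ = 1 := by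
    rw [Complex.norm_def, Complex.normSq_mk, Real.sqrt_eq_one]
    linarith
  obtain ⟨t, ht⟩ := (AddCircle.homeomorphCircle (T := (1 : ℝ)) one_ne_zero).surjective
    ⟨⟨c, s⟩, mem_sphere_zero_iff_norm.2 h1⟩
  refine ⟨t, ?_, ?_⟩
  · rw [AddCircle.homeomorphCircle_apply] at ht
    rw [cc, ht]
  · rw [AddCircle.homeomorphCircle_apply] at ht
    rw [ss, ht]

/-! ### Spheres are not contractible -/

theorem sphere_not_nullhomotopic (k : ℕ) :
    ¬ (ContinuousMap.id (sphere (0 : EuclideanSpace ℝ (Fin k)) 1)).Nullhomotopic := by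
  rintro ⟨c, ⟨F⟩⟩
  set t : EuclideanSpace ℝ (Fin k) → unitInterval :=
    fun x => projIcc 0 1 zero_le_one (2 - 2 * ‖x‖) with ht
  have htc : Continuous t := continuous_projIcc.comp (by fun_prop)
  have hn : ∀ x : EuclideanSpace ℝ (Fin k), x ≠ 0 →
      ‖x‖⁻¹ • x ∈ sphere (0 : EuclideanSpace ℝ (Fin k)) 1 := by
    intro x hx
    rw [mem_sphere_zero_iff_norm, norm_smul, norm_inv, norm_norm,
      inv_mul_cancel₀ (norm_ne_zero_iff.2 hx)]
  set f : EuclideanSpace ℝ (Fin k) → EuclideanSpace ℝ (Fin k) := fun x => if h : x ≠ 0 then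
    (max ‖x‖ 1) • ((F (t x, ⟨‖x‖⁻¹ • x, hn x h⟩) : sphere (0 : EuclideanSpace ℝ (Fin k)) 1) :
      EuclideanSpace ℝ (Fin k)) else (c : EuclideanSpace ℝ (Fin k)) with hf
  have hf0 : ∀ x : EuclideanSpace ℝ (Fin k), ‖x‖ < 1 / 2 → f x = c := by
    intro x hx
    by_cases h : x ≠ 0
    · have h1 : t x = 1 := by
        simp only [ht]
        rw [projIcc_of_right_le _ (by linarith)]
        rfl
      simp only [hf, dif_pos h, h1]
      have h2 : F (1, (⟨‖x‖⁻¹ • x, hn x h⟩ : sphere (0 : EuclideanSpace ℝ (Fin k)) 1)) = c := by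
        rw [F.apply_one]; rfl
      rw [h2, max_eq_right (by linarith), one_smul]
    · simp only [hf, dif_neg h]
  have hfc : Continuous f := by
    rw [continuous_iff_continuousAt]
    intro x
    by_cases hx : x = 0
    · subst hx
      refine (continuousAt_const :
        ContinuousAt (fun _ : EuclideanSpace ℝ (Fin k) => (c : EuclideanSpace ℝ (Fin k))) 0).congr ?_
      filter_upwards [ball_mem_nhds (0 : EuclideanSpace ℝ (Fin k))
        (by norm_num : (0 : ℝ) < 1 / 2)] with y hy
      exact (hf0 y (by simpa using hy)).symm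
    · have hon : ContinuousOn f {y | y ≠ 0} := by
        rw [continuousOn_iff_continuous_domRestrict]
        have : ({y : EuclideanSpace ℝ (Fin k) | y ≠ 0}).domRestrict f =
            fun y : {y : EuclideanSpace ℝ (Fin k) | y ≠ 0} =>
            (max ‖(y : EuclideanSpace ℝ (Fin k))‖ 1) •
              ((F (t y, ⟨‖(y : EuclideanSpace ℝ (Fin k))‖⁻¹ • (y : EuclideanSpace ℝ (Fin k)),
                hn y y.2⟩) : sphere (0 : EuclideanSpace ℝ (Fin k)) 1) :
                EuclideanSpace ℝ (Fin k)) := by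
          funext y
          exact dif_pos y.2
        rw [this]
        have hnc : Continuous fun y : {y : EuclideanSpace ℝ (Fin k) | y ≠ 0} =>
            (⟨‖(y : EuclideanSpace ℝ (Fin k))‖⁻¹ • (y : EuclideanSpace ℝ (Fin k)), hn y y.2⟩ :
              sphere (0 : EuclideanSpace ℝ (Fin k)) 1) := by
          refine Continuous.subtype_mk ?_ _
          exact (continuous_subtype_val.norm.inv₀ (fun y => norm_ne_zero_iff.2 y.2)).smul
            continuous_subtype_val
        exact ((continuous_subtype_val.norm).max continuous_const).smul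
          (continuous_subtype_val.comp
            (F.continuous.comp ((htc.comp continuous_subtype_val).prodMk hnc)))
      exact (hon x hx).continuousAt (isOpen_ne.mem_nhds hx)
  obtain ⟨x, hx⟩ := Pool.Agent.Helper31.GZ.Brouwer.exists_zero k f hfc 1 one_pos (by
    intro x hx
    have h : x ≠ 0 := by
      rintro rfl; norm_num at hx
    have h1 : t x = 0 := by
      simp only [ht]
      rw [projIcc_of_le_left _ (by linarith)]
      rfl
    simp only [hf, dif_pos h, h1]
    have h2 : F (0, (⟨‖x‖⁻¹ • x, hn x h⟩ : sphere (0 : EuclideanSpace ℝ (Fin k)) 1)) =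
        (⟨‖x‖⁻¹ • x, hn x h⟩ : sphere (0 : EuclideanSpace ℝ (Fin k)) 1) := by
      rw [F.apply_zero]; rfl
    rw [h2, max_eq_left hx, smul_smul, mul_inv_cancel₀ (by linarith), one_smul])
  by_cases h : x ≠ 0
  · simp only [hf, dif_pos h] at hx
    have h1 : ‖((F (t x, (⟨‖x‖⁻¹ • x, hn x h⟩ : sphere (0 : EuclideanSpace ℝ (Fin k)) 1)) :
        sphere (0 : EuclideanSpace ℝ (Fin k)) 1) : EuclideanSpace ℝ (Fin k))‖ = 1 :=
      mem_sphere_zero_iff_norm.1 (F (t x, (⟨‖x‖⁻¹ • x, hn x h⟩ :
        sphere (0 : EuclideanSpace ℝ (Fin k)) 1)) : sphere (0 : EuclideanSpace ℝ (Fin k)) 1).2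
    have h2 := congrArg norm hx
    rw [norm_smul, h1, norm_zero, mul_one, norm_eq_zero] at h2
    have := le_max_right ‖x‖ 1
    rw [h2] at this
    linarith
  · simp only [hf, dif_neg h] at hx
    have h1 : ‖(c : EuclideanSpace ℝ (Fin k))‖ = 1 := mem_sphere_zero_iff_norm.1 c.2
    rw [hx, norm_zero] at h1
    norm_num at h1

/-- The straight line homotopy, normalized. -/
theorem homotopic_of_line {k : ℕ} {Y : Type} [TopologicalSpace Y]
    (f₀ f₁ : C(Y, sphere (0 : EuclideanSpace ℝ (Fin k)) 1))
    (h : ∀ (t : ℝ) (y : Y), 0 ≤ t → t ≤ 1 →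
      (1 - t) • (f₀ y : EuclideanSpace ℝ (Fin k)) + t • (f₁ y : EuclideanSpace ℝ (Fin k)) ≠ 0) :
    ContinuousMap.Homotopic f₀ f₁ := by
  set L : unitInterval × Y → EuclideanSpace ℝ (Fin k) := fun p =>
    (1 - (p.1 : ℝ)) • (f₀ p.2 : EuclideanSpace ℝ (Fin k)) +
      (p.1 : ℝ) • (f₁ p.2 : EuclideanSpace ℝ (Fin k)) with hL
  have hLne : ∀ p, L p ≠ 0 := fun p => h p.1 p.2 p.1.2.1 p.1.2.2
  have hLc : Continuous L := by
    have h0 : Continuous fun p : unitInterval × Y => (f₀ p.2 : EuclideanSpace ℝ (Fin k)) :=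
      continuous_subtype_val.comp (f₀.continuous.comp continuous_snd)
    have h1 : Continuous fun p : unitInterval × Y => (f₁ p.2 : EuclideanSpace ℝ (Fin k)) :=
      continuous_subtype_val.comp (f₁.continuous.comp continuous_snd)
    have h2 : Continuous fun p : unitInterval × Y => (p.1 : ℝ) :=
      continuous_subtype_val.comp continuous_fst
    exact ((continuous_const.sub h2).smul h0).add (h2.smul h1)
  have hmem : ∀ p, ‖L p‖⁻¹ • L p ∈ sphere (0 : EuclideanSpace ℝ (Fin k)) 1 := by
    intro p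
    rw [mem_sphere_zero_iff_norm, norm_smul, norm_inv, norm_norm,
      inv_mul_cancel₀ (norm_ne_zero_iff.2 (hLne p))]
  refine ⟨⟨⟨fun p => ⟨‖L p‖⁻¹ • L p, hmem p⟩, ?_⟩, ?_, ?_⟩⟩
  · exact Continuous.subtype_mk ((hLc.norm.inv₀ fun p => norm_ne_zero_iff.2 (hLne p)).smul hLc) _
  · intro y
    apply Subtype.ext
    have h1 : L (0, y) = f₀ y := by
      simp [hL]
    have h2 : ‖(f₀ y : EuclideanSpace ℝ (Fin k))‖ = 1 := mem_sphere_zero_iff_norm.1 (f₀ y).2
    change ‖L (0, y)‖⁻¹ • L (0, y) = _
    rw [h1, h2, inv_one, one_smul]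
  · intro y
    apply Subtype.ext
    have h1 : L (1, y) = f₁ y := by
      simp [hL]
    have h2 : ‖(f₁ y : EuclideanSpace ℝ (Fin k))‖ = 1 := mem_sphere_zero_iff_norm.1 (f₁ y).2
    change ‖L (1, y)‖⁻¹ • L (1, y) = _
    rw [h1, h2, inv_one, one_smul]

/-! ### The sphere -/

/-- The unit sphere. -/
abbrev SS (d : ℕ) : Type := sphere (0 : E d) 1

theorem rot_mem_sphere (t : UnitAddCircle) (q : SS d) :
    rot (cc t) (ss t) (q : E d) ∈ sphere (0 : E d) 1 := by
  rw [mem_sphere_zero_iff_norm, norm_rot (cc_sq t)]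
  exact mem_sphere_zero_iff_norm.1 q.2

/-- The rotations of the sphere. -/
noncomputable def RS (t : UnitAddCircle) : C(SS d, SS d) where
  toFun := fun q => ⟨rot (cc t) (ss t) q, rot_mem_sphere t q⟩
  continuous_toFun := Continuous.subtype_mk
    (continuous_rot continuous_const continuous_const continuous_subtype_val) _

theorem RS_apply (t : UnitAddCircle) (q : SS d) : ((RS t q : SS d) : E d) = rot (cc t) (ss t) q := rfl

theorem continuous_RS : Continuous (RS : UnitAddCircle → C(SS d, SS d)) := by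
  have h : Continuous fun p : UnitAddCircle × SS d => (RS p.1 p.2 : SS d) := by
    refine Continuous.subtype_mk ?_ _
    exact continuous_rot (continuous_cc.comp continuous_fst) (continuous_ss.comp continuous_fst)
      (continuous_subtype_val.comp continuous_snd)
  exact ContinuousMap.continuous_of_continuous_uncurry _ h

theorem RS_zero : (RS 0 : C(SS d, SS d)) = ContinuousMap.id _ := by
  ext1 q
  apply Subtype.ext
  rw [RS_apply, cc_zero, ss_zero, rot_id]
  rfl

theorem RS_add (s t : UnitAddCircle) : (RS (s + t) : C(SS d, SS d)) = (RS s).comp (RS t) := by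
  ext1 q
  apply Subtype.ext
  change rot (cc (s + t)) (ss (s + t)) (q : E d) = rot (cc s) (ss s) (rot (cc t) (ss t) q)
  rw [rot_rot, cc_add, ss_add]

theorem RS_bijective (t : UnitAddCircle) :
    Function.Bijective ((RS t : C(SS d, SS d)) : SS d → SS d) := by
  have h1 : ∀ (s : UnitAddCircle) (q : SS d), RS s (RS (-s) q) = q := by
    intro s q
    have h := RS_add (d := d) s (-s)
    rw [add_neg_cancel, RS_zero] at h
    exact (DFunLike.congr_fun h q).symm
  refine ⟨fun p q hpq => ?_, fun q => ⟨RS (-t) q, h1 t q⟩⟩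
  have h2 := h1 (-t) p
  have h3 := h1 (-t) q
  rw [neg_neg] at h2 h3
  rw [← h2, ← h3, hpq]

theorem RS_homotopic (t : UnitAddCircle) : ContinuousMap.Homotopic (RS t : C(SS d, SS d))
    (ContinuousMap.id _) := by
  obtain ⟨x, rfl⟩ := QuotientAddGroup.mk_surjective t
  have h : Continuous fun p : unitInterval × SS d =>
      (RS (((((1 : ℝ) - p.1) * x : ℝ)) : UnitAddCircle) p.2 : SS d) := by
    refine Continuous.subtype_mk ?_ _
    have h1 : Continuous fun p : unitInterval × SS d =>
        (((((1 : ℝ) - p.1) * x : ℝ)) : UnitAddCircle) := by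
      refine (AddCircle.continuous_mk' 1).comp ?_
      exact (continuous_const.sub (continuous_subtype_val.comp continuous_fst)).mul continuous_const
    exact continuous_rot (continuous_cc.comp h1) (continuous_ss.comp h1)
      (continuous_subtype_val.comp continuous_snd)
  refine ⟨⟨⟨_, h⟩, ?_, ?_⟩⟩
  · intro q
    change RS (((((1 : ℝ) - ((0 : unitInterval) : ℝ)) * x : ℝ)) : UnitAddCircle) q = _
    simp
  · intro q
    change RS (((((1 : ℝ) - ((1 : unitInterval) : ℝ)) * x : ℝ)) : UnitAddCircle) q = _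
    simp [RS_zero]

/-- The first basis vector. -/
noncomputable def e0 : E d := EuclideanSpace.single 0 1

theorem e0_zero : (e0 : E d) 0 = 1 := by simp [e0]

theorem norm_e0 : ‖(e0 : E d)‖ = 1 := by simp [e0]

theorem sphere_big (g : SS d ≃ₜ SS d) :
    ∃ s, (1 : ℝ) ≤ dist ((g : C(SS d, SS d)).comp (RS s)) (g : C(SS d, SS d)) := by
  by_contra hcon
  push Not at hcon
  have hpt : ∀ (s : UnitAddCircle) (q : SS d), dist (g (RS s q)) (g q) < 1 := fun s q =>
    lt_of_le_of_lt (ContinuousMap.dist_apply_le_dist (f := (g : C(SS d, SS d)).comp (RS s))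
      (g := (g : C(SS d, SS d))) q) (hcon s)
  -- the page retraction
  have hrm : ∀ q : SS d, page (q : E d) ∈ sphere (0 : E d) 1 := fun q => by
    rw [mem_sphere_zero_iff_norm, norm_page]
    exact mem_sphere_zero_iff_norm.1 q.2
  have hrc : Continuous fun q : SS d => (⟨page (q : E d), hrm q⟩ : SS d) :=
    Continuous.subtype_mk (continuous_page.comp continuous_subtype_val) hrm
  set r : C(SS d, SS d) := ⟨fun q => ⟨page (q : E d), hrm q⟩, hrc⟩ with hr
  have hclose : ∀ q : SS d, dist (g (r q)) (g q) < 1 := by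
    intro q
    obtain ⟨c, s, hcs, hq⟩ := page_eq_rot (q : E d)
    obtain ⟨t, ht1, ht2⟩ := exists_cc_ss hcs
    have : r q = RS t q := by
      apply Subtype.ext
      change page (q : E d) = rot (cc t) (ss t) q
      rw [← hq, ht1, ht2]
    rw [this]
    exact hpt t q
  set e : SS d := ⟨e0, mem_sphere_zero_iff_norm.2 norm_e0⟩ with he
  have h1 : ContinuousMap.Homotopic r (ContinuousMap.const _ e) := by
    refine homotopic_of_line _ _ fun t q ht0 ht1 hz => ?_
    have hz0 := congrArg (fun v : E d => v 0) hz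
    change (1 - t) * (page (q : E d) 0) + t * ((e0 : E d) 0) = 0 at hz0
    rw [e0_zero, page_zero, mul_one] at hz0
    have hs := Real.sqrt_nonneg ((q : E d) 0 ^ 2 + (q : E d) 1 ^ 2)
    have ht : t = 0 := by nlinarith
    rw [ht, sub_zero, one_smul, zero_smul, add_zero] at hz
    have h2 : ‖(r q : E d)‖ = 1 := mem_sphere_zero_iff_norm.1 (r q).2
    rw [hz, norm_zero] at h2
    exact zero_ne_one h2
  have h2 : ContinuousMap.Homotopic ((g : C(SS d, SS d)).comp r) (g : C(SS d, SS d)) := by
    refine homotopic_of_line _ _ fun t q ht0 ht1 hz => ?_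
    have h3 := hclose q
    have h4 : ‖((g (r q) : SS d) : E d)‖ = 1 := mem_sphere_zero_iff_norm.1 (g (r q)).2
    have h5 : dist (g (r q)) (g q) = ‖((g (r q) : SS d) : E d) - ((g q : SS d) : E d)‖ := by
      rw [Subtype.dist_eq, dist_eq_norm]
    rw [h5] at h3
    change (1 - t) • ((g (r q) : SS d) : E d) + t • ((g q : SS d) : E d) = 0 at hz
    have h6 : ((g (r q) : SS d) : E d) = t • (((g (r q) : SS d) : E d) - ((g q : SS d) : E d)) := by
      have key : ((g (r q) : SS d) : E d) - t • (((g (r q) : SS d) : E d) - ((g q : SS d) : E d)) =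
          (1 - t) • ((g (r q) : SS d) : E d) + t • ((g q : SS d) : E d) := by module
      rw [hz] at key
      exact sub_eq_zero.1 key
    have h7 : ‖((g (r q) : SS d) : E d)‖ < 1 := by
      rw [h6, norm_smul, Real.norm_eq_abs, abs_of_nonneg ht0]
      nlinarith [norm_nonneg (((g (r q) : SS d) : E d) - ((g q : SS d) : E d))]
    linarith
  have h3 : (g : C(SS d, SS d)).Nullhomotopic := by
    refine ⟨g e, ?_⟩
    refine h2.symm.trans ?_
    have := ContinuousMap.Homotopic.comp (ContinuousMap.Homotopic.refl (g : C(SS d, SS d))) h1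
    exact this
  have h4 : (ContinuousMap.id (SS d)).Nullhomotopic := by
    obtain ⟨y, hy⟩ := h3
    refine ⟨g.symm y, ?_⟩
    have h5 := ContinuousMap.Homotopic.comp
      (ContinuousMap.Homotopic.refl (g.symm : C(SS d, SS d))) hy
    have h6 : (g.symm : C(SS d, SS d)).comp (g : C(SS d, SS d)) = ContinuousMap.id _ := by
      ext1 q
      exact g.symm_apply_apply q
    rw [h6] at h5
    exact h5
  exact sphere_not_nullhomotopic _ h4

/-! ### The ball -/

/-- The closed unit ball. -/
abbrev DD (d : ℕ) : Type := closedBall (0 : E d) 1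

theorem rot_mem_ball (t : UnitAddCircle) (q : DD d) :
    rot (cc t) (ss t) (q : E d) ∈ closedBall (0 : E d) 1 := by
  rw [mem_closedBall_zero_iff, norm_rot (cc_sq t)]
  exact mem_closedBall_zero_iff.1 q.2

/-- The rotations of the ball. -/
noncomputable def RD (t : UnitAddCircle) : C(DD d, DD d) where
  toFun := fun q => ⟨rot (cc t) (ss t) q, rot_mem_ball t q⟩
  continuous_toFun := Continuous.subtype_mk
    (continuous_rot continuous_const continuous_const continuous_subtype_val) _

theorem RD_apply (t : UnitAddCircle) (q : DD d) : ((RD t q : DD d) : E d) = rot (cc t) (ss t) q := rfl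

theorem continuous_RD : Continuous (RD : UnitAddCircle → C(DD d, DD d)) := by
  have h : Continuous fun p : UnitAddCircle × DD d => (RD p.1 p.2 : DD d) := by
    refine Continuous.subtype_mk ?_ _
    exact continuous_rot (continuous_cc.comp continuous_fst) (continuous_ss.comp continuous_fst)
      (continuous_subtype_val.comp continuous_snd)
  exact ContinuousMap.continuous_of_continuous_uncurry _ h

theorem RD_zero : (RD 0 : C(DD d, DD d)) = ContinuousMap.id _ := by
  ext1 q
  apply Subtype.ext
  rw [RD_apply, cc_zero, ss_zero, rot_id]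
  rfl

theorem RD_add (s t : UnitAddCircle) : (RD (s + t) : C(DD d, DD d)) = (RD s).comp (RD t) := by
  ext1 q
  apply Subtype.ext
  change rot (cc (s + t)) (ss (s + t)) (q : E d) = rot (cc s) (ss s) (rot (cc t) (ss t) q)
  rw [rot_rot, cc_add, ss_add]

theorem RD_bijective (t : UnitAddCircle) :
    Function.Bijective ((RD t : C(DD d, DD d)) : DD d → DD d) := by
  have h1 : ∀ (s : UnitAddCircle) (q : DD d), RD s (RD (-s) q) = q := by
    intro s q
    have h := RD_add (d := d) s (-s)
    rw [add_neg_cancel, RD_zero] at h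
    exact (DFunLike.congr_fun h q).symm
  refine ⟨fun p q hpq => ?_, fun q => ⟨RD (-t) q, h1 t q⟩⟩
  have h2 := h1 (-t) p
  have h3 := h1 (-t) q
  rw [neg_neg] at h2 h3
  rw [← h2, ← h3, hpq]

theorem ball_big (g : DD d ≃ₜ DD d) :
    ∃ s, (1 / 2 : ℝ) ≤ dist ((g : C(DD d, DD d)).comp (RD s)) (g : C(DD d, DD d)) := by
  by_contra hcon
  push Not at hcon
  have hpt : ∀ (s : UnitAddCircle) (q : DD d), dist (g (RD s q)) (g q) < 1 / 2 := fun s q =>
    lt_of_le_of_lt (ContinuousMap.dist_apply_le_dist (f := (g : C(DD d, DD d)).comp (RD s))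
      (g := (g : C(DD d, DD d))) q) (hcon s)
  have hrm : ∀ q : DD d, page (q : E d) ∈ closedBall (0 : E d) 1 := fun q => by
    rw [mem_closedBall_zero_iff, norm_page]
    exact mem_closedBall_zero_iff.1 q.2
  have hrc : Continuous fun q : DD d => (⟨page (q : E d), hrm q⟩ : DD d) :=
    Continuous.subtype_mk (continuous_page.comp continuous_subtype_val) hrm
  set r : C(DD d, DD d) := ⟨fun q => ⟨page (q : E d), hrm q⟩, hrc⟩ with hr
  have hclose : ∀ q : DD d, dist (g (r q)) (g q) < 1 / 2 := by
    intro q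
    obtain ⟨c, s, hcs, hq⟩ := page_eq_rot (q : E d)
    obtain ⟨t, ht1, ht2⟩ := exists_cc_ss hcs
    have : r q = RD t q := by
      apply Subtype.ext
      change page (q : E d) = rot (cc t) (ss t) q
      rw [← hq, ht1, ht2]
    rw [this]
    exact hpt t q
  -- the radial retraction
  have hπmem : ∀ y : E d, (max 1 ‖y‖)⁻¹ • y ∈ closedBall (0 : E d) 1 := by
    intro y
    have h0 : (0 : ℝ) < max 1 ‖y‖ := lt_max_of_lt_left one_pos
    rw [mem_closedBall_zero_iff, norm_smul, norm_inv, Real.norm_eq_abs, abs_of_pos h0,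
      inv_mul_eq_div, div_le_one h0]
    exact le_max_right _ _
  set π : E d → DD d := fun y => ⟨(max 1 ‖y‖)⁻¹ • y, hπmem y⟩ with hπ
  have hπc : Continuous π := by
    refine Continuous.subtype_mk ?_ _
    refine ((continuous_const.max continuous_norm).inv₀ fun y => ?_).smul continuous_id
    exact (lt_max_of_lt_left one_pos).ne'
  have hsurj : ∀ c : E d, ‖c‖ < 1 / 2 → ∃ q : DD d, ((g (r q) : DD d) : E d) = c := by
    intro c hc
    set φ : E d → E d := fun y => (π y : E d) - (g (r (g.symm (π y))) : DD d) + c with hφ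
    have hφc : Continuous φ := by
      have h1 : Continuous fun y => ((g (r (g.symm (π y))) : DD d) : E d) :=
        continuous_subtype_val.comp (g.continuous.comp (r.continuous.comp
          (g.symm.continuous.comp hπc)))
      exact ((continuous_subtype_val.comp hπc).sub h1).add continuous_const
    have hφn : ∀ y, ‖φ y‖ ≤ 1 := by
      intro y
      have h1 := hclose (g.symm (π y))
      rw [g.apply_symm_apply, Subtype.dist_eq, dist_eq_norm, norm_sub_rev] at h1
      refine (norm_add_le _ _).trans ?_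
      linarith
    obtain ⟨y, hy⟩ := Pool.Agent.Helper31.GZ.Brouwer.brouwer_euclidean _ φ hφc 1 hφn
    have hy1 : ‖y‖ ≤ 1 := by rw [← hy]; exact hφn y
    have hπy : (π y : E d) = y := by
      change (max 1 ‖y‖)⁻¹ • y = y
      rw [max_eq_left hy1, inv_one, one_smul]
    refine ⟨g.symm (π y), ?_⟩
    have h2 : (π y : E d) - (g (r (g.symm (π y))) : DD d) + c = y := hy
    rw [hπy] at h2
    have h3 : ((g (r (g.symm (π y))) : DD d) : E d) = c := by
      have h4 : y - ((g (r (g.symm (π y))) : DD d) : E d) + c = y := h2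
      have h5 : ((g (r (g.symm (π y))) : DD d) : E d) = y - ((g (r (g.symm (π y))) : DD d) : E d) +
          c - y + ((g (r (g.symm (π y))) : DD d) : E d) := by rw [h4]; abel
      rw [h5]
      abel
    exact h3
  -- the preimage of the small ball lies in the page
  have hpage : ∀ q : DD d, ‖((g q : DD d) : E d)‖ < 1 / 2 → (q : E d) 1 = 0 := by
    intro q hq
    obtain ⟨q', hq'⟩ := hsurj _ hq
    have h1 : g (r q') = g q := Subtype.ext hq'
    have h2 : r q' = q := g.injective h1
    rw [← h2]
    exact page_one _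
  set z : DD d := ⟨0, mem_closedBall_self zero_le_one⟩ with hz
  set q₀ : DD d := g.symm z with hq₀
  have hgq₀ : ((g q₀ : DD d) : E d) = 0 := by
    rw [hq₀, g.apply_symm_apply]
  set e1 : E d := EuclideanSpace.single 1 1 with he1
  have he1n : ‖e1‖ = 1 := by simp [he1]
  have he11 : e1 1 = 1 := by simp [he1]
  have hmem : ∀ t : unitInterval, (1 - (t : ℝ)) • (q₀ : E d) + (t : ℝ) • e1 ∈ closedBall (0 : E d) 1 := by
    intro t
    have h1 := mem_closedBall_zero_iff.1 q₀.2
    rw [mem_closedBall_zero_iff]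
    refine (norm_add_le _ _).trans ?_
    rw [norm_smul, norm_smul, he1n, Real.norm_eq_abs, Real.norm_eq_abs, abs_of_nonneg t.2.1,
      abs_of_nonneg (sub_nonneg.2 t.2.2)]
    nlinarith [t.2.1, t.2.2]
  set γ : unitInterval → DD d := fun t => ⟨_, hmem t⟩ with hγ
  have hγc : Continuous γ := by
    refine Continuous.subtype_mk ?_ _
    exact ((continuous_const.sub continuous_subtype_val).smul continuous_const).add
      (continuous_subtype_val.smul continuous_const)
  have hev : ∀ᶠ t in 𝓝 (0 : unitInterval), ‖((g (γ t) : DD d) : E d)‖ < 1 / 2 := by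
    have h1 : Continuous fun t => ‖((g (γ t) : DD d) : E d)‖ :=
      (continuous_subtype_val.comp (g.continuous.comp hγc)).norm
    refine h1.continuousAt.eventually (gt_mem_nhds ?_)
    have h2 : γ 0 = q₀ := by
      apply Subtype.ext
      change (1 - ((0 : unitInterval) : ℝ)) • (q₀ : E d) + ((0 : unitInterval) : ℝ) • e1 = _
      simp
    change ‖((g (γ 0) : DD d) : E d)‖ < 1 / 2
    rw [h2, hgq₀, norm_zero]
    norm_num
  rw [Metric.eventually_nhds_iff] at hev
  obtain ⟨ε, hε, hev⟩ := hev
  set t : unitInterval := ⟨min (ε / 2) 1, le_min (by positivity) zero_le_one, min_le_right _ _⟩ with ht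
  have ht0 : 0 < (t : ℝ) := lt_min (by positivity) one_pos
  have h1 := hpage (γ t) (hev (by
    rw [Subtype.dist_eq, Real.dist_eq]
    change |min (ε / 2) 1 - 0| < ε
    rw [sub_zero, abs_of_pos (lt_min (by positivity) one_pos)]
    exact lt_of_le_of_lt (min_le_left _ _) (by linarith)))
  have h2 := hpage q₀ (by rw [hgq₀, norm_zero]; norm_num)
  change (1 - (t : ℝ)) * (q₀ : E d) 1 + (t : ℝ) * e1 1 = 0 at h1
  rw [h2, he11] at h1
  linarith

end Pool.Agent.H534R3.Rot
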