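import Pool.Agent.H534R3.FM

/-! # The imitation blocks -/

set_option autoImplicit false

open MeasureTheory Filter Topology
open scoped Real

namespace Pool.Agent.H534R3.Rota

open Pool.Agent.H534R3.UDist

/-- The deviation. -/
noncomputable def DD (W : ℕ → ℝ) (y0 γ : ℝ) (h a K : ℕ) (ξ : ℝ) : ℂ :=
  ∑ m ∈ Finset.Ico a K, (ee (h * γ ^ m * ξ) - (W h : ℂ) * ee (h * γ ^ m * y0))

/-- The deviation as a continuous function. -/
noncomputable def DC (W : ℕ → ℝ) (y0 γ : ℝ) (h a K : ℕ) : C(ℝ, ℂ) :=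
  ∑ m ∈ Finset.Ico a K, (ch (h * γ ^ m) - ((W h : ℂ) * ee (h * γ ^ m * y0)) • (1 : C(ℝ, ℂ)))

theorem DC_apply (W : ℕ → ℝ) (y0 γ : ℝ) (h a K : ℕ) (ξ : ℝ) :
    DC W y0 γ h a K ξ = DD W y0 γ h a K ξ := by
  simp [DC, DD, ch_apply]

theorem DD_split (W : ℕ → ℝ) (y0 γ : ℝ) (h : ℕ) {a K K' : ℕ} (h1 : a ≤ K) (h2 : K ≤ K') (ξ : ℝ) :
    DD W y0 γ h a K' ξ = DD W y0 γ h a K ξ + DD W y0 γ h K K' ξ := by
  rw [DD, DD, DD, Finset.sum_Ico_consecutive _ h1 h2]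

theorem DD_tail (W : ℕ → ℝ) (y0 γ : ℝ) (h a K : ℕ) (ξ : ℝ) (hW0 : 0 ≤ W h) (hW1 : W h ≤ 1) :
    ‖DD W y0 γ h a K ξ‖ ≤ 2 * ((K - a : ℕ) : ℝ) := by
  rw [DD]
  have h1 : ∀ m ∈ Finset.Ico a K, ‖ee (h * γ ^ m * ξ) - (W h : ℂ) * ee (h * γ ^ m * y0)‖ ≤ 2 := by
    intro m _
    refine (norm_sub_le _ _).trans ?_
    rw [norm_mul, norm_ee, norm_ee, Complex.norm_real, Real.norm_eq_abs, abs_of_nonneg hW0]
    linarith
  refine (norm_sum_le_of_le _ h1).trans (le_of_eq ?_)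
  rw [Finset.sum_const, Nat.card_Ico, nsmul_eq_mul, mul_comm]

theorem DD_pert (W : ℕ → ℝ) (y0 : ℝ) {γ : ℝ} (hγ : 1 < |γ|) (q h : ℕ) (hh : h ≤ q) (a K : ℕ)
    (ξ ξ' : ℝ) (hξ : |ξ' - ξ| ≤ 2 / |γ| ^ K) :
    ‖DD W y0 γ h a K ξ' - DD W y0 γ h a K ξ‖ ≤ 4 * π * q / (|γ| - 1) := by
  have hg0 : 0 < |γ| := by linarith
  have hg1 : 0 < |γ| - 1 := by linarith
  have hK : 0 < |γ| ^ K := by positivity
  have hpi := Real.pi_pos
  rw [DD, DD, ← Finset.sum_sub_distrib]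
  have h1 : ∀ m ∈ Finset.Ico a K, ‖ee (h * γ ^ m * ξ') - (W h : ℂ) * ee (h * γ ^ m * y0) -
      (ee (h * γ ^ m * ξ) - (W h : ℂ) * ee (h * γ ^ m * y0))‖ ≤ (4 * π * q / |γ| ^ K) * |γ| ^ m := by
    intro m _
    have e1 : ee (h * γ ^ m * ξ') - (W h : ℂ) * ee (h * γ ^ m * y0) -
      (ee (h * γ ^ m * ξ) - (W h : ℂ) * ee (h * γ ^ m * y0)) =
      ee (h * γ ^ m * ξ') - ee (h * γ ^ m * ξ) := by ring
    rw [e1]
    refine (ee_lip _ _).trans ?_
    rw [← mul_sub, abs_mul, abs_mul, abs_pow, Nat.abs_cast]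
    have e2 : (h : ℝ) ≤ q := by exact_mod_cast hh
    have e3 : 0 ≤ |γ| ^ m := by positivity
    have e4 : (h : ℝ) * |ξ' - ξ| ≤ q * (2 / |γ| ^ K) :=
      mul_le_mul e2 hξ (abs_nonneg _) (by positivity)
    calc 2 * π * (h * |γ| ^ m * |ξ' - ξ|) = (2 * π * |γ| ^ m) * (h * |ξ' - ξ|) := by ring
      _ ≤ (2 * π * |γ| ^ m) * (q * (2 / |γ| ^ K)) :=
          mul_le_mul_of_nonneg_left e4 (by positivity)
      _ = _ := by ring
  refine (norm_sum_le_of_le _ h1).trans ?_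
  rw [← Finset.mul_sum]
  have h3 : ∑ m ∈ Finset.Ico a K, |γ| ^ m ≤ |γ| ^ K / (|γ| - 1) := by
    have e1 : ∑ m ∈ Finset.Ico a K, |γ| ^ m ≤ ∑ m ∈ Finset.range K, |γ| ^ m := by
      refine Finset.sum_le_sum_of_subset_of_nonneg ?_ fun m _ _ => by positivity
      intro m hm
      exact Finset.mem_range.2 (Finset.mem_Ico.1 hm).2
    refine e1.trans ?_
    rw [geom_sum_eq hγ.ne']
    exact div_le_div_of_nonneg_right (by linarith) hg1.le
  refine (mul_le_mul_of_nonneg_left h3 (by positivity)).trans (le_of_eq ?_)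
  field_simp

theorem sq_add_le (a z d : ℂ) (E D : ℝ) (hz : ‖z‖ ≤ E) (hd : ‖d‖ ≤ D) :
    ‖a + z + d‖ ^ 2 ≤ ‖a‖ ^ 2 + (2 * (starRingEnd ℂ) a * d).re + 2 * ‖a‖ * E + (E + D) ^ 2 := by
  have h1 : a + z + d = a + (z + d) := by ring
  rw [h1, Complex.sq_norm, Complex.normSq_add, ← Complex.sq_norm, ← Complex.sq_norm]
  have h2 : ‖z + d‖ ≤ E + D := (norm_add_le _ _).trans (add_le_add hz hd)
  have h3 : ‖z + d‖ ^ 2 ≤ (E + D) ^ 2 := pow_le_pow_left₀ (norm_nonneg _) h2 2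
  have h4 : (a * (starRingEnd ℂ) (z + d)).re =
      (a * (starRingEnd ℂ) z).re + ((starRingEnd ℂ) a * d).re := by
    simp [Complex.mul_re]
    ring
  have h5 : (a * (starRingEnd ℂ) z).re ≤ ‖a‖ * E := by
    refine (Complex.re_le_norm _).trans ?_
    rw [norm_mul, RCLike.norm_conj]
    exact mul_le_mul_of_nonneg_left hz (norm_nonneg _)
  have h6 : (2 * (starRingEnd ℂ) a * d).re = 2 * ((starRingEnd ℂ) a * d).re := by
    rw [mul_assoc]
    simp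
  rw [h4, h6]
  linarith

theorem EL_DC {θ : ℝ} {M : ℕ} (hM : 1 ≤ M) (hB : 16 ≤ θ ^ M) {h0 : ℕ}
    (q : ℕ) (ε : ℝ) (hε : 0 < ε) (K0 k0 : ℕ)
    (hfm : ∀ (p y0 u : ℝ), 0 ≤ p → p ≤ 1 → ∀ (n0 X h : ℕ), 1 ≤ h → h ≤ q →
      ∀ n, n0 + K0 ≤ n → n ≤ n0 + X → ∀ l : ℝ, |l| = h * θ ^ n →
      ‖EL θ M h0 n0 (X + k0) p y0 u (ch l) - ((p * WB θ M h0 h : ℝ) : ℂ) * ee (l * y0)‖ ≤ ε)
    (p y0 u : ℝ) (hp0 : 0 ≤ p) (hp1 : p ≤ 1) (γ : ℝ) (s h n0 X a K : ℕ) (hs : 1 ≤ s)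
    (hγ : |γ| = θ ^ s) (hh1 : 1 ≤ h) (hhq : h ≤ q) (ha : n0 = s * a) (hK : s * K ≤ n0 + X) :
    ‖EL θ M h0 n0 (X + k0) p y0 u (DC (fun h => p * WB θ M h0 h) y0 γ h a K)‖ ≤
      ε * ((K - a : ℕ) : ℝ) + 2 * K0 := by
  have hW := WB_bounds hM hB h0 h
  have hpW : 0 ≤ p * WB θ M h0 h ∧ p * WB θ M h0 h ≤ 1 :=
    ⟨mul_nonneg hp0 hW.1, by nlinarith [hW.1, hW.2]⟩
  rw [DC, map_sum]
  have h1 : ∀ m ∈ Finset.Ico a K, ‖EL θ M h0 n0 (X + k0) p y0 u (ch (h * γ ^ m) -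
      (((p * WB θ M h0 h : ℝ) : ℂ) * ee (h * γ ^ m * y0)) • (1 : C(ℝ, ℂ)))‖ ≤
      ε + (if m < a + K0 then 2 else 0) := by
    intro m hm
    have hm' := Finset.mem_Ico.1 hm
    rw [map_sub, map_smul, EL_one hM hB, smul_eq_mul, mul_one]
    split_ifs with hlt
    · refine (norm_sub_le _ _).trans ?_
      rw [norm_mul, norm_ee, Complex.norm_real, Real.norm_eq_abs, abs_of_nonneg hpW.1]
      have e1 := EL_norm hM hB h0 n0 (X + k0) p y0 u hp0 hp1 (ch (h * γ ^ m)) 1 (fun x => by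
        rw [ch_apply, norm_ee])
      linarith
    · rw [add_zero]
      refine hfm p y0 u hp0 hp1 n0 X h hh1 hhq (s * m) ?_ ?_ (h * γ ^ m) ?_
      · rw [ha]
        have e1 : s * (a + K0) ≤ s * m := Nat.mul_le_mul_left _ (by omega)
        have e2 : s * (a + K0) = s * a + s * K0 := by ring
        have e3 : 1 * K0 ≤ s * K0 := Nat.mul_le_mul_right _ hs
        omega
      · have e1 : s * m ≤ s * K := Nat.mul_le_mul_left _ hm'.2.le
        omega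
      · rw [abs_mul, Nat.abs_cast, abs_pow, hγ, ← pow_mul]
  refine (norm_sum_le_of_le _ h1).trans ?_
  rw [Finset.sum_add_distrib, Finset.sum_const, Nat.card_Ico, nsmul_eq_mul, mul_comm]
  have h2 : ∑ m ∈ Finset.Ico a K, (if m < a + K0 then (2 : ℝ) else 0) ≤ 2 * K0 := by
    rw [← Finset.sum_filter, Finset.sum_const, nsmul_eq_mul, mul_comm]
    refine mul_le_mul_of_nonneg_left ?_ (by norm_num)
    have e1 : (Finset.Ico a K).filter (fun m => m < a + K0) ⊆ Finset.Ico a (a + K0) := by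
      intro m hm
      rw [Finset.mem_filter, Finset.mem_Ico] at hm
      exact Finset.mem_Ico.2 ⟨hm.1.1, hm.2⟩
    have e2 := Finset.card_le_card e1
    rw [Nat.card_Ico, Nat.add_sub_cancel_left] at e2
    exact_mod_cast e2
  linarith

/-- The index set of the potential. -/
def PX (q : ℕ) : Finset (ℕ × ℕ) := Finset.range 2 ×ˢ Finset.Icc 1 q

theorem mem_PX {q : ℕ} {f : ℕ × ℕ} : f ∈ PX q ↔ f.1 < 2 ∧ 1 ≤ f.2 ∧ f.2 ≤ q := by
  simp [PX, Finset.mem_product]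

theorem card_PX (q : ℕ) : (PX q).card = 2 * q := by
  simp [PX]

theorem imit_step {θ : ℝ} (hθ : 1 < θ) {M : ℕ} (hM : 1 ≤ M) (hB : 16 ≤ θ ^ M) {h0 : ℕ}
    (hh0 : 1 ≤ h0) (q : ℕ) (ε : ℝ) (hε : 0 < ε) (K0 k0 : ℕ)
    (hfm : ∀ (p y0 u : ℝ), 0 ≤ p → p ≤ 1 → ∀ (n0 X h : ℕ), 1 ≤ h → h ≤ q →
      ∀ n, n0 + K0 ≤ n → n ≤ n0 + X → ∀ l : ℝ, |l| = h * θ ^ n →
      ‖EL θ M h0 n0 (X + k0) p y0 u (ch l) - ((p * WB θ M h0 h : ℝ) : ℂ) * ee (l * y0)‖ ≤ ε)
    (γ : ℕ → ℝ) (s c : ℕ → ℕ) (S : ℕ)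
    (hs : ∀ g < 2, 1 ≤ s g ∧ 1 ≤ c g ∧ s g * c g = S ∧ |γ g| = θ ^ s g)
    (E0 : ℝ) (hE0 : ∀ g < 2, 4 * π * q / (|γ g| - 1) ≤ E0)
    (L : ℕ) (p y0 : ℝ) (hp0 : 0 ≤ p) (hp1 : p ≤ 1) (νs ν0 : ℕ) (hν : νs ≤ ν0) (u : ℝ) :
    ∃ ξ ∈ Set.Icc u (u + 1 / θ ^ (S * ν0)),
      ∑ f ∈ PX q, ‖DD (fun h => p * WB θ M h0 h) y0 (γ f.1) f.2 (c f.1 * νs) (c f.1 * (ν0 + L)) ξ‖ ^ 2 ≤
      ∑ f ∈ PX q, ‖DD (fun h => p * WB θ M h0 h) y0 (γ f.1) f.2 (c f.1 * νs) (c f.1 * ν0) u‖ ^ 2 +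
      2 * (ε * (S * L) + 2 * K0 + E0) * (∑ f ∈ PX q,
        ‖DD (fun h => p * WB θ M h0 h) y0 (γ f.1) f.2 (c f.1 * νs) (c f.1 * ν0) u‖) +
      (1 + 2 * q * (E0 + 2 * (S * L)) ^ 2) := by
  have hθ0 : 0 < θ := by linarith
  have hpW : ∀ h, 0 ≤ p * WB θ M h0 h ∧ p * WB θ M h0 h ≤ 1 := by
    intro h
    have hW := WB_bounds hM hB h0 h
    exact ⟨mul_nonneg hp0 hW.1, by nlinarith [hW.1, hW.2]⟩
  have hcS : ∀ g < 2, c g ≤ S := by
    intro g hg
    obtain ⟨h1, h2, h3, h4⟩ := hs g hg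
    rw [← h3]
    exact Nat.le_mul_of_pos_left _ (by omega)
  set a : ℕ × ℕ → ℂ := fun f =>
    DD (fun h => p * WB θ M h0 h) y0 (γ f.1) f.2 (c f.1 * νs) (c f.1 * ν0) u with ha
  set F : C(ℝ, ℂ) := ∑ f ∈ PX q, (2 * (starRingEnd ℂ) (a f)) •
    DC (fun h => p * WB θ M h0 h) y0 (γ f.1) f.2 (c f.1 * ν0) (c f.1 * (ν0 + L)) with hF
  obtain ⟨ξ, hξ, hξF⟩ := EL_exists hθ hM hB hh0 (S * ν0) (S * L + k0) p y0 u hp0 hp1 F 1 one_pos
  refine ⟨ξ, hξ, ?_⟩
  have hEF : ‖EL θ M h0 (S * ν0) (S * L + k0) p y0 u F‖ ≤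
      ∑ f ∈ PX q, 2 * ‖a f‖ * (ε * (S * L) + 2 * K0) := by
    rw [hF, map_sum]
    refine norm_sum_le_of_le _ fun f hf => ?_
    obtain ⟨hf1, hf2, hf3⟩ := mem_PX.1 hf
    obtain ⟨h1, h2, h3, h4⟩ := hs f.1 hf1
    rw [map_smul, smul_eq_mul, norm_mul, norm_mul, RCLike.norm_conj]
    have e0 : ‖(2 : ℂ)‖ = 2 := by norm_num
    rw [e0]
    refine mul_le_mul_of_nonneg_left ?_ (by positivity)
    have e1 := EL_DC hM hB q ε hε K0 k0 hfm p y0 u hp0 hp1 (γ f.1) (s f.1) f.2 (S * ν0) (S * L)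
      (c f.1 * ν0) (c f.1 * (ν0 + L)) h1 h4 hf2 hf3 (by rw [← h3]; ring)
      (by rw [← h3]; exact le_of_eq (by ring))
    refine e1.trans (add_le_add (mul_le_mul_of_nonneg_left ?_ hε.le) le_rfl)
    have e2 : c f.1 * (ν0 + L) - c f.1 * ν0 = c f.1 * L := by
      rw [Nat.mul_add, Nat.add_sub_cancel_left]
    rw [e2]
    exact_mod_cast Nat.mul_le_mul_right L (hcS f.1 hf1)
  have hpt : ∀ f ∈ PX q,
      ‖DD (fun h => p * WB θ M h0 h) y0 (γ f.1) f.2 (c f.1 * νs) (c f.1 * (ν0 + L)) ξ‖ ^ 2 ≤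
      ‖a f‖ ^ 2 + (2 * (starRingEnd ℂ) (a f) *
        DD (fun h => p * WB θ M h0 h) y0 (γ f.1) f.2 (c f.1 * ν0) (c f.1 * (ν0 + L)) ξ).re +
        2 * ‖a f‖ * E0 + (E0 + 2 * (S * L)) ^ 2 := by
    intro f hf
    obtain ⟨hf1, hf2, hf3⟩ := mem_PX.1 hf
    obtain ⟨h1, h2, h3, h4⟩ := hs f.1 hf1
    have e1 := DD_split (fun h => p * WB θ M h0 h) y0 (γ f.1) f.2
      (Nat.mul_le_mul_left (c f.1) hν) (Nat.mul_le_mul_left (c f.1) (Nat.le_add_right ν0 L)) ξ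
    have e2 : DD (fun h => p * WB θ M h0 h) y0 (γ f.1) f.2 (c f.1 * νs) (c f.1 * (ν0 + L)) ξ =
        a f + (DD (fun h => p * WB θ M h0 h) y0 (γ f.1) f.2 (c f.1 * νs) (c f.1 * ν0) ξ - a f) +
        DD (fun h => p * WB θ M h0 h) y0 (γ f.1) f.2 (c f.1 * ν0) (c f.1 * (ν0 + L)) ξ := by
      rw [e1]
      ring
    rw [e2]
    have hγ1 : 1 < |γ f.1| := by
      rw [h4]
      exact one_lt_pow₀ hθ (by omega)
    refine sq_add_le _ _ _ E0 _ ?_ ?_
    · refine (DD_pert _ y0 hγ1 q f.2 hf3 _ _ u ξ ?_).trans (hE0 f.1 hf1)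
      rw [h4, ← pow_mul, ← mul_assoc, h3, abs_of_nonneg (by linarith [hξ.1])]
      have e3 : 1 / θ ^ (S * ν0) ≤ 2 / θ ^ (S * ν0) :=
        div_le_div_of_nonneg_right (by norm_num) (by positivity)
      linarith [hξ.2]
    · refine (DD_tail _ y0 (γ f.1) f.2 _ _ ξ (hpW _).1 (hpW _).2).trans ?_
      have e3 : c f.1 * (ν0 + L) - c f.1 * ν0 = c f.1 * L := by
        rw [Nat.mul_add, Nat.add_sub_cancel_left]
      rw [e3]
      have e4 : ((c f.1 * L : ℕ) : ℝ) ≤ S * L := by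
        exact_mod_cast Nat.mul_le_mul_right L (hcS f.1 hf1)
      linarith
  refine (Finset.sum_le_sum hpt).trans ?_
  have hFξ : (F ξ).re = ∑ f ∈ PX q, (2 * (starRingEnd ℂ) (a f) *
        DD (fun h => p * WB θ M h0 h) y0 (γ f.1) f.2 (c f.1 * ν0) (c f.1 * (ν0 + L)) ξ).re := by
    rw [hF, ContinuousMap.coe_sum, Finset.sum_apply, Complex.re_sum]
    refine Finset.sum_congr rfl fun f _ => ?_
    rw [ContinuousMap.smul_apply, DC_apply, smul_eq_mul]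
  rw [Finset.sum_add_distrib, Finset.sum_add_distrib, Finset.sum_add_distrib, ← hFξ,
    Finset.sum_const, card_PX, nsmul_eq_mul, ← Finset.sum_mul, ← Finset.mul_sum]
  rw [← Finset.sum_mul, ← Finset.mul_sum] at hEF
  push_cast
  linarith

theorem single_sq (P : Finset (ℕ × ℕ)) (F : ℕ × ℕ → ℂ) (f : ℕ × ℕ) (hf : f ∈ P) (X : ℝ) (hX : 0 ≤ X)
    (h : ∑ f ∈ P, ‖F f‖ ^ 2 ≤ X ^ 2) : ‖F f‖ ≤ X := by
  have h1 : ‖F f‖ ^ 2 ≤ X ^ 2 :=
    (Finset.single_le_sum (f := fun f => ‖F f‖ ^ 2) (fun f _ => sq_nonneg _) hf).trans h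
  exact (abs_le_of_sq_le_sq' h1 hX).2

theorem imit_rep {θ : ℝ} (hθ : 1 < θ) {M : ℕ} (hM : 1 ≤ M) (hB : 16 ≤ θ ^ M) {h0 : ℕ}
    (hh0 : 1 ≤ h0) (γ : ℕ → ℝ) (s c : ℕ → ℕ) (S : ℕ)
    (hs : ∀ g < 2, 1 ≤ s g ∧ 1 ≤ c g ∧ s g * c g = S ∧ |γ g| = θ ^ s g) (q : ℕ) (hq : 1 ≤ q) :
    ∃ L D : ℕ, 1 ≤ L ∧ ∀ (p y0 : ℝ), 0 ≤ p → p ≤ 1 → ∀ (T νs : ℕ) (u : ℝ), ∃ u' : ℝ,
      Set.Icc u' (u' + 2 / θ ^ (S * (νs + L * T))) ⊆ Set.Icc u (u + 2 / θ ^ (S * νs)) ∧
      ∀ ξ ∈ Set.Icc u' (u' + 2 / θ ^ (S * (νs + L * T))), ∀ g < 2, ∀ h : ℕ, 1 ≤ h → h ≤ q →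
        ∀ N, c g * νs ≤ N → N ≤ c g * (νs + L * T) →
        ‖DD (fun h => p * WB θ M h0 h) y0 (γ g) h (c g * νs) N ξ‖ ≤
          ((N - c g * νs : ℕ) : ℝ) / q + D := by
  have hθ0 : 0 < θ := by linarith
  have hq0 : (1 : ℝ) ≤ q := by exact_mod_cast hq
  have hS1 : 1 ≤ S := by
    obtain ⟨h1, h2, h3, _⟩ := hs 0 (by norm_num)
    rw [← h3]
    exact Nat.mul_pos h1 h2
  have hS0 : (1 : ℝ) ≤ S := by exact_mod_cast hS1
  have hcS : ∀ g < 2, c g ≤ S := by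
    intro g hg
    obtain ⟨h1, h2, h3, h4⟩ := hs g hg
    rw [← h3]
    exact Nat.le_mul_of_pos_left _ (by omega)
  have hγ1 : ∀ g < 2, 1 < |γ g| := by
    intro g hg
    obtain ⟨h1, h2, h3, h4⟩ := hs g hg
    rw [h4]
    exact one_lt_pow₀ hθ (by omega)
  set ε : ℝ := 1 / (16 * (q : ℝ) ^ 2 * S) with hε
  have hε0 : 0 < ε := by positivity
  obtain ⟨K0, k0, hfm⟩ := first_moment hθ hM hB hh0 q ε hε0
  have hpi := Real.pi_pos
  set E0 : ℝ := 4 * π * q / (|γ 0| - 1) + 4 * π * q / (|γ 1| - 1) with hE0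
  have g0 : 0 < 4 * π * q / (|γ 0| - 1) := by
    have := hγ1 0 (by norm_num)
    have : 0 < |γ 0| - 1 := by linarith
    positivity
  have g1 : 0 < 4 * π * q / (|γ 1| - 1) := by
    have := hγ1 1 (by norm_num)
    have : 0 < |γ 1| - 1 := by linarith
    positivity
  have hE00 : 0 < E0 := by positivity
  have hE0g : ∀ g < 2, 4 * π * q / (|γ g| - 1) ≤ E0 := by
    intro g hg
    interval_cases g
    · linarith
    · linarith
  obtain ⟨L', hL'⟩ := exists_nat_ge (8 * (q : ℝ) ^ 2 * (2 * K0 + E0))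
  set L : ℕ := L' + 1 with hL
  have hLr : 8 * (q : ℝ) ^ 2 * (2 * K0 + E0) ≤ L := by
    rw [hL]
    push_cast
    linarith
  have hL1 : (1 : ℝ) ≤ L := by exact_mod_cast (by omega : 1 ≤ L)
  set κ : ℝ := 2 * q * (ε * (S * L) + 2 * K0 + E0) with hκ
  have hκ0 : 0 ≤ κ := by positivity
  have hκL : κ ≤ L / (2 * q) := by
    have e1 : 2 * q * (ε * (S * L)) = L / (8 * q) := by
      rw [hε]
      field_simp
      ring
    have e2 : 2 * q * (2 * K0 + E0) ≤ L / (4 * q) := by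
      rw [le_div_iff₀ (by positivity)]
      nlinarith
    have e3 : (L : ℝ) / (2 * q) = L / (8 * q) + L / (8 * q) + L / (4 * q) := by
      field_simp
      ring
    have e4 : 0 ≤ (L : ℝ) / (8 * q) := by positivity
    have e5 : κ = 2 * q * (ε * (S * L)) + 2 * q * (2 * K0 + E0) := by
      rw [hκ]
      ring
    linarith
  set C : ℝ := 1 + 2 * q * (E0 + 2 * (S * L)) with hC
  have hC0 : 0 ≤ C := by positivity
  have hC2 : 1 + 2 * q * (E0 + 2 * (S * L)) ^ 2 ≤ C ^ 2 := by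
    have e1 : 0 ≤ E0 + 2 * (S * L) := by positivity
    have e2 : C ^ 2 = 1 + 4 * q * (E0 + 2 * (S * L)) + 4 * (q : ℝ) ^ 2 * (E0 + 2 * (S * L)) ^ 2 := by
      rw [hC]
      ring
    have e3 : 2 * (q : ℝ) ≤ 4 * (q : ℝ) ^ 2 := by nlinarith
    have e4 := mul_le_mul_of_nonneg_right e3 (sq_nonneg (E0 + 2 * ((S : ℝ) * L)))
    have e5 : 0 ≤ 4 * (q : ℝ) * (E0 + 2 * (S * L)) := by positivity
    linarith
  obtain ⟨D, hD⟩ := exists_nat_ge (C ^ 2 * q / 2 + E0 + 2 * (S * L))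
  refine ⟨L, D, by omega, fun p y0 hp0 hp1 T νs u => ?_⟩
  have hpW : ∀ h, 0 ≤ p * WB θ M h0 h ∧ p * WB θ M h0 h ≤ 1 := by
    intro h
    have hW := WB_bounds hM hB h0 h
    exact ⟨mul_nonneg hp0 hW.1, by nlinarith [hW.1, hW.2]⟩
  have hXb : ∀ T : ℕ, κ * T + C * √T ≤ (L * T : ℝ) / q + C ^ 2 * q / 2 := by
    intro T
    have e1 : κ * T ≤ L / (2 * q) * T := mul_le_mul_of_nonneg_right hκL (Nat.cast_nonneg _)
    have e2 : C * √T ≤ (T : ℝ) / (2 * q) + C ^ 2 * q / 2 := by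
      have f1 : √(T : ℝ) ^ 2 = T := Real.sq_sqrt (Nat.cast_nonneg _)
      have f2 : 0 ≤ (√(T : ℝ) - C * q) ^ 2 := sq_nonneg _
      have f3 : (T : ℝ) / (2 * q) + C ^ 2 * q / 2 = ((T : ℝ) + C ^ 2 * q ^ 2) / (2 * q) := by
        field_simp
      rw [f3, le_div_iff₀ (by positivity)]
      nlinarith
    have e3 : (T : ℝ) / (2 * q) ≤ L * T / (2 * q) := by
      refine div_le_div_of_nonneg_right ?_ (by positivity)
      have : (0 : ℝ) ≤ T := Nat.cast_nonneg _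
      nlinarith
    have e4 : (L * T : ℝ) / q = L / (2 * q) * T + L * T / (2 * q) := by
      field_simp
      ring
    linarith
  have key : ∀ T : ℕ, ∃ u' : ℝ,
      Set.Icc u' (u' + 2 / θ ^ (S * (νs + L * T))) ⊆ Set.Icc u (u + 2 / θ ^ (S * νs)) ∧
      (∑ f ∈ PX q, ‖DD (fun h => p * WB θ M h0 h) y0 (γ f.1) f.2 (c f.1 * νs)
        (c f.1 * (νs + L * T)) u'‖ ^ 2 ≤ (κ * T + C * √T) ^ 2) ∧
      ∀ ξ ∈ Set.Icc u' (u' + 2 / θ ^ (S * (νs + L * T))), ∀ g < 2, ∀ h : ℕ, 1 ≤ h → h ≤ q →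
        ∀ N, c g * νs ≤ N → N ≤ c g * (νs + L * T) →
        ‖DD (fun h => p * WB θ M h0 h) y0 (γ g) h (c g * νs) N ξ‖ ≤
          ((N - c g * νs : ℕ) : ℝ) / q + D := by
    intro T
    induction T with
    | zero =>
      refine ⟨u, by simp, by simp [DD], fun ξ _ g _ h _ _ N h1 h2 => ?_⟩
      have : N = c g * νs := le_antisymm (by simpa using h2) h1
      rw [this]
      simp [DD]
    | succ T ih =>
      obtain ⟨u₁, hu₁, hP₁, hξ₁⟩ := ih
      set ν0 := νs + L * T with hν0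
      have hν : νs ≤ ν0 := Nat.le_add_right _ _
      have hνT : νs + L * (T + 1) = ν0 + L := by
        rw [hν0]
        ring
      obtain ⟨u₂, hu₂, hP₂⟩ := imit_step hθ hM hB hh0 q ε hε0 K0 k0 hfm γ s c S hs E0 hE0g L p y0
        hp0 hp1 νs ν0 hν u₁
      set X := κ * T + C * √T with hX
      have hX0 : 0 ≤ X := by positivity
      rw [hνT]
      have hθM : θ ^ (S * (ν0 + L)) = θ ^ (S * ν0) * θ ^ (S * L) := by
        rw [← pow_add]
        congr 1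
        ring
      have hbig : 2 ≤ θ ^ (S * L) := by
        -- `θ ^ (S L)` is large since `θ - 1` controls `E0`
        have e1 : θ ≤ |γ 0| := by
          rw [(hs 0 (by norm_num)).2.2.2]
          exact le_self_pow₀ hθ.le (by have := (hs 0 (by norm_num)).1; omega)
        have e2 : |γ 0| ≤ θ ^ S := by
          rw [(hs 0 (by norm_num)).2.2.2]
          refine pow_le_pow_right₀ hθ.le ?_
          obtain ⟨h1, h2, h3, _⟩ := hs 0 (by norm_num)
          rw [← h3]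
          exact Nat.le_mul_of_pos_right _ (by omega)
        have hg1 := hγ1 0 (by norm_num)
        have e3 : 1 / (|γ 0| - 1) ≤ L := by
          have f0 : 0 < |γ 0| - 1 := by linarith
          have f1 : 4 * π * q / (|γ 0| - 1) ≤ E0 := hE0g 0 (by norm_num)
          have f2 : 1 / (|γ 0| - 1) ≤ 4 * π * q / (|γ 0| - 1) := by
            refine div_le_div_of_nonneg_right ?_ f0.le
            have := Real.pi_gt_three
            nlinarith
          have f3 : E0 ≤ 8 * (q : ℝ) ^ 2 * (2 * K0 + E0) := by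
            have f4 : (0 : ℝ) ≤ K0 := Nat.cast_nonneg _
            have f5 : 1 ≤ 8 * (q : ℝ) ^ 2 := by nlinarith
            have f6 : 1 * (2 * K0 + E0) ≤ 8 * (q : ℝ) ^ 2 * (2 * K0 + E0) :=
              mul_le_mul_of_nonneg_right f5 (by linarith)
            linarith
          linarith
        have e4 : 1 + (L : ℝ) * (|γ 0| - 1) ≤ |γ 0| ^ L := by
          have := one_add_mul_le_pow (a := |γ 0| - 1) (by linarith) L
          simpa using this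
        have e5 : |γ 0| ^ L ≤ θ ^ (S * L) := by
          rw [pow_mul]
          exact pow_le_pow_left₀ (by linarith) e2 L
        rw [div_le_iff₀ (by linarith)] at e3
        linarith
      refine ⟨u₂, ?_, ?_, ?_⟩
      · refine Set.Subset.trans ?_ hu₁
        intro ξ hξ
        have hp : 0 < θ ^ (S * ν0) := by positivity
        have e1 : 2 / θ ^ (S * (ν0 + L)) ≤ 1 / θ ^ (S * ν0) := by
          rw [hθM, div_le_div_iff₀ (by positivity) hp]
          nlinarith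
        have e2 : 2 / θ ^ (S * ν0) = 1 / θ ^ (S * ν0) + 1 / θ ^ (S * ν0) := by ring
        exact ⟨hu₂.1.trans hξ.1, by linarith [hξ.2, hu₂.2]⟩
      · refine hP₂.trans ?_
        set Y := ∑ f ∈ PX q, ‖DD (fun h => p * WB θ M h0 h) y0 (γ f.1) f.2 (c f.1 * νs)
          (c f.1 * ν0) u₁‖ with hY
        have hYX : Y ≤ 2 * q * X := by
          have f1 := sq_sum_le_card_mul_sum_sq (s := PX q) (f := fun f =>
            ‖DD (fun h => p * WB θ M h0 h) y0 (γ f.1) f.2 (c f.1 * νs) (c f.1 * ν0) u₁‖)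
          rw [card_PX] at f1
          have f2 : Y ^ 2 ≤ (2 * q * X) ^ 2 := by
            refine f1.trans ?_
            push_cast
            refine (mul_le_mul_of_nonneg_left hP₁ (by positivity)).trans ?_
            have f3 : (2 * (q : ℝ) * X) ^ 2 = (4 * (q : ℝ) ^ 2) * X ^ 2 := by ring
            rw [f3]
            refine mul_le_mul_of_nonneg_right ?_ (sq_nonneg _)
            nlinarith
          exact (abs_le_of_sq_le_sq' f2 (by positivity)).2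
        have e1 : 2 * (ε * (S * L) + 2 * K0 + E0) * Y ≤ 2 * κ * X := by
          have f1 : 2 * (ε * (S * L) + 2 * K0 + E0) * Y ≤
              2 * (ε * (S * L) + 2 * K0 + E0) * (2 * q * X) :=
            mul_le_mul_of_nonneg_left hYX (by positivity)
          have f2 : 2 * (ε * (S * L) + 2 * K0 + E0) * (2 * q * X) = 2 * κ * X := by
            rw [hκ]
            ring
          linarith
        have e2 : (κ * ((T + 1 : ℕ) : ℝ) + C * √((T + 1 : ℕ) : ℝ)) ^ 2 ≥ X ^ 2 + 2 * κ * X + C ^ 2 := by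
          have f1 : √(T : ℝ) ^ 2 = T := Real.sq_sqrt (Nat.cast_nonneg _)
          have f2 : √((T + 1 : ℕ) : ℝ) ^ 2 = T + 1 := by
            rw [Real.sq_sqrt (Nat.cast_nonneg _)]
            push_cast
            ring
          have f3 : √(T : ℝ) ≤ √((T + 1 : ℕ) : ℝ) := Real.sqrt_le_sqrt (by push_cast; linarith)
          have f4 : 0 ≤ √(T : ℝ) := Real.sqrt_nonneg _
          set x := √(T : ℝ)
          set x' := √((T + 1 : ℕ) : ℝ)
          have f5 : (κ * ((T + 1 : ℕ) : ℝ) + C * x') ^ 2 =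
              (κ * (T + 1)) ^ 2 + 2 * (κ * (T + 1)) * C * x' + C ^ 2 * (T + 1) := by
            push_cast
            have : (κ * ((T : ℝ) + 1) + C * x') ^ 2 = (κ * (T + 1)) ^ 2 +
                2 * (κ * (T + 1)) * C * x' + C ^ 2 * x' ^ 2 := by ring
            rw [this, f2]
          have f6 : X ^ 2 + 2 * κ * X + C ^ 2 =
              (κ * (T + 1)) ^ 2 + 2 * (κ * (T + 1)) * C * x + C ^ 2 * (T + 1) - κ ^ 2 := by
            have : X ^ 2 + 2 * κ * X + C ^ 2 = (κ * (T + 1)) ^ 2 + 2 * (κ * (T + 1)) * C * x +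
              C ^ 2 * x ^ 2 + C ^ 2 - κ ^ 2 := by
              rw [hX]
              ring
            rw [this, f1]
            ring
          rw [f5, f6]
          have f7 : 2 * (κ * ((T : ℝ) + 1)) * C * x ≤ 2 * (κ * (T + 1)) * C * x' :=
            mul_le_mul_of_nonneg_left f3 (by positivity)
          have f8 : 0 ≤ κ ^ 2 := sq_nonneg _
          linarith
        linarith
      · intro ξ hξ g hg h hh1 hhq N hN1 hN2
        have hsub : ξ ∈ Set.Icc u₁ (u₁ + 2 / θ ^ (S * ν0)) := by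
          have hp : 0 < θ ^ (S * ν0) := by positivity
          have e1 : 2 / θ ^ (S * (ν0 + L)) ≤ 1 / θ ^ (S * ν0) := by
            rw [hθM, div_le_div_iff₀ (by positivity) hp]
            nlinarith
          have e2 : 2 / θ ^ (S * ν0) = 1 / θ ^ (S * ν0) + 1 / θ ^ (S * ν0) := by ring
          exact ⟨hu₂.1.trans hξ.1, by linarith [hξ.2, hu₂.2]⟩
        rcases le_total N (c g * ν0) with hN | hN
        · exact hξ₁ ξ hsub g hg h hh1 hhq N hN1 hN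
        · obtain ⟨hs1, hs2, hs3, hs4⟩ := hs g hg
          rw [DD_split _ _ _ _ (Nat.mul_le_mul_left (c g) hν) hN]
          have e1 := DD_tail (fun h => p * WB θ M h0 h) y0 (γ g) h (c g * ν0) N ξ (hpW _).1 (hpW _).2
          have e2 : ((N - c g * ν0 : ℕ) : ℝ) ≤ S * L := by
            have f1 : N - c g * ν0 ≤ c g * L := by
              have : c g * (ν0 + L) = c g * ν0 + c g * L := by ring
              omega
            exact_mod_cast f1.trans (Nat.mul_le_mul_right L (hcS g hg))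
          have e3 := DD_pert (fun h => p * WB θ M h0 h) y0 (hγ1 g hg) q h hhq (c g * νs) (c g * ν0)
            u₁ ξ (by
              rw [hs4, ← pow_mul, ← mul_assoc, hs3, abs_of_nonneg (by linarith [hsub.1])]
              linarith [hsub.2])
          have e4 : ‖DD (fun h => p * WB θ M h0 h) y0 (γ g) h (c g * νs) (c g * ν0) u₁‖ ≤ X := by
            have f0 : (g, h) ∈ PX q := mem_PX.2 ⟨hg, hh1, hhq⟩
            have f1 := single_sq (PX q) (fun f : ℕ × ℕ =>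
              DD (fun h => p * WB θ M h0 h) y0 (γ f.1) f.2 (c f.1 * νs) (c f.1 * ν0) u₁) (g, h) f0
              X hX0 hP₁
            exact f1
          have e5 : ‖DD (fun h => p * WB θ M h0 h) y0 (γ g) h (c g * νs) (c g * ν0) ξ‖ ≤ X + E0 := by
            have f1 := norm_sub_norm_le
              (DD (fun h => p * WB θ M h0 h) y0 (γ g) h (c g * νs) (c g * ν0) ξ)
              (DD (fun h => p * WB θ M h0 h) y0 (γ g) h (c g * νs) (c g * ν0) u₁)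
            have f2 := hE0g g hg
            linarith
          have e6 : (L * T : ℝ) / q ≤ ((N - c g * νs : ℕ) : ℝ) / q := by
            refine div_le_div_of_nonneg_right ?_ (by linarith)
            have f1 : L * T ≤ N - c g * νs := by
              have : c g * ν0 = c g * νs + c g * (L * T) := by
                rw [hν0]
                ring
              have : L * T ≤ c g * (L * T) := Nat.le_mul_of_pos_left _ (by omega)
              omega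
            exact_mod_cast f1
          have e7 := hXb T
          refine (norm_add_le _ _).trans ?_
          linarith
  obtain ⟨u', h1, _, h3⟩ := key T
  exact ⟨u', h1, h3⟩

end Pool.Agent.H534R3.Rota
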