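import Mathlib

/-! # Selection of blocks -/

set_option autoImplicit false

open Filter Topology MeasureTheory
open scoped ENNReal

namespace Pool.Agent.H534R3.Sel

variable {X : Type} [MeasurableSpace X]

/-- The two mass conditions. -/
def Good (r : X → ℕ → ℕ → ℝ) (a s a' : ℕ) (δ : ℝ) (x : X) : Prop :=
  1 - δ ≤ ∑ m ∈ Finset.Ico a a', r x m s ∧ 1 - δ ≤ ∑ m ∈ Finset.Ico a a', r x s m

theorem small_meas (μ : Measure X) [IsProbabilityMeasure μ] (f : ℕ → X → ℝ) (c : ℝ)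
    (hf : ∀ n, Measurable (f n)) (hlim : ∀ x, Tendsto (fun n => f n x) atTop (𝓝 c))
    (δ : ℝ) (hδ : 0 < δ) (ε : ℝ≥0∞) (hε : 0 < ε) :
    ∀ᶠ n in atTop, μ {x | δ ≤ |f n x - c|} ≤ ε := by
  have h1 := tendstoInMeasure_of_tendsto_ae (μ := μ) (f := f) (g := fun _ => c)
    (fun n => (hf n).aestronglyMeasurable) (ae_of_all _ hlim) (ENNReal.ofReal δ)
    (ENNReal.ofReal_pos.2 hδ)
  filter_upwards [h1.eventually (ge_mem_nhds hε)] with n hn
  refine (measure_mono fun x hx => ?_).trans hn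
  change δ ≤ |f n x - c| at hx
  change ENNReal.ofReal δ ≤ edist (f n x) c
  rw [edist_dist, Real.dist_eq]
  exact ENNReal.ofReal_le_ofReal hx

theorem step (μ : Measure X) [IsProbabilityMeasure μ] (r : X → ℕ → ℕ → ℝ)
    (hr : ∀ m n, Measurable fun x => r x m n) (h0 : ∀ x m n, 0 ≤ r x m n)
    (h1 : ∀ x n, HasSum (fun m => r x m n) 1) (h2 : ∀ x n, HasSum (fun m => r x n m) 1)
    (δ : ℝ) (hδ : 0 < δ) (ε : ℝ≥0∞) (hε : 0 < ε) (a : ℕ) :
    ∃ s a', a ≤ s ∧ s < a' ∧ a + 2 ≤ a' ∧ μ {x | ¬ Good r a s a' δ x} ≤ ε := by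
  have hε3 : 0 < ε / 3 := ENNReal.div_pos hε.ne' (by norm_num)
  have hz1 : ∀ x, Tendsto (fun s => ∑ m ∈ Finset.range a, (r x m s + r x s m)) atTop (𝓝 0) := by
    intro x
    have : Tendsto (fun s => ∑ m ∈ Finset.range a, (r x m s + r x s m)) atTop
        (𝓝 (∑ m ∈ Finset.range a, ((0 : ℝ) + 0))) := by
      refine tendsto_finsetSum _ fun m _ => ?_
      have e1 := (h2 x m).summable.tendsto_atTop_zero
      have e2 := (h1 x m).summable.tendsto_atTop_zero
      exact e1.add e2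
    simpa using this
  obtain ⟨s, hs', hs⟩ := ((small_meas μ (fun s x => ∑ m ∈ Finset.range a, (r x m s + r x s m)) 0
    (fun s => Finset.measurable_fun_sum _ fun m _ => (hr m s).add (hr s m)) hz1 (δ / 2)
    (by positivity) (ε / 3) hε3).and (eventually_ge_atTop a)).exists
  have hz2 := small_meas μ (fun n x => ∑ m ∈ Finset.range n, r x m s) 1
    (fun n => Finset.measurable_fun_sum _ fun m _ => hr m s) (fun x => (h1 x s).tendsto_sum_nat)
    (δ / 2) (by positivity) (ε / 3) hε3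
  have hz3 := small_meas μ (fun n x => ∑ m ∈ Finset.range n, r x s m) 1
    (fun n => Finset.measurable_fun_sum _ fun m _ => hr s m) (fun x => (h2 x s).tendsto_sum_nat)
    (δ / 2) (by positivity) (ε / 3) hε3
  obtain ⟨a', ha1, ha2, ha3, ha4⟩ := (hz2.and (hz3.and ((eventually_gt_atTop s).and
    (eventually_ge_atTop (a + 2))))).exists
  refine ⟨s, a', hs, ha3, ha4, ?_⟩
  have hsub : {x | ¬ Good r a s a' δ x} ⊆
      ({x | δ / 2 ≤ |∑ m ∈ Finset.range a, (r x m s + r x s m) - 0|} ∪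
        {x | δ / 2 ≤ |∑ m ∈ Finset.range a', r x m s - 1|}) ∪
        {x | δ / 2 ≤ |∑ m ∈ Finset.range a', r x s m - 1|} := by
    intro x hx
    by_contra hcon
    simp only [Set.mem_union, Set.mem_ofPred_eq, not_or, not_le] at hcon
    obtain ⟨⟨e1, e2⟩, e3⟩ := hcon
    rw [sub_zero, abs_lt] at e1
    rw [abs_lt] at e2 e3
    apply hx
    have f1 : ∑ m ∈ Finset.range a', r x m s =
        ∑ m ∈ Finset.range a, r x m s + ∑ m ∈ Finset.Ico a a', r x m s :=
      (Finset.sum_range_add_sum_Ico _ (by omega)).symm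
    have f2 : ∑ m ∈ Finset.range a', r x s m =
        ∑ m ∈ Finset.range a, r x s m + ∑ m ∈ Finset.Ico a a', r x s m :=
      (Finset.sum_range_add_sum_Ico _ (by omega)).symm
    have f3 : ∑ m ∈ Finset.range a, (r x m s + r x s m) =
        ∑ m ∈ Finset.range a, r x m s + ∑ m ∈ Finset.range a, r x s m :=
      Finset.sum_add_distrib
    have g1 : 0 ≤ ∑ m ∈ Finset.range a, r x m s := Finset.sum_nonneg fun m _ => h0 x m s
    have g2 : 0 ≤ ∑ m ∈ Finset.range a, r x s m := Finset.sum_nonneg fun m _ => h0 x s m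
    constructor
    · linarith [e1.2, e2.1]
    · linarith [e1.2, e3.1]
  refine (measure_mono hsub).trans ?_
  refine (measure_union_le _ _).trans ?_
  refine (add_le_add (measure_union_le _ _) le_rfl).trans ?_
  refine (add_le_add (add_le_add hs' ha1) ha2).trans (le_of_eq ?_)
  rw [ENNReal.div_add_div_same, ENNReal.div_add_div_same]
  have : ε + ε + ε = 3 * ε := by ring
  rw [this, mul_comm]
  exact ENNReal.mul_div_cancel_right (by norm_num) (by norm_num)

/-- The selection of the blocks. -/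
theorem select (μ : Measure X) [IsProbabilityMeasure μ] (r : X → ℕ → ℕ → ℝ)
    (hr : ∀ m n, Measurable fun x => r x m n) (h0 : ∀ x m n, 0 ≤ r x m n)
    (h1 : ∀ x n, HasSum (fun m => r x m n) 1) (h2 : ∀ x n, HasSum (fun m => r x n m) 1)
    (δ : ℕ → ℝ) (hδ : ∀ i, 0 < δ i) :
    ∃ a s : ℕ → ℕ, a 0 = 1 ∧ (∀ i, a i ≤ s i ∧ s i < a (i + 1) ∧ a i + 2 ≤ a (i + 1)) ∧
      μ {x | ∀ i, Good r (a i) (s i) (a (i + 1)) (δ i) x} ≠ 0 := by
  obtain ⟨ε, hε, hεs⟩ := ENNReal.exists_pos_sum_of_countable (ε := 1) one_ne_zero ℕ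
  have hst := fun (i a : ℕ) => step μ r hr h0 h1 h2 (δ i) (hδ i) (ε i)
    (ENNReal.coe_pos.2 (hε i)) a
  choose S A hS1 hS2 hS3 hS4 using hst
  set a : ℕ → ℕ := fun n => Nat.rec 1 (fun i ai => A i ai) n with ha
  have ha1 : ∀ i, a (i + 1) = A i (a i) := fun i => rfl
  refine ⟨a, fun i => S i (a i), rfl, fun i => ⟨hS1 _ _, hS2 _ _, hS3 _ _⟩, fun hμ => ?_⟩
  have hcov : (Set.univ : Set X) ⊆ {x | ∀ i, Good r (a i) (S i (a i)) (a (i + 1)) (δ i) x} ∪
      ⋃ i, {x | ¬ Good r (a i) (S i (a i)) (a (i + 1)) (δ i) x} := by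
    intro x _
    by_cases hx : ∀ i, Good r (a i) (S i (a i)) (a (i + 1)) (δ i) x
    · exact Or.inl hx
    · push Not at hx
      obtain ⟨i, hi⟩ := hx
      exact Or.inr (Set.mem_iUnion.2 ⟨i, hi⟩)
  have hle : (1 : ℝ≥0∞) ≤ ∑' i, (ε i : ℝ≥0∞) := by
    calc (1 : ℝ≥0∞) = μ Set.univ := measure_univ.symm
      _ ≤ _ := measure_mono hcov
      _ ≤ _ := measure_union_le _ _
      _ ≤ 0 + ∑' i, (ε i : ℝ≥0∞) := by
          refine add_le_add (le_of_eq hμ) ((measure_iUnion_le _).trans ?_)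
          exact ENNReal.tsum_le_tsum fun i => hS4 i (a i)
      _ = _ := zero_add _
  exact absurd hεs (not_lt.2 hle)

end Pool.Agent.H534R3.Sel
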