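import Pool.Agent.H534R3.Two

/-! # The reduction for two bases -/

set_option autoImplicit false

open MeasureTheory Filter Topology
open scoped Real

namespace Pool.Agent.H534R3.Rota

open Pool.Agent.H534R3.UDist

theorem reduce_two (bs k : Bool → ℕ) (hbs : ∀ t, 2 ≤ bs t) (hk1 : ∀ t, 1 ≤ k t)
    (hk : ∀ t, 8 * ((k t : ℝ) + 1) ≤ (bs t : ℝ) ^ k t)
    (hirr : ∀ t, Irrational (Real.logb (((bs t) ^ (k t) : ℕ) : ℝ) (bs !t))) :
    ∃ g : (ℕ → ℕ) → ℝ, Continuous g ∧ ∀ w t,
      (UD (fun n => g w * (bs t : ℝ) ^ n) ↔ ∀ e, ∃ J, ∀ j, J ≤ j → ty j = t → e ≤ w j) := by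
  obtain ⟨D, st, rt, hloc, hgrow, hth, hnest, hrt, hprop⟩ := exists_stages2 bs k hbs hk1 hk hirr
  have hbs1 : ∀ t, (1 : ℝ) < bs t := fun t => by exact_mod_cast (by have := hbs t; omega : 1 < bs t)
  have h2 : (1 : ℝ) < 2 := by norm_num
  -- nested endpoints
  have hends : ∀ y j, (st y j).2 ≤ (st y (j + 1)).2 ∧
      (st y (j + 1)).2 + 2 / (2 : ℝ) ^ (st y (j + 1)).1 ≤ (st y j).2 + 2 / (2 : ℝ) ^ (st y j).1 := by
    intro y j
    have h1 := hnest y j
    have h2 : (st y (j + 1)).2 ≤ (st y (j + 1)).2 + 2 / (2 : ℝ) ^ (st y (j + 1)).1 := by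
      have : 0 < 2 / (2 : ℝ) ^ (st y (j + 1)).1 := by positivity
      linarith
    exact (Set.Icc_subset_Icc_iff h2).1 h1
  have hmono : ∀ y, Monotone fun j => (st y j).2 := fun y =>
    monotone_nat_of_le_succ fun j => (hends y j).1
  have hanti : ∀ y, Antitone fun j => (st y j).2 + 2 / (2 : ℝ) ^ (st y j).1 := fun y =>
    antitone_nat_of_succ_le fun j => (hends y j).2
  have hcross : ∀ y i j, (st y i).2 ≤ (st y j).2 + 2 / (2 : ℝ) ^ (st y j).1 := by
    intro y i j
    have h1 : (st y i).2 ≤ (st y (max i j)).2 := hmono y (le_max_left i j)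
    have h2 : (st y (max i j)).2 + 2 / (2 : ℝ) ^ (st y (max i j)).1 ≤
        (st y j).2 + 2 / (2 : ℝ) ^ (st y j).1 := hanti y (le_max_right i j)
    have : 0 < 2 / (2 : ℝ) ^ (st y (max i j)).1 := by positivity
    linarith
  set g : (ℕ → ℕ) → ℝ := fun y => ⨆ j, (st y j).2 with hg
  have hbdd : ∀ y, BddAbove (Set.range fun j => (st y j).2) := by
    intro y
    refine ⟨(st y 0).2 + 2 / (2 : ℝ) ^ (st y 0).1, ?_⟩
    rintro _ ⟨j, rfl⟩
    exact hcross y j 0
  have hmem : ∀ y j, g y ∈ Set.Icc (st y j).2 ((st y j).2 + 2 / (2 : ℝ) ^ (st y j).1) := by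
    intro y j
    exact ⟨le_ciSup (hbdd y) j, ciSup_le fun i => hcross y i j⟩
  have hlen : ∀ y j, j ≤ (st y j).1 := by
    intro y j
    induction j with
    | zero => exact Nat.zero_le _
    | succ j ih =>
      have := (hgrow y j).1
      omega
  refine ⟨g, ?_, fun w t => ⟨?_, ?_⟩⟩
  · -- continuity
    rw [continuous_iff_continuousAt]
    intro y
    rw [Metric.continuousAt_iff']
    intro ε hε
    obtain ⟨j, hj⟩ : ∃ j : ℕ, 2 / (2 : ℝ) ^ j < ε := by
      obtain ⟨j, hj⟩ := pow_unbounded_of_one_lt (2 / ε) h2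
      refine ⟨j, ?_⟩
      rw [div_lt_iff₀ (by positivity)]
      rw [div_lt_iff₀ hε] at hj
      linarith
    have hev : ∀ᶠ y' in 𝓝 y, ∀ i ∈ Finset.range j, y' i = y i := by
      rw [Filter.eventually_all_finset]
      intro i _
      have h1 : ContinuousAt (fun y' : ℕ → ℕ => y' i) y := (continuous_apply i).continuousAt
      exact h1.eventually (eventually_of_mem ((isOpen_discrete {y i}).mem_nhds rfl)
        (fun z hz => hz))
    filter_upwards [hev] with y' hy'
    have h1 : st y' j = st y j := hloc y' y j fun i hi => hy' i (Finset.mem_range.2 hi)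
    have h2 := hmem y j
    have h3 := hmem y' j
    rw [h1] at h3
    have h4 : 2 / (2 : ℝ) ^ (st y j).1 ≤ 2 / (2 : ℝ) ^ j := by
      refine div_le_div_of_nonneg_left (by norm_num) (by positivity) ?_
      exact pow_le_pow_right₀ (by norm_num) (hlen y j)
    rw [Real.dist_eq, abs_lt]
    constructor <;> linarith [h2.1, h2.2, h3.1, h3.2]
  · -- failure of uniform distribution
    intro hud
    by_contra hy
    push Not at hy
    obtain ⟨e, he⟩ := hy
    have hk0 : (0 : ℝ) ≤ k t := Nat.cast_nonneg _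
    have he0 : (0 : ℝ) ≤ e := Nat.cast_nonneg e
    set δ' : ℝ := 1 / ((k t : ℝ) + 1) with hδ'
    have hδ'0 : 0 < δ' := by positivity
    have hδ'1 : δ' ≤ 1 := by
      rw [hδ', div_le_one (by positivity)]
      linarith
    set ε : ℝ := 1 / (16 * ((k t : ℝ) + 1) ^ 2 * ((e : ℝ) + 1)) with hε
    have hε0 : 0 < ε := by positivity
    have h2 := hud 0 δ' le_rfl hδ'0.le hδ'1
    rw [Metric.tendsto_atTop] at h2
    obtain ⟨N₀, hN₀⟩ := h2 ε hε0
    obtain ⟨j, hj, hjt, hje⟩ := he (N₀ + 2 * (e + 1) + 2)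
    obtain ⟨j', rfl⟩ : ∃ j', j = j' + 1 := ⟨j - 1, by omega⟩
    have hth' := hth w j' t
    have hrt' := hrt w (j' + 1)
    have hpr := (hprop w (j' + 1) (g w) (hmem w _)).1
    rw [hjt] at hrt' hpr
    set n := tau (bs t : ℝ) 2 (st w (j' + 1)).1 with hn
    set R := rt w (j' + 1) with hR
    have hnj : j' + 1 ≤ n := by nlinarith
    have hnN : N₀ ≤ n := by omega
    have hc := cnt_add (fun n => g w * (bs t : ℝ) ^ n) δ' n (k t) R (hk1 t) (by
      intro r hr
      refine lt_of_le_of_lt (hpr r hr) ?_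
      rw [hδ', div_lt_div_iff₀ (by positivity) (by positivity)]
      linarith)
    have hA : ∀ N, N₀ ≤ N → 0 < N →
        |(cnt (fun n => g w * (bs t : ℝ) ^ n) 0 δ' N : ℝ) - δ' * N| ≤ ε * N := by
      intro N hN hN0
      have h3 := hN₀ N hN
      have hN0' : (0 : ℝ) < N := by exact_mod_cast hN0
      rw [Real.dist_eq, sub_zero] at h3
      have h4 : |(cnt (fun n => g w * (bs t : ℝ) ^ n) 0 δ' N : ℝ) / N - δ'| < ε := h3
      have h5 : (cnt (fun n => g w * (bs t : ℝ) ^ n) 0 δ' N : ℝ) - δ' * N =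
          ((cnt (fun n => g w * (bs t : ℝ) ^ n) 0 δ' N : ℝ) / N - δ') * N := by
        field_simp
      rw [h5, abs_mul, abs_of_pos hN0']
      exact mul_le_mul_of_nonneg_right h4.le hN0'.le
    have hA1 := abs_le.1 (hA n hnN (by omega))
    have hA2 := abs_le.1 (hA (n + k t * R) (by omega) (by omega))
    have hc' : (cnt (fun n => g w * (bs t : ℝ) ^ n) 0 δ' n : ℝ) + R ≤
        cnt (fun n => g w * (bs t : ℝ) ^ n) 0 δ' (n + k t * R) := by exact_mod_cast hc
    push_cast at hA2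
    have hkey : (R : ℝ) ≤ δ' * (k t * R) + ε * (2 * n + k t * R) := by
      linarith [hA1.1, hA1.2, hA2.1, hA2.2]
    have hRlow : (n : ℝ) ≤ 2 * ((e : ℝ) + 1) * R := by
      have e1 : n ≤ (e + 1) * (R + D (j' + 2)) :=
        hrt'.1.trans (Nat.mul_le_mul_right _ (by omega))
      have e2 : 2 * (e + 1) * D (j' + 2) ≤ n := by
        have : 2 * (e + 1) * D (j' + 2) ≤ (j' + 1) * (D (j' + 2) + 1) :=
          Nat.mul_le_mul (by omega) (by omega)
        omega
      have e3 : n ≤ 2 * (e + 1) * R := by nlinarith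
      exact_mod_cast e3
    have hRpos : (0 : ℝ) < R := by
      have : (0 : ℝ) < n := by exact_mod_cast (by omega : 0 < n)
      by_contra hcon
      have : (R : ℝ) ≤ 0 := not_lt.1 hcon
      nlinarith
    -- contradiction
    have e1 : δ' * (k t * R) = R - R / ((k t : ℝ) + 1) := by
      rw [hδ']
      field_simp
      ring
    have e2 : ε * (2 * n + k t * R) ≤ R / (2 * ((k t : ℝ) + 1)) := by
      have f1 : 2 * (n : ℝ) + k t * R ≤ (4 * ((e : ℝ) + 1) + k t) * R := by linarith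
      have f2 : ε * (2 * n + k t * R) ≤ ε * ((4 * ((e : ℝ) + 1) + k t) * R) :=
        mul_le_mul_of_nonneg_left f1 hε0.le
      refine f2.trans ?_
      rw [hε, le_div_iff₀ (by positivity)]
      have f3 : 1 / (16 * ((k t : ℝ) + 1) ^ 2 * ((e : ℝ) + 1)) * ((4 * ((e : ℝ) + 1) + k t) * R) *
          (2 * ((k t : ℝ) + 1)) =
            R * ((4 * ((e : ℝ) + 1) + k t) / (8 * ((k t : ℝ) + 1) * ((e : ℝ) + 1))) := by
        field_simp
        ring
      rw [f3]
      have f4 : (4 * ((e : ℝ) + 1) + k t) / (8 * ((k t : ℝ) + 1) * ((e : ℝ) + 1)) ≤ 1 := by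
        rw [div_le_one (by positivity)]
        nlinarith
      nlinarith
    rw [e1] at hkey
    have e3 : R / (2 * ((k t : ℝ) + 1)) < R / ((k t : ℝ) + 1) := by
      refine div_lt_div_of_pos_left hRpos (by positivity) ?_
      linarith
    linarith
  · -- uniform distribution
    intro hy
    refine ud_of_weyl _ fun h hh => ?_
    have hbt := hbs1 t
    refine small_o (fun n => ‖∑ m ∈ Finset.range n, ee (h * (g w * (bs t : ℝ) ^ m))‖)
      (fun j => tau (bs t : ℝ) 2 (st w j).1)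
      (fun j => (if ty j = t then (k t : ℝ) / ((w j : ℝ) + 1) else 0) + 1 / ((j : ℝ) + 1) + 1 / (j : ℝ)) ?_
      (h + 1) ?_ ?_ ?_ (fun n => norm_nonneg _)
    · have h1 : Tendsto (fun j => if ty j = t then (k t : ℝ) / ((w j : ℝ) + 1) else 0) atTop (𝓝 0) := by
        rw [Metric.tendsto_atTop]
        intro ε hε
        obtain ⟨e, he⟩ := exists_nat_gt ((k t : ℝ) / ε)
        obtain ⟨J, hJ⟩ := hy e
        refine ⟨J, fun j hj => ?_⟩
        rw [Real.dist_eq, sub_zero]
        split_ifs with hjt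
        · have h2 : (e : ℝ) ≤ w j := by exact_mod_cast hJ j hj hjt
          rw [abs_of_nonneg (by positivity), div_lt_iff₀ (by positivity)]
          rw [div_lt_iff₀ hε] at he
          nlinarith
        · rw [abs_zero]
          exact hε
      have h2 : Tendsto (fun j : ℕ => 1 / ((j : ℝ) + 1)) atTop (𝓝 0) :=
        tendsto_one_div_add_atTop_nhds_zero_nat
      have h3 : Tendsto (fun j : ℕ => 1 / (j : ℝ)) atTop (𝓝 0) := tendsto_one_div_atTop_nhds_zero_nat
      simpa using (h1.add h2).add h3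
    · intro j hj
      obtain ⟨j', rfl⟩ : ∃ j', j = j' + 1 := ⟨j - 1, by omega⟩
      refine tau_four hbt h2 (hgrow w (j' + 1)).2 ?_
      have := hth w j' t
      omega
    · intro j hj
      obtain ⟨j', rfl⟩ : ∃ j', j = j' + 1 := ⟨j - 1, by omega⟩
      have := hth w j' t
      omega
    · intro j hj n hn1 hn2
      obtain ⟨j', rfl⟩ : ∃ j', j = j' + 1 := ⟨j - 1, by omega⟩
      have hth' := hth w j' t
      have hpr := (hprop w (j' + 1) (g w) (hmem w _)).2 t h hh (by omega) n hn1 hn2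
      have hrt' := (hrt w (j' + 1)).2.1
      set a0 := tau (bs t : ℝ) 2 (st w (j' + 1)).1 with ha0
      have hj0 : (0 : ℝ) < ((j' + 1 : ℕ) : ℝ) := by positivity
      have hD : (D (j' + 2) : ℝ) ≤ (a0 : ℝ) / ((j' + 1 : ℕ) : ℝ) := by
        rw [le_div_iff₀ hj0]
        have h1 : (j' + 1) * (D (j' + 2) + 1) ≤ a0 := by omega
        have h2 : ((j' + 1 : ℕ) : ℝ) * ((D (j' + 2) : ℝ) + 1) ≤ a0 := by exact_mod_cast h1
        nlinarith
      have hna : (a0 : ℝ) ≤ n := by exact_mod_cast hn1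
      have hjn : (a0 : ℝ) / ((j' + 1 : ℕ) : ℝ) ≤ 1 / ((j' + 1 : ℕ) : ℝ) * n := by
        rw [one_div_mul_eq_div]
        exact div_le_div_of_nonneg_right hna hj0.le
      have hk0 : (0 : ℝ) ≤ k t := Nat.cast_nonneg _
      have hn0 : (0 : ℝ) ≤ n := Nat.cast_nonneg n
      have hbias : (if t = ty (j' + 1) then (k t : ℝ) * rt w (j' + 1) else 0) ≤
          (if ty (j' + 1) = t then (k t : ℝ) / ((w (j' + 1) : ℝ) + 1) else 0) * n := by
        by_cases hjt : ty (j' + 1) = t
        · rw [if_pos hjt.symm, if_pos hjt]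
          rw [hjt] at hrt'
          have hw0 : (0 : ℝ) < (w (j' + 1) : ℝ) + 1 := by positivity
          have h1 : ((w (j' + 1) : ℝ) + 1) * rt w (j' + 1) ≤ a0 := by exact_mod_cast hrt'
          rw [div_mul_eq_mul_div, le_div_iff₀ hw0]
          have h2 : ((w (j' + 1) : ℝ) + 1) * rt w (j' + 1) ≤ n := h1.trans hna
          nlinarith
        · rw [if_neg (Ne.symm hjt), if_neg hjt, zero_mul]
      have h4 : ((n - a0 : ℕ) : ℝ) / ((j' + 1 + 1 : ℕ) : ℝ) ≤
          1 / (((j' + 1 : ℕ) : ℝ) + 1) * n := by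
        rw [one_div_mul_eq_div]
        push_cast
        refine div_le_div_of_nonneg_right ?_ (by positivity)
        exact_mod_cast (Nat.sub_le n a0)
      change ‖∑ m ∈ Finset.range n, ee (h * (g w * (bs t : ℝ) ^ m))‖ ≤
        ‖∑ m ∈ Finset.range a0, ee (h * (g w * (bs t : ℝ) ^ m))‖ + _
      rw [← Finset.sum_range_add_sum_Ico _ hn1]
      refine (norm_add_le _ _).trans (add_le_add le_rfl ?_)
      rw [add_mul, add_mul]
      linarith

end Pool.Agent.H534R3.Rota
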