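import Pool.Agent.H534R3.XRed

/-! # Weyl's sums of uniformly distributed sequences -/

set_option autoImplicit false

open MeasureTheory Filter Topology
open scoped Real

namespace Pool.Agent.H534R3.Rota

open Pool.Agent.H534R3.UDist

theorem ee_int (n : ℤ) : ee n = 1 := by
  rw [ee]
  have : (2 * π * Complex.I * ((n : ℝ) : ℂ) : ℂ) = n * (2 * π * Complex.I) := by
    push_cast
    ring
  rw [this, Complex.exp_int_mul_two_pi_mul_I]

theorem ee_one_iff {t : ℝ} (h : ee t = 1) : ∃ n : ℤ, t = n := by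
  rw [ee, Complex.exp_eq_one_iff] at h
  obtain ⟨n, hn⟩ := h
  refine ⟨n, ?_⟩
  have h1 : (2 * π * Complex.I : ℂ) ≠ 0 := Complex.two_pi_I_ne_zero
  have h2 : (2 * π * Complex.I : ℂ) * (t : ℂ) = (2 * π * Complex.I) * n := by
    rw [hn]
    ring
  have h3 := mul_left_cancel₀ h1 h2
  exact_mod_cast h3

theorem ee_fract (h : ℕ) (x : ℝ) : ee (h * x) = ee (h * Int.fract x) := by
  have h1 : (h : ℝ) * x = h * Int.fract x + ((h * ⌊x⌋ : ℤ) : ℝ) := by
    have := Int.fract_add_floor x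
    push_cast
    nlinarith
  rw [h1, ee_add, ee_int, mul_one]

theorem sum_ee_zero (h m : ℕ) (hh : 1 ≤ h) (hm : h < m) :
    ∑ i ∈ Finset.range m, ee (h * ((i : ℝ) / m)) = 0 := by
  have hm0 : (m : ℝ) ≠ 0 := by
    have : m ≠ 0 := by omega
    exact_mod_cast this
  have hmpos : (0 : ℝ) < m := by exact_mod_cast (by omega : 0 < m)
  set z := ee ((h : ℝ) / m) with hz
  have h1 : ∀ i : ℕ, ee (h * ((i : ℝ) / m)) = z ^ i := by
    intro i
    induction i with
    | zero => simp [ee_zero]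
    | succ i ih =>
      rw [pow_succ, ← ih, hz, ← ee_add]
      congr 1
      push_cast
      field_simp
  simp_rw [h1]
  have h2 : z ^ m = 1 := by
    rw [← h1 m, div_self hm0, mul_one]
    exact_mod_cast ee_int h
  have h3 : z ≠ 1 := by
    intro hz1
    obtain ⟨n, hn⟩ := ee_one_iff hz1
    have g1 : (0 : ℝ) < (h : ℝ) / m := by
      have : (0 : ℝ) < h := by exact_mod_cast (by omega : 0 < h)
      positivity
    have g2 : (h : ℝ) / m < 1 := by
      rw [div_lt_one hmpos]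
      exact_mod_cast hm
    rw [hn] at g1 g2
    have g3 : 0 < n := by exact_mod_cast g1
    have g4 : n < 1 := by exact_mod_cast g2
    omega
  have h4 := mul_geom_sum z m
  rw [h2, sub_self] at h4
  rcases mul_eq_zero.1 h4 with h5 | h5
  · exact absurd (sub_eq_zero.1 h5) h3
  · exact h5

theorem ud_weyl (x : ℕ → ℝ) (hx : UD x) (h : ℕ) (hh : 1 ≤ h) :
    Tendsto (fun N : ℕ => ‖∑ n ∈ Finset.range N, ee (h * x n)‖ / (N : ℝ)) atTop (𝓝 0) := by
  rw [Metric.tendsto_atTop]
  intro ε hε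
  have hpi := Real.pi_pos
  have hhr : (1 : ℝ) ≤ h := by exact_mod_cast hh
  obtain ⟨m, hm⟩ := exists_nat_gt (max (h : ℝ) (4 * π * h / ε))
  have hm1 : (h : ℝ) < m := lt_of_le_of_lt (le_max_left _ _) hm
  have hm2 : 4 * π * h / ε < m := lt_of_le_of_lt (le_max_right _ _) hm
  have hm1' : h < m := by exact_mod_cast hm1
  have hm0 : (0 : ℝ) < m := by linarith
  -- the counting functions
  have hlim : Tendsto (fun N : ℕ => ∑ i ∈ Finset.range m,
      ee (h * ((i : ℝ) / m)) * (((cnt x ((i : ℝ) / m) (((i : ℝ) + 1) / m) N : ℝ) / N : ℝ) : ℂ))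
      atTop (𝓝 0) := by
    have h1 : ∀ i ∈ Finset.range m, Tendsto (fun N : ℕ =>
        ee (h * ((i : ℝ) / m)) * (((cnt x ((i : ℝ) / m) (((i : ℝ) + 1) / m) N : ℝ) / N : ℝ) : ℂ))
        atTop (𝓝 (ee (h * ((i : ℝ) / m)) * ((1 / m : ℝ) : ℂ))) := by
      intro i hi
      have hi' := Finset.mem_range.1 hi
      have hi2 : (i : ℝ) + 1 ≤ m := by exact_mod_cast (by omega : i + 1 ≤ m)
      have h2 := hx ((i : ℝ) / m) (((i : ℝ) + 1) / m) (by positivity)
        (div_le_div_of_nonneg_right (by linarith) hm0.le) (by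
          rw [div_le_one hm0]
          exact hi2)
      have h3 : ((i : ℝ) + 1) / m - (i : ℝ) / m = 1 / m := by
        rw [← sub_div]
        congr 1
        ring
      rw [h3] at h2
      exact ((Complex.continuous_ofReal.tendsto _).comp h2).const_mul _
    have h2 := tendsto_finsetSum _ h1
    rw [← Finset.sum_mul, sum_ee_zero h m hh hm1', zero_mul] at h2
    exact h2
  obtain ⟨N₀, hN₀⟩ := Metric.tendsto_atTop.1 hlim (ε / 2) (by positivity)
  refine ⟨N₀ + 1, fun N hN => ?_⟩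
  have hN0 : (0 : ℝ) < N := by exact_mod_cast (by omega : 0 < N)
  have hNc : (N : ℂ) ≠ 0 := by exact_mod_cast (by omega : N ≠ 0)
  have h4 := hN₀ N (by omega)
  rw [dist_zero_right] at h4
  rw [Real.dist_eq, sub_zero, abs_of_nonneg (by positivity)]
  have h5 : ‖∑ n ∈ Finset.range N, ee (h * x n) - N * ∑ i ∈ Finset.range m,
      ee (h * ((i : ℝ) / m)) * (((cnt x ((i : ℝ) / m) (((i : ℝ) + 1) / m) N : ℝ) / N : ℝ) : ℂ)‖ ≤
      N * (2 * π * h / m) := by
    have e1 : (N : ℂ) * ∑ i ∈ Finset.range m,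
        ee (h * ((i : ℝ) / m)) * (((cnt x ((i : ℝ) / m) (((i : ℝ) + 1) / m) N : ℝ) / N : ℝ) : ℂ) =
        ∑ n ∈ Finset.range N, ∑ i ∈ Finset.range m, ee (h * ((i : ℝ) / m)) *
          (if (i : ℝ) / m ≤ Int.fract (x n) ∧ Int.fract (x n) < ((i : ℝ) + 1) / m then 1 else 0) := by
      rw [Finset.sum_comm, Finset.mul_sum]
      refine Finset.sum_congr rfl fun i _ => ?_
      rw [cnt, Finset.card_filter, ← Finset.mul_sum, Complex.ofReal_div, Complex.ofReal_natCast,
        Complex.ofReal_natCast, Nat.cast_sum, mul_left_comm, mul_div_cancel₀ _ hNc]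
      congr 1
      refine Finset.sum_congr rfl fun n _ => ?_
      split_ifs <;> simp
    rw [e1, ← Finset.sum_sub_distrib]
    have e2 : ∀ n ∈ Finset.range N, ‖ee (h * x n) -
        ∑ i ∈ Finset.range m, ee (h * ((i : ℝ) / m)) *
          (if (i : ℝ) / m ≤ Int.fract (x n) ∧ Int.fract (x n) < ((i : ℝ) + 1) / m then 1 else 0)‖ ≤
          2 * π * h / m := by
      intro n _
      have g0 := Int.fract_nonneg (x n)
      have g1 := Int.fract_lt_one (x n)
      set i₀ := ⌊(m : ℝ) * Int.fract (x n)⌋₊ with hi₀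
      have hi₀lt : i₀ < m := by
        rw [hi₀, Nat.floor_lt (by positivity)]
        nlinarith
      have e3 : ∑ i ∈ Finset.range m, ee (h * ((i : ℝ) / m)) *
          (if (i : ℝ) / m ≤ Int.fract (x n) ∧ Int.fract (x n) < ((i : ℝ) + 1) / m then (1 : ℂ)
            else 0) = ee (h * ((i₀ : ℝ) / m)) := by
        rw [Finset.sum_eq_single i₀]
        · rw [if_pos ((arc_iff hm0 g0 i₀).2 rfl), mul_one]
        · intro i _ hi
          rw [if_neg (fun h => hi ((arc_iff hm0 g0 i).1 h)), mul_zero]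
        · intro h
          exact absurd (Finset.mem_range.2 hi₀lt) h
      rw [e3, ee_fract h (x n)]
      refine (ee_lip _ _).trans ?_
      have g2 := (arc_iff hm0 g0 i₀).2 rfl
      have g3 : ((i₀ : ℝ) + 1) / m = i₀ / m + 1 / m := add_div _ _ _
      have g4 : |Int.fract (x n) - (i₀ : ℝ) / m| ≤ 1 / m := by
        rw [abs_le]
        have : 0 < 1 / (m : ℝ) := by positivity
        constructor <;> linarith [g2.1, g2.2]
      rw [← mul_sub, abs_mul, Nat.abs_cast]
      calc 2 * π * (h * |Int.fract (x n) - (i₀ : ℝ) / m|) =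
            (2 * π * h) * |Int.fract (x n) - (i₀ : ℝ) / m| := by ring
        _ ≤ (2 * π * h) * (1 / m) := mul_le_mul_of_nonneg_left g4 (by positivity)
        _ = _ := by ring
    refine (norm_sum_le_of_le _ e2).trans (le_of_eq ?_)
    rw [Finset.sum_const, Finset.card_range, nsmul_eq_mul]
  have h6 : 2 * π * h / m < ε / 2 := by
    rw [div_lt_div_iff₀ hm0 (by norm_num)]
    rw [div_lt_iff₀ hε] at hm2
    linarith
  rw [div_lt_iff₀ hN0]
  have h7 : ‖(N : ℂ) * ∑ i ∈ Finset.range m,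
      ee (h * ((i : ℝ) / m)) * (((cnt x ((i : ℝ) / m) (((i : ℝ) + 1) / m) N : ℝ) / N : ℝ) : ℂ)‖ ≤
      N * (ε / 2) := by
    rw [norm_mul, Complex.norm_natCast]
    exact mul_le_mul_of_nonneg_left h4.le hN0.le
  have h8 := norm_sub_norm_le (∑ n ∈ Finset.range N, ee (h * x n)) (N * ∑ i ∈ Finset.range m,
      ee (h * ((i : ℝ) / m)) * (((cnt x ((i : ℝ) / m) (((i : ℝ) + 1) / m) N : ℝ) / N : ℝ) : ℂ))
  have h9 : (N : ℝ) * (2 * π * h / m) < N * (ε / 2) := mul_lt_mul_of_pos_left h6 hN0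
  nlinarith

end Pool.Agent.H534R3.Rota
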