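import Pool.Agent.H534R3.Rota

/-! # Spectral bounds for Riesz densities with real ratio -/

set_option autoImplicit false

open MeasureTheory Filter Topology
open scoped Real

namespace Pool.Agent.H534R3.Rota

/-- The bound of the spectrum. -/
noncomputable def WW (B : ℝ) : ℕ → ℝ → ℝ
  | 0, x => 1 / max 1 |x|
  | R + 1, x => WW B R x + (1 / 2) * WW B R (x + B ^ (R + 1)) + (1 / 2) * WW B R (x - B ^ (R + 1))

theorem WW_zero (B x : ℝ) : WW B 0 x = 1 / max 1 |x| := rfl

theorem WW_succ (B : ℝ) (R : ℕ) (x : ℝ) : WW B (R + 1) x = WW B R x +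
    (1 / 2) * WW B R (x + B ^ (R + 1)) + (1 / 2) * WW B R (x - B ^ (R + 1)) := rfl

theorem WW_nonneg (B : ℝ) (R : ℕ) (x : ℝ) : 0 ≤ WW B R x := by
  induction R generalizing x with
  | zero => rw [WW_zero]; positivity
  | succ R ih =>
    rw [WW_succ]
    have := ih x
    have := ih (x + B ^ (R + 1))
    have := ih (x - B ^ (R + 1))
    linarith

theorem WW_even (B : ℝ) (R : ℕ) (x : ℝ) : WW B R (-x) = WW B R x := by
  induction R generalizing x with
  | zero => rw [WW_zero, WW_zero, abs_neg]
  | succ R ih =>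
    rw [WW_succ, WW_succ, ih x]
    have h1 : -x + B ^ (R + 1) = -(x - B ^ (R + 1)) := by ring
    have h2 : -x - B ^ (R + 1) = -(x + B ^ (R + 1)) := by ring
    rw [h1, h2, ih, ih]
    ring

theorem WW_abs (B : ℝ) (R : ℕ) (x : ℝ) : WW B R |x| = WW B R x := by
  rcases abs_choice x with h | h
  · rw [h]
  · rw [h, WW_even]

theorem WW_far {B : ℝ} (hB : 16 ≤ B) (R : ℕ) (x : ℝ) (hx : 2 * B ^ R ≤ |x|) :
    WW B R x ≤ 4 ^ R / |x| := by
  induction R generalizing x with
  | zero =>
    rw [pow_zero, mul_one] at hx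
    rw [WW_zero, pow_zero, max_eq_right (by linarith)]
  | succ R ih =>
    have hB0 : 0 < B := by linarith
    have hBR : 0 < B ^ R := by positivity
    have hp : B ^ (R + 1) = B ^ R * B := pow_succ _ _
    have hx0 : 0 < |x| := by nlinarith
    have hbig : 16 * B ^ R ≤ B ^ (R + 1) := by nlinarith
    have hhalf : ∀ y : ℝ, |y| ≤ B ^ (R + 1) → |x| / 2 ≤ |x + y| := by
      intro y hy
      have h1 := abs_sub_abs_le_abs_sub x (-y)
      rw [abs_neg, sub_neg_eq_add] at h1
      linarith
    have hstep : ∀ y : ℝ, |y| ≤ B ^ (R + 1) → WW B R (x + y) ≤ 2 * (4 ^ R / |x|) := by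
      intro y hy
      have h1 := hhalf y hy
      have h2 := ih (x + y) (by linarith)
      refine h2.trans ?_
      rw [← mul_div_assoc, div_le_div_iff₀ (by linarith) hx0]
      have : (0 : ℝ) < 4 ^ R := by positivity
      nlinarith
    rw [WW_succ]
    have h1 := ih x (by linarith)
    have h2 := hstep (B ^ (R + 1)) (by rw [abs_of_pos (by positivity)])
    have h3 := hstep (-B ^ (R + 1)) (by rw [abs_neg, abs_of_pos (by positivity)])
    rw [← sub_eq_add_neg] at h3
    have h4 : (4 : ℝ) ^ (R + 1) / |x| = 4 * (4 ^ R / |x|) := by rw [pow_succ]; ring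
    have h5 : 0 ≤ (4 : ℝ) ^ R / |x| := by positivity
    rw [h4]
    linarith

/-- The decay factor. -/
theorem fac_pos {B : ℝ} (hB : 16 ≤ B) (R : ℕ) : 0 < (4 / B) ^ R := by
  have : 0 < B := by linarith
  positivity

theorem fac_le_one {B : ℝ} (hB : 16 ≤ B) (R : ℕ) : (4 / B) ^ R ≤ 1 := by
  have hB0 : 0 < B := by linarith
  refine pow_le_one₀ (by positivity) ?_
  rw [div_le_one hB0]
  linarith

theorem far_term {B : ℝ} (hB : 16 ≤ B) (R : ℕ) (x c : ℝ) (hc : 0 < c) (hc2 : 2 ≤ B * c)
    (hx : B ^ (R + 1) * c ≤ |x|) : WW B R x ≤ (4 / B) ^ R / (B * c) := by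
  have hB0 : 0 < B := by linarith
  have hBR : 0 < B ^ R := by positivity
  have h1 : B ^ (R + 1) * c = B ^ R * (B * c) := by rw [pow_succ]; ring
  rw [h1] at hx
  have h2 : 2 * B ^ R ≤ |x| := by nlinarith
  refine (WW_far hB R x h2).trans ?_
  rw [div_pow, div_div]
  exact div_le_div_of_nonneg_left (by positivity) (by positivity) hx

theorem WW_le_two {B : ℝ} (hB : 16 ≤ B) (R : ℕ) (x : ℝ) : WW B R x ≤ 2 - (4 / B) ^ R := by
  have hB0 : 0 < B := by linarith
  induction R generalizing x with
  | zero =>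
    rw [WW_zero, pow_zero, div_le_iff₀ (by positivity)]
    have : (1 : ℝ) ≤ max 1 |x| := le_max_left _ _
    linarith
  | succ R ih =>
    -- reduce to nonnegative x
    rw [← WW_abs]
    have hy0 : 0 ≤ |x| := abs_nonneg x
    set y := |x| with hy
    have hf := fac_pos hB R
    have hf1 := fac_le_one hB R
    have hf2 : (4 / B) ^ (R + 1) = (4 / B) ^ R * (4 / B) := pow_succ _ _
    have h4B : 4 / B ≤ 1 / 4 := by
      rw [div_le_div_iff₀ hB0 (by norm_num)]
      linarith
    have h4B0 : 0 < 4 / B := by positivity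
    have hBp : 0 < B ^ (R + 1) := by positivity
    rw [WW_succ, hf2]
    have e1 : WW B R (y + B ^ (R + 1)) ≤ (4 / B) ^ R * (1 / 16) := by
      have := far_term hB R (y + B ^ (R + 1)) 1 one_pos (by linarith) (by
        rw [abs_of_nonneg (by positivity)]
        linarith)
      refine this.trans ?_
      rw [mul_one, div_eq_mul_one_div]
      refine mul_le_mul_of_nonneg_left ?_ hf.le
      exact one_div_le_one_div_of_le (by norm_num) hB
    rcases le_total y (B ^ (R + 1) / 2) with h | h
    · have e2 : WW B R (y - B ^ (R + 1)) ≤ (4 / B) ^ R * (1 / 8) := by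
        have := far_term hB R (y - B ^ (R + 1)) (1 / 2) (by norm_num) (by linarith) (by
          rw [abs_sub_comm, abs_of_nonneg (by linarith)]
          linarith)
        refine this.trans ?_
        rw [div_eq_mul_one_div]
        refine mul_le_mul_of_nonneg_left ?_ hf.le
        exact one_div_le_one_div_of_le (by norm_num) (by linarith)
      have e3 := ih y
      nlinarith
    · have e2 : WW B R y ≤ (4 / B) ^ R * (1 / 8) := by
        have := far_term hB R y (1 / 2) (by norm_num) (by linarith) (by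
          rw [abs_of_nonneg hy0]
          linarith)
        refine this.trans ?_
        rw [div_eq_mul_one_div]
        refine mul_le_mul_of_nonneg_left ?_ hf.le
        exact one_div_le_one_div_of_le (by norm_num) (by linarith)
      have e3 := ih (y - B ^ (R + 1))
      nlinarith

theorem WW_peel_one {B : ℝ} (hB : 16 ≤ B) (r : ℕ) (x : ℝ) (hx : |x| ≤ B ^ (r + 1) / 2) :
    WW B (r + 1) x ≤ WW B r x + ((4 / B) ^ r - (4 / B) ^ (r + 1)) := by
  have hB0 : 0 < B := by linarith
  have hf := fac_pos hB r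
  have hf2 : (4 / B) ^ (r + 1) = (4 / B) ^ r * (4 / B) := pow_succ _ _
  have h4B : 4 / B ≤ 1 / 4 := by
    rw [div_le_div_iff₀ hB0 (by norm_num)]
    linarith
  have hBp : 0 < B ^ (r + 1) := by positivity
  have key : ∀ z : ℝ, B ^ (r + 1) * (1 / 2) ≤ |z| → WW B r z ≤ (4 / B) ^ r * (1 / 8) := by
    intro z hz
    have := far_term hB r z (1 / 2) (by norm_num) (by linarith) hz
    refine this.trans ?_
    rw [div_eq_mul_one_div]
    refine mul_le_mul_of_nonneg_left ?_ hf.le
    exact one_div_le_one_div_of_le (by norm_num) (by linarith)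
  have hx' := abs_le.1 hx
  have e1 := key (x + B ^ (r + 1)) (by
    rw [abs_of_nonneg (by linarith [hx'.1])]
    linarith [hx'.1])
  have e2 := key (x - B ^ (r + 1)) (by
    rw [abs_sub_comm, abs_of_nonneg (by linarith [hx'.2])]
    linarith [hx'.2])
  rw [WW_succ, hf2]
  nlinarith

theorem WW_peel {B : ℝ} (hB : 16 ≤ B) (q m : ℕ) (x : ℝ) (hx : |x| ≤ B ^ (q + 1) / 2) :
    WW B (q + m) x ≤ WW B q x + ((4 / B) ^ q - (4 / B) ^ (q + m)) := by
  induction m with
  | zero => simp
  | succ m ih =>
    have h1 : B ^ (q + 1) ≤ B ^ (q + m + 1) := pow_le_pow_right₀ (by linarith) (by omega)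
    have h2 := WW_peel_one hB (q + m) x (by linarith)
    rw [← Nat.add_assoc]
    linarith

theorem WW_peel' {B : ℝ} (hB : 16 ≤ B) {q R : ℕ} (hqR : q ≤ R) (x : ℝ) (hx : |x| ≤ B ^ (q + 1) / 2) :
    WW B R x ≤ WW B q x + (4 / B) ^ q := by
  obtain ⟨m, rfl⟩ := Nat.exists_eq_add_of_le hqR
  have h1 := WW_peel hB q m x hx
  have h2 := fac_pos hB (q + m)
  linarith

/-- The bound away from the powers. -/
theorem WW_gap {B : ℝ} (hB : 16 ≤ B) (c : ℝ) (hc : 0 < c) (hc1 : c ≤ 1) (hBc : 2 ≤ B * c) (q R : ℕ)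
    (hqR : q + 2 ≤ R) (x : ℝ) (hx1 : B ^ (q + 1) * (1 + c) ≤ x) (hx2 : x ≤ B ^ (q + 2) * (1 - c)) :
    WW B R x ≤ 6 * (4 / B) ^ q := by
  have hB0 : 0 < B := by linarith
  have hf := fac_pos hB q
  have hBp : 0 < B ^ (q + 1) := by positivity
  have hBp2 : B ^ (q + 2) = B ^ (q + 1) * B := pow_succ _ _
  have hx0 : 0 < x := by nlinarith
  have h4B : 4 / B ≤ 1 / 4 := by
    rw [div_le_div_iff₀ hB0 (by norm_num)]
    linarith
  have h4B0 : 0 < 4 / B := by positivity
  have keyq : ∀ z : ℝ, B ^ (q + 1) * c ≤ |z| → WW B q z ≤ (4 / B) ^ q := by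
    intro z hz
    refine (far_term hB q z c hc hBc hz).trans ?_
    rw [div_le_iff₀ (by linarith)]
    nlinarith
  have keyq1 : ∀ z : ℝ, B ^ (q + 2) * c ≤ |z| → WW B (q + 1) z ≤ (4 / B) ^ q := by
    intro z hz
    refine (far_term hB (q + 1) z c hc hBc hz).trans ?_
    rw [div_le_iff₀ (by linarith), pow_succ]
    nlinarith
  have h1 : WW B R x ≤ WW B (q + 2) x + (4 / B) ^ (q + 2) := by
    refine WW_peel' hB hqR x ?_
    rw [abs_of_pos hx0]
    have : B ^ (q + 2 + 1) = B ^ (q + 2) * B := pow_succ _ _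
    rw [this]
    have : 0 < B ^ (q + 2) := by positivity
    nlinarith
  have h2 : WW B (q + 2) x ≤ WW B (q + 1) x + (4 / B) ^ q := by
    rw [WW_succ]
    have e1 := keyq1 (x + B ^ (q + 1 + 1)) (by
      rw [abs_of_nonneg (by positivity)]
      nlinarith)
    have e2 := keyq1 (x - B ^ (q + 1 + 1)) (by
      rw [abs_sub_comm, abs_of_nonneg (by nlinarith)]
      nlinarith)
    linarith
  have h3 : WW B (q + 1) x ≤ 2 * (4 / B) ^ q := by
    rw [WW_succ]
    have e0 := keyq x (by
      rw [abs_of_pos hx0]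
      nlinarith)
    have e1 := keyq (x + B ^ (q + 1)) (by
      rw [abs_of_nonneg (by positivity)]
      nlinarith)
    have e2 := keyq (x - B ^ (q + 1)) (by
      rw [abs_of_nonneg (by nlinarith)]
      nlinarith)
    linarith
  have h4 : (4 / B) ^ (q + 2) ≤ (4 / B) ^ q := pow_le_pow_of_le_one (by positivity) (by linarith) (by omega)
  linarith

/-! ### The majorant -/

/-- The majorant of the spectrum. -/
noncomputable def ZZ (B : ℝ) : ℕ → ℝ → ℝ
  | 0, y => 2 / (1 + (y / 2) ^ 2)
  | L + 1, y => ZZ B L y + (1 / 2) * ZZ B L (y + B ^ (L + 1)) + (1 / 2) * ZZ B L (y - B ^ (L + 1))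

theorem ZZ_succ (B : ℝ) (L : ℕ) (y : ℝ) : ZZ B (L + 1) y = ZZ B L y +
    (1 / 2) * ZZ B L (y + B ^ (L + 1)) + (1 / 2) * ZZ B L (y - B ^ (L + 1)) := rfl

theorem continuous_ZZ (B : ℝ) (L : ℕ) : Continuous (ZZ B L) := by
  induction L with
  | zero =>
    have : ZZ B 0 = fun y => 2 / (1 + (y / 2) ^ 2) := rfl
    rw [this]
    refine continuous_const.div (by fun_prop) fun y => ?_
    positivity
  | succ L ih =>
    have : ZZ B (L + 1) = fun y => ZZ B L y + (1 / 2) * ZZ B L (y + B ^ (L + 1)) +
        (1 / 2) * ZZ B L (y - B ^ (L + 1)) := rfl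
    rw [this]
    exact (ih.add (continuous_const.mul (ih.comp (by fun_prop)))).add
      (continuous_const.mul (ih.comp (by fun_prop)))

theorem ZZ_nonneg (B : ℝ) (L : ℕ) (y : ℝ) : 0 ≤ ZZ B L y := by
  induction L generalizing y with
  | zero =>
    change 0 ≤ 2 / (1 + (y / 2) ^ 2)
    positivity
  | succ L ih =>
    rw [ZZ_succ]
    have := ih y
    have := ih (y + B ^ (L + 1))
    have := ih (y - B ^ (L + 1))
    linarith

theorem ZZ_le (B : ℝ) (L : ℕ) (y : ℝ) : ZZ B L y ≤ 2 ^ (L + 1) := by
  induction L generalizing y with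
  | zero =>
    change 2 / (1 + (y / 2) ^ 2) ≤ 2 ^ (0 + 1)
    rw [div_le_iff₀ (by positivity)]
    nlinarith [sq_nonneg (y / 2)]
  | succ L ih =>
    have h2 : (2 : ℝ) ^ (L + 1 + 1) = 2 ^ (L + 1) * 2 := pow_succ _ _
    rw [ZZ_succ, h2]
    have := ih y
    have := ih (y + B ^ (L + 1))
    have := ih (y - B ^ (L + 1))
    linarith

theorem int_ZZ (B : ℝ) (L : ℕ) (p p' : ℝ) :
    ∫ y in p..p', ZZ B L y ≤ 16 * 2 ^ L := by
  induction L generalizing p p' with
  | zero =>
    have h1 : ∀ y : ℝ, ZZ B 0 y = 2 * (1 / (1 + (y / 2) ^ 2)) := fun y => by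
      change 2 / (1 + (y / 2) ^ 2) = _
      rw [mul_one_div]
    simp_rw [h1]
    rw [intervalIntegral.integral_const_mul,
      intervalIntegral.integral_comp_div (fun x => 1 / (1 + x ^ 2)) (by norm_num),
      integral_one_div_one_add_sq, smul_eq_mul]
    have h2 := Real.arctan_lt_pi_div_two (p' / 2)
    have h3 := Real.neg_pi_div_two_lt_arctan (p / 2)
    have h4 := Real.pi_lt_four
    rw [pow_zero, mul_one]
    linarith
  | succ L ih =>
    have hc := continuous_ZZ B L
    simp_rw [ZZ_succ]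
    rw [intervalIntegral.integral_add, intervalIntegral.integral_add,
      intervalIntegral.integral_const_mul, intervalIntegral.integral_const_mul,
      intervalIntegral.integral_comp_add_right (fun y => ZZ B L y),
      intervalIntegral.integral_comp_sub_right (fun y => ZZ B L y)]
    · have h1 := ih p p'
      have h2 := ih (p + B ^ (L + 1)) (p' + B ^ (L + 1))
      have h3 := ih (p - B ^ (L + 1)) (p' - B ^ (L + 1))
      have h4 : (2 : ℝ) ^ (L + 1) = 2 ^ L * 2 := pow_succ _ _
      rw [h4]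
      linarith
    · exact hc.intervalIntegrable _ _
    · exact (continuous_const.mul (hc.comp (by fun_prop))).intervalIntegrable _ _
    · exact (hc.add (continuous_const.mul (hc.comp (by fun_prop)))).intervalIntegrable _ _
    · exact (continuous_const.mul (hc.comp (by fun_prop))).intervalIntegrable _ _

theorem WW_le_ZZ {B : ℝ} (hB : 16 ≤ B) (q L : ℕ) (x : ℝ) :
    WW B (q + L) x ≤ 2 * ZZ B L (x / B ^ q) + 2 ^ L * (4 / B) ^ q := by
  have hB0 : 0 < B := by linarith
  have hBq : 0 < B ^ q := by positivity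
  induction L generalizing x with
  | zero =>
    rw [Nat.add_zero, pow_zero, one_mul]
    have hf := fac_pos hB q
    change _ ≤ 2 * (2 / (1 + (x / B ^ q / 2) ^ 2)) + _
    rcases le_total |x| (2 * B ^ q) with h | h
    · have h1 : (x / B ^ q / 2) ^ 2 ≤ 1 := by
        rw [sq_le_one_iff_abs_le_one, abs_div, abs_div, abs_of_pos hBq, abs_two,
          div_le_one (by norm_num), div_le_iff₀ hBq]
        exact h
      have h2 : 1 ≤ 2 / (1 + (x / B ^ q / 2) ^ 2) := by
        rw [le_div_iff₀ (by positivity)]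
        linarith
      have h3 := WW_le_two hB q x
      linarith
    · have h1 := WW_far hB q x h
      have h2 : (4 : ℝ) ^ q / |x| ≤ (4 / B) ^ q := by
        rw [div_pow]
        refine div_le_div_of_nonneg_left (by positivity) hBq ?_
        linarith
      have h3 : 0 ≤ 2 * (2 / (1 + (x / B ^ q / 2) ^ 2)) := by positivity
      linarith
  | succ L ih =>
    rw [← Nat.add_assoc, WW_succ, ZZ_succ]
    have e1 : (x + B ^ (q + L + 1)) / B ^ q = x / B ^ q + B ^ (L + 1) := by
      rw [add_div, Nat.add_assoc, pow_add B q, mul_div_cancel_left₀ _ hBq.ne']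
    have e2 : (x - B ^ (q + L + 1)) / B ^ q = x / B ^ q - B ^ (L + 1) := by
      rw [sub_div, Nat.add_assoc, pow_add B q, mul_div_cancel_left₀ _ hBq.ne']
    have h1 := ih x
    have h2 := ih (x + B ^ (q + L + 1))
    have h3 := ih (x - B ^ (q + L + 1))
    rw [e1] at h2
    rw [e2] at h3
    rw [pow_succ (2 : ℝ) L]
    linarith

/-- The averages of the spectral bounds along the powers of an unrelated base. -/
theorem avg_WW {B : ℝ} (hB : 16 ≤ B) (θ : ℝ) (hθ : Irrational θ) (κ : ℝ) (hκ : 0 < κ) :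
    ∃ (F : ℝ → ℝ) (C X0 : ℝ), 0 ≤ C ∧ 1 ≤ X0 ∧ (∀ s, 0 ≤ F s) ∧
      (∀ (x : ℝ) (R : ℕ), X0 ≤ x → x < B ^ R → WW B R x ≤ κ / 2 + F (Real.logb B x)) ∧
      ∀ (s : ℝ) (M : ℕ), ∑ i ∈ Finset.range M, F (s + i * θ) ≤ κ / 2 * M + C := by
  have hB0 : 0 < B := by linarith
  have hB1 : 1 < B := by linarith
  have hlog : 1 ≤ Real.log B := by
    rw [Real.le_log_iff_exp_le hB0]
    exact (Real.exp_one_lt_three.le).trans (by linarith)
  -- the choice of the depth
  obtain ⟨L', hL'⟩ : ∃ L' : ℕ, 256 / κ < (B / 2) ^ L' :=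
    pow_unbounded_of_one_lt _ (by linarith)
  set L : ℕ := L' + 1 with hL
  set K : ℝ := 2 ^ (L + 1) with hK
  have hK0 : 0 < K := by positivity
  set δ : ℝ := min (1 / 2) (κ / (32 * K)) with hδ
  have hδ0 : 0 < δ := by positivity
  have hδ1 : δ ≤ 1 / 2 := min_le_left _ _
  have hδ2 : δ ≤ κ / (32 * K) := min_le_right _ _
  set zf : ℝ → ℝ := fun s => ZZ B L (B ^ L' * B ^ s) with hzf
  have hzfc : Continuous zf :=
    (continuous_ZZ B L).comp (continuous_const.mul (Real.continuous_const_rpow hB0.ne'))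
  have hzf0 : ∀ s, 0 ≤ zf s := fun s => ZZ_nonneg _ _ _
  have hzfK : ∀ s, zf s ≤ K := fun s => ZZ_le _ _ _
  set tf : ℝ → ℝ := fun s => max 0 (1 - s / δ) + max 0 (1 - (1 - s) / δ) with htf
  have htfc : Continuous tf := by
    refine (continuous_const.max (by fun_prop)).add (continuous_const.max (by fun_prop))
  have htf0 : ∀ s, 0 ≤ tf s := fun s => add_nonneg (le_max_left _ _) (le_max_left _ _)
  set f : ℝ → ℝ := fun s => max (zf s) (K * tf s) with hf
  have hfc : Continuous f := hzfc.max (continuous_const.mul htfc)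
  have hδinv : 1 ≤ 1 / δ := by
    rw [le_div_iff₀ hδ0]
    linarith
  have ht0 : tf 0 = 1 := by
    simp only [htf, zero_div, sub_zero]
    rw [max_eq_right (by norm_num), max_eq_left (by linarith)]
    ring
  have ht1 : tf 1 = 1 := by
    simp only [htf, sub_self, zero_div, sub_zero]
    rw [max_eq_left (by linarith), max_eq_right (by norm_num)]
    ring
  have hf01 : f 0 = f 1 := by
    simp only [hf]
    rw [ht0, ht1, mul_one, max_eq_right (hzfK 0), max_eq_right (hzfK 1)]
  set φ : UnitAddCircle → ℝ := AddCircle.liftIco 1 0 f with hφ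
  have hφc : Continuous φ := AddCircle.liftIco_zero_continuous hf01 hfc.continuousOn
  have hφf : ∀ s : ℝ, φ (s : UnitAddCircle) = f (Int.fract s) := by
    intro s
    have h1 : (s : UnitAddCircle) = (Int.fract s : ℝ) := by
      have h2 : s = Int.fract s + (⌊s⌋ : ℝ) := (Int.fract_add_floor s).symm
      have h3 : ((⌊s⌋ : ℝ) : UnitAddCircle) = 0 := by
        rw [AddCircle.coe_eq_zero_iff]
        exact ⟨⌊s⌋, by simp⟩
      conv_lhs => rw [h2]
      rw [AddCircle.coe_add, h3, add_zero]
    rw [h1, hφ, AddCircle.liftIco_zero_coe_apply ⟨Int.fract_nonneg s, Int.fract_lt_one s⟩]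
  -- the integral
  have hintz : ∫ s in (0 : ℝ)..1, zf s ≤ κ / 8 := by
    have h5 : ∫ s in (0 : ℝ)..1, zf s ≤
        ∫ s in (0 : ℝ)..1, (1 / B ^ L') * (zf s * (B ^ L' * (B ^ s * Real.log B))) := by
      refine intervalIntegral.integral_mono_on zero_le_one (hzfc.intervalIntegrable _ _) ?_ ?_
      · refine Continuous.intervalIntegrable ?_ _ _
        exact continuous_const.mul (hzfc.mul (continuous_const.mul
          ((Real.continuous_const_rpow hB0.ne').mul continuous_const)))
      · intro s hs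
        have e1 : 0 ≤ zf s := hzf0 s
        have e2 : 1 ≤ B ^ s := Real.one_le_rpow hB1.le hs.1
        have e3 : 1 ≤ B ^ s * Real.log B := by nlinarith
        have e4 : (1 / B ^ L') * (zf s * (B ^ L' * (B ^ s * Real.log B))) =
            zf s * (B ^ s * Real.log B) := by
          field_simp
        rw [e4]
        nlinarith
    rw [intervalIntegral.integral_const_mul] at h5
    have h6 : ∫ s in (0 : ℝ)..1, zf s * (B ^ L' * (B ^ s * Real.log B)) =
        ∫ t in (B ^ L' * B ^ (0 : ℝ))..(B ^ L' * B ^ (1 : ℝ)), ZZ B L t := by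
      refine intervalIntegral.integral_comp_mul_deriv (a := 0) (b := 1)
        (f := fun s : ℝ => B ^ L' * B ^ s) (f' := fun s : ℝ => B ^ L' * (B ^ s * Real.log B))
        (g := ZZ B L) (fun s _ => ?_) ?_ (continuous_ZZ B L)
      · have := ((hasDerivAt_id s).const_rpow hB0).const_mul (B ^ L')
        have h8 : B ^ L' * (B ^ s * Real.log B) = B ^ L' * (Real.log B * 1 * B ^ id s) := by
          simp [mul_comm]
        rw [h8]
        exact this
      · exact (continuous_const.mul
          ((Real.continuous_const_rpow hB0.ne').mul continuous_const)).continuousOn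
    rw [h6] at h5
    have h7 := int_ZZ B L (B ^ L' * B ^ (0 : ℝ)) (B ^ L' * B ^ (1 : ℝ))
    have h8 : 1 / B ^ L' * (16 * 2 ^ L) ≤ κ / 8 := by
      have h9 : 1 / B ^ L' * (16 * 2 ^ L) = 32 / (B / 2) ^ L' := by
        rw [hL, pow_succ, div_pow]
        field_simp
        ring
      rw [h9, div_le_iff₀ (by positivity)]
      rw [div_lt_iff₀ hκ] at hL'
      linarith
    refine h5.trans ((mul_le_mul_of_nonneg_left h7 (by positivity)).trans h8)
  have hintt : ∫ s in (0 : ℝ)..1, tf s ≤ 2 * δ := by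
    have e0 : ∀ c : ℝ, ∫ s in (0 : ℝ)..1, max 0 (1 - s / δ) ≤ δ := by
      intro _
      have h1 : ∫ s in (0 : ℝ)..1, max 0 (1 - s / δ) =
          (∫ s in (0 : ℝ)..δ, max 0 (1 - s / δ)) + ∫ s in δ..1, max 0 (1 - s / δ) := by
        rw [intervalIntegral.integral_add_adjacent_intervals]
        · exact Continuous.intervalIntegrable (continuous_const.max (by fun_prop)) _ _
        · exact Continuous.intervalIntegrable (continuous_const.max (by fun_prop)) _ _
      have h2 : ∫ s in δ..1, max 0 (1 - s / δ) ≤ 0 := by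
        have : ∫ s in δ..1, max 0 (1 - s / δ) ≤ ∫ s in δ..1, (0 : ℝ) := by
          refine intervalIntegral.integral_mono_on (by linarith)
            (Continuous.intervalIntegrable (continuous_const.max (by fun_prop)) _ _)
            intervalIntegrable_const fun s hs => ?_
          refine max_le le_rfl ?_
          have : 1 ≤ s / δ := by
            rw [le_div_iff₀ hδ0]
            linarith [hs.1]
          linarith
        simpa using this
      have h3 : ∫ s in (0 : ℝ)..δ, max 0 (1 - s / δ) ≤ δ := by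
        have : ∫ s in (0 : ℝ)..δ, max 0 (1 - s / δ) ≤ ∫ s in (0 : ℝ)..δ, (1 : ℝ) := by
          refine intervalIntegral.integral_mono_on hδ0.le
            (Continuous.intervalIntegrable (continuous_const.max (by fun_prop)) _ _)
            intervalIntegrable_const fun s hs => ?_
          refine max_le zero_le_one ?_
          have : 0 ≤ s / δ := div_nonneg hs.1 hδ0.le
          linarith
        simpa using this
      linarith
    have e1 := e0 0
    have e2 : ∫ s in (0 : ℝ)..1, max 0 (1 - (1 - s) / δ) ≤ δ := by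
      have h1 := intervalIntegral.integral_comp_sub_left (a := 0) (b := 1)
        (fun s : ℝ => max 0 (1 - s / δ)) 1
      rw [sub_self, sub_zero] at h1
      rw [h1]
      exact e1
    simp only [htf]
    rw [intervalIntegral.integral_add]
    · linarith
    · exact Continuous.intervalIntegrable (continuous_const.max (by fun_prop)) _ _
    · exact Continuous.intervalIntegrable (continuous_const.max (by fun_prop)) _ _
  have hφint : ∫ z, φ z ∂(AddCircle.haarAddCircle (T := 1)) < κ / 4 := by
    have h3 : (AddCircle.haarAddCircle (T := 1)) = (volume : Measure UnitAddCircle) := by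
      rw [AddCircle.volume_eq_smul_haarAddCircle]
      simp
    rw [h3, ← UnitAddCircle.intervalIntegral_preimage 0]
    have h4 : ∫ s in (0 : ℝ)..(0 + 1), φ (s : UnitAddCircle) = ∫ s in (0 : ℝ)..1, f s := by
      rw [zero_add, intervalIntegral.integral_of_le zero_le_one,
        intervalIntegral.integral_of_le zero_le_one, integral_Ioc_eq_integral_Ioo,
        integral_Ioc_eq_integral_Ioo]
      refine setIntegral_congr_fun measurableSet_Ioo fun s hs => ?_
      rw [hφ, AddCircle.liftIco_zero_coe_apply ⟨hs.1.le, hs.2⟩]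
    rw [h4]
    have h5 : ∫ s in (0 : ℝ)..1, f s ≤ ∫ s in (0 : ℝ)..1, (zf s + K * tf s) := by
      refine intervalIntegral.integral_mono_on zero_le_one (hfc.intervalIntegrable _ _)
        ((hzfc.add (continuous_const.mul htfc)).intervalIntegrable _ _) fun s _ => ?_
      have := hzf0 s
      have : 0 ≤ K * tf s := mul_nonneg hK0.le (htf0 s)
      exact max_le (by linarith) (by linarith)
    have hKt : Continuous fun s => K * tf s := continuous_const.mul htfc
    rw [intervalIntegral.integral_add (hzfc.intervalIntegrable _ _)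
      (hKt.intervalIntegrable _ _), intervalIntegral.integral_const_mul] at h5
    have h6 : K * ∫ s in (0 : ℝ)..1, tf s ≤ κ / 16 := by
      have h7 : K * ∫ s in (0 : ℝ)..1, tf s ≤ K * (2 * (κ / (32 * K))) :=
        mul_le_mul_of_nonneg_left (hintt.trans (by linarith)) hK0.le
      refine h7.trans (le_of_eq ?_)
      field_simp
      ring
    linarith
  obtain ⟨C, hC0, hC⟩ := rot_bound θ hθ φ hφc (κ / 4) hφint
  -- the small terms
  obtain ⟨q₀, hq₀⟩ : ∃ q₀ : ℕ, (4 / B) ^ q₀ < κ / 2 / (2 ^ L + 1) := by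
    refine exists_pow_lt_of_lt_one (by positivity) ?_
    rw [div_lt_one hB0]
    linarith
  refine ⟨fun s => 2 * f (Int.fract s), 2 * C, B ^ (q₀ + L), by positivity, one_le_pow₀ hB1.le,
    fun s => by
      have : 0 ≤ f (Int.fract s) := le_max_of_le_left (hzf0 _)
      positivity, ?_, ?_⟩
  · intro x R hx1 hx2
    have hx0 : 0 < x := lt_of_lt_of_le (by positivity) hx1
    set s := Real.logb B x with hs
    have hs1 : ((q₀ + L : ℕ) : ℝ) ≤ s := by
      rw [hs, Real.le_logb_iff_rpow_le hB1 hx0, Real.rpow_natCast]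
      exact hx1
    have hs2 : s < R := by
      rw [hs, Real.logb_lt_iff_lt_rpow hB1 hx0, Real.rpow_natCast]
      exact hx2
    obtain ⟨q, hq⟩ : ∃ q : ℕ, ⌊s⌋ = q := by
      refine ⟨⌊s⌋.toNat, ?_⟩
      have : 0 ≤ ⌊s⌋ := Int.floor_nonneg.2 (le_trans (Nat.cast_nonneg _) hs1)
      omega
    have hLq : q₀ + L ≤ q := by
      have h3 : ((q₀ + L : ℕ) : ℤ) ≤ ⌊s⌋ := Int.le_floor.2 (by exact_mod_cast hs1)
      rw [hq] at h3
      exact_mod_cast h3
    have hqR : q < R := by
      have h3 : (⌊s⌋ : ℝ) ≤ s := Int.floor_le s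
      rw [hq] at h3
      have h4 : ((q : ℤ) : ℝ) < R := lt_of_le_of_lt h3 hs2
      have h5 : (q : ℝ) < R := by exact_mod_cast h4
      exact_mod_cast h5
    set t : ℝ := B ^ Int.fract s with ht
    have ht1 : t ≤ B := by
      have : B ^ Int.fract s ≤ B ^ (1 : ℝ) :=
        Real.rpow_le_rpow_of_exponent_le hB1.le (Int.fract_lt_one s).le
      rwa [Real.rpow_one] at this
    have ht0 : 0 < t := Real.rpow_pos_of_pos hB0 _
    have hxt : x = B ^ q * t := by
      have h3 : x = B ^ s := (Real.rpow_logb hB0 hB1.ne' hx0).symm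
      have h4 : s = (q : ℝ) + Int.fract s := by
        have h5 := Int.floor_add_fract s
        rw [hq] at h5
        exact_mod_cast h5.symm
      rw [h3]
      conv_lhs => rw [h4]
      rw [Real.rpow_add hB0, Real.rpow_natCast]
    obtain ⟨p, hp⟩ : ∃ p, q + 1 = p + L := ⟨q + 1 - L, by omega⟩
    have hp0 : q₀ ≤ p := by omega
    have h1 : WW B R x ≤ WW B (q + 1) x + (4 / B) ^ (q + 1) := by
      refine WW_peel' hB hqR x ?_
      rw [abs_of_pos hx0, hxt]
      have : B ^ (q + 1 + 1) = B ^ q * (B * B) := by rw [pow_succ, pow_succ]; ring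
      rw [this]
      have hBq : 0 < B ^ q := by positivity
      have : t ≤ B * B / 2 := by nlinarith
      nlinarith
    have h2 := WW_le_ZZ hB p L x
    rw [← hp] at h2
    have h3 : x / B ^ p = B ^ L' * B ^ Int.fract s := by
      rw [hxt, div_eq_iff (by positivity)]
      have : q = L' + p := by omega
      rw [this, pow_add]
      ring
    rw [h3] at h2
    have h4 : ZZ B L (B ^ L' * B ^ Int.fract s) ≤ f (Int.fract s) := le_max_left _ _
    have h4B : 4 / B ≤ 1 := by
      rw [div_le_one hB0]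
      linarith
    have h5 : (4 / B) ^ p ≤ (4 / B) ^ q₀ := pow_le_pow_of_le_one (by positivity) h4B hp0
    have h6 : (4 / B) ^ (q + 1) ≤ (4 / B) ^ q₀ := pow_le_pow_of_le_one (by positivity) h4B (by omega)
    have h7 : 2 ^ L * (4 / B) ^ p + (4 / B) ^ (q + 1) ≤ κ / 2 := by
      have h8 : (0 : ℝ) < 2 ^ L := by positivity
      rw [lt_div_iff₀ (by positivity)] at hq₀
      nlinarith
    change _ ≤ κ / 2 + 2 * f (Int.fract s)
    linarith
  · intro s M
    have := hC s M
    simp_rw [hφf] at this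
    rw [← Finset.mul_sum]
    linarith

end Pool.Agent.H534R3.Rota
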