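import Mathlib

/-! # Wave operators and bilateral shifts -/

set_option autoImplicit false

open Filter Topology
open scoped InnerProductSpace

namespace Pool.Agent.H534R3.Wave

variable {G H : Type} [NormedAddCommGroup G] [InnerProductSpace ℂ G] [CompleteSpace G]
  [NormedAddCommGroup H] [InnerProductSpace ℂ H] [CompleteSpace H]

omit [CompleteSpace G] in
/-- Existence of the wave operator. -/
theorem exists_wave (V : H ≃ₗᵢ[ℂ] H) (J : G →ₗᵢ[ℂ] H) (T : G →ₗᵢ[ℂ] G)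
    (hE : ∀ (m : ℕ) (φ : G), ‖V (J ((T ^ m) φ)) - J ((T ^ (m + 1)) φ)‖ ≤
      (1 / 16) * (1 / 2) ^ m * ‖φ‖) :
    ∃ W : G →ₗᵢ[ℂ] H, (∀ φ, V (W φ) = W (T φ)) ∧ ∀ φ, ‖W φ - J φ‖ ≤ (1 / 8) * ‖φ‖ := by
  set w : ℕ → G → H := fun m φ => (V⁻¹ ^ m) (J ((T ^ m) φ)) with hw
  have hdist : ∀ φ m, dist (w m φ) (w (m + 1) φ) ≤ ((1 / 16) * ‖φ‖) * (1 / 2) ^ m := by
    intro φ m
    have h1 : w m φ = (V⁻¹ ^ (m + 1)) (V (J ((T ^ m) φ))) := by
      rw [pow_succ (V⁻¹), LinearIsometryEquiv.coe_mul, Function.comp_apply]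
      change (V⁻¹ ^ m) (J ((T ^ m) φ)) = (V⁻¹ ^ m) (V.symm (V (J ((T ^ m) φ))))
      rw [V.symm_apply_apply]
    have h2 : w (m + 1) φ = (V⁻¹ ^ (m + 1)) (J ((T ^ (m + 1)) φ)) := rfl
    rw [h1, h2, dist_eq_norm, ← map_sub, LinearIsometryEquiv.norm_map]
    refine (hE m φ).trans (le_of_eq ?_)
    ring
  have hcau : ∀ φ, CauchySeq fun m => w m φ := fun φ =>
    cauchySeq_of_le_geometric (1 / 2) _ (by norm_num) (hdist φ)
  have hlim : ∀ φ, ∃ y, Tendsto (fun m => w m φ) atTop (𝓝 y) := fun φ =>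
    cauchySeq_tendsto_of_complete (hcau φ)
  choose W hW using hlim
  have hadd : ∀ φ χ, W (φ + χ) = W φ + W χ := by
    intro φ χ
    refine tendsto_nhds_unique (hW (φ + χ)) ?_
    have := (hW φ).add (hW χ)
    refine this.congr fun m => ?_
    simp only [hw, map_add]
  have hsmul : ∀ (c : ℂ) φ, W (c • φ) = c • W φ := by
    intro c φ
    refine tendsto_nhds_unique (hW (c • φ)) ?_
    have := (hW φ).const_smul c
    refine this.congr fun m => ?_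
    simp only [hw, map_smul]
  have hnorm : ∀ φ, ‖W φ‖ = ‖φ‖ := by
    intro φ
    refine tendsto_nhds_unique (hW φ).norm ?_
    refine tendsto_const_nhds.congr fun m => ?_
    simp only [hw, LinearIsometryEquiv.norm_map, LinearIsometry.norm_map]
  refine ⟨{ toFun := W, map_add' := hadd, map_smul' := hsmul, norm_map' := hnorm }, ?_, ?_⟩
  · intro φ
    change V (W φ) = W (T φ)
    have h1 : Tendsto (fun m => w m (T φ)) atTop (𝓝 (W (T φ))) := hW _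
    have h2 : Tendsto (fun m => V (w (m + 1) φ)) atTop (𝓝 (V (W φ))) :=
      (V.continuous.tendsto _).comp ((hW φ).comp (tendsto_add_atTop_nat 1))
    refine tendsto_nhds_unique h2 (h1.congr fun m => ?_)
    have h3 : (T ^ (m + 1)) φ = (T ^ m) (T φ) := by
      rw [pow_succ, LinearIsometry.coe_mul, Function.comp_apply]
    simp only [hw]
    rw [h3, pow_succ' (V⁻¹), LinearIsometryEquiv.coe_mul, Function.comp_apply]
    exact (V.apply_symm_apply _).symm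
  · intro φ
    change ‖W φ - J φ‖ ≤ _
    have h1 := dist_le_of_le_geometric_of_tendsto₀ (1 / 2) _ (by norm_num) (hdist φ) (hW φ)
    have h2 : w 0 φ = J φ := rfl
    rw [h2, dist_comm, dist_eq_norm] at h1
    refine h1.trans (le_of_eq ?_)
    ring

omit [CompleteSpace G] in
/-- The Wold argument. -/
theorem wold {ι : Type} (T : G →ₗᵢ[ℂ] G) (hpure : ∀ φ : G, (∀ m : ℕ, ∃ χ, (T ^ m) χ = φ) → φ = 0)
    (l : ι → G) (hl : ∀ φ : G, (∀ j, ⟪l j, φ⟫_ℂ = 0) → ∃ χ, T χ = φ)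
    (φ : G) (hφ : ∀ j (m : ℕ), ⟪(T ^ m) (l j), φ⟫_ℂ = 0) : φ = 0 := by
  refine hpure φ fun m => ?_
  induction m with
  | zero => exact ⟨φ, by simp⟩
  | succ m ih =>
    obtain ⟨χ, hχ⟩ := ih
    obtain ⟨χ', hχ'⟩ := hl χ fun j => by
      have := hφ j m
      rwa [← hχ, LinearIsometry.inner_map_map] at this
    refine ⟨χ', ?_⟩
    rw [pow_succ, LinearIsometry.coe_mul, Function.comp_apply, hχ', hχ]

/-- The orthonormal basis on which the unitary is a bilateral shift. -/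
theorem shift_basis (V : H ≃ₗᵢ[ℂ] H) (W : G →ₗᵢ[ℂ] H) (T : G →ₗᵢ[ℂ] G)
    (hVW : ∀ φ, V (W φ) = W (T φ))
    (hpure : ∀ φ : G, (∀ m : ℕ, ∃ χ, (T ^ m) χ = φ) → φ = 0)
    (l : ℕ → G) (hlo : Orthonormal ℂ l) (hlT : ∀ j χ, ⟪l j, T χ⟫_ℂ = 0)
    (hl : ∀ φ : G, (∀ j, ⟪l j, φ⟫_ℂ = 0) → ∃ χ, T χ = φ)
    (htot : ∀ ψ : H, (∀ (n : ℕ) (φ : G), ⟪W φ, (V ^ n) ψ⟫_ℂ = 0) → ψ = 0) :
    ∃ f : HilbertBasis (ℕ × ℤ) ℂ H, ∀ j n, V (f (j, n)) = f (j, n + 1) := by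
  have hVWn : ∀ (n : ℕ) φ, (V ^ n) (W φ) = W ((T ^ n) φ) := by
    intro n
    induction n with
    | zero => intro φ; simp
    | succ n ih =>
      intro φ
      rw [pow_succ, pow_succ, LinearIsometryEquiv.coe_mul, LinearIsometry.coe_mul,
        Function.comp_apply, Function.comp_apply, hVW, ih]
  set f : ℕ × ℤ → H := fun k => (V ^ k.2) (W (l k.1)) with hf
  have hsub : ∀ (a b : ℤ) (x y : H), ⟪(V ^ a) x, (V ^ b) y⟫_ℂ = ⟪x, (V ^ (b - a)) y⟫_ℂ := by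
    intro a b x y
    have h1 : (V ^ b) y = (V ^ a) ((V ^ (b - a)) y) := by
      rw [← Function.comp_apply (f := ⇑(V ^ a)), ← LinearIsometryEquiv.coe_mul, ← zpow_add]
      congr 2
      ring
    rw [h1, LinearIsometryEquiv.inner_map_map]
  have hnat : ∀ (n : ℕ) (i j : ℕ), ⟪W (l i), (V ^ (n : ℤ)) (W (l j))⟫_ℂ =
      if i = j ∧ n = 0 then 1 else 0 := by
    intro n i j
    rw [zpow_natCast, hVWn, LinearIsometry.inner_map_map]
    rcases n with _ | n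
    · have := (orthonormal_iff_ite.1 hlo) i j
      simpa using this
    · rw [pow_succ', LinearIsometry.coe_mul, Function.comp_apply, hlT]
      simp
  have hon : Orthonormal ℂ f := by
    rw [orthonormal_iff_ite]
    rintro ⟨i, a⟩ ⟨j, b⟩
    simp only [hf]
    rcases le_total a b with hab | hab
    · obtain ⟨n, hn⟩ := Int.eq_ofNat_of_zero_le (sub_nonneg.2 hab)
      rw [hsub, hn, hnat]
      congr 1
      rw [Prod.mk.injEq, eq_iff_iff]
      constructor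
      · rintro ⟨h1, h2⟩
        exact ⟨h1, by omega⟩
      · rintro ⟨h1, h2⟩
        exact ⟨h1, by omega⟩
    · obtain ⟨n, hn⟩ := Int.eq_ofNat_of_zero_le (sub_nonneg.2 hab)
      rw [← inner_conj_symm, hsub, hn, hnat]
      split_ifs with h1 h2 h2
      · simp
      · exact absurd (by rw [Prod.mk.injEq]; exact ⟨h1.1.symm, by omega⟩) h2
      · rw [Prod.mk.injEq] at h2
        exact absurd ⟨h2.1.symm, by omega⟩ h1
      · simp
  have hbot : (Submodule.span ℂ (Set.range f))ᗮ = ⊥ := by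
    rw [Submodule.eq_bot_iff]
    intro ψ hψ
    refine htot ψ fun n φ => ?_
    have h0 : ∀ k, ⟪f k, ψ⟫_ℂ = 0 := fun k =>
      (Submodule.mem_orthogonal _ _).1 hψ _ (Submodule.subset_span ⟨k, rfl⟩)
    set χ : G := (ContinuousLinearMap.adjoint W.toContinuousLinearMap) ((V ^ n) ψ) with hχ
    have hχ' : ∀ g : G, ⟪g, χ⟫_ℂ = ⟪W g, (V ^ n) ψ⟫_ℂ := by
      intro g
      rw [hχ, ContinuousLinearMap.adjoint_inner_right]
      rfl
    have hz : χ = 0 := by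
      refine wold T hpure l hl χ fun j m => ?_
      rw [hχ', ← hVWn, ← zpow_natCast V m, ← zpow_natCast V n, ← inner_conj_symm, hsub,
        ← inner_conj_symm]
      have h1 := h0 (j, (m : ℤ) - n)
      simp only [hf] at h1
      rw [h1]
      simp
    rw [← hχ', hz, inner_zero_right]
  refine ⟨HilbertBasis.mkOfOrthogonalEqBot hon hbot, fun j n => ?_⟩
  rw [HilbertBasis.coe_mkOfOrthogonalEqBot]
  simp only [hf]
  rw [add_comm, zpow_add, zpow_one, LinearIsometryEquiv.coe_mul, Function.comp_apply]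

/-- The model space of a half. -/
abbrev LL : Type := lp (fun _ : ℕ × ℕ => ℂ) 2

/-- The standard basis of the model space. -/
noncomputable def sg (k : ℕ × ℕ) : LL := lp.single 2 k (1 : ℂ)

theorem inner_sg (k : ℕ × ℕ) (φ : LL) : ⟪sg k, φ⟫_ℂ = φ k := by
  rw [sg, lp.inner_single_left]
  simp

omit [CompleteSpace H] in
theorem hasSum_clm (A : LL →L[ℂ] H) (φ : LL) : HasSum (fun k => φ k • A (sg k)) (A φ) := by
  have h1 := lp.hasSum_single (p := 2) (by norm_num) φ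
  have h3 : ∀ k, lp.single 2 k (φ k) = φ k • sg k := by
    intro k
    rw [sg, ← lp.single_smul]
    simp
  simp_rw [h3] at h1
  have h2 := h1.mapL A
  simpa using h2

/-- The isometry given by an orthonormal family. -/
theorem exists_isom {b : ℕ × ℕ → H} (hb : Orthonormal ℂ b) :
    ∃ J : LL →ₗᵢ[ℂ] H, ∀ k, J (sg k) = b k := by
  refine ⟨hb.orthogonalFamily.linearIsometry, fun k => ?_⟩
  rw [sg, OrthogonalFamily.linearIsometry_apply_single]
  simp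

theorem half (V : H ≃ₗᵢ[ℂ] H) (b : ℕ × ℕ → H) (c : ℕ × ℕ → LL) (hc : Orthonormal ℂ c)
    (hsupp : ∀ k k' : ℕ × ℕ, k'.1 + k'.2 ≤ k.1 + k.2 → c k k' = 0)
    (J : LL →ₗᵢ[ℂ] H) (hJ : ∀ k, J (sg k) = b k)
    (herr : ∀ k : ℕ × ℕ, ‖V (b k) - J (c k)‖ ≤
      (1 / 32) * (1 / 2) ^ (k.1 + k.2) * (1 / 2) ^ (Nat.pair k.1 k.2)) :
    ∃ (T : LL →ₗᵢ[ℂ] LL) (W : LL →ₗᵢ[ℂ] H), (∀ k, T (sg k) = c k) ∧
      (∀ (m : ℕ) (φ : LL) (k : ℕ × ℕ), k.1 + k.2 < m → (T ^ m) φ k = 0) ∧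
      (∀ φ, V (W φ) = W (T φ)) ∧ ∀ φ, ‖W φ - J φ‖ ≤ (1 / 8) * ‖φ‖ := by
  obtain ⟨T, hT⟩ := exists_isom hc
  have hstep : ∀ (m : ℕ) (φ : LL), (∀ k : ℕ × ℕ, k.1 + k.2 < m → φ k = 0) →
      ∀ k' : ℕ × ℕ, k'.1 + k'.2 < m + 1 → (T φ) k' = 0 := by
    intro m φ hφ k' hk'
    have h1 := hasSum_clm ((innerSL ℂ (sg k')).comp T.toContinuousLinearMap) φ
    have h2 : ∀ k, φ k • ((innerSL ℂ (sg k')).comp T.toContinuousLinearMap) (sg k) = 0 := by
      intro k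
      have e1 : ((innerSL ℂ (sg k')).comp T.toContinuousLinearMap) (sg k) = c k k' := by
        change ⟪sg k', T (sg k)⟫_ℂ = _
        rw [hT, inner_sg]
      rw [e1]
      by_cases hk : k.1 + k.2 < m
      · rw [hφ k hk, zero_smul]
      · rw [hsupp k k' (by omega), smul_zero]
    simp_rw [h2] at h1
    have h3 := h1.unique hasSum_zero
    change ⟪sg k', T φ⟫_ℂ = 0 at h3
    rwa [inner_sg] at h3
  have hsup : ∀ (m : ℕ) (φ : LL) (k : ℕ × ℕ), k.1 + k.2 < m → (T ^ m) φ k = 0 := by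
    intro m
    induction m with
    | zero => intro φ k hk; omega
    | succ m ih =>
      intro φ k hk
      rw [pow_succ', LinearIsometry.coe_mul, Function.comp_apply]
      exact hstep m _ (ih φ) k hk
  have hEb : ∀ (m : ℕ) (ψ : LL), (∀ k : ℕ × ℕ, k.1 + k.2 < m → ψ k = 0) →
      ‖V (J ψ) - J (T ψ)‖ ≤ (1 / 16) * (1 / 2) ^ m * ‖ψ‖ := by
    intro m ψ hψ
    set A : LL →L[ℂ] H := (V.toContinuousLinearEquiv : H →L[ℂ] H).comp J.toContinuousLinearMap -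
      J.toContinuousLinearMap.comp T.toContinuousLinearMap with hA
    have hAa : ∀ φ, A φ = V (J φ) - J (T φ) := fun φ => rfl
    have h1 := hasSum_clm A ψ
    rw [← hAa, ← h1.tsum_eq]
    have h2 : HasSum (fun k : ℕ × ℕ => ‖ψ‖ * ((1 / 32) * (1 / 2) ^ m) *
        (1 / 2 : ℝ) ^ (Nat.pair k.1 k.2)) (‖ψ‖ * ((1 / 32) * (1 / 2) ^ m) * 2) := by
      refine HasSum.mul_left _ ?_
      have h3 := (Nat.pairEquiv.hasSum_iff (f := fun n : ℕ => (1 / 2 : ℝ) ^ n) (a := 2)).2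
        hasSum_geometric_two
      exact h3
    refine (tsum_of_norm_bounded h2 fun k => ?_).trans (le_of_eq (by ring))
    rw [norm_smul]
    by_cases hk : k.1 + k.2 < m
    · rw [hψ k hk, norm_zero, zero_mul]
      positivity
    · rw [hAa, hJ, hT, mul_assoc]
      refine mul_le_mul (lp.norm_apply_le_norm (by norm_num) ψ k) ?_ (norm_nonneg _) (norm_nonneg _)
      refine (herr k).trans ?_
      refine mul_le_mul_of_nonneg_right ?_ (by positivity)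
      refine mul_le_mul_of_nonneg_left ?_ (by norm_num)
      exact pow_le_pow_of_le_one (by norm_num) (by norm_num) (by omega)
  obtain ⟨W, hW1, hW2⟩ := exists_wave V J T fun m φ => by
    have h1 : (T ^ (m + 1)) φ = T ((T ^ m) φ) := by
      rw [pow_succ', LinearIsometry.coe_mul, Function.comp_apply]
    rw [h1]
    refine (hEb m _ (hsup m φ)).trans (le_of_eq ?_)
    rw [LinearIsometry.norm_map]
  exact ⟨T, W, hT, hsup, hW1, hW2⟩

theorem basis_complement (T : LL →ₗᵢ[ℂ] LL)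
    (hinf : ∃ A : Set ℕ, A.Infinite ∧ ∀ j ∈ A, ∀ χ, ⟪sg (j, 0), T χ⟫_ℂ = 0) :
    ∃ l : ℕ → LL, Orthonormal ℂ l ∧ (∀ j χ, ⟪l j, T χ⟫_ℂ = 0) ∧
      ∀ φ : LL, (∀ j, ⟪l j, φ⟫_ℂ = 0) → ∃ χ, T χ = φ := by
  set K : Submodule ℂ LL := (LinearMap.range T.toLinearMap)ᗮ with hK
  obtain ⟨w, b, hb⟩ := exists_hilbertBasis ℂ K
  have hbo : Orthonormal ℂ (fun i : w => ((b i : K) : LL)) :=
    b.orthonormal.comp_linearIsometry K.subtypeₗᵢ
  have hcount : Countable w := by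
    have h1 : ∀ k : ℕ × ℕ, {i : w | ⟪((b i : K) : LL), sg k⟫_ℂ ≠ 0}.Countable := by
      intro k
      have h2 := (hbo.inner_products_summable (sg k)).countable_support
      refine h2.mono fun i hi => ?_
      rw [Function.mem_support]
      have : ‖⟪((b i : K) : LL), sg k⟫_ℂ‖ ≠ 0 := norm_ne_zero_iff.2 hi
      positivity
    have h3 : (Set.univ : Set w) ⊆ ⋃ k : ℕ × ℕ, {i : w | ⟪((b i : K) : LL), sg k⟫_ℂ ≠ 0} := by
      intro i _
      by_contra hcon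
      simp only [Set.mem_iUnion, not_exists, Set.mem_ofPred_eq, not_not] at hcon
      have h4 : ((b i : K) : LL) = 0 := by
        ext k
        have h5 := hcon k
        rw [← inner_conj_symm, inner_sg] at h5
        simpa using h5
      have h6 : ‖((b i : K) : LL)‖ = 1 := hbo.1 i
      rw [h4, norm_zero] at h6
      exact zero_ne_one h6
    exact Set.countable_univ_iff.1 ((Set.countable_iUnion h1).mono h3)
  have hinfw : Infinite w := by
    by_contra hfin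
    rw [not_infinite_iff_finite] at hfin
    have := Fintype.ofFinite w
    have : FiniteDimensional ℂ K := b.toOrthonormalBasis.toBasis.finiteDimensional_of_finite
    obtain ⟨A, hA, hA'⟩ := hinf
    have hmem : ∀ j ∈ A, sg (j, 0) ∈ K := by
      intro j hj
      rw [hK, Submodule.mem_orthogonal]
      rintro _ ⟨χ, rfl⟩
      rw [← inner_conj_symm]
      have := hA' j hj χ
      change (starRingEnd ℂ) ⟪sg (j, 0), T χ⟫_ℂ = 0
      rw [this, map_zero]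
    have hsgo : Orthonormal ℂ (fun k : ℕ × ℕ => sg k) := by
      rw [orthonormal_iff_ite]
      intro i j
      rw [inner_sg, sg, lp.single_apply]
      by_cases hij : i = j
      · rw [if_pos hij, hij, Pi.single_eq_same]
      · rw [if_neg hij, Pi.single_eq_of_ne hij]
    have hv : Orthonormal ℂ (fun j : A => (⟨sg (j.1, 0), hmem j.1 j.2⟩ : K)) := by
      have h1 : Orthonormal ℂ (fun j : A => sg (j.1, 0)) :=
        hsgo.comp (fun j : A => ((j.1, 0) : ℕ × ℕ)) fun i j hij => Subtype.ext (congrArg Prod.fst hij)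
      rw [orthonormal_iff_ite] at h1 ⊢
      intro i j
      exact h1 i j
    have := hv.linearIndependent.finite_of_isNoetherian
    exact hA (Set.toFinite A)
  obtain ⟨hden⟩ := nonempty_denumerable w
  set e : w ≃ ℕ := Denumerable.eqv w
  refine ⟨fun n => ((b (e.symm n) : K) : LL), hbo.comp _ e.symm.injective, fun j χ => ?_,
    fun φ hφ => ?_⟩
  · have h0 : ∀ y ∈ K, ⟪y, T χ⟫_ℂ = 0 := by
      intro y hy
      rw [hK, Submodule.mem_orthogonal'] at hy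
      exact hy _ ⟨χ, rfl⟩
    exact h0 _ (b (e.symm j)).2
  · have h1 : φ ∈ Kᗮ := by
      rw [Submodule.mem_orthogonal']
      intro κ hκ
      have h2 := b.hasSum_repr ⟨κ, hκ⟩
      have h3 := h2.mapL ((innerSL ℂ φ).comp K.subtypeL)
      have h4 : ∀ i, ((innerSL ℂ φ).comp K.subtypeL) (b.repr ⟨κ, hκ⟩ i • b i) = 0 := by
        intro i
        rw [map_smul]
        have h5 : ((innerSL ℂ φ).comp K.subtypeL) (b i) = 0 := by
          change ⟪φ, ((b i : K) : LL)⟫_ℂ = 0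
          rw [← inner_conj_symm]
          have := hφ (e i)
          simp only [Equiv.symm_apply_apply] at this
          rw [this, map_zero]
        rw [h5, smul_zero]
      simp_rw [h4] at h3
      exact h3.unique hasSum_zero
    rw [hK, Submodule.orthogonal_orthogonal_eq_closure] at h1
    have h2 : IsClosed ((LinearMap.range T.toLinearMap : Submodule ℂ LL) : Set LL) := by
      rw [LinearMap.coe_range]
      exact T.isometry.isClosedEmbedding.isClosed_range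
    rw [h2.submodule_topologicalClosure_eq] at h1
    obtain ⟨χ, hχ⟩ := h1
    exact ⟨χ, hχ⟩

theorem both (V : H ≃ₗᵢ[ℂ] H) (bp bm : ℕ × ℕ → H) (hpm : ∀ k k', ⟪bp k, bm k'⟫_ℂ = 0)
    (htot : ∀ ψ, (∀ k, ⟪bp k, ψ⟫_ℂ = 0) → (∀ k, ⟪bm k, ψ⟫_ℂ = 0) → ψ = 0)
    (Jp Jm : LL →ₗᵢ[ℂ] H) (hJp : ∀ k, Jp (sg k) = bp k) (hJm : ∀ k, Jm (sg k) = bm k)
    (cp cm : ℕ × ℕ → LL) (hcp : Orthonormal ℂ cp) (hcm : Orthonormal ℂ cm)
    (hsp : ∀ k k' : ℕ × ℕ, k'.1 + k'.2 ≤ k.1 + k.2 → cp k k' = 0)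
    (hsm : ∀ k k' : ℕ × ℕ, k'.1 + k'.2 ≤ k.1 + k.2 → cm k k' = 0)
    (hep : ∀ k : ℕ × ℕ, ‖V (bp k) - Jp (cp k)‖ ≤
      (1 / 32) * (1 / 2) ^ (k.1 + k.2) * (1 / 2) ^ (Nat.pair k.1 k.2))
    (hem : ∀ k : ℕ × ℕ, ‖V⁻¹ (bm k) - Jm (cm k)‖ ≤
      (1 / 32) * (1 / 2) ^ (k.1 + k.2) * (1 / 2) ^ (Nat.pair k.1 k.2))
    (hinf : ∃ A : Set ℕ, A.Infinite ∧ ∀ j ∈ A, ∀ k, cp k (j, 0) = 0) :
    ∃ f : HilbertBasis (ℕ × ℤ) ℂ H, ∀ j n, V (f (j, n)) = f (j, n + 1) := by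
  obtain ⟨Tp, Wp, hTp, hsupp, hVWp, hWJp⟩ := half V bp cp hcp hsp Jp hJp hep
  obtain ⟨Tm, Wm, hTm, hsupm, hVWm, hWJm⟩ := half V⁻¹ bm cm hcm hsm Jm hJm hem
  obtain ⟨l, hl1, hl2, hl3⟩ := basis_complement Tp (by
    obtain ⟨A, hA, hA'⟩ := hinf
    refine ⟨A, hA, fun j hj χ => ?_⟩
    have h1 := hasSum_clm ((innerSL ℂ (sg (j, 0))).comp Tp.toContinuousLinearMap) χ
    have h2 : ∀ k, χ k • ((innerSL ℂ (sg (j, 0))).comp Tp.toContinuousLinearMap) (sg k) = 0 := by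
      intro k
      have e1 : ((innerSL ℂ (sg (j, 0))).comp Tp.toContinuousLinearMap) (sg k) = cp k (j, 0) := by
        change ⟪sg (j, 0), Tp (sg k)⟫_ℂ = _
        rw [hTp, inner_sg]
      rw [e1, hA' j hj, smul_zero]
    simp_rw [h2] at h1
    exact h1.unique hasSum_zero)
  refine shift_basis V Wp Tp hVWp ?_ l hl1 hl2 hl3 ?_
  · intro φ hφ
    ext k
    obtain ⟨χ, hχ⟩ := hφ (k.1 + k.2 + 1)
    rw [← hχ, hsupp _ _ _ (Nat.lt_succ_self _)]
    rfl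
  · intro ψ hψ
    -- adjoints
    set Ap : H → LL := fun y => (ContinuousLinearMap.adjoint Jp.toContinuousLinearMap) y with hAp
    set Am : H → LL := fun y => (ContinuousLinearMap.adjoint Jm.toContinuousLinearMap) y with hAm
    have hAp' : ∀ (g : LL) (y : H), ⟪g, Ap y⟫_ℂ = ⟪Jp g, y⟫_ℂ := by
      intro g y
      rw [hAp]
      simp only
      rw [ContinuousLinearMap.adjoint_inner_right]
      rfl
    have hAm' : ∀ (g : LL) (y : H), ⟪g, Am y⟫_ℂ = ⟪Jm g, y⟫_ℂ := by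
      intro g y
      rw [hAm]
      simp only
      rw [ContinuousLinearMap.adjoint_inner_right]
      rfl
    have hdec : ∀ y : H, ‖y‖ ≤ ‖Ap y‖ + ‖Am y‖ := by
      intro y
      have h1 : y - Jp (Ap y) - Jm (Am y) = 0 := by
        have hz1 : ∀ (k : ℕ × ℕ) (y : H), ⟪bp k, Jm (Am y)⟫_ℂ = 0 := by
          intro k y
          have e1 : ⟪bp k, Jm (Am y)⟫_ℂ = (starRingEnd ℂ) ⟪Am y, Am (bp k)⟫_ℂ := by
            rw [hAm', inner_conj_symm]
          have e2 : Am (bp k) = 0 := by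
            ext k'
            rw [← inner_sg, hAm', hJm, ← inner_conj_symm, hpm, map_zero]
            rfl
          rw [e1, e2, inner_zero_right, map_zero]
        have hz2 : ∀ (k : ℕ × ℕ) (y : H), ⟪bm k, Jp (Ap y)⟫_ℂ = 0 := by
          intro k y
          have e1 : ⟪bm k, Jp (Ap y)⟫_ℂ = (starRingEnd ℂ) ⟪Ap y, Ap (bm k)⟫_ℂ := by
            rw [hAp', inner_conj_symm]
          have e2 : Ap (bm k) = 0 := by
            ext k'
            rw [← inner_sg, hAp', hJp, hpm]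
            rfl
          rw [e1, e2, inner_zero_right, map_zero]
        refine htot _ (fun k => ?_) fun k => ?_
        · rw [inner_sub_right, inner_sub_right, hz1, sub_zero, sub_eq_zero]
          rw [← hJp k, LinearIsometry.inner_map_map, hAp']
        · rw [inner_sub_right, inner_sub_right, hz2, sub_zero, sub_eq_zero]
          rw [← hJm k, LinearIsometry.inner_map_map, hAm']
      have h2 : y = Jp (Ap y) + Jm (Am y) := by
        rw [sub_sub, sub_eq_zero] at h1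
        exact h1
      calc ‖y‖ = ‖Jp (Ap y) + Jm (Am y)‖ := by rw [← h2]
        _ ≤ ‖Jp (Ap y)‖ + ‖Jm (Am y)‖ := norm_add_le _ _
        _ = _ := by rw [LinearIsometry.norm_map, LinearIsometry.norm_map]
    have hbp1 : ∀ n : ℕ, ‖Ap ((V ^ n) ψ)‖ ≤ 1 / 8 * ‖ψ‖ := by
      intro n
      set χ := Ap ((V ^ n) ψ) with hχ
      have h1 : ⟪χ, χ⟫_ℂ = ⟪Jp χ - Wp χ, (V ^ n) ψ⟫_ℂ := by
        rw [inner_sub_left, hψ, sub_zero, ← hAp']
      have h2 : ‖χ‖ * ‖χ‖ ≤ (1 / 8 * ‖χ‖) * ‖ψ‖ := by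
        calc ‖χ‖ * ‖χ‖ = ‖⟪χ, χ⟫_ℂ‖ := by
              rw [inner_self_eq_norm_sq_to_K, ← sq]
              simp
          _ = ‖⟪Jp χ - Wp χ, (V ^ n) ψ⟫_ℂ‖ := by rw [h1]
          _ ≤ ‖Jp χ - Wp χ‖ * ‖(V ^ n) ψ‖ := norm_inner_le_norm _ _
          _ ≤ (1 / 8 * ‖χ‖) * ‖ψ‖ := by
              rw [LinearIsometryEquiv.norm_map, norm_sub_rev]
              exact mul_le_mul_of_nonneg_right (hWJp χ) (norm_nonneg _)
      rcases (norm_nonneg χ).eq_or_lt with h3 | h3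
      · rw [← h3]; positivity
      · have : ‖χ‖ * ‖χ‖ ≤ ‖χ‖ * (1 / 8 * ‖ψ‖) := by linarith
        exact le_of_mul_le_mul_left this h3
    have hbm1 : ∀ ε : ℝ, 0 < ε → ∃ n : ℕ, ‖Am ((V ^ n) ψ)‖ ≤ 1 / 8 * ‖ψ‖ + ε := by
      intro ε hε
      set ζ : LL := (ContinuousLinearMap.adjoint Wm.toContinuousLinearMap) ψ with hζ
      have hζ' : ∀ g : LL, ⟪g, ζ⟫_ℂ = ⟪Wm g, ψ⟫_ℂ := by
        intro g
        rw [hζ, ContinuousLinearMap.adjoint_inner_right]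
        rfl
      have h1 := lp.hasSum_single (p := 2) (by norm_num) ζ
      obtain ⟨s, hs⟩ := ((Metric.tendsto_nhds.1 h1) ε hε).exists
      obtain ⟨n, hn⟩ : ∃ n : ℕ, ∀ k ∈ s, k.1 + k.2 < n := by
        refine ⟨(s.sup fun k => k.1 + k.2) + 1, fun k hk => ?_⟩
        exact Nat.lt_succ_of_le (Finset.le_sup (f := fun k : ℕ × ℕ => k.1 + k.2) hk)
      refine ⟨n, ?_⟩
      set χ := Am ((V ^ n) ψ) with hχ
      have hWm' : ∀ (n : ℕ) (g : LL), (V⁻¹ ^ n) (Wm g) = Wm ((Tm ^ n) g) := by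
        intro n
        induction n with
        | zero => intro g; simp
        | succ n ih =>
          intro g
          rw [pow_succ, pow_succ, LinearIsometryEquiv.coe_mul, LinearIsometry.coe_mul,
            Function.comp_apply, Function.comp_apply, hVWm, ih]
      have h2 : ⟪Wm χ, (V ^ n) ψ⟫_ℂ = ⟪(Tm ^ n) χ, ζ⟫_ℂ := by
        rw [hζ', ← hWm', ← LinearIsometryEquiv.inner_map_map (V ^ n) ((V⁻¹ ^ n) (Wm χ)) ψ]
        congr 1
        rw [← Function.comp_apply (f := ⇑(V ^ n)), ← LinearIsometryEquiv.coe_mul, inv_pow,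
          mul_inv_cancel]
        rfl
      have h3 : ‖⟪(Tm ^ n) χ, ζ⟫_ℂ‖ ≤ ‖χ‖ * ε := by
        have h4 : ⟪(Tm ^ n) χ, ∑ k ∈ s, (lp.single 2 k (ζ k) : LL)⟫_ℂ = 0 := by
          rw [inner_sum]
          refine Finset.sum_eq_zero fun k hk => ?_
          rw [lp.inner_single_right, hsupm n χ k (hn k hk)]
          simp
        have h5 : ⟪(Tm ^ n) χ, ζ⟫_ℂ = -⟪(Tm ^ n) χ, (∑ k ∈ s, (lp.single 2 k (ζ k) : LL)) - ζ⟫_ℂ := by
          rw [inner_sub_right, h4]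
          ring
        rw [h5, norm_neg]
        refine (norm_inner_le_norm _ _).trans ?_
        rw [LinearIsometry.norm_map]
        refine mul_le_mul_of_nonneg_left ?_ (norm_nonneg _)
        rw [← dist_eq_norm]
        exact hs.le
      have h6 : ⟪χ, χ⟫_ℂ = ⟪Jm χ - Wm χ, (V ^ n) ψ⟫_ℂ + ⟪(Tm ^ n) χ, ζ⟫_ℂ := by
        rw [inner_sub_left, ← h2, ← hAm']
        ring
      have h7 : ‖χ‖ * ‖χ‖ ≤ (1 / 8 * ‖χ‖) * ‖ψ‖ + ‖χ‖ * ε := by
        calc ‖χ‖ * ‖χ‖ = ‖⟪χ, χ⟫_ℂ‖ := by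
              rw [inner_self_eq_norm_sq_to_K, ← sq]
              simp
          _ = ‖⟪Jm χ - Wm χ, (V ^ n) ψ⟫_ℂ + ⟪(Tm ^ n) χ, ζ⟫_ℂ‖ := by rw [h6]
          _ ≤ ‖⟪Jm χ - Wm χ, (V ^ n) ψ⟫_ℂ‖ + ‖⟪(Tm ^ n) χ, ζ⟫_ℂ‖ := norm_add_le _ _
          _ ≤ ‖Jm χ - Wm χ‖ * ‖(V ^ n) ψ‖ + ‖χ‖ * ε := add_le_add (norm_inner_le_norm _ _) h3
          _ ≤ (1 / 8 * ‖χ‖) * ‖ψ‖ + ‖χ‖ * ε := by
              rw [LinearIsometryEquiv.norm_map, norm_sub_rev]
              exact add_le_add (mul_le_mul_of_nonneg_right (hWJm χ) (norm_nonneg _)) le_rfl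
      rcases (norm_nonneg χ).eq_or_lt with h8 | h8
      · rw [← h8]; positivity
      · have : ‖χ‖ * ‖χ‖ ≤ ‖χ‖ * (1 / 8 * ‖ψ‖ + ε) := by linarith
        exact le_of_mul_le_mul_left this h8
    by_contra hne
    have hpos : 0 < ‖ψ‖ := norm_pos_iff.2 hne
    obtain ⟨n, hn⟩ := hbm1 (‖ψ‖ / 4) (by positivity)
    have h1 := hdec ((V ^ n) ψ)
    rw [LinearIsometryEquiv.norm_map] at h1
    have h2 := hbp1 n
    linarith

theorem sg_orthonormal : Orthonormal ℂ (fun k : ℕ × ℕ => sg k) := by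
  rw [orthonormal_iff_ite]
  intro i j
  rw [inner_sg, sg, lp.single_apply]
  by_cases hij : i = j
  · rw [if_pos hij, hij, Pi.single_eq_same]
  · rw [if_neg hij, Pi.single_eq_of_ne hij]

theorem approx (b : ℕ × ℕ → H) (J : LL →ₗᵢ[ℂ] H) (hJ : ∀ k, J (sg k) = b k)
    (y : ℕ × ℕ → H) (hy : ∀ k, ‖y k‖ = 1) (B : ℕ × ℕ → Finset (ℕ × ℕ))
    (hB : ∀ k k', k ≠ k' → Disjoint (B k) (B k')) (δ : ℕ × ℕ → ℝ) (hδ0 : ∀ k, 0 ≤ δ k)
    (hδ : ∀ k, δ k < 1)
    (hyB : ∀ k, 1 - (δ k) ^ 2 ≤ ∑ k' ∈ B k, ‖⟪b k', y k⟫_ℂ‖ ^ 2) :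
    ∃ c : ℕ × ℕ → LL, Orthonormal ℂ c ∧ (∀ k k', k' ∉ B k → c k k' = 0) ∧
      ∀ k, ‖y k - J (c k)‖ ≤ 2 * δ k := by
  set z : ℕ × ℕ → LL := fun k => ∑ k' ∈ B k, ⟪b k', y k⟫_ℂ • sg k' with hz
  have hzk : ∀ k k', k' ∉ B k → z k k' = 0 := by
    intro k k' hk
    rw [← inner_sg, hz]
    simp only
    rw [inner_sum]
    refine Finset.sum_eq_zero fun i hi => ?_
    rw [inner_smul_right, (orthonormal_iff_ite.1 sg_orthonormal) k' i, if_neg, mul_zero]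
    rintro rfl
    exact hk hi
  have hzin : ∀ k k', k' ∈ B k → z k k' = ⟪b k', y k⟫_ℂ := by
    intro k k' hk
    rw [← inner_sg, hz]
    simp only
    rw [inner_sum, Finset.sum_eq_single k']
    · rw [inner_smul_right, (orthonormal_iff_ite.1 sg_orthonormal) k' k', if_pos rfl, mul_one]
    · intro i _ hi
      rw [inner_smul_right, (orthonormal_iff_ite.1 sg_orthonormal) k' i, if_neg (Ne.symm hi),
        mul_zero]
    · intro h
      exact absurd hk h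
  have hzinner : ∀ (k : ℕ × ℕ) (φ : LL), ⟪z k, φ⟫_ℂ = ∑ k' ∈ B k, (starRingEnd ℂ) (⟪b k', y k⟫_ℂ) * φ k' := by
    intro k φ
    rw [hz]
    simp only
    rw [sum_inner]
    refine Finset.sum_congr rfl fun i _ => ?_
    rw [inner_smul_left, inner_sg]
  have hzz : ∀ k, ‖z k‖ ^ 2 = ∑ k' ∈ B k, ‖⟪b k', y k⟫_ℂ‖ ^ 2 := by
    intro k
    have h1 := hzinner k (z k)
    rw [inner_self_eq_norm_sq_to_K] at h1
    have h2 : ∑ k' ∈ B k, (starRingEnd ℂ) (⟪b k', y k⟫_ℂ) * z k k' =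
        ((∑ k' ∈ B k, ‖⟪b k', y k⟫_ℂ‖ ^ 2 : ℝ) : ℂ) := by
      push_cast
      refine Finset.sum_congr rfl fun i hi => ?_
      rw [hzin k i hi, Complex.conj_mul']
    rw [h2] at h1
    apply Complex.ofReal_injective
    rw [← h1]
    push_cast
    rfl
  have hJz : ∀ k, J (z k) = ∑ k' ∈ B k, ⟪b k', y k⟫_ℂ • b k' := by
    intro k
    rw [hz]
    simp only
    rw [map_sum]
    refine Finset.sum_congr rfl fun i _ => ?_
    rw [map_smul, hJ]
  have hyz : ∀ k, ⟪y k, J (z k)⟫_ℂ = ((‖z k‖ ^ 2 : ℝ) : ℂ) := by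
    intro k
    rw [hJz, inner_sum, hzz]
    push_cast
    refine Finset.sum_congr rfl fun i _ => ?_
    rw [inner_smul_right, ← inner_conj_symm (y k) (b i), Complex.mul_conj']
  have hdist : ∀ k, ‖y k - J (z k)‖ ^ 2 = 1 - ‖z k‖ ^ 2 := by
    intro k
    rw [@norm_sub_sq ℂ, hy, hyz, LinearIsometry.norm_map]
    simp only [Complex.ofReal_re, RCLike.re_to_complex]
    ring
  have hdist2 : ∀ k, ‖y k - J (z k)‖ ≤ δ k := by
    intro k
    refine abs_le_of_sq_le_sq' ?_ (hδ0 k) |>.2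
    rw [hdist, hzz]
    linarith [hyB k]
  have hzpos : ∀ k, 1 - δ k ≤ ‖z k‖ := by
    intro k
    have h1 : ‖y k‖ ≤ ‖y k - J (z k)‖ + ‖J (z k)‖ := by
      have := norm_add_le (y k - J (z k)) (J (z k))
      rwa [sub_add_cancel] at this
    rw [hy, LinearIsometry.norm_map] at h1
    linarith [hdist2 k]
  have hz1 : ∀ k, ‖z k‖ ≤ 1 := by
    intro k
    have := hdist k
    have h2 : ‖z k‖ ^ 2 ≤ 1 := by nlinarith [sq_nonneg ‖y k - J (z k)‖]
    nlinarith [norm_nonneg (z k)]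
  have hz0 : ∀ k, 0 < ‖z k‖ := fun k => by linarith [hzpos k, hδ k]
  refine ⟨fun k => ((‖z k‖⁻¹ : ℝ) : ℂ) • z k, ?_, ?_, ?_⟩
  · rw [orthonormal_iff_ite]
    intro i j
    rw [inner_smul_left, inner_smul_right, Complex.conj_ofReal]
    by_cases hij : i = j
    · rw [if_pos hij, hij, inner_self_eq_norm_sq_to_K]
      have := (hz0 j).ne'
      have h3 : (‖z j‖ : ℂ) ≠ 0 := by exact_mod_cast this
      push_cast
      field_simp
      rfl
    · rw [if_neg hij, hzinner]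
      have : ∑ k' ∈ B i, (starRingEnd ℂ) (⟪b k', y i⟫_ℂ) * z j k' = 0 := by
        refine Finset.sum_eq_zero fun k' hk' => ?_
        rw [hzk j k' (Finset.disjoint_left.1 (hB i j hij) hk'), mul_zero]
      rw [this, mul_zero, mul_zero]
  · intro k k' hk
    change ((‖z k‖⁻¹ : ℝ) : ℂ) • (z k k') = 0
    rw [hzk k k' hk, smul_zero]
  · intro k
    have h1 : y k - J (((‖z k‖⁻¹ : ℝ) : ℂ) • z k) =
        (y k - J (z k)) + ((1 - ‖z k‖⁻¹ : ℝ) : ℂ) • J (z k) := by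
      rw [map_smul]
      push_cast
      rw [sub_smul, one_smul]
      abel
    rw [h1]
    refine (norm_add_le _ _).trans ?_
    have h2 : ‖((1 - ‖z k‖⁻¹ : ℝ) : ℂ) • J (z k)‖ = 1 - ‖z k‖ := by
      rw [norm_smul, Complex.norm_real, LinearIsometry.norm_map, Real.norm_eq_abs,
        abs_of_nonpos, neg_sub, sub_mul, inv_mul_cancel₀ (hz0 k).ne', one_mul]
      have := (one_le_inv₀ (hz0 k)).2 (hz1 k)
      linarith
    rw [h2]
    linarith [hdist2 k, hzpos k]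

/-- The deterministic part. -/
theorem main_det (b : ℕ × ℤ → H) (hb : Orthonormal ℂ b)
    (htot : ∀ ψ, (∀ k, ⟪b k, ψ⟫_ℂ = 0) → ψ = 0)
    (S x : H ≃ₗᵢ[ℂ] H) (hS : ∀ j n, S (b (j, n)) = b (j, n + 1))
    (P M : ℕ × ℕ → Finset (ℕ × ℕ))
    (hP : ∀ k k', k ≠ k' → Disjoint (P k) (P k')) (hM : ∀ k k', k ≠ k' → Disjoint (M k) (M k'))
    (hPr : ∀ k, ∀ k' ∈ P k, k.1 + k.2 < k'.1 + k'.2)
    (hMr : ∀ k, ∀ k' ∈ M k, k.1 + k.2 < k'.1 + k'.2)
    (hinf : ∃ A : Set ℕ, A.Infinite ∧ ∀ j ∈ A, ∀ k, (j, 0) ∉ P k)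
    (δ : ℕ × ℕ → ℝ) (hδ : ∀ k, δ k = (1 / 64) * (1 / 2) ^ (k.1 + k.2) * (1 / 2) ^ (Nat.pair k.1 k.2))
    (hxP : ∀ k : ℕ × ℕ, 1 - (δ k) ^ 2 ≤
      ∑ k' ∈ P k, ‖⟪b (k'.1, (k'.2 : ℤ)), x (b (k.1, (k.2 : ℤ) + 1))⟫_ℂ‖ ^ 2)
    (hxM : ∀ k : ℕ × ℕ, 1 - (δ k) ^ 2 ≤
      ∑ k' ∈ M k, ‖⟪b (k'.1, -(k'.2 : ℤ)), x⁻¹ (b (k.1, -(k.2 : ℤ) - 1))⟫_ℂ‖ ^ 2) :
    ∃ f : HilbertBasis (ℕ × ℤ) ℂ H, ∀ j n, (S * x) (f (j, n)) = f (j, n + 1) := by
  have hδ0 : ∀ k, 0 ≤ δ k := fun k => by rw [hδ]; positivity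
  have hδ1 : ∀ k, δ k < 1 := fun k => by
    rw [hδ]
    have h1 : (1 / 2 : ℝ) ^ (k.1 + k.2) ≤ 1 := pow_le_one₀ (by norm_num) (by norm_num)
    have h2 : (1 / 2 : ℝ) ^ (Nat.pair k.1 k.2) ≤ 1 := pow_le_one₀ (by norm_num) (by norm_num)
    have h3 : (0 : ℝ) ≤ (1 / 2 : ℝ) ^ (k.1 + k.2) := by positivity
    have h4 : (0 : ℝ) ≤ (1 / 2 : ℝ) ^ (Nat.pair k.1 k.2) := by positivity
    nlinarith [mul_le_mul h1 h2 h4 zero_le_one]
  have hb0 : Orthonormal ℂ (fun k : ℕ × ℕ => b (k.1, (k.2 : ℤ))) :=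
    hb.comp (fun k : ℕ × ℕ => ((k.1, (k.2 : ℤ)) : ℕ × ℤ)) fun k k' h => by
      rw [Prod.mk.injEq] at h
      exact Prod.ext h.1 (by exact_mod_cast h.2)
  have hbm : Orthonormal ℂ (fun k : ℕ × ℕ => b (k.1, -(k.2 : ℤ))) :=
    hb.comp (fun k : ℕ × ℕ => ((k.1, -(k.2 : ℤ)) : ℕ × ℤ)) fun k k' h => by
      rw [Prod.mk.injEq] at h
      exact Prod.ext h.1 (by have := h.2; omega)
  obtain ⟨J0, hJ0⟩ := exists_isom hb0
  obtain ⟨Jm, hJm⟩ := exists_isom hbm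
  obtain ⟨cp, hcp, hcps, hcpe⟩ := approx (fun k => b (k.1, (k.2 : ℤ))) J0 hJ0
    (fun k => x (b (k.1, (k.2 : ℤ) + 1))) (fun k => by rw [LinearIsometryEquiv.norm_map]; exact hb.1 _)
    P hP δ hδ0 hδ1 hxP
  obtain ⟨cm, hcm, hcms, hcme⟩ := approx (fun k => b (k.1, -(k.2 : ℤ))) Jm hJm
    (fun k => x⁻¹ (b (k.1, -(k.2 : ℤ) - 1))) (fun k => by rw [LinearIsometryEquiv.norm_map]; exact hb.1 _)
    M hM δ hδ0 hδ1 hxM
  have hSinv : ∀ j n, S⁻¹ (b (j, n)) = b (j, n - 1) := by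
    intro j n
    have h1 := hS j (n - 1)
    rw [sub_add_cancel] at h1
    rw [← h1]
    exact S.symm_apply_apply _
  refine both (S * x) (fun k => b (k.1, (k.2 : ℤ) + 1)) (fun k => b (k.1, -(k.2 : ℤ)))
    ?_ ?_ (S.toLinearIsometry.comp J0) Jm ?_ hJm cp cm hcp hcm ?_ ?_ ?_ ?_ ?_
  · intro k k'
    rw [(orthonormal_iff_ite.1 hb) _ _, if_neg]
    intro h
    rw [Prod.mk.injEq] at h
    omega
  · intro ψ h1 h2
    refine htot ψ fun k => ?_
    obtain ⟨j, n⟩ := k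
    by_cases hn : 0 < n
    · have := h1 (j, (n - 1).toNat)
      simp only at this
      rwa [Int.toNat_of_nonneg (by omega), sub_add_cancel] at this
    · have := h2 (j, (-n).toNat)
      simp only at this
      rwa [Int.toNat_of_nonneg (by omega), neg_neg] at this
  · intro k
    change S (J0 (sg k)) = _
    rw [hJ0, hS]
  · intro k k' hk
    refine hcps k k' fun h => ?_
    have := hPr k k' h
    omega
  · intro k k' hk
    refine hcms k k' fun h => ?_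
    have := hMr k k' h
    omega
  · intro k
    have h1 : (S * x) (b (k.1, (k.2 : ℤ) + 1)) - (S.toLinearIsometry.comp J0) (cp k) =
        S (x (b (k.1, (k.2 : ℤ) + 1)) - J0 (cp k)) := by
      rw [map_sub]
      rfl
    rw [h1, LinearIsometryEquiv.norm_map]
    refine (hcpe k).trans (le_of_eq ?_)
    rw [hδ]
    ring
  · intro k
    have h1 : (S * x)⁻¹ (b (k.1, -(k.2 : ℤ))) = x⁻¹ (b (k.1, -(k.2 : ℤ) - 1)) := by
      rw [mul_inv_rev, LinearIsometryEquiv.coe_mul, Function.comp_apply, hSinv]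
    rw [h1]
    refine (hcme k).trans (le_of_eq ?_)
    rw [hδ]
    ring
  · obtain ⟨A, hA, hA'⟩ := hinf
    exact ⟨A, hA, fun j hj k => hcps k _ (hA' j hj k)⟩

/-- Two shifts are conjugate. -/
theorem shift_conj (V V' : H ≃ₗᵢ[ℂ] H) (f f' : HilbertBasis (ℕ × ℤ) ℂ H)
    (hf : ∀ j n, V (f (j, n)) = f (j, n + 1)) (hf' : ∀ j n, V' (f' (j, n)) = f' (j, n + 1)) :
    IsConj V V' := by
  classical
  set Ω : H ≃ₗᵢ[ℂ] H := f.repr.trans f'.repr.symm with hΩ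
  have hΩf : ∀ k, Ω (f k) = f' k := by
    intro k
    rw [hΩ, LinearIsometryEquiv.trans_apply, f.repr_self, f'.repr_symm_single]
  rw [isConj_iff]
  refine ⟨Ω, ?_⟩
  have h1 : Ω * V = V' * Ω := by
    have h2 : ∀ k, (Ω * V) (f k) = (V' * Ω) (f k) := by
      rintro ⟨j, n⟩
      rw [LinearIsometryEquiv.coe_mul, LinearIsometryEquiv.coe_mul, Function.comp_apply,
        Function.comp_apply, hf, hΩf, hΩf, hf']
    ext y
    have h3 := (f.hasSum_repr y).mapL ((Ω * V).toContinuousLinearEquiv : H →L[ℂ] H)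
    have h4 := (f.hasSum_repr y).mapL ((V' * Ω).toContinuousLinearEquiv : H →L[ℂ] H)
    have h5 : ∀ k, ((Ω * V).toContinuousLinearEquiv : H →L[ℂ] H) (f.repr y k • f k) =
        ((V' * Ω).toContinuousLinearEquiv : H →L[ℂ] H) (f.repr y k • f k) := by
      intro k
      rw [map_smul, map_smul]
      congr 1
      exact h2 k
    simp_rw [h5] at h3
    exact h3.unique h4
  rw [h1, mul_inv_cancel_right]

end Pool.Agent.H534R3.Wave
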