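import Pool.Agent.H534R3.XRed
import Pool.Agent.H534R3.Local

/-! # Applications of the reduction for real bases -/

set_option autoImplicit false

open Filter Topology

namespace Pool.Agent.H534R3.Rota

open Pool.Agent.H534R3.UDist

theorem log_abs_pos {α : ℕ → ℝ} (hα : ∀ i, 1 < |α i|) (i : ℕ) : 0 < Real.log |α i| :=
  Real.log_pos (hα i)

theorem rel_iff (α : ℕ → ℝ) (i i' : ℕ) :
    rel α i i' ↔ ∃ q : ℚ, (q : ℝ) = Real.log |α i'| / Real.log |α i| := by
  rw [rel, Irrational, not_not]
  rfl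

theorem rel_symm {α : ℕ → ℝ} {i i' : ℕ} (h : rel α i i') : rel α i' i := by
  rw [rel_iff] at h ⊢
  obtain ⟨q, hq⟩ := h
  refine ⟨q⁻¹, ?_⟩
  push_cast
  rw [hq, inv_div]

theorem rel_trans {α : ℕ → ℝ} (hα : ∀ i, 1 < |α i|) {i i' i'' : ℕ} (h : rel α i i')
    (h' : rel α i' i'') : rel α i i'' := by
  rw [rel_iff] at h h' ⊢
  obtain ⟨q, hq⟩ := h
  obtain ⟨q', hq'⟩ := h'
  refine ⟨q' * q, ?_⟩
  have h1 := (log_abs_pos hα i').ne'
  have h2 := (log_abs_pos hα i).ne'
  push_cast
  rw [hq, hq']
  field_simp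

/-- The simultaneous reduction for a family of bases with infinitely many classes. -/
theorem reduce_union (α : ℕ → ℝ) (hα : ∀ i, 1 < |α i|) (p : ℕ → ℕ)
    (hp : ∀ m n, m ≠ n → ¬ rel α (p m) (p n)) :
    ∃ g : (ℕ → ℕ → ℕ) → ℝ, Continuous g ∧
      ∀ W, (∃ i, UD (fun n => g W * α i ^ n)) ↔ ∃ c, Tendsto (W c) atTop atTop := by
  classical
  set κ : ℕ → ℕ := fun i => if h : ∃ m, rel α (p m) i then h.choose else 0 with hκ
  have huniq : ∀ m m' i, rel α (p m) i → rel α (p m') i → m = m' := by
    intro m m' i h h'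
    by_contra hne
    exact hp m m' hne (rel_trans hα h (rel_symm h'))
  have hκrel : ∀ i i', rel α i i' → κ i = κ i' := by
    intro i i' hii
    by_cases h : ∃ m, rel α (p m) i
    · have h' : ∃ m, rel α (p m) i' := ⟨h.choose, rel_trans hα h.choose_spec hii⟩
      simp only [hκ]
      rw [dif_pos h, dif_pos h']
      exact huniq _ _ i' (rel_trans hα h.choose_spec hii) h'.choose_spec
    · have h' : ¬ ∃ m, rel α (p m) i' := by
        rintro ⟨m, hm⟩
        exact h ⟨m, rel_trans hα hm (rel_symm hii)⟩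
      simp only [hκ]
      rw [dif_neg h, dif_neg h']
  have hrefl : ∀ i, rel α i i := by
    intro i
    rw [rel_iff]
    refine ⟨1, ?_⟩
    rw [div_self (log_abs_pos hα i).ne']
    norm_num
  have hκp : ∀ c, κ (p c) = c := by
    intro c
    have h : ∃ m, rel α (p m) (p c) := ⟨c, hrefl _⟩
    simp only [hκ]
    rw [dif_pos h]
    exact huniq _ _ (p c) h.choose_spec (hrefl _)
  obtain ⟨g, hg, hgw⟩ := reduceX α hα (fun j => (Nat.unpair j).1)
  set v : (ℕ → ℕ → ℕ) → ℕ → ℕ := fun W j =>
    W (κ (Nat.unpair j).1) (Nat.unpair j).2 + (Nat.unpair j).1 with hv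
  have hvc : Continuous v := by
    refine continuous_pi fun j => ?_
    have h1 : Continuous fun W : ℕ → ℕ → ℕ => W (κ (Nat.unpair j).1) (Nat.unpair j).2 :=
      (continuous_apply (Nat.unpair j).2).comp (continuous_apply (κ (Nat.unpair j).1))
    exact h1.add continuous_const
  have hmain : ∀ W i, UD (fun n => g (v W) * α i ^ n) ↔ Tendsto (W (κ i)) atTop atTop := by
    intro W i
    constructor
    · intro hud
      by_contra hcon
      rw [tendsto_atTop_atTop] at hcon
      push Not at hcon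
      obtain ⟨e, he⟩ := hcon
      refine (hgw (v W) i).2 ⟨e + i, fun J => ?_⟩ hud
      obtain ⟨m, hm, hme⟩ := he J
      refine ⟨Nat.pair i m, hm.trans (Nat.right_le_pair i m), ?_, ?_⟩
      · rw [Nat.unpair_pair]
      · simp only [hv, Nat.unpair_pair]
        omega
    · intro ht
      refine (hgw (v W) i).1 fun e => ?_
      obtain ⟨M, hM⟩ := tendsto_atTop_atTop.1 ht e
      refine ⟨Nat.pair e M, fun j hj hjrel => ?_⟩
      have h1 : κ (Nat.unpair j).1 = κ i := hκrel _ _ hjrel
      simp only [hv]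
      rw [h1]
      by_cases h2 : e ≤ (Nat.unpair j).1
      · omega
      · have h3 : M ≤ (Nat.unpair j).2 := by
          by_contra h4
          have e1 : Nat.pair (Nat.unpair j).1 (Nat.unpair j).2 < Nat.pair (Nat.unpair j).1 M :=
            Nat.pair_lt_pair_right _ (by omega)
          have e2 : Nat.pair (Nat.unpair j).1 M < Nat.pair e M :=
            Nat.pair_lt_pair_left _ (by omega)
          rw [Nat.pair_unpair] at e1
          omega
        have := hM _ h3
        omega
  refine ⟨fun W => g (v W), hg.comp hvc, fun W => ?_⟩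
  constructor
  · rintro ⟨i, hi⟩
    exact ⟨κ i, (hmain W i).1 hi⟩
  · rintro ⟨c, hc⟩
    refine ⟨p c, (hmain W (p c)).2 ?_⟩
    rw [hκp]
    exact hc

/-- The reduction for two real bases. -/
theorem reduce_two_real (a b : ℝ) (ha : 1 < |a|) (hb : 1 < |b|)
    (hab : Irrational (Real.log |a| / Real.log |b|)) :
    ∃ g : (ℕ → ℕ) → ℝ, Continuous g ∧
      (∀ w, UD (fun n => g w * a ^ n) ↔ ∀ e, ∃ J, ∀ j, J ≤ j → ty j = true → e ≤ w j) ∧
      (∀ w, UD (fun n => g w * b ^ n) ↔ ∀ e, ∃ J, ∀ j, J ≤ j → ty j = false → e ≤ w j) := by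
  set α : ℕ → ℝ := fun i => if i = 0 then a else b with hα
  have hα0 : α 0 = a := by simp [hα]
  have hα1 : α 1 = b := by simp [hα]
  have hα' : ∀ i, 1 < |α i| := by
    intro i
    simp only [hα]
    split_ifs
    · exact ha
    · exact hb
  set tt : ℕ → ℕ := fun j => if ty j = true then 0 else 1 with htt
  have hn : ¬ rel α 1 0 := by
    rw [rel_iff, hα0, hα1]
    rintro ⟨q, hq⟩
    exact hab ⟨q, hq⟩
  have hn' : ¬ rel α 0 1 := fun h => hn (rel_symm h)
  obtain ⟨g, hg, hgw⟩ := reduceX α hα' tt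
  refine ⟨g, hg, fun w => ?_, fun w => ?_⟩
  · have h0 := hgw w 0
    rw [hα0] at h0
    constructor
    · intro hud
      by_contra hcon
      push Not at hcon
      obtain ⟨e, he⟩ := hcon
      refine h0.2 ⟨e, fun J => ?_⟩ hud
      obtain ⟨j, hj, hjt, hje⟩ := he J
      refine ⟨j, hj, ?_, hje.le⟩
      simp only [htt]
      rw [if_pos hjt]
    · intro h
      refine h0.1 fun e => ?_
      obtain ⟨J, hJ⟩ := h e
      refine ⟨J, fun j hj hjr => hJ j hj ?_⟩
      by_contra hne
      simp only [htt] at hjr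
      rw [if_neg hne] at hjr
      exact hn hjr
  · have h0 := hgw w 1
    rw [hα1] at h0
    constructor
    · intro hud
      by_contra hcon
      push Not at hcon
      obtain ⟨e, he⟩ := hcon
      refine h0.2 ⟨e, fun J => ?_⟩ hud
      obtain ⟨j, hj, hjt, hje⟩ := he J
      refine ⟨j, hj, ?_, hje.le⟩
      simp only [htt]
      rw [if_neg (by rw [hjt]; simp)]
    · intro h
      refine h0.1 fun e => ?_
      obtain ⟨J, hJ⟩ := h e
      refine ⟨J, fun j hj hjr => hJ j hj ?_⟩
      by_contra hne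
      have hne' : ty j = true := by
        cases hty : ty j
        · exact absurd hty hne
        · rfl
      simp only [htt] at hjr
      rw [if_pos hne'] at hjr
      exact hn' hjr

end Pool.Agent.H534R3.Rota
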