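import Pool.Agent.H534R3.Bias

/-! # Repeated biased blocks for real bases -/

set_option autoImplicit false

open MeasureTheory Filter Topology
open scoped Real

namespace Pool.Agent.H534R3.Rota

open Pool.Agent.H534R3.UDist

theorem pertd {α b : ℝ} (hα : 1 < |α|) (hb : 1 < b) (q h n' a : ℕ) (hh : h ≤ q) (ξ ξ' : ℝ)
    (hξ : |ξ' - ξ| ≤ 2 / b ^ n') :
    ‖∑ m ∈ Finset.Ico a (tau |α| b n'), ee (h * (ξ' * α ^ m)) -
      ∑ m ∈ Finset.Ico a (tau |α| b n'), ee (h * (ξ * α ^ m))‖ ≤ EE q α := by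
  have hb0 : 0 < b ^ n' := by positivity
  have hα1 : 0 < |α| - 1 := by linarith
  rw [← Finset.sum_sub_distrib]
  refine (norm_sum_le _ _).trans ?_
  have h2 : ∀ m ∈ Finset.Ico a (tau |α| b n'),
      ‖ee (h * (ξ' * α ^ m)) - ee (h * (ξ * α ^ m))‖ ≤ (4 * π * q / b ^ n') * |α| ^ m := by
    intro m _
    refine (ee_lip _ _).trans ?_
    have e1 : (h : ℝ) * (ξ' * α ^ m) - h * (ξ * α ^ m) = h * (ξ' - ξ) * α ^ m := by ring
    rw [e1, abs_mul, abs_mul, abs_pow, Nat.abs_cast]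
    have e2 : (h : ℝ) ≤ q := by exact_mod_cast hh
    have e3 : 0 ≤ |α| ^ m := by positivity
    have e4 : (h : ℝ) * |ξ' - ξ| ≤ q * (2 / b ^ n') :=
      mul_le_mul e2 hξ (abs_nonneg _) (by positivity)
    calc 2 * π * (h * |ξ' - ξ| * |α| ^ m) = (2 * π * |α| ^ m) * (h * |ξ' - ξ|) := by ring
      _ ≤ (2 * π * |α| ^ m) * (q * (2 / b ^ n')) :=
          mul_le_mul_of_nonneg_left e4 (by positivity)
      _ = _ := by ring
  refine (Finset.sum_le_sum h2).trans ?_
  rw [← Finset.mul_sum]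
  have h3 : ∑ m ∈ Finset.Ico a (tau |α| b n'), |α| ^ m ≤ |α| * b ^ n' / (|α| - 1) := by
    have e1 : ∑ m ∈ Finset.Ico a (tau |α| b n'), |α| ^ m ≤
        ∑ m ∈ Finset.range (tau |α| b n'), |α| ^ m := by
      refine Finset.sum_le_sum_of_subset_of_nonneg ?_ fun m _ _ => by positivity
      intro m hm
      exact Finset.mem_range.2 (Finset.mem_Ico.1 hm).2
    refine e1.trans ?_
    rw [geom_sum_eq hα.ne']
    refine div_le_div_of_nonneg_right ?_ hα1.le
    have := tau_up hα hb n'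
    linarith
  refine (mul_le_mul_of_nonneg_left h3 (by positivity)).trans (le_of_eq ?_)
  rw [EE]
  field_simp

theorem cos_abs_pow (ξ β : ℝ) (m : ℕ) :
    Real.cos (2 * π * (ξ * |β| ^ m)) = Real.cos (2 * π * (ξ * β ^ m)) := by
  rw [← abs_pow]
  rcases abs_choice (β ^ m) with h | h
  · rw [h]
  · rw [h]
    have : 2 * π * (ξ * -β ^ m) = -(2 * π * (ξ * β ^ m)) := by ring
    rw [this, Real.cos_neg]

theorem cos_pert {b : ℝ} (hb : 1 < b) (n n' : ℕ) (ξ ξ' : ℝ) (hξ : |ξ' - ξ| ≤ 2 / b ^ n') :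
    ∑ m ∈ Finset.Ico n n', Real.cos (2 * π * (ξ * b ^ m)) - EE 1 b ≤
      ∑ m ∈ Finset.Ico n n', Real.cos (2 * π * (ξ' * b ^ m)) := by
  have habs : |b| = b := abs_of_pos (by linarith)
  have h1 := pertd (α := b) (by rw [habs]; exact hb) hb 1 1 n' n le_rfl ξ ξ' hξ
  rw [habs, tau_self hb] at h1
  have h2 : ∀ ζ : ℝ, (∑ m ∈ Finset.Ico n n', ee (((1 : ℕ) : ℝ) * (ζ * b ^ m))).re =
      ∑ m ∈ Finset.Ico n n', Real.cos (2 * π * (ζ * b ^ m)) := by
    intro ζ
    rw [Complex.re_sum]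
    refine Finset.sum_congr rfl fun m _ => ?_
    rw [ee_re, Nat.cast_one, one_mul]
  have h3 := (Complex.abs_re_le_norm _).trans h1
  rw [Complex.sub_re, h2, h2] at h3
  have := (abs_le.1 h3).1
  linarith

/-- The basic biased block. -/
theorem XBlock {b : ℝ} (hb : 1 < b) (k : ℕ) (hk1 : 1 ≤ k) (hB : 16 ≤ b ^ k)
    (hBc : 2 ≤ b ^ k * (1 - 1 / b)) (α : ℕ → ℝ) (hα : ∀ i, 1 < |α i|) (q : ℕ) (hq : 1 ≤ q) :
    ∃ M D : ℕ, 1 ≤ M ∧ (∀ i < q, ∀ n, tau |α i| b (n + M) ≤ tau |α i| b n + D) ∧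
      ∀ (n : ℕ) (u : ℝ), ∃ u' : ℝ,
        Set.Icc u' (u' + 2 / b ^ (n + M)) ⊆ Set.Icc u (u + 2 / b ^ n) ∧
        ∀ ξ ∈ Set.Icc u' (u' + 2 / b ^ (n + M)),
          (M : ℝ) / (64 * k) ≤ ∑ m ∈ Finset.Ico n (n + M), Real.cos (2 * π * (ξ * b ^ m)) ∧
          ∀ i < q, Irrational (Real.logb (b ^ k) |α i|) → ∀ h : ℕ, 1 ≤ h → h ≤ q →
            ‖∑ m ∈ Finset.Ico (tau |α i| b n) (tau |α i| b (n + M)), ee (h * (ξ * α i ^ m))‖ ≤
              ((tau |α i| b (n + M) - tau |α i| b n : ℕ) : ℝ) / q := by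
  have hq0 : (0 : ℝ) < q := by exact_mod_cast hq
  have hk0 : (0 : ℝ) < k := by exact_mod_cast hk1
  have hb0 : 0 < b := by linarith
  obtain ⟨R0, hR0⟩ := biased_good hb k hk1 hB hBc α hα q hq
  have hD : ∀ i, ∃ D : ℕ, 2 * q * EE q (α i) ≤ D := fun i => exists_nat_ge _
  choose D hD using hD
  have hM : ∀ i, ∃ M : ℕ, |α i| ^ (D i + 1) ≤ b ^ M := by
    intro i
    obtain ⟨M, hM⟩ := pow_unbounded_of_one_lt (|α i| ^ (D i + 1)) hb
    exact ⟨M, hM.le⟩
  choose Mi hMi using hM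
  obtain ⟨Mb, hMb⟩ := exists_nat_ge (64 * k * EE 1 b)
  set R : ℕ := R0 + (Finset.range q).sup Mi + Mb with hR
  set M : ℕ := k * (R + 1) with hMdef
  have hRM : R + 1 ≤ M := by
    have : 1 * (R + 1) ≤ k * (R + 1) := Nat.mul_le_mul_right _ hk1
    omega
  have hkM : k ≤ M := by
    have : k * 1 ≤ k * (R + 1) := Nat.mul_le_mul_left _ (by omega)
    omega
  have hMM : ∀ i < q, |α i| ^ (D i + 1) ≤ b ^ M := by
    intro i hi
    refine (hMi i).trans (pow_le_pow_right₀ hb.le ?_)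
    have := Finset.le_sup (f := Mi) (Finset.mem_range.2 hi)
    omega
  have hM2 : 2 ≤ b ^ M := by
    have := pow_le_pow_right₀ hb.le hkM
    linarith
  have hD' : ∀ i, ∃ D' : ℕ, |α i| * b ^ M ≤ |α i| ^ D' := by
    intro i
    obtain ⟨D', hD'⟩ := pow_unbounded_of_one_lt (|α i| * b ^ M) (hα i)
    exact ⟨D', hD'.le⟩
  choose D' hD' using hD'
  refine ⟨M, (Finset.range q).sup D', by omega, ?_, ?_⟩
  · intro i hi n
    refine (tau_diff' (hα i) hb (hD' i) n).trans ?_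
    exact Nat.add_le_add_left (Finset.le_sup (f := D') (Finset.mem_range.2 hi)) _
  · intro n u
    have hbn : 0 < b ^ n := by positivity
    have hbM : 0 < b ^ M := by positivity
    have hdiff : ∀ i < q, (D i : ℝ) ≤ ((tau |α i| b (n + M) - tau |α i| b n : ℕ) : ℝ) := by
      intro i hi
      have := tau_diff (hα i) hb (hMM i hi) n
      exact_mod_cast (by omega : D i ≤ tau |α i| b (n + M) - tau |α i| b n)
    obtain ⟨ξ₀, hξ₀, hbias, hgood⟩ := hR0 R (by omega) n u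
    refine ⟨ξ₀, ?_, ?_⟩
    · intro ξ hξ
      have h1 : 2 / b ^ (n + M) ≤ 1 / b ^ n := by
        rw [pow_add, div_le_div_iff₀ (by positivity) hbn]
        nlinarith
      have h2 : 2 / b ^ n = 1 / b ^ n + 1 / b ^ n := by ring
      constructor
      · exact hξ₀.1.trans hξ.1
      · linarith [hξ.2, hξ₀.2]
    · intro ξ hξ
      have h3 : |ξ - ξ₀| ≤ 2 / b ^ (n + M) := by
        rw [abs_le]
        have : 0 ≤ 2 / b ^ (n + M) := by positivity
        constructor <;> linarith [hξ.1, hξ.2]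
      constructor
      · have h1 := cos_pert hb n (n + M) ξ₀ ξ h3
        have h2 : EE 1 b ≤ (M : ℝ) / (64 * k) := by
          rw [le_div_iff₀ (by positivity)]
          have : (Mb : ℝ) ≤ M := by exact_mod_cast (by omega : Mb ≤ M)
          linarith
        have h4 : (M : ℝ) / (32 * k) = M / (64 * k) + M / (64 * k) := by
          field_simp
          ring
        rw [h4] at hbias
        linarith
      · intro i hi hirr h h1 h2
        refine (pert (hα i) hb q h (n + M) (tau |α i| b n) h2 ξ₀ ξ h3).trans ?_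
        have h4 := hgood i hi hirr h h1 h2
        have h5 := hdiff i hi
        have h6 := hD i
        have h7 : EE q (α i) ≤ ((tau |α i| b (n + M) - tau |α i| b n : ℕ) : ℝ) / (2 * q) := by
          rw [le_div_iff₀ (by positivity)]
          linarith
        have h8 : ∀ d : ℝ, d / q = d / (2 * q) + d / (2 * q) := by
          intro d
          field_simp
          ring
        rw [h8]
        exact add_le_add h4 h7

/-- Repeated biased blocks. -/
theorem XRep {b : ℝ} (hb : 1 < b) (k : ℕ) (hk1 : 1 ≤ k) (hB : 16 ≤ b ^ k)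
    (hBc : 2 ≤ b ^ k * (1 - 1 / b)) (α : ℕ → ℝ) (hα : ∀ i, 1 < |α i|) (q : ℕ) (hq : 1 ≤ q) :
    ∃ M D : ℕ, 1 ≤ M ∧ ∀ (T n : ℕ) (u : ℝ), ∃ u' : ℝ,
        Set.Icc u' (u' + 2 / b ^ (n + M * T)) ⊆ Set.Icc u (u + 2 / b ^ n) ∧
        ∀ ξ ∈ Set.Icc u' (u' + 2 / b ^ (n + M * T)),
          ((M * T : ℕ) : ℝ) / (64 * k) ≤
            ∑ m ∈ Finset.Ico n (n + M * T), Real.cos (2 * π * (ξ * b ^ m)) ∧
          ∀ i < q, Irrational (Real.logb (b ^ k) |α i|) → ∀ h : ℕ, 1 ≤ h → h ≤ q →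
          ∀ N, tau |α i| b n ≤ N → N ≤ tau |α i| b (n + M * T) →
          ‖∑ m ∈ Finset.Ico (tau |α i| b n) N, ee (h * (ξ * α i ^ m))‖ ≤
            ((N - tau |α i| b n : ℕ) : ℝ) / q + D := by
  obtain ⟨M, D, hM, hD, hG⟩ := XBlock hb k hk1 hB hBc α hα q hq
  have hq0 : (0 : ℝ) < q := by exact_mod_cast hq
  refine ⟨M, D, hM, fun T n u => ?_⟩
  have key : ∀ T : ℕ, ∃ u' : ℝ,
      Set.Icc u' (u' + 2 / b ^ (n + M * T)) ⊆ Set.Icc u (u + 2 / b ^ n) ∧
      ∀ ξ ∈ Set.Icc u' (u' + 2 / b ^ (n + M * T)),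
        (((M * T : ℕ) : ℝ) / (64 * k) ≤
            ∑ m ∈ Finset.Ico n (n + M * T), Real.cos (2 * π * (ξ * b ^ m))) ∧
        ∀ i < q, Irrational (Real.logb (b ^ k) |α i|) → ∀ h : ℕ, 1 ≤ h → h ≤ q →
        (‖∑ m ∈ Finset.Ico (tau |α i| b n) (tau |α i| b (n + M * T)), ee (h * (ξ * α i ^ m))‖ ≤
          ((tau |α i| b (n + M * T) - tau |α i| b n : ℕ) : ℝ) / q) ∧
        ∀ N, tau |α i| b n ≤ N → N ≤ tau |α i| b (n + M * T) →
        ‖∑ m ∈ Finset.Ico (tau |α i| b n) N, ee (h * (ξ * α i ^ m))‖ ≤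
          ((N - tau |α i| b n : ℕ) : ℝ) / q + D := by
    intro T
    induction T with
    | zero =>
      refine ⟨u, by simp, fun ξ _ => ⟨by simp, fun i _ _ h _ _ => ⟨by simp, fun N h1 h2 => ?_⟩⟩⟩
      have : N = tau |α i| b n := le_antisymm (by simpa using h2) h1
      rw [this]
      simp
    | succ T ih =>
      obtain ⟨u₁, hu₁, hξ₁⟩ := ih
      obtain ⟨u₂, hu₂, hξ₂⟩ := hG (n + M * T) u₁
      have e1 : n + M * (T + 1) = n + M * T + M := by ring
      rw [e1]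
      refine ⟨u₂, hu₂.trans hu₁, fun ξ hξ => ⟨?_, fun i hi hirr h h1 h2 => ?_⟩⟩
      · have g1 := (hξ₁ ξ (hu₂ hξ)).1
        have g2 := (hξ₂ ξ hξ).1
        rw [← Finset.sum_Ico_consecutive _ (Nat.le_add_right n (M * T))
          (Nat.le_add_right (n + M * T) M)]
        have g3 : ((M * (T + 1) : ℕ) : ℝ) / (64 * k) =
            ((M * T : ℕ) : ℝ) / (64 * k) + (M : ℝ) / (64 * k) := by
          rw [← add_div]
          push_cast
          ring
        rw [g3]
        exact add_le_add g1 g2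
      · obtain ⟨g1, g2⟩ := (hξ₁ ξ (hu₂ hξ)).2 i hi hirr h h1 h2
        have g3 := (hξ₂ ξ hξ).2 i hi hirr h h1 h2
        have m1 := tau_mono (hα i) hb (Nat.le_add_right n (M * T))
        have m2 := tau_mono (hα i) hb (Nat.le_add_right (n + M * T) M)
        constructor
        · rw [← Finset.sum_Ico_consecutive _ m1 m2]
          refine (norm_add_le _ _).trans ?_
          refine (add_le_add g1 g3).trans (le_of_eq ?_)
          rw [← add_div, ← Nat.cast_add]
          congr 2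
          omega
        · intro N hN1 hN2
          rcases le_total N (tau |α i| b (n + M * T)) with hN | hN
          · exact g2 N hN1 hN
          · rw [← Finset.sum_Ico_consecutive _ m1 hN]
            refine (norm_add_le _ _).trans ?_
            have g4 : ‖∑ m ∈ Finset.Ico (tau |α i| b (n + M * T)) N,
                ee (h * (ξ * α i ^ m))‖ ≤ D := by
              refine (norm_sum_le _ _).trans ?_
              simp_rw [norm_ee]
              rw [Finset.sum_const, Nat.card_Ico, nsmul_eq_mul, mul_one]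
              have := hD i hi (n + M * T)
              exact_mod_cast (by omega : N - tau |α i| b (n + M * T) ≤ D)
            refine add_le_add (g1.trans ?_) g4
            refine div_le_div_of_nonneg_right ?_ hq0.le
            exact_mod_cast (by omega : tau |α i| b (n + M * T) - tau |α i| b n ≤
              N - tau |α i| b n)
  obtain ⟨u', h1, h2⟩ := key T
  exact ⟨u', h1, fun ξ hξ => ⟨(h2 ξ hξ).1, fun i hi hirr h h3 h4 =>
    ((h2 ξ hξ).2 i hi hirr h h3 h4).2⟩⟩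

/-- A power of the base that is large enough. -/
theorem exists_k16 {b : ℝ} (hb : 1 < b) :
    ∃ k : ℕ, 1 ≤ k ∧ 16 ≤ b ^ k ∧ 2 ≤ b ^ k * (1 - 1 / b) := by
  have hb0 : 0 < b := by linarith
  have hc0 : 0 < 1 - 1 / b := by
    have : 1 / b < 1 := by
      rw [div_lt_one hb0]
      exact hb
    linarith
  obtain ⟨k, hk⟩ := pow_unbounded_of_one_lt (16 + 2 / (1 - 1 / b)) hb
  have h2 : 0 < 2 / (1 - 1 / b) := by positivity
  refine ⟨k, ?_, by linarith, ?_⟩
  · by_contra hcon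
    have : k = 0 := by omega
    rw [this, pow_zero] at hk
    linarith
  · have h3 : 2 / (1 - 1 / b) ≤ b ^ k := by linarith
    rw [div_le_iff₀ hc0] at h3
    exact h3

end Pool.Agent.H534R3.Rota
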