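import Pool.Agent.H534R3.YS

/-! # The reduction for two bases with rational ratio of the logarithms, final form -/

set_option autoImplicit false

open MeasureTheory Filter Topology
open scoped Real

namespace Pool.Agent.H534R3.Rota

open Pool.Agent.H534R3.UDist

/-- A common root of the absolute values. -/
theorem common_root (α β : ℝ) (hα : 1 < |α|) (hβ : 1 < |β|)
    (hr : ¬ Irrational (Real.log |α| / Real.log |β|)) :
    ∃ (θ : ℝ) (s r : ℕ), 1 < θ ∧ 1 ≤ s ∧ 1 ≤ r ∧ |α| = θ ^ s ∧ |β| = θ ^ r := by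
  have hla := Real.log_pos hα
  have hlb := Real.log_pos hβ
  rw [Irrational, not_not] at hr
  obtain ⟨x, hx⟩ := hr
  have hx0 : (0 : ℝ) < x := by
    rw [hx]
    positivity
  have hx0' : 0 < x := by exact_mod_cast hx0
  have hnum : 0 < x.num := Rat.num_pos.2 hx0'
  obtain ⟨s, hs⟩ : ∃ s : ℕ, x.num = s := ⟨x.num.toNat, by omega⟩
  have hs1 : 1 ≤ s := by omega
  set r := x.den with hr
  have hr1 : 1 ≤ r := x.den_pos
  have hr0 : (r : ℝ) ≠ 0 := by
    have : r ≠ 0 := by omega
    exact_mod_cast this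
  have hs0 : (s : ℝ) ≠ 0 := by
    have : s ≠ 0 := by omega
    exact_mod_cast this
  have hxe : (x : ℝ) = (s : ℝ) / r := by
    rw [Rat.cast_def, hs, hr]
    push_cast
    rfl
  have hlog : (r : ℝ) * Real.log |α| = s * Real.log |β| := by
    rw [hxe] at hx
    field_simp at hx
    linarith
  have hpow : |α| ^ r = |β| ^ s := by
    have h1 : Real.log (|α| ^ r) = Real.log (|β| ^ s) := by
      rw [Real.log_pow, Real.log_pow, hlog]
    exact Real.log_injOn_pos (Set.mem_Ioi.2 (by positivity)) (Set.mem_Ioi.2 (by positivity)) h1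
  set θ : ℝ := |α| ^ ((1 : ℝ) / s) with hθ
  have hθ1 : 1 < θ := Real.one_lt_rpow hα (by positivity)
  have hθs : θ ^ s = |α| := by
    rw [hθ, ← Real.rpow_natCast, ← Real.rpow_mul (by linarith), one_div_mul_cancel hs0,
      Real.rpow_one]
  refine ⟨θ, s, r, hθ1, hs1, hr1, hθs.symm, ?_⟩
  have h2 : (θ ^ r) ^ s = |β| ^ s := by
    rw [← hpow, ← hθs, ← pow_mul, ← pow_mul, mul_comm]
  exact ((pow_left_inj₀ (by positivity) (by positivity) (by omega)).1 h2).symm

theorem SS_zero_target (γ : ℝ) (h N : ℕ) : SS γ h 0 0 N = N := by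
  rw [SS]
  simp [ee_zero]

theorem reduce_rational (α β : ℝ) (hα : 1 < |α|) (hβ : 1 < |β|)
    (hr : ¬ Irrational (Real.log |α| / Real.log |β|)) (x0 : ℝ)
    (hx : UD (fun n => x0 * α ^ n)) (hx' : ¬ UD (fun n => x0 * β ^ n)) :
    ∃ G : (ℕ → ℕ) → ℝ, Continuous G ∧
      ∀ w, (UD (fun n => G w * α ^ n) ∧ ¬ UD (fun n => G w * β ^ n)) ↔
        ((∀ e, ∃ J, ∀ j, J ≤ j → ty j = true → e ≤ w j) ∧
          ¬ (∀ e, ∃ J, ∀ j, J ≤ j → ty j = false → e ≤ w j)) := by
  obtain ⟨θ, s, r, hθ, hs1, hr1, hαθ, hβθ⟩ := common_root α β hα hβ hr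
  obtain ⟨M, hM, hB, _⟩ := exists_k16 hθ
  -- the bad frequency
  obtain ⟨h0, hh0, hnt⟩ : ∃ h : ℕ, 1 ≤ h ∧
      ¬ Tendsto (fun N : ℕ => ‖SS β h x0 0 N‖ / (N : ℝ)) atTop (𝓝 0) := by
    by_contra hcon
    push Not at hcon
    refine hx' (ud_of_weyl _ fun h hh => ?_)
    simp_rw [SS_eq]
    exact hcon h hh
  obtain ⟨δ0, hδ0, hbad⟩ : ∃ δ0 : ℝ, 0 < δ0 ∧ ∀ K : ℕ, ∃ N, K ≤ N ∧ 0 < N ∧
      δ0 * N ≤ ‖SS β h0 x0 0 N‖ := by
    rw [Metric.tendsto_atTop] at hnt
    push Not at hnt
    obtain ⟨ε, hε, h1⟩ := hnt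
    refine ⟨ε, hε, fun K => ?_⟩
    obtain ⟨N, hN, h2⟩ := h1 (K + 1)
    have hN0 : 0 < N := by omega
    have hNr : (0 : ℝ) < N := by exact_mod_cast hN0
    refine ⟨N, by omega, hN0, ?_⟩
    rw [Real.dist_eq, sub_zero, abs_of_nonneg (by positivity), le_div_iff₀ hNr] at h2
    exact h2
  set γ : ℕ → ℝ := fun i => if i = 0 then α else β with hγ
  set ss : ℕ → ℕ := fun i => if i = 0 then s else r with hss
  set cc : ℕ → ℕ := fun i => if i = 0 then r else s with hcc
  have hs : ∀ g < 2, 1 ≤ ss g ∧ 1 ≤ cc g ∧ ss g * cc g = s * r ∧ |γ g| = θ ^ ss g := by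
    intro g _
    simp only [hγ, hss, hcc]
    split_ifs
    · exact ⟨hs1, hr1, rfl, hαθ⟩
    · exact ⟨hr1, hs1, Nat.mul_comm _ _, hβθ⟩
  set y : Bool → ℝ := fun t => if t = true then 0 else x0 with hy
  set gi : Bool → ℕ := fun t => if t = true then 0 else 1 with hgi
  have hgi2 : ∀ t, gi t < 2 := by
    intro t
    simp only [hgi]
    split_ifs <;> norm_num
  set δ : ℝ := min 1 (δ0 / 2) with hδ
  have hδpos : 0 < δ := lt_min one_pos (by positivity)
  have hgood : ∀ (t : Bool) (ν L K : ℕ), 1 ≤ L → ∃ T : ℕ, K ≤ ν + L * T ∧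
      δ * ((cc (gi t) * (ν + L * T) : ℕ) : ℝ) ≤
        ‖SS (γ (gi t)) h0 (y t) 0 (cc (gi t) * (ν + L * T))‖ := by
    intro t ν L K hL
    cases t
    · -- the target of the difference
      have e1 : γ (gi false) = β := by simp [hγ, hgi]
      have e2 : cc (gi false) = s := by simp [hcc, hgi]
      have e3 : y false = x0 := by simp [hy]
      rw [e1, e2, e3]
      obtain ⟨A, hA⟩ := exists_nat_ge (s * L / (δ0 / 2))
      obtain ⟨N, hN1, hN0, hN2⟩ := hbad (s * (ν + K + L) + A)
      have hdiv := Nat.div_add_mod N s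
      have hmod := Nat.mod_lt N (show 0 < s by omega)
      have hge : ν + K + L ≤ N / s := by
        rw [Nat.le_div_iff_mul_le (by omega)]
        have : (ν + K + L) * s = s * (ν + K + L) := Nat.mul_comm _ _
        omega
      set T := (N / s - ν) / L with hT
      have hTd : L * T + (N / s - ν) % L = N / s - ν := Nat.div_add_mod (N / s - ν) L
      have hTm := Nat.mod_lt (N / s - ν) (show 0 < L by omega)
      have hT1 : ν + L * T ≤ N / s := by omega
      have hT2 : N / s < ν + L * T + L := by omega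
      refine ⟨T, by omega, ?_⟩
      set N' := s * (ν + L * T) with hN'
      have hN'N : N' ≤ N := by
        have : N' ≤ s * (N / s) := Nat.mul_le_mul_left _ hT1
        omega
      have hNN' : N ≤ N' + s * L := by
        have h1 : s * (N / s + 1) ≤ s * (ν + L * T + L) := Nat.mul_le_mul_left _ (by omega)
        have h2 : s * (N / s + 1) = s * (N / s) + s := by ring
        have h3 : s * (ν + L * T + L) = N' + s * L := by
          rw [hN']
          ring
        omega
      have hsL : (s * L : ℝ) ≤ δ0 / 2 * N := by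
        have h1 : (A : ℝ) ≤ N := by exact_mod_cast (by omega : A ≤ N)
        have h2 := hA.trans h1
        rw [div_le_iff₀ (by positivity)] at h2
        linarith
      have h4 := SS_split β h0 x0 hN'N
      have h5 := SS_le β h0 x0 N' N
      have h6 : ((N - N' : ℕ) : ℝ) ≤ s * L := by exact_mod_cast (by omega : N - N' ≤ s * L)
      have h7 := norm_add_le (SS β h0 x0 0 N') (SS β h0 x0 N' N)
      rw [← h4] at h7
      have h8 : (N' : ℝ) ≤ N := by exact_mod_cast hN'N
      have h9 : δ * N' ≤ δ0 / 2 * N := by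
        refine mul_le_mul (min_le_right _ _) h8 (Nat.cast_nonneg _) (by positivity)
      linarith
    · -- the target zero
      have e3 : y true = 0 := by simp [hy]
      rw [e3]
      refine ⟨K, ?_, ?_⟩
      · have : 1 * K ≤ L * K := Nat.mul_le_mul_right _ hL
        omega
      · rw [SS_zero_target, Complex.norm_natCast]
        exact mul_le_of_le_one_left (Nat.cast_nonneg _) (min_le_left _ _)
  obtain ⟨G, hG, hG1, hG2⟩ := reduceY hθ hM hB hh0 γ ss cc (s * r) hs y gi hgi2 δ hδpos hgood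
  have hγ0 : γ 0 = α := by simp [hγ]
  have hγ1 : γ 1 = β := by simp [hγ]
  have hgt : gi true = 0 := by simp [hgi]
  have hgf : gi false = 1 := by simp [hgi]
  have hyf : y false = x0 := by simp [hy]
  have hnot : ∀ (w : ℕ → ℕ) (t : Bool), ¬ (∀ e, ∃ J, ∀ j, J ≤ j → ty j = t → e ≤ w j) →
      ∃ e, ∀ J, ∃ j, J ≤ j ∧ ty j = t ∧ w j ≤ e := by
    intro w t h
    push Not at h
    obtain ⟨e, he⟩ := h
    refine ⟨e, fun J => ?_⟩
    obtain ⟨j, h1, h2, h3⟩ := he J
    exact ⟨j, h1, h2, h3.le⟩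
  refine ⟨G, hG, fun w => ⟨?_, ?_⟩⟩
  · rintro ⟨h1, h2⟩
    have ht : ∀ e, ∃ J, ∀ j, J ≤ j → ty j = true → e ≤ w j := by
      by_contra hcon
      have := hG2 w true (hnot w true hcon)
      rw [hgt, hγ0] at this
      exact this h1
    refine ⟨ht, fun hf => h2 ?_⟩
    have := hG1 w 1 (by norm_num) (fun t => by
      cases t
      · exact Or.inr hf
      · exact Or.inr ht)
    rw [hγ1] at this
    exact this
  · rintro ⟨ht, hf⟩
    constructor
    · have := hG1 w 0 (by norm_num) (fun t => by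
        cases t
        · left
          intro h hh
          rw [hγ0, hyf]
          have h3 := ud_weyl _ hx h hh
          simp_rw [SS_eq] at h3
          exact h3
        · exact Or.inr ht)
      rw [hγ0] at this
      exact this
    · have := hG2 w false (hnot w false hf)
      rw [hgf, hγ1] at this
      exact this

end Pool.Agent.H534R3.Rota
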