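import Pool.Agent.H534R3.ST
import Pool.Agent.H534R3.WE

/-! # The stages for two bases with rational ratio of the logarithms -/

set_option autoImplicit false

open MeasureTheory Filter Topology
open scoped Real

namespace Pool.Agent.H534R3.Rota

open Pool.Agent.H534R3.UDist

/-- Weyl's sums. -/
noncomputable def SS (γ : ℝ) (h : ℕ) (ξ : ℝ) (a N : ℕ) : ℂ :=
  ∑ m ∈ Finset.Ico a N, ee (h * γ ^ m * ξ)

theorem SS_eq (γ : ℝ) (h : ℕ) (ξ : ℝ) (N : ℕ) :
    ∑ n ∈ Finset.range N, ee (h * (ξ * γ ^ n)) = SS γ h ξ 0 N := by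
  rw [SS, ← Finset.range_eq_Ico]
  refine Finset.sum_congr rfl fun n _ => ?_
  congr 1
  ring

theorem SS_split (γ : ℝ) (h : ℕ) (ξ : ℝ) {a N : ℕ} (haN : a ≤ N) :
    SS γ h ξ 0 N = SS γ h ξ 0 a + SS γ h ξ a N := by
  rw [SS, SS, SS, Finset.sum_Ico_consecutive _ (Nat.zero_le a) haN]

theorem SS_le (γ : ℝ) (h : ℕ) (ξ : ℝ) (a N : ℕ) : ‖SS γ h ξ a N‖ ≤ ((N - a : ℕ) : ℝ) := by
  rw [SS]
  refine (norm_sum_le _ _).trans ?_
  simp [norm_ee]

theorem DD_eq (W : ℕ → ℝ) (y0 γ : ℝ) (h a N : ℕ) (ξ : ℝ) :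
    DD W y0 γ h a N ξ = SS γ h ξ a N - (W h : ℂ) * SS γ h y0 a N := by
  rw [DD, SS, SS, Finset.sum_sub_distrib, Finset.mul_sum]

theorem exists_stagesY {θ : ℝ} (hθ : 1 < θ) {M : ℕ} (hM : 1 ≤ M) (hB : 16 ≤ θ ^ M) {h0 : ℕ}
    (hh0 : 1 ≤ h0) (γ : ℕ → ℝ) (s c : ℕ → ℕ) (S : ℕ)
    (hs : ∀ g < 2, 1 ≤ s g ∧ 1 ≤ c g ∧ s g * c g = S ∧ |γ g| = θ ^ s g)
    (y : Bool → ℝ) (gi : Bool → ℕ) (δ : ℝ)
    (hgood : ∀ (t : Bool) (ν L K : ℕ), 1 ≤ L → ∃ T : ℕ, K ≤ ν + L * T ∧
      δ * ((c (gi t) * (ν + L * T) : ℕ) : ℝ) ≤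
        ‖SS (γ (gi t)) h0 (y t) 0 (c (gi t) * (ν + L * T))‖) :
    ∃ (D : ℕ → ℕ) (st : (ℕ → ℕ) → ℕ → ℕ × ℝ),
      (∀ w w' j, (∀ i < j, w i = w' i) → st w j = st w' j) ∧
      (∀ w j, (j + 2) * ((st w j).1 + D j + D (j + 1) + 1) ≤ (st w (j + 1)).1) ∧
      (∀ w j, Set.Icc (st w (j + 1)).2 ((st w (j + 1)).2 + 2 / θ ^ (S * (st w (j + 1)).1)) ⊆
        Set.Icc (st w j).2 ((st w j).2 + 2 / θ ^ (S * (st w j).1))) ∧
      (∀ w j, δ * ((c (gi (ty j)) * (st w (j + 1)).1 : ℕ) : ℝ) ≤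
        ‖SS (γ (gi (ty j))) h0 (y (ty j)) 0 (c (gi (ty j)) * (st w (j + 1)).1)‖) ∧
      (∀ w j, ∀ ξ ∈ Set.Icc (st w (j + 1)).2 ((st w (j + 1)).2 + 2 / θ ^ (S * (st w (j + 1)).1)),
        ∀ g < 2, ∀ h : ℕ, 1 ≤ h → h ≤ j + 1 → ∀ N, c g * (st w j).1 ≤ N →
          N ≤ c g * (st w (j + 1)).1 →
          ‖DD (fun h => 1 / ((w j : ℝ) + 1) * WB θ M h0 h) (y (ty j)) (γ g) h
            (c g * (st w j).1) N ξ‖ ≤
            ((N - c g * (st w j).1 : ℕ) : ℝ) / (j + 1 : ℕ) + D j) := by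
  have hR := fun j : ℕ => imit_rep hθ hM hB hh0 γ s c S hs (j + 1) (by omega)
  choose L D hL hR using hR
  choose T hT1 hT2 using hgood
  have hR' : ∀ (j e T ν : ℕ) (u : ℝ), ∃ u' : ℝ,
      Set.Icc u' (u' + 2 / θ ^ (S * (ν + L j * T))) ⊆ Set.Icc u (u + 2 / θ ^ (S * ν)) ∧
      ∀ ξ ∈ Set.Icc u' (u' + 2 / θ ^ (S * (ν + L j * T))), ∀ g < 2, ∀ h : ℕ, 1 ≤ h → h ≤ j + 1 →
        ∀ N, c g * ν ≤ N → N ≤ c g * (ν + L j * T) →
        ‖DD (fun h => 1 / ((e : ℝ) + 1) * WB θ M h0 h) (y (ty j)) (γ g) h (c g * ν) N ξ‖ ≤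
          ((N - c g * ν : ℕ) : ℝ) / (j + 1 : ℕ) + D j := by
    intro j e T ν u
    refine hR j (1 / ((e : ℝ) + 1)) (y (ty j)) (by positivity) ?_ T ν u
    rw [div_le_one (by positivity)]
    have : (0 : ℝ) ≤ e := Nat.cast_nonneg e
    linarith
  choose uu hu1 hu2 using hR'
  set TT : ℕ → ℕ × ℝ → ℕ := fun j σ =>
    T (ty j) σ.1 (L j) ((j + 2) * (σ.1 + D j + D (j + 1) + 1)) (hL j) with hTT
  set nxt : ℕ → ℕ → ℕ × ℝ → ℕ × ℝ := fun j e σ =>
    (σ.1 + L j * TT j σ, uu j e (TT j σ) σ.1 σ.2) with hnxt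
  set st : (ℕ → ℕ) → ℕ → ℕ × ℝ := fun w j => Nat.rec (0, 0) (fun j σ => nxt j (w j) σ) j with hst
  have hst1 : ∀ w j, st w (j + 1) = nxt j (w j) (st w j) := fun w j => rfl
  refine ⟨D, st, ?_, ?_, ?_, ?_, ?_⟩
  · intro w w' j
    induction j with
    | zero => intro _; rfl
    | succ j ih =>
      intro h
      rw [hst1, hst1, ih fun i hi => h i (by omega), h j (by omega)]
  · intro w j
    rw [hst1]
    exact hT1 _ _ _ _ _
  · intro w j
    rw [hst1]
    exact hu1 _ _ _ _ _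
  · intro w j
    rw [hst1]
    exact hT2 _ _ _ _ _
  · intro w j ξ hξ g hg h hh1 hh2 N hN1 hN2
    rw [hst1] at hξ hN2
    exact hu2 _ _ _ _ _ ξ hξ g hg h hh1 hh2 N hN1 hN2

/-- A majorant of a bounded sequence. -/
theorem exists_major (a : ℕ → ℝ) (ha0 : ∀ n, 0 ≤ a n) (ha1 : ∀ n, a n ≤ 1) :
    ∃ b : ℕ → ℝ, (∀ K, 0 ≤ b K) ∧ (∀ K N, K ≤ N → a N ≤ b K) ∧
      ∀ ε K0, (∀ N, K0 ≤ N → a N ≤ ε) → ∀ K, K0 ≤ K → b K ≤ ε := by
  have hb : ∀ K, BddAbove (Set.range fun n => a (K + n)) := by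
    intro K
    refine ⟨1, ?_⟩
    rintro _ ⟨n, rfl⟩
    exact ha1 _
  refine ⟨fun K => ⨆ n, a (K + n), ?_, ?_, ?_⟩
  · intro K
    exact (ha0 (K + 0)).trans (le_ciSup (hb K) 0)
  · intro K N hKN
    obtain ⟨n, rfl⟩ := Nat.exists_eq_add_of_le hKN
    exact le_ciSup (hb K) n
  · intro ε K0 h K hK
    exact ciSup_le fun n => h _ (by omega)

theorem reduceY {θ : ℝ} (hθ : 1 < θ) {M : ℕ} (hM : 1 ≤ M) (hB : 16 ≤ θ ^ M) {h0 : ℕ}
    (hh0 : 1 ≤ h0) (γ : ℕ → ℝ) (s c : ℕ → ℕ) (S : ℕ)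
    (hs : ∀ g < 2, 1 ≤ s g ∧ 1 ≤ c g ∧ s g * c g = S ∧ |γ g| = θ ^ s g)
    (y : Bool → ℝ) (gi : Bool → ℕ) (hgi : ∀ t, gi t < 2) (δ : ℝ) (hδ : 0 < δ)
    (hgood : ∀ (t : Bool) (ν L K : ℕ), 1 ≤ L → ∃ T : ℕ, K ≤ ν + L * T ∧
      δ * ((c (gi t) * (ν + L * T) : ℕ) : ℝ) ≤
        ‖SS (γ (gi t)) h0 (y t) 0 (c (gi t) * (ν + L * T))‖) :
    ∃ G : (ℕ → ℕ) → ℝ, Continuous G ∧
      (∀ w, ∀ g < 2, (∀ t : Bool,
        (∀ h : ℕ, 1 ≤ h → Tendsto (fun N : ℕ => ‖SS (γ g) h (y t) 0 N‖ / (N : ℝ)) atTop (𝓝 0)) ∨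
        (∀ e, ∃ J, ∀ j, J ≤ j → ty j = t → e ≤ w j)) → UD (fun n => G w * γ g ^ n)) ∧
      (∀ w t, (∃ e, ∀ J, ∃ j, J ≤ j ∧ ty j = t ∧ w j ≤ e) → ¬ UD (fun n => G w * γ (gi t) ^ n)) := by
  have hθ0 : 0 < θ := by linarith
  have hS1 : 1 ≤ S := by
    obtain ⟨h1, h2, h3, _⟩ := hs 0 (by norm_num)
    rw [← h3]
    exact Nat.mul_pos h1 h2
  obtain ⟨D, st, hloc, hgrow, hnest, hbig, hdev⟩ :=
    exists_stagesY hθ hM hB hh0 γ s c S hs y gi δ hgood
  -- nested endpoints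
  have hends : ∀ y j, (st y j).2 ≤ (st y (j + 1)).2 ∧
      (st y (j + 1)).2 + 2 / θ ^ (S * (st y (j + 1)).1) ≤ (st y j).2 + 2 / θ ^ (S * (st y j).1) := by
    intro y j
    have h1 := hnest y j
    have h2 : (st y (j + 1)).2 ≤ (st y (j + 1)).2 + 2 / θ ^ (S * (st y (j + 1)).1) := by
      have : 0 < 2 / θ ^ (S * (st y (j + 1)).1) := by positivity
      linarith
    exact (Set.Icc_subset_Icc_iff h2).1 h1
  have hmono : ∀ y, Monotone fun j => (st y j).2 := fun y =>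
    monotone_nat_of_le_succ fun j => (hends y j).1
  have hanti : ∀ y, Antitone fun j => (st y j).2 + 2 / θ ^ (S * (st y j).1) := fun y =>
    antitone_nat_of_succ_le fun j => (hends y j).2
  have hcross : ∀ y i j, (st y i).2 ≤ (st y j).2 + 2 / θ ^ (S * (st y j).1) := by
    intro y i j
    have h1 : (st y i).2 ≤ (st y (max i j)).2 := hmono y (le_max_left i j)
    have h2 : (st y (max i j)).2 + 2 / θ ^ (S * (st y (max i j)).1) ≤
        (st y j).2 + 2 / θ ^ (S * (st y j).1) := hanti y (le_max_right i j)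
    have : 0 < 2 / θ ^ (S * (st y (max i j)).1) := by positivity
    linarith
  set G : (ℕ → ℕ) → ℝ := fun y => ⨆ j, (st y j).2 with hG
  have hbdd : ∀ y, BddAbove (Set.range fun j => (st y j).2) := by
    intro y
    refine ⟨(st y 0).2 + 2 / θ ^ (S * (st y 0).1), ?_⟩
    rintro _ ⟨j, rfl⟩
    exact hcross y j 0
  have hmem : ∀ y j, G y ∈ Set.Icc (st y j).2 ((st y j).2 + 2 / θ ^ (S * (st y j).1)) := by
    intro y j
    exact ⟨le_ciSup (hbdd y) j, ciSup_le fun i => hcross y i j⟩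
  have hgr1 : ∀ w j, (j + 2) * (st w j).1 + (j + 2) * D j + (j + 2) * D (j + 1) + (j + 2) ≤
      (st w (j + 1)).1 := by
    intro w j
    refine le_trans (le_of_eq ?_) (hgrow w j)
    ring
  have hlen : ∀ y j, j ≤ (st y j).1 := by
    intro y j
    induction j with
    | zero => exact Nat.zero_le _
    | succ j ih =>
      have h1 := hgr1 y j
      have h2 : 1 * (st y j).1 ≤ (j + 2) * (st y j).1 := Nat.mul_le_mul_right _ (by omega)
      omega
  refine ⟨G, ?_, ?_, ?_⟩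
  · -- continuity
    rw [continuous_iff_continuousAt]
    intro y
    rw [Metric.continuousAt_iff']
    intro ε hε
    obtain ⟨j, hj⟩ : ∃ j : ℕ, 2 / θ ^ j < ε := by
      obtain ⟨j, hj⟩ := pow_unbounded_of_one_lt (2 / ε) hθ
      refine ⟨j, ?_⟩
      rw [div_lt_iff₀ (by positivity)]
      rw [div_lt_iff₀ hε] at hj
      linarith
    have hev : ∀ᶠ y' in 𝓝 y, ∀ i ∈ Finset.range j, y' i = y i := by
      rw [Filter.eventually_all_finset]
      intro i _
      have h1 : ContinuousAt (fun y' : ℕ → ℕ => y' i) y := (continuous_apply i).continuousAt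
      exact h1.eventually (eventually_of_mem ((isOpen_discrete {y i}).mem_nhds rfl)
        (fun z hz => hz))
    filter_upwards [hev] with y' hy'
    have h1 : st y' j = st y j := hloc y' y j fun i hi => hy' i (Finset.mem_range.2 hi)
    have h2 := hmem y j
    have h3 := hmem y' j
    rw [h1] at h3
    have h4 : 2 / θ ^ (S * (st y j).1) ≤ 2 / θ ^ j := by
      refine div_le_div_of_nonneg_left (by norm_num) (by positivity) ?_
      refine pow_le_pow_right₀ hθ.le ((hlen y j).trans ?_)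
      exact Nat.le_mul_of_pos_left _ (by omega)
    rw [Real.dist_eq, abs_lt]
    constructor <;> linarith [h2.1, h2.2, h3.1, h3.2]
  · -- uniform distribution
    intro w g hg hyp
    obtain ⟨hs1, hc1, hsc, hγg⟩ := hs g hg
    refine ud_of_weyl _ fun h hh => ?_
    simp_rw [SS_eq]
    -- majorants
    have hmaj : ∀ t : Bool, ∃ b : ℕ → ℝ, (∀ K, 0 ≤ b K) ∧
        (∀ K N, K ≤ N → ‖SS (γ g) h (y t) 0 N‖ / (N : ℝ) ≤ b K) ∧
        ∀ ε K0, (∀ N, K0 ≤ N → ‖SS (γ g) h (y t) 0 N‖ / (N : ℝ) ≤ ε) → ∀ K, K0 ≤ K → b K ≤ ε := by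
      intro t
      refine exists_major _ (fun n => by positivity) (fun n => ?_)
      refine div_le_one_of_le₀ ?_ (Nat.cast_nonneg _)
      simpa using SS_le (γ g) h (y t) 0 n
    choose b hb0 hb1 hb2 using hmaj
    set ee' : ℕ → ℝ := fun j => min (1 / ((w j : ℝ) + 1)) (2 * b (ty j) (c g * (st w j).1)) with hee
    refine small_o (fun n => ‖SS (γ g) h (G w) 0 n‖) (fun j => c g * (st w j).1)
      (fun j => 2 * (1 / ((j : ℝ) + 1)) + ee' j) ?_ (h + 1) ?_ ?_ ?_ (fun n => norm_nonneg _)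
    · have h1 : Tendsto ee' atTop (𝓝 0) := by
        rw [Metric.tendsto_atTop]
        intro ε hε
        have hJ : ∀ t : Bool, ∃ J, ∀ j, J ≤ j → ty j = t → ee' j < ε := by
          intro t
          rcases hyp t with hA | hA
          · obtain ⟨K0, hK0⟩ := Metric.tendsto_atTop.1 (hA h hh) (ε / 4) (by positivity)
            refine ⟨K0, fun j hj hjt => ?_⟩
            have g1 := hb2 t (ε / 4) K0 (fun N hN => by
              have := hK0 N hN
              rw [Real.dist_eq, sub_zero] at this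
              exact (le_abs_self _).trans this.le) (c g * (st w j).1)
              (hj.trans ((hlen w j).trans (Nat.le_mul_of_pos_left _ (by omega))))
            have g2 : ee' j ≤ 2 * b (ty j) (c g * (st w j).1) := min_le_right _ _
            rw [hjt] at g2
            linarith
          · obtain ⟨e, he⟩ := exists_nat_gt (1 / ε)
            obtain ⟨J, hJ⟩ := hA e
            refine ⟨J, fun j hj hjt => ?_⟩
            have g1 : (e : ℝ) ≤ w j := by exact_mod_cast hJ j hj hjt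
            have g2 : ee' j ≤ 1 / ((w j : ℝ) + 1) := min_le_left _ _
            refine lt_of_le_of_lt g2 ?_
            rw [div_lt_iff₀ (by positivity)]
            rw [div_lt_iff₀ hε] at he
            nlinarith
        choose J hJ using hJ
        refine ⟨max (J true) (J false), fun j hj => ?_⟩
        have g0 : 0 ≤ ee' j := le_min (by positivity) (mul_nonneg (by norm_num) (hb0 _ _))
        rw [Real.dist_eq, sub_zero, abs_of_nonneg g0]
        cases ht : ty j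
        · exact hJ false j ((le_max_right _ _).trans hj) ht
        · exact hJ true j ((le_max_left _ _).trans hj) ht
      have h2 : Tendsto (fun j : ℕ => 1 / ((j : ℝ) + 1)) atTop (𝓝 0) :=
        tendsto_one_div_add_atTop_nhds_zero_nat
      simpa using (h2.const_mul 2).add h1
    · intro j hj
      have g1 := hgr1 w j
      have g2 : 2 * (st w j).1 ≤ (j + 2) * (st w j).1 := Nat.mul_le_mul_right _ (by omega)
      have g3 : 2 * (st w j).1 ≤ (st w (j + 1)).1 := by omega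
      calc 2 * (c g * (st w j).1) = c g * (2 * (st w j).1) := by ring
        _ ≤ c g * (st w (j + 1)).1 := Nat.mul_le_mul_left _ g3
    · intro j hj
      have := hlen w j
      exact Nat.mul_pos hc1 (by omega)
    · intro j hj n hn1 hn2
      have hdv := hdev w j (G w) (hmem w (j + 1)) g hg h hh (by omega) n hn1 hn2
      set a0 := c g * (st w j).1 with ha0
      have hW := WB_bounds hM hB h0 h
      have hp0 : 0 < 1 / ((w j : ℝ) + 1) := by positivity
      have hp1 : 1 / ((w j : ℝ) + 1) ≤ 1 := by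
        rw [div_le_one (by positivity)]
        have : (0 : ℝ) ≤ w j := Nat.cast_nonneg _
        linarith
      set p := 1 / ((w j : ℝ) + 1) with hp
      have hj0 : (0 : ℝ) < (j : ℝ) + 1 := by positivity
      have hDj : (D j : ℝ) ≤ 1 / ((j : ℝ) + 1) * n := by
        rw [one_div_mul_eq_div, le_div_iff₀ hj0]
        obtain ⟨j', rfl⟩ : ∃ j', j = j' + 1 := ⟨j - 1, by omega⟩
        have g1 := hgr1 w j'
        have g2 : (st w (j' + 1)).1 ≤ a0 := Nat.le_mul_of_pos_left _ (by omega)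
        have g3 : D (j' + 1) * (j' + 1 + 1) ≤ n := by
          have : D (j' + 1) * (j' + 1 + 1) = (j' + 2) * D (j' + 1) := by ring
          omega
        exact_mod_cast g3
      have hn0 : (0 : ℝ) ≤ n := Nat.cast_nonneg n
      have ha0n : (a0 : ℝ) ≤ n := by exact_mod_cast hn1
      have h4 : ((n - a0 : ℕ) : ℝ) / ((j + 1 : ℕ) : ℝ) ≤ 1 / ((j : ℝ) + 1) * n := by
        rw [one_div_mul_eq_div]
        push_cast
        refine div_le_div_of_nonneg_right ?_ (by positivity)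
        exact_mod_cast (Nat.sub_le n a0)
      have hna : ((n - a0 : ℕ) : ℝ) ≤ n := by exact_mod_cast (Nat.sub_le n a0)
      have hSy1 : ‖SS (γ g) h (y (ty j)) a0 n‖ ≤ n := (SS_le _ _ _ _ _).trans hna
      have hSy2 : ‖SS (γ g) h (y (ty j)) a0 n‖ ≤ 2 * b (ty j) a0 * n := by
        have e1 := SS_split (γ g) h (y (ty j)) hn1
        have e2 : SS (γ g) h (y (ty j)) a0 n =
            SS (γ g) h (y (ty j)) 0 n - SS (γ g) h (y (ty j)) 0 a0 := by
          rw [e1]
          ring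
        have key : ∀ N, a0 ≤ N → ‖SS (γ g) h (y (ty j)) 0 N‖ ≤ b (ty j) a0 * N := by
          intro N hN
          rcases Nat.eq_zero_or_pos N with h0' | h0'
          · rw [h0']
            simp [SS]
          · have hNr : (0 : ℝ) < N := by exact_mod_cast h0'
            have := hb1 (ty j) a0 N hN
            rwa [div_le_iff₀ hNr] at this
        rw [e2]
        refine (norm_sub_le _ _).trans ?_
        have k1 := key n hn1
        have k2 := key a0 le_rfl
        have k3 : b (ty j) a0 * a0 ≤ b (ty j) a0 * n :=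
          mul_le_mul_of_nonneg_left ha0n (hb0 _ _)
        linarith
      have hthird : ‖((p * WB θ M h0 h : ℝ) : ℂ) * SS (γ g) h (y (ty j)) a0 n‖ ≤ ee' j * n := by
        rw [norm_mul, Complex.norm_real, Real.norm_eq_abs, abs_of_nonneg
          (mul_nonneg hp0.le hW.1)]
        have e1 : p * WB θ M h0 h ≤ p := mul_le_of_le_one_right hp0.le hW.2
        have e0 : 0 ≤ ‖SS (γ g) h (y (ty j)) a0 n‖ := norm_nonneg _
        have e2 : p * WB θ M h0 h * ‖SS (γ g) h (y (ty j)) a0 n‖ ≤ p * n :=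
          mul_le_mul e1 hSy1 e0 hp0.le
        have e3 : p * WB θ M h0 h * ‖SS (γ g) h (y (ty j)) a0 n‖ ≤ 1 * (2 * b (ty j) a0 * n) :=
          mul_le_mul (e1.trans hp1) hSy2 e0 zero_le_one
        simp only [hee]
        rcases min_choice (1 / ((w j : ℝ) + 1)) (2 * b (ty j) (c g * (st w j).1)) with hm | hm
        · rw [hm]
          exact e2
        · rw [hm]
          rw [one_mul] at e3
          exact e3
      have hSξ : SS (γ g) h (G w) a0 n = DD (fun h => p * WB θ M h0 h) (y (ty j)) (γ g) h a0 n (G w) +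
          ((p * WB θ M h0 h : ℝ) : ℂ) * SS (γ g) h (y (ty j)) a0 n := by
        rw [DD_eq]
        ring
      rw [SS_split (γ g) h (G w) hn1]
      refine (norm_add_le _ _).trans (add_le_add le_rfl ?_)
      rw [hSξ]
      refine (norm_add_le _ _).trans ?_
      rw [add_mul]
      linarith
  · -- failure of uniform distribution
    rintro w t ⟨e, he⟩ hud
    obtain ⟨hs1, hc1, hsc, hγg⟩ := hs (gi t) (hgi t)
    have hlim := ud_weyl _ hud h0 hh0
    simp_rw [SS_eq] at hlim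
    have hω := WB_pos hM hB h0 hh0
    set ω := WB θ M h0 h0 with hωd
    have hW := WB_bounds hM hB h0 h0
    have he0 : (0 : ℝ) ≤ e := Nat.cast_nonneg e
    set τ : ℝ := ω * δ / ((e : ℝ) + 1) with hτ
    have hτ0 : 0 < τ := by positivity
    obtain ⟨N₀, hN₀⟩ := Metric.tendsto_atTop.1 hlim (τ / 4) (by positivity)
    obtain ⟨J1, hJ1⟩ := exists_nat_gt (6 / τ)
    obtain ⟨j, hj, hjt, hje⟩ := he (N₀ + h0 + J1 + 1)
    have hdv := hdev w j (G w) (hmem w (j + 1)) (gi t) (hgi t) h0 hh0 (by omega)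
      (c (gi t) * (st w (j + 1)).1) (Nat.mul_le_mul_left _ (by
        have g1 := hgr1 w j
        have g2 : 1 * (st w j).1 ≤ (j + 2) * (st w j).1 := Nat.mul_le_mul_right _ (by omega)
        omega)) le_rfl
    have hbg := hbig w j
    rw [hjt] at hdv hbg
    set a := c (gi t) * (st w j).1 with ha
    set N := c (gi t) * (st w (j + 1)).1 with hN
    have hNbig : (j + 1) * (a + D j) ≤ N := by
      have g1 := hgr1 w j
      have g2 : c (gi t) * ((j + 2) * (st w j).1 + (j + 2) * D j) ≤ N :=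
        Nat.mul_le_mul_left _ (by omega)
      have g3 : (j + 1) * (a + D j) ≤ c (gi t) * ((j + 2) * (st w j).1 + (j + 2) * D j) := by
        have f1 : (j + 1) * (a + D j) ≤ (j + 2) * (a + c (gi t) * D j) :=
          Nat.mul_le_mul (by omega) (Nat.add_le_add_left (Nat.le_mul_of_pos_left _ (by omega)) _)
        refine f1.trans (le_of_eq ?_)
        rw [ha]
        ring
      exact g3.trans g2
    have hNge : N₀ ≤ N := by
      have g1 := hlen w (j + 1)
      have g2 : (st w (j + 1)).1 ≤ N := Nat.le_mul_of_pos_left _ (by omega)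
      omega
    have hNpos : 0 < N := by
      have g1 := hlen w (j + 1)
      have g2 : (st w (j + 1)).1 ≤ N := Nat.le_mul_of_pos_left _ (by omega)
      omega
    have haN : a ≤ N := by
      have : 1 * (a + D j) ≤ (j + 1) * (a + D j) := Nat.mul_le_mul_right _ (by omega)
      omega
    have hNr : (0 : ℝ) < N := by exact_mod_cast hNpos
    have hup : ‖SS (γ (gi t)) h0 (G w) 0 N‖ ≤ τ / 4 * N := by
      have h3 := hN₀ N hNge
      rw [Real.dist_eq, sub_zero, abs_of_nonneg (by positivity), div_lt_iff₀ hNr] at h3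
      exact h3.le
    have hp0 : 0 < 1 / ((w j : ℝ) + 1) := by positivity
    have hp1 : 1 / ((w j : ℝ) + 1) ≤ 1 := by
      rw [div_le_one (by positivity)]
      have : (0 : ℝ) ≤ w j := Nat.cast_nonneg _
      linarith
    have hpe : 1 / ((e : ℝ) + 1) ≤ 1 / ((w j : ℝ) + 1) := by
      refine one_div_le_one_div_of_le (by positivity) ?_
      have : (w j : ℝ) ≤ e := by exact_mod_cast hje
      linarith
    set p := 1 / ((w j : ℝ) + 1) with hp
    have hj0 : (0 : ℝ) < (j : ℝ) + 1 := by positivity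
    have e1 : SS (γ (gi t)) h0 (G w) 0 N = SS (γ (gi t)) h0 (G w) 0 a +
        (DD (fun h => p * WB θ M h0 h) (y t) (γ (gi t)) h0 a N (G w) +
          ((p * ω : ℝ) : ℂ) * SS (γ (gi t)) h0 (y t) a N) := by
      rw [SS_split (γ (gi t)) h0 (G w) haN, DD_eq]
      ring
    have e2 : ‖((p * ω : ℝ) : ℂ) * SS (γ (gi t)) h0 (y t) a N‖ =
        p * ω * ‖SS (γ (gi t)) h0 (y t) a N‖ := by
      rw [norm_mul, Complex.norm_real, Real.norm_eq_abs, abs_of_nonneg (by positivity)]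
    have e3 : δ * N - a ≤ ‖SS (γ (gi t)) h0 (y t) a N‖ := by
      have f1 := SS_split (γ (gi t)) h0 (y t) haN
      have f2 := norm_add_le (SS (γ (gi t)) h0 (y t) 0 a) (SS (γ (gi t)) h0 (y t) a N)
      rw [← f1] at f2
      have f3 := SS_le (γ (gi t)) h0 (y t) 0 a
      rw [Nat.sub_zero] at f3
      linarith
    have e4 : ‖((p * ω : ℝ) : ℂ) * SS (γ (gi t)) h0 (y t) a N‖ ≤
        ‖SS (γ (gi t)) h0 (G w) 0 N‖ + ‖SS (γ (gi t)) h0 (G w) 0 a‖ +
        ‖DD (fun h => p * WB θ M h0 h) (y t) (γ (gi t)) h0 a N (G w)‖ := by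
      have f1 : ((p * ω : ℝ) : ℂ) * SS (γ (gi t)) h0 (y t) a N = SS (γ (gi t)) h0 (G w) 0 N -
          SS (γ (gi t)) h0 (G w) 0 a -
          DD (fun h => p * WB θ M h0 h) (y t) (γ (gi t)) h0 a N (G w) := by
        rw [e1]
        ring
      rw [f1]
      refine (norm_sub_le _ _).trans (add_le_add (norm_sub_le _ _) le_rfl)
    have e5 : ‖SS (γ (gi t)) h0 (G w) 0 a‖ ≤ a := by
      simpa using SS_le (γ (gi t)) h0 (G w) 0 a
    have e6 : τ * N - a ≤ p * ω * ‖SS (γ (gi t)) h0 (y t) a N‖ := by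
      have f1 : p * ω * (δ * N - a) ≤ p * ω * ‖SS (γ (gi t)) h0 (y t) a N‖ :=
        mul_le_mul_of_nonneg_left e3 (by positivity)
      have f2 : p * ω ≤ 1 := by nlinarith [hW.2]
      have f3 : τ * N ≤ p * ω * (δ * N) := by
        have : τ = 1 / ((e : ℝ) + 1) * ω * δ := by
          rw [hτ]
          ring
        rw [this]
        have f4 : 1 / ((e : ℝ) + 1) * ω * (δ * N) ≤ p * ω * (δ * N) :=
          mul_le_mul_of_nonneg_right (mul_le_mul_of_nonneg_right hpe hω.le) (by positivity)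
        linarith
      have f5 : p * ω * a ≤ a := mul_le_of_le_one_left (Nat.cast_nonneg _) f2
      linarith
    have hNbr : ((j : ℝ) + 1) * (a + D j) ≤ N := by exact_mod_cast hNbig
    have hJr : 6 / τ < (j : ℝ) + 1 := by
      have : (J1 : ℝ) ≤ j := by exact_mod_cast (by omega : J1 ≤ j)
      linarith
    rw [div_lt_iff₀ hτ0] at hJr
    have e7 : (a : ℝ) + D j ≤ τ / 6 * N := by
      have f1 : ((a : ℝ) + D j) * 6 ≤ (a + D j) * (((j : ℝ) + 1) * τ) :=
        mul_le_mul_of_nonneg_left hJr.le (by positivity)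
      have f2 : (a + D j) * (((j : ℝ) + 1) * τ) = τ * (((j : ℝ) + 1) * (a + D j)) := by ring
      have f3 : τ * (((j : ℝ) + 1) * (a + D j)) ≤ τ * N := mul_le_mul_of_nonneg_left hNbr hτ0.le
      linarith
    have e8 : ((N - a : ℕ) : ℝ) / ((j + 1 : ℕ) : ℝ) ≤ τ / 6 * N := by
      push_cast
      rw [div_le_iff₀ hj0]
      have f1 : ((N - a : ℕ) : ℝ) ≤ N := by exact_mod_cast (Nat.sub_le N a)
      have f2 : (N : ℝ) * 6 ≤ N * (((j : ℝ) + 1) * τ) := mul_le_mul_of_nonneg_left hJr.le hNr.le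
      nlinarith
    rw [e2] at e4
    have hD0 : (0 : ℝ) ≤ D j := Nat.cast_nonneg _
    have hfin : 0 < τ * N := by positivity
    linarith

end Pool.Agent.H534R3.Rota
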